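import Pool.Agent.MP_7bf9b2_an.Defs

section

/-!
Ambient model: definitions and basic statements.
`E` is a Euclidean space, `G.M₀ ⊆ E` the manifold, `G.r` a retraction of a neighbourhood,
`Λ : E × E × ℝ → ℝ` a Lagrangian (position, velocity, time).
-/

namespace Pool.Agent.MP_7bf9b2_an

open scoped Topology
open Set Filter MeasureTheory Metric

set_option linter.unusedSectionVars false
set_option maxSynthPendingDepth 3

/-- position, velocity, time -/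
abbrev PP (E : Type) : Type := E × E × ℝ

/-- Lipschitz on `[s, t]`. -/
def Cv {F : Type} [NormedAddCommGroup F] (γ : ℝ → F) (s t : ℝ) : Prop :=
  ∃ C : NNReal, LipschitzOnWith C γ (Icc s t)

variable {E : Type} [NormedAddCommGroup E] [InnerProductSpace ℝ E] [FiniteDimensional ℝ E]

variable (E) in
structure Geo where
  M₀ : Set E
  r : E → E
  r0 : ℝ
  r0_pos : 0 < r0
  r0_le : r0 ≤ 1 / 4
  cpt : IsCompact M₀
  conn : IsConnected M₀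
  smooth : ContDiffOn ℝ 3 r (thickening (3 * r0) M₀)
  maps : ∀ z ∈ thickening (3 * r0) M₀, r z ∈ M₀
  fix : ∀ z ∈ M₀, r z = z

def Geo.U (G : Geo E) : Set E := thickening (3 * G.r0) G.M₀
def Geo.U1 (G : Geo E) : Set E := cthickening (2 * G.r0) G.M₀
def Geo.Om (G : Geo E) : Set (PP E) := {p | p.1 ∈ G.U}
/-- tangent vectors to `M₀` (with a time) -/
def Geo.TM (G : Geo E) : Set (PP E) := {p | p.1 ∈ G.M₀ ∧ fderiv ℝ G.r p.1 p.2.1 = p.2.1}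

namespace Geo
variable (G : Geo E)
theorem isOpen_U : IsOpen G.U := isOpen_thickening
theorem isOpen_Om : IsOpen G.Om := G.isOpen_U.preimage continuous_fst
theorem isCompact_U1 : IsCompact G.U1 := by
  have : ProperSpace E := FiniteDimensional.proper_real E
  exact G.cpt.cthickening
theorem M_sub_U1 : G.M₀ ⊆ G.U1 := self_subset_cthickening _
theorem U1_sub_U : G.U1 ⊆ G.U :=
  cthickening_subset_thickening' (by linarith [G.r0_pos]) (by linarith [G.r0_pos]) _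
theorem M_sub_U : G.M₀ ⊆ G.U := G.M_sub_U1.trans G.U1_sub_U
theorem mem_U1 {x z : E} (hx : x ∈ G.M₀) (h : ‖z - x‖ ≤ 2 * G.r0) : z ∈ G.U1 :=
  mem_cthickening_of_dist_le z x _ _ hx (by rwa [dist_eq_norm])
theorem add_mem_U1 {x w : E} (hx : x ∈ G.M₀) (h : ‖w‖ ≤ 2 * G.r0) : x + w ∈ G.U1 :=
  G.mem_U1 hx (by simpa using h)
theorem smoothU : ContDiffOn ℝ 3 G.r G.U := G.smooth
theorem mapsU {z : E} (hz : z ∈ G.U) : G.r z ∈ G.M₀ := G.maps z hz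
end Geo

noncomputable def iX : E →L[ℝ] PP E := ContinuousLinearMap.inl ℝ E (E × ℝ)
noncomputable def iV : E →L[ℝ] PP E :=
  (ContinuousLinearMap.inr ℝ E (E × ℝ)).comp (ContinuousLinearMap.inl ℝ E ℝ)
@[simp] theorem iX_apply (w : E) : iX w = (w, 0, 0) := rfl
@[simp] theorem iV_apply (w : E) : iV w = (0, w, 0) := rfl

/-- second derivative -/
noncomputable def D2 (Λ : PP E → ℝ) (p : PP E) : PP E →L[ℝ] PP E →L[ℝ] ℝ :=
  fderiv ℝ (fderiv ℝ Λ) p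
/-- derivative in the position -/
noncomputable def px (Λ : PP E → ℝ) (p : PP E) : E →L[ℝ] ℝ := (fderiv ℝ Λ p).comp iX
/-- derivative in the velocity -/
noncomputable def pv (Λ : PP E → ℝ) (p : PP E) : E →L[ℝ] ℝ := (fderiv ℝ Λ p).comp iV
/-- lift of a curve -/
noncomputable def ph (y : ℝ → E) (t : ℝ) : PP E := (y t, deriv y t, t)
/-- momentum along a curve -/
noncomputable def mom (Λ : PP E → ℝ) (y : ℝ → E) (t : ℝ) : E →L[ℝ] ℝ := pv Λ (ph y t)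
/-- action -/
noncomputable def act (Λ : PP E → ℝ) (γ : ℝ → E) (a b : ℝ) : ℝ := ∫ τ in a..b, Λ (ph γ τ)
/-- integer time shift -/
def sh (y : ℝ → E) (k : ℤ) : ℝ → E := fun t => y (t + k)

structure Lag (G : Geo E) (Λ : PP E → ℝ) : Prop where
  smooth : ContDiffOn ℝ 2 Λ G.Om
  per : ∀ (z v : E) (t : ℝ), Λ (z, v, t + 1) = Λ (z, v, t)
  ret : ∀ z ∈ G.U, ∀ (v : E) (t : ℝ),
    Λ (G.r z, fderiv ℝ G.r z v, t) + ‖z - G.r z‖ ^ 2 / 2 ≤ Λ (z, v, t)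
  pos : ∀ p : PP E, p.1 ∈ G.U → ∀ w : E, w ≠ 0 → 0 < D2 Λ p (iV w) (iV w)
  sup : ∀ A : ℝ, ∃ C : ℝ, ∀ p : PP E, p.1 ∈ G.U1 → A * ‖p.2.1‖ - C ≤ Λ p

/-- bounds on speeds `≤ R + 1` -/
structure Bd (G : Geo E) (Λ : PP E → ℝ) (R κ K : ℝ) : Prop where
  R0 : 0 ≤ R
  k0 : 0 < κ
  K1 : 1 ≤ K
  b0 : ∀ p : PP E, p.1 ∈ G.U1 → ‖p.2.1‖ ≤ R + 1 → |Λ p| ≤ K
  b1 : ∀ p : PP E, p.1 ∈ G.U1 → ‖p.2.1‖ ≤ R + 1 → ‖fderiv ℝ Λ p‖ ≤ K
  b2 : ∀ p : PP E, p.1 ∈ G.U1 → ‖p.2.1‖ ≤ R + 1 → ‖D2 Λ p‖ ≤ K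
  cvx : ∀ p : PP E, p.1 ∈ G.U1 → ‖p.2.1‖ ≤ R + 1 → ∀ w : E, κ * ‖w‖ ^ 2 ≤ D2 Λ p (iV w) (iV w)

/-- `C²`-closeness with weight `1 + ‖v‖` over `U1` -/
structure Close (G : Geo E) (σ : ℝ) (Λ Λ' : PP E → ℝ) : Prop where
  c0 : ∀ p : PP E, p.1 ∈ G.U1 → |Λ p - Λ' p| ≤ σ * (1 + ‖p.2.1‖)
  c1 : ∀ p : PP E, p.1 ∈ G.U1 → ‖fderiv ℝ Λ p - fderiv ℝ Λ' p‖ ≤ σ * (1 + ‖p.2.1‖)
  c2 : ∀ p : PP E, p.1 ∈ G.U1 → ‖D2 Λ p - D2 Λ' p‖ ≤ σ * (1 + ‖p.2.1‖)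

namespace Close
variable {G : Geo E} {σ σ' : ℝ} {A B C : PP E → ℝ}
theorem mono (h : Close G σ A B) (hs : σ ≤ σ') : Close G σ' A B :=
  ⟨fun p hp => (h.c0 p hp).trans (by gcongr), fun p hp => (h.c1 p hp).trans (by gcongr),
    fun p hp => (h.c2 p hp).trans (by gcongr)⟩
theorem refl (hs : 0 ≤ σ) : Close G σ A A :=
  ⟨fun p _ => by rw [sub_self, abs_zero]; positivity,
    fun p _ => by rw [sub_self, norm_zero]; positivity,
    fun p _ => by rw [sub_self, norm_zero]; positivity⟩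
theorem symm (h : Close G σ A B) : Close G σ B A :=
  ⟨fun p hp => by rw [abs_sub_comm]; exact h.c0 p hp, fun p hp => by
    rw [norm_sub_rev]; exact h.c1 p hp, fun p hp => by rw [norm_sub_rev]; exact h.c2 p hp⟩
theorem trans (h : Close G σ A B) (h' : Close G σ' B C) : Close G (σ + σ') A C :=
  ⟨fun p hp => by
    have := abs_sub_le (A p) (B p) (C p); linarith [h.c0 p hp, h'.c0 p hp],
   fun p hp => by
    have := norm_sub_le_norm_sub_add_norm_sub (fderiv ℝ A p) (fderiv ℝ B p) (fderiv ℝ C p)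
    linarith [h.c1 p hp, h'.c1 p hp],
   fun p hp => by
    have := norm_sub_le_norm_sub_add_norm_sub (D2 A p) (D2 B p) (D2 C p)
    linarith [h.c2 p hp, h'.c2 p hp]⟩
end Close

/-- `C²` curves in `M₀` -/
structure Cu (G : Geo E) (y : ℝ → E) : Prop where
  c2 : ContDiff ℝ 2 y
  mem : ∀ t, y t ∈ G.M₀

/-- Euler-Lagrange curves -/
structure ELc (G : Geo E) (Λ : PP E → ℝ) (y : ℝ → E) : Prop where
  cu : Cu G y
  el : ∀ t, HasDerivAt (mom Λ y) (px Λ (ph y t)) t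

/-- there is a Lipschitz curve in `U1` from `x` at time `s` to `z` at time `t` of action `≤ A` -/
def Path (G : Geo E) (Λ : PP E → ℝ) (x : E) (s : ℝ) (z : E) (t A : ℝ) : Prop :=
  s ≤ t ∧ ∃ γ : ℝ → E, Cv γ s t ∧ (∀ τ ∈ Icc s t, γ τ ∈ G.U1) ∧ γ s = x ∧ γ t = z ∧
    act Λ γ s t ≤ A

theorem Path.mono {G : Geo E} {Λ : PP E → ℝ} {x z : E} {s t A B : ℝ}
    (h : Path G Λ x s z t A) (hAB : A ≤ B) : Path G Λ x s z t B := by
  obtain ⟨h1, γ, h2, h3, h4, h5, h6⟩ := h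
  exact ⟨h1, γ, h2, h3, h4, h5, h6.trans hAB⟩

/-- a complete continuous Euler-Lagrange flow: `Y p` is the orbit through `p` at time `p.2.2` -/
structure Fl (G : Geo E) (Λ : PP E → ℝ) (Y : PP E → ℝ → E) : Prop where
  el : ∀ p ∈ G.TM, ELc G Λ (Y p)
  init : ∀ p ∈ G.TM, ph (Y p) p.2.2 = p
  cont : ContinuousOn (fun q : PP E × ℝ => ph (Y q.1) q.2) (G.TM ×ˢ univ)
  grp : ∀ p ∈ G.TM, ∀ t, Y (ph (Y p) t) = Y p
  per : ∀ (x v : E) (s : ℝ), (x, v, s) ∈ G.TM → ∀ t, Y (x, v, s + 1) (t + 1) = Y (x, v, s) t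

def Orb (G : Geo E) (Y : PP E → ℝ → E) (y : ℝ → E) : Prop := ∃ p ∈ G.TM, y = Y p

/-- loops of integer period `n` have action `≥ -α n` -/
def Low (G : Geo E) (Λ : PP E → ℝ) (α : ℝ) : Prop :=
  ∀ (n : ℕ) (x : E) (s A : ℝ), Path G Λ x s x (s + n) A → 0 ≤ A + α * n

/-- `as l` bounds the action of loops of period `l` at level `β` from below -/
def LB (G : Geo E) (Λ : PP E → ℝ) (β : ℝ) (as : ℕ → ℝ) : Prop :=
  ∀ (l : ℕ) (x : E) (s A : ℝ), Path G Λ x s x (s + l) A → as l ≤ A + β * l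

/-- periodic minimizer of period `n` -/
structure PMin (G : Geo E) (Λ : PP E → ℝ) (Γ : ℝ → E) (n : ℕ) : Prop where
  el : ELc G Λ Γ
  per : Function.Periodic Γ (n : ℝ)
  min : ∀ (x : E) (s A : ℝ), Path G Λ x s x (s + n) A → act Λ Γ 0 n ≤ A

structure Static (G : Geo E) (Λ : PP E → ℝ) (α : ℝ) (y : ℝ → E) : Prop where
  el : ELc G Λ y
  st : ∀ (s t : ℝ) (k : ℤ) (A : ℝ), Path G Λ (y s) s (y t) (t + k) A → act Λ y s t ≤ A + α * k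

def Spd (R : ℝ) (y : ℝ → E) : Prop := ∀ t, ‖deriv y t‖ ≤ R
def Acc (A : ℝ) (y : ℝ → E) : Prop := ∀ t, ‖deriv (deriv y) t‖ ≤ A
def Slow (R₀ T₀ : ℝ) (y : ℝ → E) : Prop := ∀ t, ∃ s ∈ Icc (t - T₀) t, ‖deriv y s‖ ≤ R₀

/-- distance from `z` to the strands of `Γ` at time `t` -/
noncomputable def dd (Γ : ℝ → E) (z : E) (t : ℝ) : ℝ :=
  infDist z (range fun i : ℤ => Γ (t + i))
noncomputable def gg (Γ : ℝ → E) (ρ : ℝ) (y : ℝ → E) (t : ℝ) : ℝ := min (dd Γ (y t) t) ρ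
noncomputable def DD (Γ : ℝ → E) (ρ : ℝ) (y : ℝ → E) (r : ℤ) : ℝ :=
  ∫ t in (r : ℝ)..(r + 1), gg Γ ρ y t ^ 2
/-- distinct strands are `δ` apart -/
def Gap (Γ : ℝ → E) (n : ℕ) (δ : ℝ) : Prop :=
  ∀ (t : ℝ) (i : ℤ), ¬ (n : ℤ) ∣ i → δ ≤ ‖Γ (t + i) - Γ t‖
/-- on `[r, r+1]` the nearest strand is `Γ` on `[j, j+1]` -/
def On (y Γ : ℝ → E) (ρ : ℝ) (r j : ℤ) : Prop :=
  ∀ θ ∈ Icc (0 : ℝ) 1, ‖y (r + θ) - Γ (j + θ)‖ ≤ gg Γ ρ y (r + θ)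

/-- time periodic `C²` functions on `E × ℝ` with `C²` norm `≤ ε` -/
structure C2Bd (ε : ℝ) (φ : E × ℝ → ℝ) : Prop where
  c2 : ContDiff ℝ 2 φ
  per : ∀ (x : E) (t : ℝ), φ (x, t + 1) = φ (x, t)
  bd : ∀ k : ℕ, k ≤ 2 → ∀ q, ‖iteratedFDeriv ℝ k φ q‖ ≤ ε

noncomputable def addP (G : Geo E) (Λ : PP E → ℝ) (φ : E × ℝ → ℝ) : PP E → ℝ :=
  fun p => Λ p + φ (G.r p.1, p.2.2)

variable (E)

/-! ### Basic statements -/

structure CurStmt : Prop where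
  ae : ∀ {F : Type} [NormedAddCommGroup F] [NormedSpace ℝ F] [FiniteDimensional ℝ F]
    {γ : ℝ → F} {s t : ℝ} {C : NNReal}, LipschitzOnWith C γ (Icc s t) →
    ∀ᵐ τ, τ ∈ Icc s t → DifferentiableAt ℝ γ τ ∧ ‖deriv γ τ‖ ≤ C
  ftc : ∀ {F : Type} [NormedAddCommGroup F] [NormedSpace ℝ F] [FiniteDimensional ℝ F]
    {γ : ℝ → F} {s t : ℝ}, s ≤ t → Cv γ s t →
    IntervalIntegrable (deriv γ) volume s t ∧ ∫ τ in s..t, deriv γ τ = γ t - γ s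
  c1 : ∀ {F : Type} [NormedAddCommGroup F] [NormedSpace ℝ F] {γ : ℝ → F} (s t : ℝ),
    ContDiff ℝ 1 γ → Cv γ s t
  intF : ∀ {γ : ℝ → E} {s t : ℝ} {F : PP E → ℝ} {S : Set E}, s ≤ t → Cv γ s t →
    ContinuousOn F {p | p.1 ∈ S} → (∀ τ ∈ Icc s t, γ τ ∈ S) →
    IntervalIntegrable (fun τ => F (ph γ τ)) volume s t
  glue : ∀ {γ₁ γ₂ : ℝ → E} {s t u : ℝ}, s ≤ t → t ≤ u → Cv γ₁ s t → Cv γ₂ t u → γ₁ t = γ₂ t →
    ∃ γ : ℝ → E, Cv γ s u ∧ EqOn γ γ₁ (Icc s t) ∧ EqOn γ γ₂ (Icc t u)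
  congr : ∀ {γ γ' : ℝ → E} {s t : ℝ} (F : PP E → ℝ), s ≤ t → EqOn γ γ' (Icc s t) →
    act F γ s t = act F γ' s t
  ext : ∀ {γ : ℝ → E} {s t : ℝ}, s ≤ t → Cv γ s t → ∃ (γ' : ℝ → E) (C : NNReal),
    LipschitzWith C γ' ∧ EqOn γ' γ (Icc s t) ∧ ∀ τ, ∃ τ' ∈ Icc s t, γ' τ = γ τ'

structure PthStmt : Prop where
  add : ∀ {G : Geo E} {Λ : PP E → ℝ} {γ : ℝ → E} {s t u : ℝ}, Lag G Λ → s ≤ t → t ≤ u →
    Cv γ s u → (∀ τ ∈ Icc s u, γ τ ∈ G.U1) → act Λ γ s t + act Λ γ t u = act Λ γ s u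
  concat : ∀ {G : Geo E} {Λ : PP E → ℝ} {x z w : E} {s t u A B : ℝ}, Lag G Λ →
    Path G Λ x s z t A → Path G Λ z t w u B → Path G Λ x s w u (A + B)
  shift : ∀ {G : Geo E} {Λ : PP E → ℝ} {x z : E} {s t A : ℝ} (k : ℤ), Lag G Λ →
    Path G Λ x s z t A → Path G Λ x (s + k) z (t + k) A
  retc : ∀ {G : Geo E} {Λ : PP E → ℝ} {η : ℝ → E} {s t : ℝ}, Lag G Λ → s ≤ t → Cv η s t →
    (∀ τ ∈ Icc s t, η τ ∈ G.U1) → Cv (fun τ => G.r (η τ)) s t ∧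
      act Λ (fun τ => G.r (η τ)) s t + (∫ τ in s..t, ‖η τ - G.r (η τ)‖ ^ 2) / 2 ≤ act Λ η s t
  proj : ∀ {G : Geo E} {Λ : PP E → ℝ} {x z : E} {s t A : ℝ}, Lag G Λ → Path G Λ x s z t A →
    ∃ (γ : ℝ → E) (C : NNReal), LipschitzWith C γ ∧ (∀ τ, γ τ ∈ G.M₀) ∧ γ s = G.r x ∧
      γ t = G.r z ∧ act Λ γ s t ≤ A
  cmp : ∀ {G : Geo E} {Λ Λ' : PP E → ℝ} {η : ℝ → E} {s t R' σ' : ℝ}, Lag G Λ → Lag G Λ' →
    s ≤ t → Cv η s t → (∀ τ ∈ Icc s t, η τ ∈ G.U1) → (∀ᵐ τ, τ ∈ Icc s t → ‖deriv η τ‖ ≤ R') →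
    (∀ p : PP E, p.1 ∈ G.U1 → ‖p.2.1‖ ≤ R' → Λ' p ≤ Λ p + σ') →
    act Λ' η s t ≤ act Λ η s t + σ' * (t - s)
  const : ∀ {G : Geo E} {Λ : PP E → ℝ} {x : E} {s t C : ℝ}, Lag G Λ → s ≤ t → x ∈ G.U1 →
    (∀ τ : ℝ, Λ (x, 0, τ) ≤ C) → Path G Λ x s x t (C * (t - s))
  refl : ∀ {G : Geo E} {Λ : PP E → ℝ} {x z : E} {s A : ℝ},
    Path G Λ x s z s A ↔ x = z ∧ x ∈ G.U1 ∧ 0 ≤ A
  low : ∀ {G : Geo E} {Λ : PP E → ℝ} {γ : ℝ → E} {s t a C : ℝ}, Lag G Λ → s ≤ t → Cv γ s t →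
    (∀ τ ∈ Icc s t, γ τ ∈ G.U1) → (∀ p : PP E, p.1 ∈ G.U1 → a * ‖p.2.1‖ - C ≤ Λ p) →
    a * (∫ τ in s..t, ‖deriv γ τ‖) - C * (t - s) ≤ act Λ γ s t

structure ElStmt : Prop where
  tm : ∀ {G : Geo E} {y : ℝ → E}, Cu G y → ∀ t, ph y t ∈ G.TM
  cph : ∀ {G : Geo E} {y : ℝ → E}, Cu G y → ContDiff ℝ 1 (ph y)
  cL : ∀ {G : Geo E} {Λ : PP E → ℝ} {y : ℝ → E}, Lag G Λ → Cu G y →
    Continuous fun τ => Λ (ph y τ)
  cD1 : ∀ {G : Geo E} {Λ : PP E → ℝ} {y : ℝ → E}, Lag G Λ → Cu G y →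
    ContDiff ℝ 1 fun τ => fderiv ℝ Λ (ph y τ)
  cD2 : ∀ {G : Geo E} {Λ : PP E → ℝ} {y : ℝ → E}, Lag G Λ → Cu G y →
    Continuous fun τ => D2 Λ (ph y τ)
  add : ∀ {G : Geo E} {Λ : PP E → ℝ} {y : ℝ → E}, Lag G Λ → Cu G y → ∀ a b c : ℝ,
    act Λ y a b + act Λ y b c = act Λ y a c
  arc : ∀ {G : Geo E} {Λ : PP E → ℝ} {y : ℝ → E}, Lag G Λ → Cu G y → ∀ s t : ℝ, s ≤ t →
    Path G Λ (y s) s (y t) t (act Λ y s t)
  fv : ∀ {G : Geo E} {Λ : PP E → ℝ} {y ξ : ℝ → E} {a b : ℝ}, Lag G Λ → ELc G Λ y → a ≤ b →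
    Cv ξ a b → ∫ τ in a..b, fderiv ℝ Λ (ph y τ) (ξ τ, deriv ξ τ, 0) =
      mom Λ y b (ξ b) - mom Λ y a (ξ a)
  orb : ∀ {G : Geo E} {Λ : PP E → ℝ} {Y : PP E → ℝ → E} {y : ℝ → E}, Fl G Λ Y → Orb G Y y →
    ELc G Λ y ∧ ∀ t, Y (ph y t) = y
  mb : ∀ {G : Geo E} {Λ : PP E → ℝ} {y : ℝ → E} {R κ K t : ℝ}, Bd G Λ R κ K → y t ∈ G.U1 →
    ‖deriv y t‖ ≤ R + 1 → ‖mom Λ y t‖ ≤ K

structure ShfStmt : Prop where
  per0 : ∀ {G : Geo E} {Λ : PP E → ℝ}, Lag G Λ → ∀ (z v : E) (t : ℝ) (k : ℤ),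
    Λ (z, v, t + k) = Λ (z, v, t)
  per1 : ∀ {G : Geo E} {Λ : PP E → ℝ}, Lag G Λ → ∀ (z v : E) (t : ℝ) (k : ℤ),
    fderiv ℝ Λ (z, v, t + k) = fderiv ℝ Λ (z, v, t)
  per2 : ∀ {G : Geo E} {Λ : PP E → ℝ}, Lag G Λ → ∀ (z v : E) (t : ℝ) (k : ℤ),
    D2 Λ (z, v, t + k) = D2 Λ (z, v, t)
  dv : ∀ (y : ℝ → E) (k : ℤ) (t : ℝ), deriv (sh y k) t = deriv y (t + k)
  sact : ∀ {G : Geo E} {Λ : PP E → ℝ}, Lag G Λ → ∀ (y : ℝ → E) (k : ℤ) (a b : ℝ),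
    act Λ (sh y k) a b = act Λ y (a + k) (b + k)
  smom : ∀ {G : Geo E} {Λ : PP E → ℝ}, Lag G Λ → ∀ (y : ℝ → E) (k : ℤ) (t : ℝ),
    mom Λ (sh y k) t = mom Λ y (t + k)
  cu : ∀ {G : Geo E} {y : ℝ → E} (k : ℤ), Cu G y → Cu G (sh y k)
  el : ∀ {G : Geo E} {Λ : PP E → ℝ} {y : ℝ → E} (k : ℤ), Lag G Λ → ELc G Λ y →
    ELc G Λ (sh y k)
  st : ∀ {G : Geo E} {Λ : PP E → ℝ} {α : ℝ} {y : ℝ → E} (k : ℤ), Lag G Λ → Static G Λ α y →
    Static G Λ α (sh y k)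
  pm : ∀ {G : Geo E} {Λ : PP E → ℝ} {Γ : ℝ → E} {n : ℕ} (k : ℤ), Lag G Λ → PMin G Λ Γ n →
    PMin G Λ (sh Γ k) n
  orb : ∀ {G : Geo E} {Λ : PP E → ℝ} {Y : PP E → ℝ → E} {y : ℝ → E} (k : ℤ), Fl G Λ Y →
    Orb G Y y → Orb G Y (sh y k)
  flp : ∀ {G : Geo E} {Λ : PP E → ℝ} {Y : PP E → ℝ → E}, Fl G Λ Y → ∀ (x v : E) (s : ℝ),
    (x, v, s) ∈ G.TM → ∀ (k : ℤ) (t : ℝ), Y (x, v, s + k) (t + k) = Y (x, v, s) t
  spd : ∀ {y : ℝ → E} {R : ℝ} (k : ℤ), Spd R y → Spd R (sh y k)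
  acc : ∀ {y : ℝ → E} {A : ℝ} (k : ℤ), Acc A y → Acc A (sh y k)
  pact : ∀ {G : Geo E} {Λ : PP E → ℝ} {Γ : ℝ → E} {n : ℕ}, Lag G Λ → Cu G Γ →
    Function.Periodic Γ (n : ℝ) → ∀ (s : ℝ) (m : ℕ), act Λ Γ s (s + m * n) = m * act Λ Γ 0 n
  pdv : ∀ {Γ : ℝ → E} {n : ℕ}, Function.Periodic Γ (n : ℝ) → Function.Periodic (deriv Γ) (n : ℝ)
  pmom : ∀ {G : Geo E} {Λ : PP E → ℝ} {Γ : ℝ → E} {n : ℕ}, Lag G Λ →
    Function.Periodic Γ (n : ℝ) → Function.Periodic (mom Λ Γ) (n : ℝ)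

structure TayStmt : Prop where
  tay : ∀ {W : Type} [NormedAddCommGroup W] [NormedSpace ℝ W] {f : W → ℝ} {S : Set W},
    IsOpen S → ContDiffOn ℝ 2 f S → ∀ (p h : W) (B : W →L[ℝ] W →L[ℝ] ℝ) (o : ℝ),
    (∀ s ∈ Icc (0 : ℝ) 1, p + s • h ∈ S ∧ ‖fderiv ℝ (fderiv ℝ f) (p + s • h) - B‖ ≤ o) →
    |f (p + h) - f p - fderiv ℝ f p h - B h h / 2| ≤ o * ‖h‖ ^ 2 / 2
  lipd : ∀ {G : Geo E} {Λ : PP E → ℝ} {R κ K : ℝ}, Lag G Λ → Bd G Λ R κ K →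
    ∀ p q : PP E, p.1 ∈ G.M₀ → ‖q.1 - p.1‖ ≤ 2 * G.r0 → ‖p.2.1‖ ≤ R + 1 → ‖q.2.1‖ ≤ R + 1 →
    ‖fderiv ℝ Λ q - fderiv ℝ Λ p‖ ≤ K * ‖q - p‖
  mono : ∀ {G : Geo E} {Λ : PP E → ℝ} {R κ K : ℝ}, Lag G Λ → Bd G Λ R κ K →
    ∀ (z v v' : E) (t : ℝ), z ∈ G.U1 → ‖v‖ ≤ R + 1 → ‖v'‖ ≤ R + 1 →
    κ * ‖v - v'‖ ≤ ‖pv Λ (z, v, t) - pv Λ (z, v', t)‖
  sym : ∀ {G : Geo E} {Λ : PP E → ℝ}, Lag G Λ → ∀ p : PP E, p.1 ∈ G.U → ∀ a b : PP E,
    D2 Λ p a b = D2 Λ p b a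
  hub : ∀ {G : Geo E} {Λ : PP E → ℝ} {R κ K : ℝ}, Lag G Λ → Bd G Λ R κ K →
    ∀ (x v ξ w : E) (t m θ : ℝ), x ∈ G.M₀ → ‖v‖ ≤ R → ‖ξ‖ ≤ m → m ≤ 2 * G.r0 → 0 ≤ θ → θ ≤ 1 →
    (κ * θ - K * m) * ‖w‖ - κ * θ ^ 2 / 2 - K * m ^ 2 / 2 ≤
      Λ (x + ξ, v + w, t) - Λ (x, v, t) - fderiv ℝ Λ (x, v, t) (ξ, w, 0)

/-- facts on the distance to the strands -/
structure DdStmt : Prop where
  nn : ∀ (Γ : ℝ → E) (z : E) (t : ℝ), 0 ≤ dd Γ z t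
  le : ∀ (Γ : ℝ → E) (z : E) (t : ℝ) (i : ℤ), dd Γ z t ≤ ‖z - Γ (t + i)‖
  att : ∀ {Γ : ℝ → E} {n : ℕ}, 0 < n → Function.Periodic Γ (n : ℝ) → ∀ (z : E) (t : ℝ),
    ∃ i : ℤ, 0 ≤ i ∧ i < n ∧ dd Γ z t = ‖z - Γ (t + i)‖
  uniq : ∀ {Γ : ℝ → E} {n : ℕ} {δ : ℝ}, Function.Periodic Γ (n : ℝ) → Gap Γ n δ →
    ∀ (z : E) (t : ℝ) (i : ℤ), 2 * ‖z - Γ (t + i)‖ ≤ δ → dd Γ z t = ‖z - Γ (t + i)‖
  shf : ∀ (Γ : ℝ → E) (k : ℤ), dd (sh Γ k) = dd Γ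
  cmp : ∀ {Γ Γ' : ℝ → E} {η : ℝ}, (∀ t, ‖Γ t - Γ' t‖ ≤ η) → ∀ (z : E) (t : ℝ),
    dd Γ z t ≤ dd Γ' z t + η
  lip : ∀ {y Γ : ℝ → E} {ρ L : ℝ}, Differentiable ℝ y → Differentiable ℝ Γ → 0 ≤ ρ → 0 ≤ L →
    (∀ (t : ℝ) (i : ℤ), ‖y t - Γ (t + i)‖ ≤ ρ → ‖deriv y t - deriv Γ (t + i)‖ ≤ L) →
    ∀ t t', |gg Γ ρ y t - gg Γ ρ y t'| ≤ L * |t - t'|
  cont : ∀ {y Γ : ℝ → E} {ρ R : ℝ}, Differentiable ℝ y → Differentiable ℝ Γ → 0 ≤ ρ →
    Spd R y → Spd R Γ → Continuous (gg Γ ρ y)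
  DDb : ∀ {y Γ : ℝ → E} {ρ : ℝ}, 0 ≤ ρ → Continuous (gg Γ ρ y) → ∀ r : ℤ,
    0 ≤ DD Γ ρ y r ∧ DD Γ ρ y r ≤ ρ ^ 2
  sum : ∀ {y Γ : ℝ → E} {ρ : ℝ}, Continuous (gg Γ ρ y) → ∀ s t : ℤ, s ≤ t →
    ∑ r ∈ Finset.Ico s t, DD Γ ρ y r = ∫ τ in (s : ℝ)..t, gg Γ ρ y τ ^ 2
  mv : ∀ {y Γ : ℝ → E} {ρ : ℝ}, Continuous (gg Γ ρ y) → ∀ s t : ℤ,
    ∃ θ ∈ Icc (1 / 2 : ℝ) 1, gg Γ ρ y (s + θ) ^ 2 + gg Γ ρ y (t + θ) ^ 2 ≤
      2 * (DD Γ ρ y s + DD Γ ρ y t)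
  onp : ∀ {y Γ : ℝ → E} {ρ : ℝ} {n : ℕ} {r j j' : ℤ}, Function.Periodic Γ (n : ℝ) →
    (n : ℤ) ∣ j - j' → On y Γ ρ r j → On y Γ ρ r j'

/-- all basic statements -/
structure Bas : Prop where
  cur : CurStmt E
  pth : PthStmt E
  el : ElStmt E
  shf : ShfStmt E
  tay : TayStmt E
  dd : DdStmt E

end Pool.Agent.MP_7bf9b2_an

end

section

/-!
Statements of the ambient theory: bounds, Tonelli theory, locking, combinatorics, measures.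
-/

namespace Pool.Agent.MP_7bf9b2_an

open scoped Topology
open Set Filter MeasureTheory Metric

set_option linter.unusedSectionVars false
set_option maxSynthPendingDepth 3

/-! ### Pure combinatorics -/

/-- rising sun -/
def SunStmt : Prop := ∀ (x : ℤ → ℝ) (C δ : ℝ), 0 < δ →
  (∀ s t : ℤ, s ≤ t → ∑ r ∈ Finset.Ico s t, x r ≤ C - δ * (t - s)) → ∀ j₀ j₁ : ℤ,
  (∃ s₀ ≤ j₀, (∀ s ≤ s₀, ∑ r ∈ Finset.Ico s s₀, x r ≤ 0) ∧ 0 ≤ ∑ r ∈ Finset.Ico s₀ j₀, x r) ∧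
  (∃ t₀, j₁ ≤ t₀ ∧ (∀ t, t₀ ≤ t → ∑ r ∈ Finset.Ico t₀ t, x r ≤ 0) ∧
    0 ≤ ∑ r ∈ Finset.Ico j₁ t₀, x r)

/-- summation over pairs -/
def SumStmt : Prop := ∀ (K c ρ2 : ℝ) (L q : ℕ) (D : ℤ → ℝ) (Pr : Set (ℤ × ℤ)), 0 < K → 0 < c →
  32 * K ≤ c * q → (∀ r, 0 ≤ D r ∧ D r ≤ ρ2) →
  (∀ p ∈ Pr, p.1 < p.2 ∧ p.2 - p.1 ≤ L ∧
    c * ∑ r ∈ Finset.Ioo p.1 p.2, D r ≤ 8 * K * (D p.1 + D p.2)) →
  InjOn Prod.fst Pr → InjOn Prod.snd Pr →
  (∀ r : ℤ, ∃ S : Finset (ℤ × ℤ), (S : Set (ℤ × ℤ)) ⊆ Pr ∧ q ≤ S.card ∧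
    ∀ p ∈ S, p.1 < r ∧ r < p.2) → ∀ r, D r = 0

/-- dichotomy for records -/
def DichStmt : Prop := ∀ as : ℕ → ℝ, (∀ l, 1 ≤ l → 0 < as l) →
  (∀ δ > 0, ∃ l, 1 ≤ l ∧ as l ≤ δ) → ∀ (B n₀ : ℕ) (γ C₁ b₀ : ℝ), 0 < γ → 0 < b₀ →
  ∃ (n : ℕ) (b : ℝ), n₀ ≤ n ∧ 1 ≤ n ∧ as n ≤ b ∧ b ≤ b₀ ∧ (∀ l, 1 ≤ l → l ≤ n → as n ≤ as l) ∧
    (∀ l, 1 ≤ l → l ≤ n / 2 + B → b ≤ as l) ∧
    (C₁ * as n ≤ b ∨ ∀ l, 1 ≤ l → l ≤ n + B → (1 - γ) * as n ≤ as l)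

/-- combinatorial core, case of positive excess -/
def CbStmt : Prop := ∀ K ε₁ c lam : ℝ, 0 < K → 0 < ε₁ → 0 < c → 0 < lam → lam ≤ 1 / 4 →
  ∃ (B n₀ : ℕ) (γ C₁ : ℝ), 0 < γ ∧ ∀ (n : ℕ) (as : ℕ → ℝ) (b : ℝ), n₀ ≤ n → 0 < as n →
    as n ≤ b → (∀ l, 0 ≤ as l) → (∀ l, 1 ≤ l → l ≤ n → as n ≤ as l) →
    (∀ l, 1 ≤ l → l ≤ n / 2 + B → b ≤ as l) →
    (C₁ * as n ≤ b ∨ ∀ l, 1 ≤ l → l ≤ n + B → (1 - γ) * as n ≤ as l) →
    ∀ μ > 0, ∃ τ > 0, ∀ (ρ2 e C : ℝ) (D : ℤ → ℝ) (idx : ℤ → ℤ), b = 32 * K * ρ2 →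
      e ≤ as n / n + τ → (∀ r, 0 ≤ D r ∧ D r ≤ ρ2) → (∀ r, 0 ≤ idx r ∧ idx r < n) →
      (∀ s s' t' t : ℤ, s < s' → s' < t' → t' < t → D s ≤ lam * ρ2 → D s' ≤ lam * ρ2 →
        D t' ≤ lam * ρ2 → D t ≤ lam * ρ2 → idx s = idx t → idx s' = idx t' →
        as (t - s - (t' - s')).toNat ≤
          ((t - s - (t' - s') : ℤ) : ℝ) * e + 8 * K * (D s + D t + D s' + D t')) →
      (∀ s t : ℤ, s < t → D s ≤ lam * ρ2 → D t ≤ lam * ρ2 → idx s = idx t →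
        as (t - s).toNat + ε₁ * ∑ r ∈ Finset.Ioo s t, D r ≤
          ((t - s : ℤ) : ℝ) * e + 8 * K * (D s + D t)) →
      (∀ s : ℤ, (∀ r ∈ Finset.Icc s (s + n), D r ≤ μ) →
        c * ∑ r ∈ Finset.Ioo s (s + n), D r ≤ 8 * K * (D s + D (s + n))) →
      (∀ s t : ℤ, s ≤ t → ε₁ * ∑ r ∈ Finset.Ico s t, D r ≤ C + ((t - s : ℤ) : ℝ) * e) →
      ∀ r, D r = 0

/-- combinatorial core, case of zero excess -/
def Cb0Stmt : Prop := ∀ (K ε₁ c μ : ℝ) (n N : ℕ), 0 < K → 0 < ε₁ → 0 < c → 0 < μ → 0 < n →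
  32 * K ≤ c * ((N : ℝ) - 1) → ∃ τ > 0, ∀ (ρ2 e C : ℝ) (D : ℤ → ℝ), e ≤ τ →
    (∀ r, 0 ≤ D r ∧ D r ≤ ρ2) →
    (∀ s t₀ : ℤ, s < t₀ → D s ≤ μ → (∀ r ∈ Finset.Icc t₀ (t₀ + n), D r ≤ μ) →
      ∃ t ∈ Finset.Ico t₀ (t₀ + n),
        ε₁ * ∑ r ∈ Finset.Ioo s t, D r ≤ ((t - s : ℤ) : ℝ) * e + 8 * K * (D s + D t)) →
    (∀ s : ℤ, (∀ r ∈ Finset.Icc s (s + N), D r ≤ μ) →
      c * ∑ r ∈ Finset.Ioo s (s + N), D r ≤ 8 * K * (D s + D (s + N))) →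
    (∀ s t : ℤ, s ≤ t → ε₁ * ∑ r ∈ Finset.Ico s t, D r ≤ C + ((t - s : ℤ) : ℝ) * e) →
    ∀ r, D r = 0

/-! ### Abstract measure statements -/

def Ms1Stmt : Prop := ∀ {X : Type} [TopologicalSpace X] [MeasurableSpace X] [BorelSpace X]
  (Φ : Flow ℝ X) (ℓ u : X → ℝ) (α : ℝ), Continuous ℓ → Measurable u →
  (∀ K : Set X, IsCompact K → ∃ C, ∀ z ∈ K, |u z| ≤ C) →
  (∀ z, 0 ≤ (∫ s in (0 : ℝ)..1, ℓ (Φ s z)) + α - u (Φ 1 z) + u z) →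
  ∀ μ : Measure X, IsInv Φ μ → -α ≤ ∫ z, ℓ z ∂μ ∧ (∫ z, ℓ z ∂μ = -α → ∀ᵐ z ∂μ, ∀ k : ℤ,
    (∫ s in (0 : ℝ)..1, ℓ (Φ s (Φ k z))) + α - u (Φ 1 (Φ k z)) + u (Φ k z) = 0)

def Ms2Stmt : Prop := ∀ {X : Type} [TopologicalSpace X] [T2Space X] [MeasurableSpace X]
  [BorelSpace X] (Φ : Flow ℝ X) (p : X) (T : ℝ), 0 < T → Φ T p = p →
  ∃ μ : Measure X, IsInv Φ μ ∧ μ (range fun s : ℝ => Φ s p)ᶜ = 0 ∧
    (∀ ℓ : X → ℝ, Continuous ℓ → ∫ z, ℓ z ∂μ = (∫ s in (0 : ℝ)..T, ℓ (Φ s p)) / T) ∧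
    ∀ ν : Measure X, IsInv Φ ν → ν (range fun s : ℝ => Φ s p)ᶜ = 0 → ν = μ

variable {E : Type} [NormedAddCommGroup E] [InnerProductSpace ℝ E] [FiniteDimensional ℝ E]

/-! ### Bundled hypotheses -/

/-- uniform bounds for static curves and periodic minimizers -/
structure Uni (G : Geo E) (Λ : PP E → ℝ) (R κ K A : ℝ) : Prop where
  bd : Bd G Λ R κ K
  st : ∀ (α : ℝ) (y : ℝ → E), Static G Λ α y → Spd R y ∧ Acc A y
  pm : ∀ (Γ : ℝ → E) (n : ℕ), 0 < n → PMin G Λ Γ n → Spd R Γ ∧ Acc A Γ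

/-- a sequence of near minimizers -/
structure NM (G : Geo E) (Λ : PP E → ℝ) (γ : ℕ → ℝ → E) (ε : ℕ → ℝ) (B : ℝ) : Prop where
  lip : ∀ j, ∃ C : NNReal, LipschitzWith C (γ j)
  mem : ∀ j t, γ j t ∈ G.M₀
  eps : Tendsto ε atTop (𝓝 0)
  near : ∀ (j : ℕ) (a b A : ℝ), b ≤ a + 1 → Path G Λ (γ j a) a (γ j b) b A →
    act Λ (γ j) a b ≤ A + ε j
  bd : ∀ (j : ℕ) (a : ℝ), act Λ (γ j) a (a + 1) ≤ B

/-- locally uniform convergence along a filter finer than `atTop` -/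
structure Cvg (γ : ℕ → ℝ → E) (l : Filter ℕ) (g : ℝ → E) : Prop where
  ne : l.NeBot
  le : l ≤ atTop
  cv : ∀ (a b δ : ℝ), 0 < δ → ∀ᶠ j in l, ∀ τ ∈ Icc a b, ‖γ j τ - g τ‖ ≤ δ

/-- the situation of a static curve `y` of `Λ` compared with the unperturbed `Λ₀` -/
structure LCtx (G : Geo E) (Λ₀ Λ : PP E → ℝ) (y Γ : ℝ → E) (α β : ℝ) (as : ℕ → ℝ)
    (R κ K ρ ε₁ σ' e : ℝ) : Prop where
  lag0 : Lag G Λ₀
  lag : Lag G Λ
  bd : Bd G Λ R κ K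
  st : Static G Λ α y
  spd : Spd R y
  lb : LB G Λ₀ β as
  nn : ∀ l, 0 ≤ as l
  rpos : 0 < ρ
  rle : ρ ≤ G.r0
  cont : Continuous (gg Γ ρ y)
  e0 : 0 ≤ ε₁
  s0 : 0 ≤ σ'
  cmp : ∀ p : PP E, p.1 ∈ G.U1 → ‖p.2.1‖ ≤ R + 1 → Λ₀ p ≤ Λ p + σ'
  cmp2 : ∀ p : PP E, p.1 ∈ G.M₀ → ‖p.2.1‖ ≤ R + 1 →
    Λ₀ p + ε₁ * min (dd Γ p.1 p.2.2) ρ ^ 2 ≤ Λ p + σ'
  ab : β - α + σ' ≤ e

/-- quadratic growth of the action on loops `C⁰`-close to `Γ` -/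
def QL (Λ : PP E → ℝ) (Γ : ℝ → E) (N : ℕ) (r₁ c : ℝ) : Prop :=
  ∀ (s : ℝ) (η : ℝ → E), Cv η s (s + N) → η s = η (s + N) →
    (∀ τ ∈ Icc s (s + N), ‖η τ - Γ τ‖ ≤ r₁) →
    act Λ Γ s (s + N) + c * ∫ τ in s..(s + N), ‖η τ - Γ τ‖ ^ 2 ≤ act Λ η s (s + N)

/-- positivity of the second variation -/
def SV (Λ : PP E → ℝ) (Γ : ℝ → E) (N : ℕ) (c : ℝ) : Prop :=
  ∀ (s : ℝ) (ξ : ℝ → E), Cv ξ s (s + N) → ξ s = ξ (s + N) →
    2 * c * ∫ τ in s..(s + N), ‖ξ τ‖ ^ 2 ≤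
      ∫ τ in s..(s + N), D2 Λ (ph Γ τ) (ξ τ, deriv ξ τ, 0) (ξ τ, deriv ξ τ, 0)

/-- quadratic growth of the action on loops `C¹`-close to `Γ` -/
def CV (Λ : PP E → ℝ) (Γ : ℝ → E) (N : ℕ) (rc c : ℝ) : Prop :=
  ∀ (s : ℝ) (η : ℝ → E), Cv η s (s + N) → η s = η (s + N) →
    (∀ τ ∈ Icc s (s + N), ‖η τ - Γ τ‖ ≤ rc) →
    (∀ᵐ τ, τ ∈ Icc s (s + N) → ‖deriv η τ - deriv Γ τ‖ ≤ rc) →
    act Λ Γ s (s + N) + c * ∫ τ in s..(s + N), ‖η τ - Γ τ‖ ^ 2 ≤ act Λ η s (s + N)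

/-- data of the unperturbed Lagrangian -/
structure Base (G : Geo E) (Λ₀ : PP E → ℝ) (σ₀ R κ K A β : ℝ) (as : ℕ → ℝ) : Prop where
  lag : Lag G Λ₀
  s0 : 0 < σ₀
  uni : ∀ Λ : PP E → ℝ, Lag G Λ → Close G σ₀ Λ Λ₀ → Uni G Λ R κ K A
  lb : LB G Λ₀ β as
  nn : ∀ l, 0 ≤ as l

/-- the channel around the periodic minimizer `Γ₀` -/
structure Chan (G : Geo E) (Λ₀ : PP E → ℝ) (σ₀ β ε : ℝ) (n N : ℕ) (ρ a : ℝ) (Γ₀ : ℝ → E)
    (φ : E × ℝ → ℝ) : Prop where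
  npos : 0 < n
  Npos : 0 < N
  dvd : n ∣ N
  epos : 0 < ε
  rpos : 0 < ρ
  rle : ρ ≤ G.r0
  pm : PMin G Λ₀ Γ₀ n
  ha : a = act Λ₀ Γ₀ 0 n + β * n
  minN : ∀ (x : E) (s A : ℝ), Path G Λ₀ x s x (s + N) A → act Λ₀ Γ₀ 0 N ≤ A
  gap : Gap Γ₀ n (4 * ρ)
  lag1 : Lag G (addP G Λ₀ φ)
  cl : Close G (σ₀ / 2) (addP G Λ₀ φ) Λ₀
  cphi : Continuous φ
  low : ∀ (x : E) (t : ℝ), ε * min (dd Γ₀ x t) ρ ^ 2 ≤ φ (x, t)
  zero : ∀ t, φ (Γ₀ t, t) = 0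

/-- what the perturbed Lagrangian `Λ` satisfies before the combinatorial step -/
def Good1 (G : Geo E) (Λ₀ Λ : PP E → ℝ) (Y : PP E → ℝ → E) (R κ K β : ℝ) (as : ℕ → ℝ) (ε : ℝ)
    (n N : ℕ) (ρ a μ τ : ℝ) : Prop :=
  ∃ (α : ℝ) (Γ : ℝ → E), Low G Λ α ∧ Orb G Y Γ ∧ PMin G Λ Γ n ∧ Spd R Γ ∧ Gap Γ n (3 * ρ) ∧
    act Λ Γ 0 n + α * n ≤ a + n * τ ∧ (∃ y, Static G Λ α y) ∧ ∀ y, Static G Λ α y →
      (∃ σ', LCtx G Λ₀ Λ y Γ α β as R κ K ρ (ε / 2) σ' (a / n + τ)) ∧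
      (∀ s : ℤ, (∀ r ∈ Finset.Icc s (s + N), DD Γ ρ y r ≤ μ) →
        min (1 / 2) ε / 4 * ∑ r ∈ Finset.Ioo s (s + N), DD Γ ρ y r ≤
          8 * K * (DD Γ ρ y s + DD Γ ρ y (s + N))) ∧
      (∀ s t : ℤ, s ≤ t → (∀ r ∈ Finset.Icc s t, DD Γ ρ y r ≤ μ) →
        ∃ j : ℤ, ∀ r ∈ Finset.Icc s t, On y Γ ρ r (r + j))

/-- all static curves run on one periodic orbit -/
def LockC (G : Geo E) (Λ : PP E → ℝ) (Y : PP E → ℝ → E) : Prop :=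
  ∃ (α : ℝ) (Γ : ℝ → E) (n : ℕ), 0 < n ∧ Low G Λ α ∧ Orb G Y Γ ∧ Function.Periodic Γ (n : ℝ) ∧
    act Λ Γ 0 n + α * n = 0 ∧ ∀ y, Static G Λ α y → ∃ j : ℤ, ∀ t, y t = Γ (t + j)

/-- choice of the period and of the width of the channel -/
def Sel (G : Geo E) (Λ₀ : PP E → ℝ) (σ₀ K β : ℝ) (as : ℕ → ℝ) (ε : ℝ) : Prop :=
  ∃ (n N : ℕ) (ρ : ℝ), 0 < n ∧ 0 < N ∧ n ∣ N ∧ (N = n ∨ as n = 0) ∧ 0 < ρ ∧ 2 * ρ ≤ G.r0 ∧
    (∀ k, 0 < k → k < n → as n + 32 * K * ρ ^ 2 ≤ as k + as (n - k)) ∧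
    ∀ (Γ₀ : ℝ → E) (φ : E × ℝ → ℝ), Chan G Λ₀ σ₀ β ε n N ρ (as n) Γ₀ φ →
      ∃ σ > 0, ∀ (Λ : PP E → ℝ) (Y : PP E → ℝ → E), Lag G Λ → Fl G Λ Y →
        Close G σ Λ (addP G Λ₀ φ) → LockC G Λ Y

/-- a flow on `X` represented in the ambient model -/
structure Rep (G : Geo E) (Λ : PP E → ℝ) (Y : PP E → ℝ → E) {X : Type} [TopologicalSpace X]
    (Φ : Flow ℝ X) (ℓ : X → ℝ) (tm : X → Ci) (pos vel : X → E) : Prop where
  ctm : Continuous tm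
  cpos : Continuous pos
  cL : Continuous ℓ
  time : ∀ (s : ℝ) (z : X), tm (Φ s z) = tm z + cl s
  inj : ∀ z z', pos z = pos z' → vel z = vel z' → tm z = tm z' → z = z'
  val : ∀ (z : X) (t : ℝ), tm z = cl t → ℓ z = Λ (pos z, vel z, t)
  el : ∀ z, tm z = 0 → ELc G Λ fun t => pos (Φ t z)
  dv : ∀ z, tm z = 0 → ∀ t, deriv (fun t => pos (Φ t z)) t = vel (Φ t z)
  orb : ∀ Γ, Orb G Y Γ → ∃ p, tm p = 0 ∧ ∀ t, Γ t = pos (Φ t p)

variable (E)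

/-! ### Bounds -/

def ModStmt : Prop := ∀ {G : Geo E} {Λ : PP E → ℝ} {η : ℝ → E} {a b : ℝ}, Lag G Λ → a < b →
  Cv η a b → (∀ τ ∈ Icc a b, η τ ∈ G.M₀) → ∀ δ > 0, ∃ δ' > 0, ∀ w₁ w₂ : E, ‖w₁‖ ≤ δ' →
  ‖w₂‖ ≤ δ' → Path G Λ (η a + w₁) a (η b + w₂) b (act Λ η a b + δ)

def ConnStmt : Prop := ∀ G : Geo E, ∃ T₀ : ℕ, 0 < T₀ ∧ ∀ (Λ : PP E → ℝ) (C : ℝ), Lag G Λ →
  (∀ p : PP E, p.1 ∈ G.U1 → ‖p.2.1‖ ≤ 1 → Λ p ≤ C) → ∀ x ∈ G.M₀, ∀ z ∈ G.M₀, ∀ s : ℝ,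
  Path G Λ x s z (s + T₀) (C * T₀)

def BdxStmt : Prop := ∀ {G : Geo E} {Λ : PP E → ℝ}, Lag G Λ → ∀ R : ℝ, 0 ≤ R →
  ∃ κ K, Bd G Λ R κ K

def BdpStmt : Prop := ∀ {G : Geo E} {Λ Λ₀ : PP E → ℝ} {R κ K σ : ℝ}, Bd G Λ₀ R κ K →
  Close G σ Λ Λ₀ → 0 ≤ σ → σ * (R + 2) ≤ κ / 2 → σ * (R + 2) ≤ 1 → Bd G Λ R (κ / 2) (K + 1)

def AccStmt : Prop := ∀ {G : Geo E} {Λ : PP E → ℝ} {y : ℝ → E} {R κ K : ℝ}, Lag G Λ →
  Bd G Λ R κ K → ELc G Λ y → Spd R y → Acc (K * (R + 2) / κ) y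

def FlbStmt : Prop := ∀ {G : Geo E} {Λ : PP E → ℝ} {Y : PP E → ℝ → E}, Fl G Λ Y → ∀ R₀ : ℝ,
  (∀ T₀ : ℝ, ∃ R₁, 0 ≤ R₁ ∧ ∀ p ∈ G.TM, ‖p.2.1‖ ≤ R₀ → ∀ t, |t - p.2.2| ≤ T₀ →
    ‖deriv (Y p) t‖ ≤ R₁) ∧
  (∀ o > 0, ∃ τ₀ > 0, ∀ p ∈ G.TM, ‖p.2.1‖ ≤ R₀ → ∀ t, |t - p.2.2| ≤ τ₀ →
    ‖deriv (Y p) t - p.2.1‖ ≤ o)

def GronStmt : Prop := ∀ {G : Geo E} {Λ₀ : PP E → ℝ} {Y₀ : PP E → ℝ → E}, Lag G Λ₀ →
  Fl G Λ₀ Y₀ → ∀ R₀ T₀ : ℝ, ∃ σ₁ > 0, ∃ R, 0 ≤ R ∧ ∀ (Λ : PP E → ℝ) (y : ℝ → E) (s : ℝ),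
  Lag G Λ → Close G σ₁ Λ Λ₀ → ELc G Λ y → ‖deriv y s‖ ≤ R₀ → ∀ t ∈ Icc s (s + T₀),
  ‖deriv y t‖ ≤ R

def SlowStmt : Prop := ∀ {G : Geo E} {Λ₀ : PP E → ℝ}, Lag G Λ₀ → ∃ R₀ T₀ : ℝ,
  ∀ Λ : PP E → ℝ, Lag G Λ → Close G 1 Λ Λ₀ →
    (∀ (α : ℝ) (y : ℝ → E), Static G Λ α y → Slow R₀ T₀ y) ∧
    ∀ (Γ : ℝ → E) (n : ℕ), 0 < n → PMin G Λ Γ n → Slow R₀ T₀ Γ

def UniStmt : Prop := ∀ {G : Geo E} {Λ₀ : PP E → ℝ} {Y₀ : PP E → ℝ → E}, Lag G Λ₀ →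
  Fl G Λ₀ Y₀ → ∃ σ₀ > 0, ∃ R κ K A : ℝ, ∀ Λ : PP E → ℝ, Lag G Λ → Close G σ₀ Λ Λ₀ →
  Uni G Λ R κ K A

/-- pointwise superlinearity and convexity give uniform superlinearity -/
def SupStmt : Prop := ∀ {G : Geo E} {Λ : PP E → ℝ}, ContDiffOn ℝ 2 Λ G.Om →
  (∀ (z v : E) (t : ℝ), Λ (z, v, t + 1) = Λ (z, v, t)) →
  (∀ p : PP E, p.1 ∈ G.U → ∀ w : E, w ≠ 0 → 0 < D2 Λ p (iV w) (iV w)) →
  (∀ z ∈ G.U1, ∀ t A : ℝ, ∃ C : ℝ, ∀ v : E, A * ‖v‖ - C ≤ Λ (z, v, t)) →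
  ∀ A : ℝ, ∃ C : ℝ, ∀ p : PP E, p.1 ∈ G.U1 → A * ‖p.2.1‖ - C ≤ Λ p

/-! ### Tonelli theory -/

def ShootStmt : Prop := ∀ {G : Geo E} {Λ : PP E → ℝ} {Y : PP E → ℝ → E}, Fl G Λ Y → ∀ R' : ℝ,
  ∃ R'' τ₀ : ℝ, 0 ≤ R'' ∧ 0 < τ₀ ∧ ∀ (a τ : ℝ) (x₀ x₁ : E), 0 < τ → τ ≤ τ₀ → x₀ ∈ G.M₀ →
  x₁ ∈ G.M₀ → ‖x₁ - x₀‖ ≤ R' * τ →
  ∃ y, Orb G Y y ∧ y a = x₀ ∧ y (a + τ) = x₁ ∧ ∀ s ∈ Icc a (a + τ), ‖deriv y s‖ ≤ R''

def WeiStmt : Prop := ∀ {G : Geo E} {Λ : PP E → ℝ} {y η : ℝ → E} {R κ K a b m θ : ℝ},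
  Lag G Λ → Bd G Λ R κ K → ELc G Λ y → a ≤ b → (∀ τ ∈ Icc a b, ‖deriv y τ‖ ≤ R) → Cv η a b →
  (∀ τ ∈ Icc a b, ‖η τ - y τ‖ ≤ m) → m ≤ 2 * G.r0 → 0 ≤ θ → θ ≤ 1 → K * m ≤ κ * θ →
  ∀ t ∈ Icc a b, (κ * θ - K * m) * (‖η t - y t‖ - ‖η a - y a‖) -
      (κ * θ ^ 2 / 2 + K * m ^ 2 / 2) * (b - a) ≤
    act Λ η a b - act Λ y a b - (mom Λ y b (η b - y b) - mom Λ y a (η a - y a))

def Lim1Stmt : Prop := ∀ {G : Geo E} {Λ : PP E → ℝ} {γ : ℕ → ℝ → E} {ε : ℕ → ℝ} {B : ℝ},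
  Lag G Λ → NM G Λ γ ε B → ∃ (l : Filter ℕ) (g : ℝ → E), Cvg γ l g ∧ UniformContinuous g ∧
  (∀ t, g t ∈ G.M₀) ∧ ∃ R₀ : ℝ, ∀ k : ℕ, 0 < k → ∃ a : ℝ, ‖g (a + 1 / k) - g a‖ ≤ R₀ * (1 / k)

def Lim2Stmt : Prop := ∀ {G : Geo E} {Λ : PP E → ℝ}, Lag G Λ → ∀ R : ℝ, 0 ≤ R →
  ∃ m₀ > 0, ∃ τ₁ > 0, ∀ (γ : ℕ → ℝ → E) (ε : ℕ → ℝ) (B : ℝ) (l : Filter ℕ) (g y : ℝ → E)
    (a b : ℝ), NM G Λ γ ε B → Cvg γ l g → Continuous g → ELc G Λ y → a < b → b ≤ a + τ₁ →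
    y a = g a → y b = g b → (∀ τ ∈ Icc a b, ‖deriv y τ‖ ≤ R) →
    (∀ τ ∈ Icc a b, ‖g τ - y τ‖ ≤ m₀) → EqOn g y (Icc a b)

def Lim3Stmt : Prop := ∀ {G : Geo E} {Λ : PP E → ℝ} {Y : PP E → ℝ → E} {g : ℝ → E},
  Fl G Λ Y → Continuous g →
  (∀ R' : ℝ, ∃ τ₀ > 0, ∀ a τ : ℝ, 0 < τ → τ ≤ τ₀ → ‖g (a + τ) - g a‖ ≤ R' * τ →
    ∃ y, Orb G Y y ∧ EqOn g y (Icc a (a + τ))) →
  (∃ R₀ : ℝ, ∀ k : ℕ, 0 < k → ∃ a : ℝ, ‖g (a + 1 / k) - g a‖ ≤ R₀ * (1 / k)) → Orb G Y g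

def LimStmt : Prop := ∀ {G : Geo E} {Λ : PP E → ℝ} {Y : PP E → ℝ → E} {γ : ℕ → ℝ → E}
  {ε : ℕ → ℝ} {B : ℝ}, Lag G Λ → Fl G Λ Y → NM G Λ γ ε B →
  ∃ (l : Filter ℕ) (g : ℝ → E), Cvg γ l g ∧ Orb G Y g

def PextStmt : Prop := ∀ {G : Geo E} {Λ : PP E → ℝ} {x : E} {s A : ℝ} {n : ℕ}, Lag G Λ →
  0 < n → Path G Λ x s x (s + n) A → ∃ (γ : ℝ → E) (C : NNReal), LipschitzWith C γ ∧
  (∀ t, γ t ∈ G.M₀) ∧ Function.Periodic γ (n : ℝ) ∧ (∀ a : ℝ, act Λ γ a (a + n) ≤ A)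

def TonStmt : Prop := ∀ {G : Geo E} {Λ : PP E → ℝ} {Y : PP E → ℝ → E}, Lag G Λ → Fl G Λ Y →
  ∀ n : ℕ, 0 < n → ∃ Γ, Orb G Y Γ ∧ PMin G Λ Γ n

/-! ### Variations, cuts, gaps -/

def VlcStmt : Prop := ∀ {G : Geo E} {Λ : PP E → ℝ} {y : ℝ → E} {R κ K : ℝ}, Lag G Λ →
  Bd G Λ R κ K → ELc G Λ y → Spd R y → ∀ (s t : ℝ) (w : E), s ≤ t - 1 / 2 →
  ‖w‖ ≤ 2 * G.r0 → ∃ η : ℝ → E, Cv η s t ∧ (∀ τ ∈ Icc s t, ‖η τ - y τ‖ ≤ ‖w‖) ∧
    (∀ τ ∈ Icc s (t - 1 / 2), η τ = y τ) ∧ η t = y t + w ∧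
    (∀ᵐ τ, τ ∈ Icc s t → ‖deriv η τ - deriv y τ‖ ≤ 2 * ‖w‖) ∧
    act Λ η s t ≤ act Λ y s t + mom Λ y t w + K * ‖w‖ ^ 2

def VlStmt : Prop := ∀ {G : Geo E} {Λ Λ' : PP E → ℝ} {y : ℝ → E} {R κ K σ' : ℝ}, Lag G Λ →
  Lag G Λ' → Bd G Λ R κ K → ELc G Λ y → Spd R y →
  (∀ p : PP E, p.1 ∈ G.U1 → ‖p.2.1‖ ≤ R + 1 → Λ' p ≤ Λ p + σ') →
  ∀ (t : ℝ) (w : E), ‖w‖ ≤ 2 * G.r0 →
    Path G Λ' (y (t - 1 / 2)) (t - 1 / 2) (y t + w) t
      (act Λ y (t - 1 / 2) t + mom Λ y t w + K * ‖w‖ ^ 2 + σ' / 2) ∧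
    Path G Λ' (y t + w) t (y (t + 1 / 2)) (t + 1 / 2)
      (act Λ y t (t + 1 / 2) - mom Λ y t w + K * ‖w‖ ^ 2 + σ' / 2)

def CutStmt : Prop := ∀ {G : Geo E} {Λ : PP E → ℝ} {y : ℝ → E} {R κ K α : ℝ}, Lag G Λ →
  Bd G Λ R κ K → Static G Λ α y → Spd R y → ∀ (s t : ℝ) (k : ℤ), s = t + k →
  ‖y s - y t‖ ≤ 2 * G.r0 →
  mom Λ y t (y s - y t) ≤ K * ‖y s - y t‖ ^ 2 + act Λ y t s + α * k

def GapStmt : Prop := ∀ {G : Geo E} {Λ : PP E → ℝ} {Γ : ℝ → E} {R κ K β : ℝ} {n : ℕ}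
  {as : ℕ → ℝ}, Lag G Λ → Bd G Λ R κ K → PMin G Λ Γ n → Spd R Γ → LB G Λ β as →
  ∀ (k : ℕ) (t : ℝ), 0 < k → k < n → ‖Γ (t + k) - Γ t‖ ≤ 2 * G.r0 →
  as k + as (n - k) ≤ act Λ Γ 0 n + β * n + 2 * K * ‖Γ (t + k) - Γ t‖ ^ 2

def Gap2Stmt : Prop := ∀ {G : Geo E} {Λ : PP E → ℝ} {Γ : ℝ → E} {R κ K β ρ : ℝ} {n : ℕ}
  {as : ℕ → ℝ}, Lag G Λ → Bd G Λ R κ K → 0 < n → PMin G Λ Γ n → Spd R Γ → LB G Λ β as →
  0 < ρ → 2 * ρ ≤ G.r0 →
  (∀ k, 0 < k → k < n → act Λ Γ 0 n + β * n + 32 * K * ρ ^ 2 ≤ as k + as (n - k)) →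
  Gap Γ n (4 * ρ)

def CritStmt : Prop := ∀ {G : Geo E} {Λ : PP E → ℝ} {Γ : ℕ → ℝ → E} {R κ K : ℝ}, Lag G Λ →
  Bd G Λ R κ K → (∀ l, 0 < l → PMin G Λ (Γ l) l ∧ Spd R (Γ l)) →
  ∃ α : ℝ, Low G Λ α ∧ ∀ δ > 0, ∃ l : ℕ, 0 < l ∧ act Λ (Γ l) 0 l + α * l ≤ δ

def StatStmt : Prop := ∀ {G : Geo E} {Λ : PP E → ℝ} {Y : PP E → ℝ → E} {R κ K α : ℝ},
  Lag G Λ → Fl G Λ Y → Bd G Λ R κ K → Low G Λ α →
  (∀ δ > 0, ∃ (l : ℕ) (Γ : ℝ → E), 0 < l ∧ Orb G Y Γ ∧ PMin G Λ Γ l ∧ Spd R Γ ∧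
    act Λ Γ 0 l + α * l ≤ δ) → ∃ y, Static G Λ α y

/-! ### The inequalities of the locking argument -/

def OneStmt : Prop := ∀ {G : Geo E} {Λ₀ Λ : PP E → ℝ} {y Γ : ℝ → E} {α β : ℝ} {as : ℕ → ℝ}
  {R κ K ρ ε₁ σ' e : ℝ}, LCtx G Λ₀ Λ y Γ α β as R κ K ρ ε₁ σ' e → ∀ s t j : ℤ, s < t →
  On y Γ ρ s j → On y Γ ρ t j →
  as (t - s).toNat + ε₁ * ∑ r ∈ Finset.Ioo s t, DD Γ ρ y r ≤
    ((t - s : ℤ) : ℝ) * e + 8 * K * (DD Γ ρ y s + DD Γ ρ y t)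

def TwoStmt : Prop := ∀ {G : Geo E} {Λ₀ Λ : PP E → ℝ} {y Γ : ℝ → E} {α β : ℝ} {as : ℕ → ℝ}
  {R κ K ρ ε₁ σ' e : ℝ}, LCtx G Λ₀ Λ y Γ α β as R κ K ρ ε₁ σ' e → ∀ s s' t' t j j' : ℤ,
  s < s' → s' < t' → t' < t → On y Γ ρ s j → On y Γ ρ t j → On y Γ ρ s' j' → On y Γ ρ t' j' →
  as (t - s - (t' - s')).toNat ≤ ((t - s - (t' - s') : ℤ) : ℝ) * e +
    8 * K * (DD Γ ρ y s + DD Γ ρ y t + DD Γ ρ y s' + DD Γ ρ y t')

def FiveStmt : Prop := ∀ {G : Geo E} {Λ₀ Λ : PP E → ℝ} {y Γ : ℝ → E} {α β : ℝ} {as : ℕ → ℝ}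
  {R κ K ρ ε₁ σ' e : ℝ}, LCtx G Λ₀ Λ y Γ α β as R κ K ρ ε₁ σ' e → ∃ C : ℝ, ∀ s t : ℤ, s ≤ t →
  ε₁ * ∑ r ∈ Finset.Ico s t, DD Γ ρ y r ≤ C + ((t - s : ℤ) : ℝ) * e

def FourStmt : Prop := ∀ {G : Geo E} {Λ : PP E → ℝ} {y Γ : ℝ → E} {α R κ K ρ rc c η₀ : ℝ}
  {N : ℕ}, Lag G Λ → Bd G Λ R κ K → Low G Λ α → Static G Λ α y → Spd R y → Cu G Γ → 0 < N →
  Function.Periodic Γ (N : ℝ) → CV Λ Γ N rc c → 0 ≤ c → 0 < ρ → Continuous (gg Γ ρ y) →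
  5 * η₀ ≤ rc → η₀ ≤ G.r0 → ∀ s j : ℤ,
  (∀ τ ∈ Icc (s : ℝ) (s + N + 1), ‖y τ - Γ (τ + j)‖ ≤ η₀ ∧
    ‖deriv y τ - deriv Γ (τ + j)‖ ≤ η₀ ∧ ‖y τ - Γ (τ + j)‖ ≤ gg Γ ρ y τ) →
  c * ∑ r ∈ Finset.Ioo s (s + N), DD Γ ρ y r ≤ 8 * K * (DD Γ ρ y s + DD Γ ρ y (s + N))

def CrossStmt : Prop := ∀ (G : Geo E) (κ K : ℝ), ∃ C₄ : ℝ, 0 ≤ C₄ ∧
  ∀ (Λ : PP E → ℝ) (y Γ : ℝ → E) (R α ρ : ℝ) (n : ℕ), Lag G Λ → Bd G Λ R κ K →
  Static G Λ α y → Spd R y → ELc G Λ Γ → Spd R Γ → 0 < n → Function.Periodic Γ (n : ℝ) →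
  0 < ρ → ρ ≤ G.r0 → act Λ Γ 0 n + α * n ≤ 64 * K * ρ ^ 2 →
  ∀ (t : ℝ) (i : ℤ), ‖y t - Γ (t + i)‖ ≤ ρ → ‖deriv y t - deriv Γ (t + i)‖ ≤ C₄ * ρ

def GonStmt : Prop := ∀ C : ℝ, 0 ≤ C → ∃ lam > 0, ∀ (y Γ : ℝ → E) (ρ : ℝ) (n : ℕ),
  Continuous y → Continuous Γ → 0 < n → Function.Periodic Γ (n : ℝ) → 0 < ρ →
  Gap Γ n (3 * ρ) → (∀ t t', |gg Γ ρ y t - gg Γ ρ y t'| ≤ C * ρ * |t - t'|) →
  ∀ r : ℤ, DD Γ ρ y r ≤ lam * ρ ^ 2 → ∃ j : ℤ, 0 ≤ j ∧ j < n ∧ On y Γ ρ r j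

def TubeStmt : Prop := ∀ R A ρ η : ℝ, 0 < ρ → 0 < η → ∃ μ > 0, ∀ (y Γ : ℝ → E) (n : ℕ),
  ContDiff ℝ 2 y → ContDiff ℝ 2 Γ → Spd R y → Spd R Γ → Acc A y → Acc A Γ → 0 < n →
  Function.Periodic Γ (n : ℝ) → Gap Γ n (3 * ρ) → ∀ s t : ℤ, s ≤ t →
  (∀ r ∈ Finset.Icc s t, DD Γ ρ y r ≤ μ) → ∃ j : ℤ, ∀ τ ∈ Icc (s : ℝ) (t + 1),
    ‖y τ - Γ (τ + j)‖ ≤ η ∧ ‖deriv y τ - deriv Γ (τ + j)‖ ≤ η ∧ ‖y τ - Γ (τ + j)‖ ≤ gg Γ ρ y τ

def EndStmt : Prop := ∀ {G : Geo E} {Λ : PP E → ℝ} {Y : PP E → ℝ → E} {Γ : ℝ → E} {α ρ : ℝ}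
  {n : ℕ}, Lag G Λ → 0 < n → 0 < ρ → Low G Λ α → Orb G Y Γ → PMin G Λ Γ n → Gap Γ n (3 * ρ) →
  (∃ y, Static G Λ α y) →
  (∀ y, Static G Λ α y → Continuous (gg Γ ρ y) ∧ ∀ r, DD Γ ρ y r = 0) → LockC G Λ Y

/-! ### The channel -/

def PsiStmt : Prop := ∀ R A : ℝ, ∃ C : ℝ, 0 < C ∧ ∀ (Γ₀ : ℝ → E) (n : ℕ) (ρ : ℝ),
  ContDiff ℝ 2 Γ₀ → Spd R Γ₀ → Acc A Γ₀ → 0 < n → Function.Periodic Γ₀ (n : ℝ) → 0 < ρ →
  ρ ≤ 1 → Gap Γ₀ n (4 * ρ) → ∃ ψ : E × ℝ → ℝ, C2Bd C ψ ∧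
    (∀ (x : E) (t : ℝ), min (dd Γ₀ x t) ρ ^ 2 ≤ ψ (x, t)) ∧ ∀ t, ψ (Γ₀ t, t) = 0

def AddpStmt : Prop := ∀ G : Geo E, ∃ C : ℝ, 0 < C ∧ ∀ (Λ : PP E → ℝ) (φ : E × ℝ → ℝ) (ε : ℝ),
  Lag G Λ → C2Bd ε φ → Lag G (addP G Λ φ) ∧ Close G (C * ε) (addP G Λ φ) Λ

def Cvx1Stmt : Prop := ∀ {G : Geo E} {Λ₀ : PP E → ℝ} {σ₀ β ε : ℝ} {n N : ℕ} {ρ a : ℝ}
  {Γ₀ : ℝ → E} {φ : E × ℝ → ℝ}, Lag G Λ₀ → Chan G Λ₀ σ₀ β ε n N ρ a Γ₀ φ →
  ∃ r₁ > 0, QL (addP G Λ₀ φ) Γ₀ N r₁ (min (1 / 2) ε / 2)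

def Cvx2Stmt : Prop := ∀ {G : Geo E} {Λ : PP E → ℝ} {Γ : ℝ → E} {N : ℕ} {r₁ c : ℝ}, Lag G Λ →
  Cu G Γ → Function.Periodic Γ (N : ℝ) → 0 < r₁ → QL Λ Γ N r₁ c → SV Λ Γ N c

def Cvx3Stmt : Prop := ∀ {G : Geo E} {Λ₁ : PP E → ℝ} {Γ₀ : ℝ → E} {N : ℕ} {R κ K c : ℝ},
  Lag G Λ₁ → Bd G Λ₁ R κ K → Cu G Γ₀ → Spd R Γ₀ → 0 < c → SV Λ₁ Γ₀ N c →
  ∃ rc > 0, ∃ σc > 0, ∀ (Λ : PP E → ℝ) (Γ : ℝ → E), Lag G Λ → Close G σc Λ Λ₁ → ELc G Λ Γ →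
    Function.Periodic Γ (N : ℝ) →
    (∀ τ, ‖Γ τ - Γ₀ τ‖ ≤ rc ∧ ‖deriv Γ τ - deriv Γ₀ τ‖ ≤ rc) → CV Λ Γ N rc (c / 2)

def NearStmt : Prop := ∀ {G : Geo E} {Λ₀ : PP E → ℝ} {σ₀ β ε : ℝ} {n N : ℕ} {ρ a R A : ℝ}
  {Γ₀ : ℝ → E} {φ : E × ℝ → ℝ}, Lag G Λ₀ → Chan G Λ₀ σ₀ β ε n N ρ a Γ₀ φ → Spd R Γ₀ →
  Acc A Γ₀ → ∀ η > 0, ∃ σ > 0, ∀ (Λ : PP E → ℝ) (Γ : ℝ → E), Lag G Λ →
    Close G σ Λ (addP G Λ₀ φ) → PMin G Λ Γ n → Spd R Γ → Acc A Γ →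
    ∃ j : ℤ, ∀ τ, ‖sh Γ j τ - Γ₀ τ‖ ≤ η ∧ ‖deriv (sh Γ j) τ - deriv Γ₀ τ‖ ≤ η

/-- first half of the preparation: critical value, periodic orbit, comparison constants -/
def Prep1Stmt : Prop := ∀ {G : Geo E} {Λ₀ : PP E → ℝ} {σ₀ R κ K A β ε : ℝ} {as : ℕ → ℝ}
  {n N : ℕ} {ρ a : ℝ} {Γ₀ : ℝ → E} {φ : E × ℝ → ℝ}, Base G Λ₀ σ₀ R κ K A β as →
  Chan G Λ₀ σ₀ β ε n N ρ a Γ₀ φ → ∀ η > 0, ∀ τ > 0, ∃ σ > 0, σ ≤ σ₀ / 2 ∧
    ∀ (Λ : PP E → ℝ) (Y : PP E → ℝ → E), Lag G Λ → Fl G Λ Y → Close G σ Λ (addP G Λ₀ φ) →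
    ∃ (α : ℝ) (Γ : ℝ → E), Low G Λ α ∧ Orb G Y Γ ∧ PMin G Λ Γ n ∧ Gap Γ n (3 * ρ) ∧
      (∀ t, ‖Γ t - Γ₀ t‖ ≤ η ∧ ‖deriv Γ t - deriv Γ₀ t‖ ≤ η) ∧
      act Λ Γ 0 n + α * n ≤ a + n * τ ∧ (∃ y, Static G Λ α y) ∧ ∀ y, Static G Λ α y →
        ∃ σ', LCtx G Λ₀ Λ y Γ α β as R κ K ρ (ε / 2) σ' (a / n + τ)

def PrepStmt : Prop := ∀ {G : Geo E} {Λ₀ : PP E → ℝ} {σ₀ R κ K A β ε : ℝ} {as : ℕ → ℝ}
  {n N : ℕ} {ρ a : ℝ} {Γ₀ : ℝ → E} {φ : E × ℝ → ℝ}, Base G Λ₀ σ₀ R κ K A β as →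
  Chan G Λ₀ σ₀ β ε n N ρ a Γ₀ φ → ∃ μ > 0, ∀ τ > 0, ∃ σ > 0,
    ∀ (Λ : PP E → ℝ) (Y : PP E → ℝ → E), Lag G Λ → Fl G Λ Y → Close G σ Λ (addP G Λ₀ φ) →
    Good1 G Λ₀ Λ Y R κ K β as ε n N ρ a μ τ

def LkStmt : Prop := ∀ {G : Geo E} {Λ₀ : PP E → ℝ} {σ₀ R κ K A β ε : ℝ} {as : ℕ → ℝ},
  Base G Λ₀ σ₀ R κ K A β as → 0 < ε → (∀ l, 1 ≤ l → 0 < as l) →
  (∀ δ > 0, ∃ l, 1 ≤ l ∧ as l ≤ δ) → Sel G Λ₀ σ₀ K β as ε

def Lk0Stmt : Prop := ∀ {G : Geo E} {Λ₀ : PP E → ℝ} {σ₀ R κ K A β ε : ℝ} {as : ℕ → ℝ},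
  Base G Λ₀ σ₀ R κ K A β as → 0 < ε → (∃ l, 1 ≤ l ∧ as l = 0) → Sel G Λ₀ σ₀ K β as ε

/-- the abstract main theorem -/
def AmStmt : Prop := ∀ {G : Geo E} {Λ₀ : PP E → ℝ} {Y₀ : PP E → ℝ → E}, Lag G Λ₀ →
  Fl G Λ₀ Y₀ → ∀ ε' > 0, ∃ φ : E × ℝ → ℝ, C2Bd ε' φ ∧ ∃ σ > 0,
    ∀ (Λ : PP E → ℝ) (Y : PP E → ℝ → E), Lag G Λ → Fl G Λ Y → Close G σ Λ (addP G Λ₀ φ) →
    LockC G Λ Y

/-! ### Subsolutions and measures -/

/-- `u` is a subsolution at integer times -/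
def Sub (G : Geo E) (Λ : PP E → ℝ) (α : ℝ) (u : E → ℝ) : Prop :=
  ∀ x ∈ G.M₀, ∀ z ∈ G.M₀, ∀ (i k : ℤ) (A : ℝ), Path G Λ x i z k A → u z ≤ u x + A + α * (k - i)

def UsubStmt : Prop := ∀ {G : Geo E} {Λ : PP E → ℝ} {α : ℝ}, Lag G Λ → Low G Λ α →
  ∃ u : E → ℝ, UpperSemicontinuousOn u G.M₀ ∧ (∃ C, ∀ x ∈ G.M₀, |u x| ≤ C) ∧ Sub E G Λ α u

def CalStmt : Prop := ∀ {G : Geo E} {Λ : PP E → ℝ} {α : ℝ} {u : E → ℝ} {y : ℝ → E}, Lag G Λ →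
  Sub E G Λ α u → ELc G Λ y →
  (∀ k : ℤ, act Λ y k (k + 1) + α ≤ u (y (k + 1)) - u (y k)) → Static G Λ α y

def Ms3Stmt : Prop := ∀ {G : Geo E} {Λ : PP E → ℝ} {Y : PP E → ℝ → E} {X : Type}
  [TopologicalSpace X] [T2Space X] [MeasurableSpace X] [BorelSpace X] {Φ : Flow ℝ X}
  {ℓ : X → ℝ} {tm : X → Ci} {pos vel : X → E}, Lag G Λ → Rep G Λ Y Φ ℓ tm pos vel →
  LockC G Λ Y → UniqPer Φ ℓ

end Pool.Agent.MP_7bf9b2_an

end

section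

/-! The abstract main theorem. -/

namespace Pool.Agent.MP_7bf9b2_an

open scoped Topology
open Set Filter MeasureTheory Metric

set_option maxSynthPendingDepth 3

variable {E : Type} [NormedAddCommGroup E] [InnerProductSpace ℝ E] [FiniteDimensional ℝ E]

namespace AmL

theorem scale {C ε : ℝ} {ψ : E × ℝ → ℝ} (h : C2Bd C ψ) (hε : 0 ≤ ε) {δ : ℝ} (hδ : ε * C ≤ δ) :
    C2Bd δ fun q => ε * ψ q := by
  refine ⟨contDiff_const.mul h.c2, fun x t => by rw [h.per], fun k hk q => ?_⟩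
  have e := iteratedFDeriv_const_smul_apply (a := ε) (x := q) (i := k)
    (h.c2.contDiffAt.of_le (by exact_mod_cast hk))
  rw [show (fun q => ε * ψ q) = ε • ψ from rfl, e, norm_smul, Real.norm_of_nonneg hε]
  exact (mul_le_mul_of_nonneg_left (h.bd k hk q) hε).trans hδ

end AmL

theorem am (hB : Bas E) (hu : UniStmt E) (ht : TonStmt E) (hc : CritStmt E) (hg : Gap2Stmt E)
    (hp : PsiStmt E) (ha : AddpStmt E) (hl : LkStmt E) (h0 : Lk0Stmt E) : AmStmt E := by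
  intro G Λ₀ Y₀ hL hF ε' hε'
  obtain ⟨σ₀, hσ, R, κ, K, A, uni⟩ := hu hL hF
  have hU := uni Λ₀ hL (Close.refl hσ.le)
  have hΓ : ∀ l : ℕ, ∃ Γ, 0 < l → PMin G Λ₀ Γ l := fun l => by
    by_cases h : 0 < l
    · obtain ⟨Γ, -, a⟩ := ht hL hF l h
      exact ⟨Γ, fun _ => a⟩
    · exact ⟨fun _ => 0, fun a => absurd a h⟩
  choose Γ pm using hΓ
  obtain ⟨β, low, inf⟩ := hc hL hU.bd fun l h => ⟨pm l h, (hU.pm _ l h (pm l h)).1⟩
  obtain ⟨as, a0, a1⟩ : ∃ as : ℕ → ℝ, as 0 = 0 ∧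
      ∀ l, 0 < l → as l = act Λ₀ (Γ l) 0 l + β * l :=
    ⟨fun l => if l = 0 then 0 else act Λ₀ (Γ l) 0 l + β * l, if_pos rfl,
      fun l h => if_neg h.ne'⟩
  have lb : LB G Λ₀ β as := by
    intro l x s B h
    rcases Nat.eq_zero_or_pos l with rfl | k
    · rw [Nat.cast_zero, add_zero] at h
      rw [a0, Nat.cast_zero, mul_zero, add_zero]
      exact (hB.pth.refl.1 h).2.2
    · rw [a1 l k]
      linarith [(pm l k).min x s B h]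
  have nn : ∀ l, 0 ≤ as l := by
    intro l
    rcases Nat.eq_zero_or_pos l with rfl | k
    · exact a0.ge
    · have h := hB.el.arc hL (pm l k).el.cu 0 l (Nat.cast_nonneg l)
      rw [(pm l k).per.eq] at h
      rw [a1 l k]
      exact low l (Γ l 0) 0 _ (by rwa [zero_add])
  have base : Base G Λ₀ σ₀ R κ K A β as := ⟨hL, hσ, uni, lb, nn⟩
  obtain ⟨C, hC, hψ⟩ := hp R A
  obtain ⟨D, hD, hadd⟩ := ha G
  obtain ⟨δ, d0, d1, d2⟩ : ∃ δ : ℝ, 0 < δ ∧ δ ≤ ε' ∧ D * δ ≤ σ₀ / 2 :=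
    ⟨min ε' (σ₀ / 2 / D), by positivity, min_le_left _ _, (le_div_iff₀' hD).1 (min_le_right _ _)⟩
  have hε : 0 < δ / C := by positivity
  have sel : Sel G Λ₀ σ₀ K β as (δ / C) := by
    by_cases h : ∃ l, 1 ≤ l ∧ as l = 0
    · exact h0 base hε h
    · refine hl base hε (fun l k => (nn l).lt_of_ne fun e => h ⟨l, k, e.symm⟩) fun d hd => ?_
      obtain ⟨l, k, b⟩ := inf d hd
      exact ⟨l, k, (a1 l k).trans_le b⟩
  obtain ⟨n, N, ρ, n0, N0, dv, alt, r0, r1, sep, fin⟩ := sel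
  obtain ⟨sp, ac⟩ := hU.pm _ n n0 (pm n n0)
  have gap := hg hL hU.bd n0 (pm n n0) sp lb r0 r1 (by rwa [← a1 n n0])
  obtain ⟨ψ, p1, p2, p3⟩ := hψ (Γ n) n ρ (pm n n0).el.cu.c2 sp ac n0 (pm n n0).per r0
    (by linarith [G.r0_le]) gap
  have e : δ / C * C = δ := div_mul_cancel₀ _ hC.ne'
  have c2 := AmL.scale p1 hε.le e.le
  obtain ⟨l1, c1⟩ := hadd Λ₀ _ δ hL c2
  refine ⟨_, AmL.scale p1 hε.le (e.le.trans d1), fin (Γ n) _ ⟨n0, N0, dv, hε, r0, by linarith,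
    pm n n0, a1 n n0, fun x s B h => ?_, gap, l1, c1.mono d2, c2.c2.continuous,
    fun x t => mul_le_mul_of_nonneg_left (p2 x t) hε.le, fun t => by rw [p3, mul_zero]⟩⟩
  rcases alt with rfl | z
  · exact (pm _ n0).min x s B h
  · obtain ⟨m, rfl⟩ := dv
    have k := hB.shf.pact hL (pm n n0).el.cu (pm n n0).per 0 m
    have k2 := (nn _).trans (lb _ x s B h)
    rw [a1 n n0] at z
    rw [zero_add, mul_comm (m : ℝ) (n : ℝ)] at k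
    rw [Nat.cast_mul] at k2 ⊢
    rw [k, show act Λ₀ (Γ n) 0 n = -(β * n) by linarith]
    linarith

end Pool.Agent.MP_7bf9b2_an

end

section

/-!
Any two points of the manifold are joined by a path of bounded action in a uniform time.
-/

namespace Pool.Agent.MP_7bf9b2_an

open scoped Topology
open Set Filter MeasureTheory Metric

set_option linter.unusedSectionVars false
set_option maxSynthPendingDepth 3

variable {E : Type} [NormedAddCommGroup E] [InnerProductSpace ℝ E] [FiniteDimensional ℝ E]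

namespace ConnL

/-- chains with `n + 1` steps of size `< δ` through points of `M` -/
def Ch (M : Set E) (δ : ℝ) : ℕ → E → E → Prop
  | 0, x, z => dist x z < δ
  | n + 1, x, z => ∃ w ∈ M, Ch M δ n x w ∧ dist w z < δ

theorem isOpen_ch (M : Set E) (δ : ℝ) (n : ℕ) : IsOpen {p : E × E | Ch M δ n p.1 p.2} := by
  induction n with
  | zero => exact isOpen_lt (continuous_fst.dist continuous_snd) continuous_const
  | succ n ih =>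
    have e : {p : E × E | Ch M δ (n + 1) p.1 p.2} = ⋃ w ∈ M,
        ((fun p : E × E => (p.1, w)) ⁻¹' {p : E × E | Ch M δ n p.1 p.2} ∩
          {p : E × E | dist w p.2 < δ}) := by
      ext p
      simp only [Ch, mem_ofPred_eq, mem_iUnion, mem_inter_iff, mem_preimage, exists_prop]
    rw [e]
    refine isOpen_biUnion fun w _ => IsOpen.inter ?_ ?_
    · exact ih.preimage (continuous_fst.prodMk continuous_const)
    · exact isOpen_lt (continuous_const.dist continuous_snd) continuous_const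

theorem ch_mono {M : Set E} {δ : ℝ} (hδ : 0 < δ) {x z : E} (hz : z ∈ M) {n k : ℕ} (hk : n ≤ k)
    (h : Ch M δ n x z) : Ch M δ k x z := by
  induction k, hk using Nat.le_induction with
  | base => exact h
  | succ k _ ih => exact ⟨z, hz, ih, by rwa [dist_self]⟩

theorem ch_trans {M : Set E} {δ : ℝ} {x y : E} (hy : y ∈ M) {n : ℕ} (h : Ch M δ n x y) (k : ℕ) :
    ∀ z, Ch M δ k y z → Ch M δ (n + k + 1) x z := by
  induction k with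
  | zero => exact fun z h' => ⟨y, hy, h, h'⟩
  | succ k ih =>
    rintro z ⟨w, hw, h1, h2⟩
    exact ⟨w, hw, ih w h1, h2⟩

theorem ch_ex {M : Set E} (hM : IsPreconnected M) {δ : ℝ} (hδ : 0 < δ) {x z : E} (hx : x ∈ M)
    (hz : z ∈ M) : ∃ n, Ch M δ n x z := by
  refine hM.induction₂' (fun x z => ∃ n, Ch M δ n x z) (fun y _ => ?_) ?_ hx hz
  · filter_upwards [mem_nhdsWithin_of_mem_nhds (ball_mem_nhds y hδ)] with w hw
    exact ⟨⟨0, mem_ball'.1 hw⟩, ⟨0, mem_ball.1 hw⟩⟩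
  · rintro a b c _ hb _ ⟨n, h⟩ ⟨k, h'⟩
    exact ⟨_, ch_trans hb h k c h'⟩

theorem ch_unif {M : Set E} (hc : IsCompact M) (hM : IsPreconnected M) {δ : ℝ} (hδ : 0 < δ) :
    ∃ n, ∀ x ∈ M, ∀ z ∈ M, Ch M δ n x z := by
  obtain ⟨T, hT⟩ := (hc.prod hc).elim_finite_subcover (fun n => {p : E × E | Ch M δ n p.1 p.2})
    (isOpen_ch M δ) fun p hp => mem_iUnion.2 (ch_ex hM hδ hp.1 hp.2)
  refine ⟨T.sup id, fun x hx z hz => ?_⟩
  obtain ⟨n, hn, h⟩ := mem_iUnion₂.1 (hT (mk_mem_prod hx hz))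
  exact ch_mono hδ hz (Finset.le_sup (f := id) hn) h

theorem step (hB : Bas E) {G : Geo E} {Λ : PP E → ℝ} {C : ℝ} (hL : Lag G Λ)
    (hC : ∀ p : PP E, p.1 ∈ G.U1 → ‖p.2.1‖ ≤ 1 → Λ p ≤ C) {w z : E} (hw : w ∈ G.M₀)
    (h : dist w z < G.r0) (s : ℝ) : Path G Λ w s z (s + 1) C := by
  have hn : ‖z - w‖ ≤ G.r0 := by rw [← dist_eq_norm, dist_comm]; exact h.le
  have hs : s ≤ s + 1 := by linarith
  have hd : ∀ τ : ℝ, HasDerivAt (fun τ : ℝ => w + (τ - s) • (z - w)) (z - w) τ := fun τ => by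
    have := (((hasDerivAt_id τ).sub_const s).smul_const (z - w)).const_add w
    simpa using this
  have hcv : Cv (fun τ : ℝ => w + (τ - s) • (z - w)) s (s + 1) :=
    hB.cur.c1 _ _ (contDiff_const.add ((contDiff_id.sub contDiff_const).smul contDiff_const))
  have hU : ∀ τ ∈ Icc s (s + 1), w + (τ - s) • (z - w) ∈ G.U1 := fun τ hτ => by
    refine G.add_mem_U1 hw ?_
    rw [norm_smul, Real.norm_of_nonneg (by linarith [hτ.1])]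
    have h1 : τ - s ≤ 1 := by linarith [hτ.2]
    have := mul_le_mul h1 hn (norm_nonneg _) zero_le_one
    linarith [G.r0_pos]
  refine ⟨hs, fun τ : ℝ => w + (τ - s) • (z - w), hcv, hU, by simp, by simp, ?_⟩
  have hi := hB.cur.intF (F := Λ) (S := G.U) hs hcv hL.smooth.continuousOn
    fun τ hτ => G.U1_sub_U (hU τ hτ)
  have := intervalIntegral.integral_mono_on hs hi (intervalIntegrable_const (c := C))
    fun τ hτ => hC _ (hU τ hτ) (by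
      change ‖deriv (fun τ : ℝ => w + (τ - s) • (z - w)) τ‖ ≤ 1
      rw [(hd τ).deriv]
      linarith [G.r0_le])
  simpa [act] using this

theorem path_of_ch (hB : Bas E) {G : Geo E} {Λ : PP E → ℝ} {C : ℝ} (hL : Lag G Λ)
    (hC : ∀ p : PP E, p.1 ∈ G.U1 → ‖p.2.1‖ ≤ 1 → Λ p ≤ C) {x : E} (hx : x ∈ G.M₀) (s : ℝ)
    (n : ℕ) : ∀ z, Ch G.M₀ G.r0 n x z →
      Path G Λ x s z (s + ((n + 1 : ℕ) : ℝ)) (C * ((n + 1 : ℕ) : ℝ)) := by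
  induction n with
  | zero =>
    intro z h
    simpa using step hB hL hC hx h s
  | succ n ih =>
    rintro z ⟨w, hw, h1, h2⟩
    have := hB.pth.concat hL (ih w h1) (step hB hL hC hw h2 _)
    rw [Nat.cast_succ (n + 1), ← add_assoc, mul_add, mul_one]
    exact this

end ConnL

theorem conn (hB : Bas E) : ConnStmt E := by
  intro G
  obtain ⟨n, hn⟩ := ConnL.ch_unif G.cpt G.conn.isPreconnected G.r0_pos
  exact ⟨n + 1, n.succ_pos, fun Λ C hL hC x hx z hz s =>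
    ConnL.path_of_ch hB hL hC hx s n z (hn x hx z hz)⟩

end Pool.Agent.MP_7bf9b2_an

end

section

/-!
The critical value: periodic minimizers of suitable periods have arbitrarily small excess.
-/

namespace Pool.Agent.MP_7bf9b2_an

open scoped Topology
open Set Filter MeasureTheory Metric

set_option linter.unusedSectionVars false
set_option maxSynthPendingDepth 3

variable {E : Type} [NormedAddCommGroup E] [InnerProductSpace ℝ E] [FiniteDimensional ℝ E]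

namespace CritL

theorem pigeon {S : Set E} (hS : IsCompact S) {η : ℝ} (hη : 0 < η) :
    ∃ N : ℕ, 0 < N ∧ ∀ x : ℕ → E, (∀ i, x i ∈ S) →
      ∃ i j : ℕ, i < j ∧ j ≤ N ∧ ‖x j - x i‖ ≤ η := by
  classical
  obtain ⟨t, -, htf, hcov⟩ := finite_cover_balls_of_compact hS (half_pos hη)
  refine ⟨htf.toFinset.card + 1, Nat.succ_pos _, fun x hx => ?_⟩
  have hc : ∀ i, ∃ c ∈ t, x i ∈ ball c (η / 2) := fun i => by
    have := hcov (hx i)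
    simpa only [mem_iUnion, exists_prop] using this
  choose c hct hcb using hc
  have key : ∀ i j, c i = c j → ‖x j - x i‖ ≤ η := fun i j hij => by
    have h1 := hcb i
    have h2 := hcb j
    rw [mem_ball] at h1 h2
    rw [← hij] at h2
    have h3 := dist_triangle_right (x j) (x i) (c i)
    rw [← dist_eq_norm]
    linarith
  obtain ⟨i, hi, j, hj, hne, hij⟩ := Finset.exists_ne_map_eq_of_card_lt_of_maps_to
    (s := Finset.range (htf.toFinset.card + 1)) (t := htf.toFinset) (f := c)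
    (by rw [Finset.card_range]; exact Nat.lt_succ_self _)
    (fun i _ => by simpa using hct i)
  rw [Finset.mem_range] at hi hj
  rcases lt_or_gt_of_ne hne with h | h
  · exact ⟨i, j, h, by omega, key i j hij⟩
  · exact ⟨j, i, h, by omega, key j i hij.symm⟩

theorem comb (as : ℕ → ℝ) (N : ℕ) (hN : 0 < N) (δ : ℝ) (hδ : 0 < δ)
    (h1 : ∀ l, 0 < l → δ ≤ as l)
    (h2 : ∀ l, N < l → ∃ k, 0 < k ∧ k ≤ N ∧ as (l - k) + δ / 2 ≤ as l) :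
    ∀ l, 0 < l → δ / (2 * N) * l ≤ as l := by
  have hNr : (0 : ℝ) < N := by exact_mod_cast hN
  have hk : ∀ k : ℕ, k ≤ N → δ / (2 * N) * k ≤ δ / 2 := fun k hk => by
    have hkr : (k : ℝ) ≤ N := by exact_mod_cast hk
    have e : δ / (2 * N) * N = δ / 2 := by field_simp
    have : δ / (2 * N) * k ≤ δ / (2 * N) * N :=
      mul_le_mul_of_nonneg_left hkr (by positivity)
    linarith
  intro l
  induction l using Nat.strong_induction_on with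
  | _ l ih =>
    intro hl
    by_cases h : l ≤ N
    · have := hk l h
      have := h1 l hl
      linarith
    · obtain ⟨k, hk0, hkN, hle⟩ := h2 l (by omega)
      have h3 := ih (l - k) (by omega) (by omega)
      have h4 : ((l - k : ℕ) : ℝ) = l - k := by
        rw [Nat.cast_sub (by omega)]
      rw [h4] at h3
      have h5 := hk k hkN
      nlinarith

theorem actLow {G : Geo E} {Λ : PP E → ℝ} {y : ℝ → E} {R κ K : ℝ} (hb : Bd G Λ R κ K)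
    (hy : ∀ t, y t ∈ G.M₀) (hs : Spd R y) (l : ℕ) : -K * l ≤ act Λ y 0 l := by
  have h : ‖∫ τ in (0 : ℝ)..(l : ℝ), Λ (ph y τ)‖ ≤ K * |(l : ℝ) - 0| := by
    refine intervalIntegral.norm_integral_le_of_norm_le_const fun τ _ => ?_
    rw [Real.norm_eq_abs]
    refine hb.b0 _ (G.M_sub_U1 (hy τ)) ?_
    have := hs τ
    show ‖deriv y τ‖ ≤ R + 1
    linarith
  rw [sub_zero, abs_of_nonneg (Nat.cast_nonneg l), Real.norm_eq_abs] at h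
  have h2 := neg_abs_le (∫ τ in (0 : ℝ)..(l : ℝ), Λ (ph y τ))
  unfold act
  linarith

end CritL

theorem crit (hB : Bas E) (hG : GapStmt E) : CritStmt E := by
  intro G Λ Γ R κ K hL hb hΓ
  classical
  have hK : 0 < K := by linarith [hb.K1]
  let f : ℕ → ℝ := fun l => act Λ (Γ (l + 1)) 0 ((l + 1 : ℕ) : ℝ) / ((l + 1 : ℕ) : ℝ)
  have hbd : BddBelow (range f) := by
    refine ⟨-K, ?_⟩
    rintro _ ⟨l, rfl⟩
    have h := hΓ (l + 1) (Nat.succ_pos l)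
    have h1 := CritL.actLow hb h.1.el.cu.mem h.2 (l + 1)
    have hp : (0 : ℝ) < ((l + 1 : ℕ) : ℝ) := by exact_mod_cast Nat.succ_pos l
    show -K ≤ act Λ (Γ (l + 1)) 0 ((l + 1 : ℕ) : ℝ) / ((l + 1 : ℕ) : ℝ)
    rw [le_div_iff₀ hp]
    exact h1
  set m : ℝ := ⨅ l, f l with hm
  let as : ℕ → ℝ := fun l => if l = 0 then 0 else act Λ (Γ l) 0 l + (-m) * l
  have has : ∀ l, 0 < l → as l = act Λ (Γ l) 0 l + (-m) * l := fun l hl => by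
    simp only [as, if_neg hl.ne']
  have hnn : ∀ l, 0 ≤ as l := fun l => by
    rcases l with _ | l
    · simp [as]
    · rw [has _ (Nat.succ_pos l)]
      have h1 : m ≤ f l := ciInf_le hbd l
      have hp : (0 : ℝ) < ((l + 1 : ℕ) : ℝ) := by exact_mod_cast Nat.succ_pos l
      have h2 : m ≤ act Λ (Γ (l + 1)) 0 ((l + 1 : ℕ) : ℝ) / ((l + 1 : ℕ) : ℝ) := h1
      rw [le_div_iff₀ hp] at h2
      linarith
  have hlb : LB G Λ (-m) as := by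
    intro l x s A hp
    rcases Nat.eq_zero_or_pos l with rfl | hl
    · rw [Nat.cast_zero, add_zero] at hp
      have := (hB.pth.refl.1 hp).2.2
      simpa [as] using this
    · rw [has l hl]
      have := (hΓ l hl).1.min x s A hp
      linarith
  refine ⟨-m, fun n x s A hp => (hnn n).trans (hlb n x s A hp), fun δ hδ => ?_⟩
  by_contra hcon
  have h1 : ∀ l, 0 < l → δ ≤ as l := fun l hl => by
    rw [has l hl]
    by_contra h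
    exact hcon ⟨l, hl, (not_le.1 h).le⟩
  have hr := G.r0_pos
  let η : ℝ := min (2 * G.r0) (min 1 (δ / (4 * K)))
  have hη : 0 < η := lt_min (by linarith) (lt_min one_pos (by positivity))
  have hη1 : η ≤ 2 * G.r0 := min_le_left _ _
  have hη2 : η ≤ 1 := (min_le_right _ _).trans (min_le_left _ _)
  have hη3 : η ≤ δ / (4 * K) := (min_le_right _ _).trans (min_le_right _ _)
  have hη4 : 2 * K * η ^ 2 ≤ δ / 2 := by
    rw [le_div_iff₀ (by positivity)] at hη3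
    nlinarith
  obtain ⟨N, hN, hpig⟩ := CritL.pigeon G.cpt hη
  have h2 : ∀ l, N < l → ∃ k, 0 < k ∧ k ≤ N ∧ as (l - k) + δ / 2 ≤ as l := fun l hl => by
    have hl0 : 0 < l := by omega
    obtain ⟨hpm, hsp⟩ := hΓ l hl0
    obtain ⟨i, j, hij, hjN, hd⟩ := hpig (fun i => Γ l i) (fun i => hpm.el.cu.mem _)
    have e : (i : ℝ) + ((j - i : ℕ) : ℝ) = j := by
      rw [Nat.cast_sub hij.le]; ring
    have hd' : ‖Γ l ((i : ℝ) + ((j - i : ℕ) : ℝ)) - Γ l i‖ ≤ η := by rw [e]; exact hd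
    have h3 := hG hL hb hpm hsp hlb (j - i) i (by omega) (by omega) (hd'.trans hη1)
    have h4 := h1 (j - i) (by omega)
    have h5 : ‖Γ l ((i : ℝ) + ((j - i : ℕ) : ℝ)) - Γ l i‖ ^ 2 ≤ η ^ 2 :=
      pow_le_pow_left₀ (norm_nonneg _) hd' 2
    have h6 : 2 * K * ‖Γ l ((i : ℝ) + ((j - i : ℕ) : ℝ)) - Γ l i‖ ^ 2 ≤ 2 * K * η ^ 2 :=
      mul_le_mul_of_nonneg_left h5 (by positivity)
    refine ⟨j - i, by omega, by omega, ?_⟩
    rw [has l hl0]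
    linarith
  have h3 := CritL.comb as N hN δ hδ h1 h2
  have hNr : (0 : ℝ) < N := by exact_mod_cast hN
  have h4 : m + δ / (2 * N) ≤ m := by
    refine le_ciInf fun l => ?_
    have hp : (0 : ℝ) < ((l + 1 : ℕ) : ℝ) := by exact_mod_cast Nat.succ_pos l
    have h5 := h3 (l + 1) (Nat.succ_pos l)
    rw [has _ (Nat.succ_pos l)] at h5
    show m + δ / (2 * N) ≤ act Λ (Γ (l + 1)) 0 ((l + 1 : ℕ) : ℝ) / ((l + 1 : ℕ) : ℝ)
    rw [le_div_iff₀ hp]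
    linarith
  have h5 : 0 < δ / (2 * N) := by positivity
  linarith

end Pool.Agent.MP_7bf9b2_an

end

section

/-! The distance to the strands of a periodic curve. -/

namespace Pool.Agent.MP_7bf9b2_an

open scoped Topology
open Set Filter MeasureTheory Metric

set_option linter.unusedSectionVars false
set_option maxSynthPendingDepth 3

variable {E : Type} [NormedAddCommGroup E] [InnerProductSpace ℝ E] [FiniteDimensional ℝ E]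

namespace DdL

theorem per {Γ : ℝ → E} {n : ℕ} (h : Function.Periodic Γ (n : ℝ)) {i j : ℤ}
    (hd : (n : ℤ) ∣ i - j) (t : ℝ) : Γ (t + i) = Γ (t + j) := by
  obtain ⟨c, hc⟩ := hd
  have e : (i : ℝ) = j + c * n := by
    have : i = j + c * n := by linarith
    exact_mod_cast this
  rw [e, ← add_assoc]
  exact h.int_mul c _

theorem le (Γ : ℝ → E) (z : E) (t : ℝ) (i : ℤ) : dd Γ z t ≤ ‖z - Γ (t + i)‖ := by
  rw [← dist_eq_norm]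
  exact infDist_le_dist_of_mem ⟨i, rfl⟩

theorem ge {Γ : ℝ → E} {z : E} {t r : ℝ} (h : ∀ i : ℤ, r ≤ ‖z - Γ (t + i)‖) : r ≤ dd Γ z t := by
  refine (le_infDist (range_nonempty _)).2 ?_
  rintro _ ⟨i, rfl⟩
  rw [dist_eq_norm]
  exact h i

theorem up {f f' : ℝ → E} {ρ L : ℝ} (hf : ∀ t, HasDerivAt f (f' t) t) (hL : 0 ≤ L)
    (h : ∀ t, ‖f t‖ ≤ ρ → ‖f' t‖ ≤ L) {a b : ℝ} (hab : a ≤ b) :
    min ‖f b‖ ρ ≤ min ‖f a‖ ρ + L * (b - a) := by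
  have hc : Continuous f := continuous_iff_continuousAt.2 fun t => (hf t).continuousAt
  refine image_le_of_liminf_slope_right_le_deriv_boundary (f := fun t => min ‖f t‖ ρ)
    (a := a) (b := b) (hc.norm.min continuous_const).continuousOn
    (B := fun t => min ‖f a‖ ρ + L * (t - a)) (B' := fun _ => L) (by simp) (by fun_prop)
    (fun x _ => ?_) (fun x _ r hr => ?_) (right_mem_Icc.2 hab)
  · have := ((((hasDerivAt_id x).sub_const a).const_mul L).const_add (min ‖f a‖ ρ))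
    simpa using this.hasDerivWithinAt
  · rcases le_total ρ ‖f x‖ with h1 | h1
    · refine Eventually.frequently ?_
      filter_upwards [self_mem_nhdsWithin] with z hz
      have hz' : 0 < z - x := sub_pos.2 hz
      rw [slope_def_field, min_eq_right h1]
      refine lt_of_le_of_lt (div_nonpos_of_nonpos_of_nonneg ?_ hz'.le) (hL.trans_lt hr)
      linarith [min_le_right ‖f z‖ ρ]
    · have := (hf x).hasDerivWithinAt.liminf_right_slope_norm_le ((h x h1).trans_lt hr)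
      refine (this.and_eventually self_mem_nhdsWithin).mono fun z hz => ?_
      have hz' : 0 < z - x := sub_pos.2 hz.2
      rw [slope_def_field, min_eq_left h1]
      refine lt_of_le_of_lt ?_ hz.1
      rw [div_eq_inv_mul]
      gcongr
      exact min_le_left _ _

theorem both {f f' : ℝ → E} {ρ L : ℝ} (hf : ∀ t, HasDerivAt f (f' t) t) (hL : 0 ≤ L)
    (h : ∀ t, ‖f t‖ ≤ ρ → ‖f' t‖ ≤ L) (a b : ℝ) :
    min ‖f b‖ ρ ≤ min ‖f a‖ ρ + L * |b - a| := by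
  rcases le_total a b with hab | hab
  · rw [abs_of_nonneg (sub_nonneg.2 hab)]
    exact up hf hL h hab
  · have := up (f := fun t => f (-t)) (f' := fun t => (-1 : ℝ) • f' (-t)) (ρ := ρ)
      (fun t => (hf (-t)).scomp t (hasDerivAt_neg t)) hL
      (fun t ht => by simpa using h (-t) ht) (neg_le_neg hab)
    simp only [neg_neg] at this
    rw [abs_of_nonpos (sub_nonpos.2 hab)]
    convert this using 2
    ring

theorem lip {y Γ : ℝ → E} {ρ L : ℝ} (hy : Differentiable ℝ y) (hΓ : Differentiable ℝ Γ)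
    (hL : 0 ≤ L)
    (h : ∀ (t : ℝ) (i : ℤ), ‖y t - Γ (t + i)‖ ≤ ρ → ‖deriv y t - deriv Γ (t + i)‖ ≤ L)
    (t t' : ℝ) : |gg Γ ρ y t - gg Γ ρ y t'| ≤ L * |t - t'| := by
  have key : ∀ a b, gg Γ ρ y b - gg Γ ρ y a ≤ L * |b - a| := by
    intro a b
    have h0 : 0 ≤ L * |b - a| := by positivity
    have : gg Γ ρ y b - L * |b - a| ≤ gg Γ ρ y a := by
      refine le_min (ge fun i => ?_) ?_
      · have h1 := both (f := fun t => y t - Γ (t + i))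
          (f' := fun t => deriv y t - deriv Γ (t + i)) (ρ := ρ)
          (fun t => (hy t).hasDerivAt.sub ((hΓ (t + i)).hasDerivAt.comp_add_const t i)) hL
          (fun t => h t i) a b
        have h2 : gg Γ ρ y b ≤ min ‖y b - Γ (b + i)‖ ρ := min_le_min_right _ (le Γ _ _ i)
        linarith [min_le_left ‖y a - Γ (a + i)‖ ρ]
      · have : gg Γ ρ y b ≤ ρ := min_le_right _ _
        linarith
    linarith
  refine abs_sub_le_iff.2 ⟨key _ _, ?_⟩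
  rw [abs_sub_comm]
  exact key _ _

theorem ii {y Γ : ℝ → E} {ρ : ℝ} (h : Continuous (gg Γ ρ y)) (a b : ℝ) :
    IntervalIntegrable (fun t => gg Γ ρ y t ^ 2) volume a b :=
  (h.pow 2).intervalIntegrable a b

end DdL

theorem ddS : DdStmt E where
  nn _ _ _ := infDist_nonneg
  le := DdL.le
  att := by
    intro Γ n hn h z t
    have hn' : (0 : ℤ) < n := by exact_mod_cast hn
    have e : (range fun i : ℤ => Γ (t + i)) = (fun i : ℤ => Γ (t + i)) '' Ico 0 (n : ℤ) := by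
      refine Subset.antisymm ?_ (image_subset_range _ _)
      rintro _ ⟨i, rfl⟩
      refine ⟨i % n, ⟨Int.emod_nonneg _ hn'.ne', Int.emod_lt_of_pos _ hn'⟩, ?_⟩
      exact DdL.per h (Int.ModEq.dvd (Int.mod_modEq i n).symm) t
    obtain ⟨_, ⟨i, hi, rfl⟩, h2⟩ :=
      ((finite_Ico (0 : ℤ) n).image fun i : ℤ => Γ (t + i)).isCompact.exists_infDist_eq_dist
        ((nonempty_Ico.2 hn').image _) z
    exact ⟨i, hi.1, hi.2, by rw [dd, e, h2, dist_eq_norm]⟩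
  uniq := by
    intro Γ n δ h hg z t i hi
    refine le_antisymm (DdL.le Γ z t i) (DdL.ge fun j => ?_)
    by_cases hd : (n : ℤ) ∣ j - i
    · rw [DdL.per h hd t]
    · have h1 := hg (t + i) (j - i) hd
      have e : t + (i : ℝ) + ((j - i : ℤ) : ℝ) = t + j := by push_cast; ring
      rw [e] at h1
      have h2 := norm_sub_le_norm_sub_add_norm_sub (Γ (t + j)) z (Γ (t + i))
      rw [norm_sub_rev (Γ (t + j)) z] at h2
      linarith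
  shf := by
    intro Γ k
    funext z t
    have e : (range fun i : ℤ => sh Γ k (t + i)) = range fun i : ℤ => Γ (t + i) := by
      refine Subset.antisymm ?_ ?_
      · rintro _ ⟨i, rfl⟩
        refine ⟨i + k, ?_⟩
        simp only [sh, Int.cast_add, add_assoc]
      · rintro _ ⟨i, rfl⟩
        refine ⟨i - k, ?_⟩
        simp only [sh, Int.cast_sub, add_assoc, sub_add_cancel]
    rw [dd, dd, e]
  cmp := by
    intro Γ Γ' η h z t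
    refine sub_le_iff_le_add.1 (DdL.ge fun i => ?_)
    have h1 := DdL.le Γ z t i
    have h2 := norm_sub_le_norm_sub_add_norm_sub z (Γ' (t + i)) (Γ (t + i))
    have h3 := h (t + i)
    rw [norm_sub_rev] at h3
    linarith
  lip hy hΓ _ hL h := DdL.lip hy hΓ hL h
  cont := by
    intro y Γ ρ R hy hΓ _ h1 h2
    have hR : 0 ≤ 2 * R := by linarith [(norm_nonneg _).trans (h1 0)]
    refine (LipschitzWith.of_dist_le_mul (K := ⟨2 * R, hR⟩) fun t t' => ?_).continuous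
    refine DdL.lip hy hΓ hR (fun t i _ => ?_) t t'
    linarith [norm_sub_le (deriv y t) (deriv Γ (t + i)), h1 t, h2 (t + i)]
  DDb := by
    intro y Γ ρ hρ h r
    have hr : (r : ℝ) ≤ r + 1 := by linarith
    refine ⟨intervalIntegral.integral_nonneg hr fun _ _ => sq_nonneg _, ?_⟩
    have := intervalIntegral.integral_mono_on hr (DdL.ii h _ _)
      (intervalIntegrable_const (c := ρ ^ 2)) fun t _ =>
        pow_le_pow_left₀ (le_min infDist_nonneg hρ) (min_le_right _ _) 2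
    simpa [DD] using this
  sum := by
    intro y Γ ρ h s t hst
    induction t, hst using Int.le_induction with
    | base => simp
    | succ t ht ih =>
      rw [← Finset.insert_Ico_right_eq_Ico_add_one ht, Finset.sum_insert (by simp), ih, add_comm,
        DD, intervalIntegral.integral_add_adjacent_intervals (DdL.ii h _ _) (DdL.ii h _ _)]
      push_cast
      rfl
  mv := by
    intro y Γ ρ h s t
    have c1 : ∀ r : ℤ, Continuous fun θ : ℝ => gg Γ ρ y (r + θ) ^ 2 := fun r => by fun_prop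
    have hc : Continuous fun θ : ℝ => gg Γ ρ y (s + θ) ^ 2 + gg Γ ρ y (t + θ) ^ 2 :=
      (c1 s).add (c1 t)
    obtain ⟨θ, hθ, hm⟩ := (isCompact_Icc (a := (1 / 2 : ℝ)) (b := 1)).exists_isMinOn
      (nonempty_Icc.2 (by norm_num)) hc.continuousOn
    refine ⟨θ, hθ, ?_⟩
    have e : ∀ r : ℤ, DD Γ ρ y r = ∫ θ in (0 : ℝ)..1, gg Γ ρ y (r + θ) ^ 2 := fun r => by
      rw [intervalIntegral.integral_comp_add_left (fun t => gg Γ ρ y t ^ 2), add_zero, DD]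
    have h1 := intervalIntegral.integral_mono_on (μ := volume) (by norm_num : (1 / 2 : ℝ) ≤ 1)
      (intervalIntegrable_const (c := gg Γ ρ y (s + θ) ^ 2 + gg Γ ρ y (t + θ) ^ 2))
      (hc.intervalIntegrable _ _) fun x hx => hm hx
    have h2 := intervalIntegral.integral_mono_interval (μ := volume)
      (by norm_num : (0 : ℝ) ≤ 1 / 2) (by norm_num : (1 / 2 : ℝ) ≤ 1) le_rfl
      (Eventually.of_forall fun x => add_nonneg (sq_nonneg _) (sq_nonneg _))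
      (hc.intervalIntegrable 0 1)
    rw [intervalIntegral.integral_add ((c1 s).intervalIntegrable 0 1)
      ((c1 t).intervalIntegrable 0 1), ← e, ← e] at h2
    rw [intervalIntegral.integral_const, smul_eq_mul] at h1
    linarith
  onp := by
    intro y Γ ρ n r j j' h hd ho θ hθ
    have := ho θ hθ
    rwa [add_comm (j : ℝ), DdL.per h hd θ, add_comm θ] at this

end Pool.Agent.MP_7bf9b2_an

end

section

/-! The dichotomy for records. -/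

namespace Pool.Agent.MP_7bf9b2_an

open scoped Topology
open Set Filter MeasureTheory Metric

set_option maxSynthPendingDepth 3

theorem dich : DichStmt := by
  intro as hpos hinf B n₀ γ C₁ b₀ hγ hb₀
  have hρ : ∀ k : ℕ, ∃ r, 1 ≤ r ∧ (1 ≤ k → r ≤ k) ∧ ∀ l, 1 ≤ l → l ≤ k → as r ≤ as l := by
    intro k
    rcases Nat.eq_zero_or_pos k with rfl | hk
    · exact ⟨1, le_rfl, fun h => h, fun l a b => by omega⟩
    obtain ⟨r, r1, r2⟩ := (Finset.Icc 1 k).exists_min_image as ⟨1, Finset.mem_Icc.2 ⟨le_rfl, hk⟩⟩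
    exact ⟨r, (Finset.mem_Icc.1 r1).1, fun _ => (Finset.mem_Icc.1 r1).2,
      fun l a b => r2 l (Finset.mem_Icc.2 ⟨a, b⟩)⟩
  choose ρ r1 r2 r3 using hρ
  have hun : ∀ N : ℕ, ∃ k₀, 1 ≤ k₀ ∧ ∀ k, k₀ ≤ k → N ≤ ρ k := by
    intro N
    have := hpos _ (r1 N)
    obtain ⟨l, l1, l2⟩ := hinf (as (ρ N) / 2) (by linarith)
    refine ⟨l, l1, fun k hk => ?_⟩
    by_contra c
    linarith [r3 k l l1 hk, r3 N (ρ k) (r1 k) (by omega)]
  obtain ⟨l₀, l1, l2⟩ := hinf b₀ hb₀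
  by_contra hc
  have key : ∀ k, 1 ≤ k → n₀ + 2 * l₀ + 2 * B ≤ ρ k → as (ρ (ρ k / 2 + B)) < C₁ * as (ρ k) ∧
      as (ρ (k + B)) < (1 - γ) * as (ρ k) := by
    intro k hk h
    have a := r2 k hk
    have a2 := r2 (ρ k / 2 + B) (by omega)
    by_contra c
    refine hc ⟨ρ k, as (ρ (ρ k / 2 + B)), by omega, r1 k, r3 k _ (r1 _) (by omega),
      (r3 _ l₀ l1 (by omega)).trans l2, fun l b d => r3 k l b (by omega), r3 _, ?_⟩
    rw [not_and_or, not_lt, not_lt] at c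
    exact c.imp_right fun c l b d => c.trans (r3 _ l b (by omega))
  obtain ⟨k₀, k1, k2⟩ := hun (n₀ + 2 * l₀ + 2 * B)
  have h0 : 0 < 1 - γ :=
    (mul_pos_iff_of_pos_right (hpos _ (r1 _))).1
      ((hpos _ (r1 _)).trans (key k₀ k1 (k2 _ le_rfl)).2)
  have it : ∀ k, k₀ ≤ k → ∀ j : ℕ, as (ρ (k + j * B)) ≤ (1 - γ) ^ j * as (ρ k) := by
    intro k hk j
    induction j with
    | zero => simp
    | succ j ih =>
      rw [add_mul, one_mul, ← add_assoc, pow_succ', mul_assoc]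
      exact (key _ (by omega) (k2 _ (by omega))).2.le.trans (mul_le_mul_of_nonneg_left ih h0.le)
  obtain ⟨j, hj⟩ := exists_pow_lt_of_lt_one (show 0 < 1 / (|C₁| + 1) by positivity)
    (show 1 - γ < 1 by linarith)
  obtain ⟨k, k3, k4⟩ := hun (n₀ + 2 * l₀ + 2 * B + 2 * k₀ + 2 * (j * B))
  have a := k4 k le_rfl
  have a1 := r2 k k3
  have a2 := r2 (ρ k / 2 + B + j * B) (by omega)
  have b1 := r3 k _ (r1 (ρ k / 2 + B + j * B)) (by omega)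
  have b2 := it (ρ k / 2 + B) (by omega) j
  have b3 := mul_lt_mul_of_pos_left (key k k3 (by omega)).1 (pow_pos h0 j)
  rw [lt_div_iff₀ (by positivity)] at hj
  have b4 : (1 - γ) ^ j * C₁ ≤ 1 := by nlinarith [le_abs_self C₁, pow_pos h0 j]
  nlinarith [hpos _ (r1 k)]

end Pool.Agent.MP_7bf9b2_an

end

section

set_option maxSynthPendingDepth 3

namespace Pool.Agent.MP_7bf9b2_an

open scoped Topology
open Set Filter MeasureTheory Metric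

variable {E : Type} [NormedAddCommGroup E] [InnerProductSpace ℝ E] [FiniteDimensional ℝ E]

namespace FlbL

/-- bounded tangent vectors with initial time in the unit interval -/
def K0 (G : Geo E) (R : ℝ) : Set (PP E) :=
  (G.M₀ ×ˢ closedBall (0 : E) R ×ˢ Icc (0 : ℝ) 1) ∩
    (fun p : PP E => fderiv ℝ G.r p.1 p.2.1 - p.2.1) ⁻¹' {0}

theorem K0_sub (G : Geo E) (R : ℝ) : K0 G R ⊆ G.TM := fun _ hp =>
  ⟨hp.1.1, sub_eq_zero.1 hp.2⟩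

theorem K0_cpt (G : Geo E) (R : ℝ) : IsCompact (K0 G R) := by
  have : ProperSpace E := FiniteDimensional.proper_real E
  have hB : IsCompact (G.M₀ ×ˢ closedBall (0 : E) R ×ˢ Icc (0 : ℝ) 1) :=
    G.cpt.prod ((isCompact_closedBall _ _).prod isCompact_Icc)
  have h1 : ContinuousOn (fderiv ℝ G.r) G.U :=
    G.smoothU.continuousOn_fderiv_of_isOpen G.isOpen_U (by norm_num)
  have h2 : ContinuousOn (fun p : PP E => fderiv ℝ G.r p.1 p.2.1 - p.2.1)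
      (G.M₀ ×ˢ closedBall (0 : E) R ×ˢ Icc (0 : ℝ) 1) :=
    ((h1.comp continuous_fst.continuousOn fun p hp => G.M_sub_U hp.1).clm_apply
      continuous_snd.fst.continuousOn).sub continuous_snd.fst.continuousOn
  exact hB.of_isClosed_subset (h2.preimage_isClosed_of_isClosed hB.isClosed isClosed_singleton)
    inter_subset_left

theorem red (hB : Bas E) {G : Geo E} {Λ : PP E → ℝ} {Y : PP E → ℝ → E} (hY : Fl G Λ Y) {R : ℝ}
    {p : PP E} (hp : p ∈ G.TM) (hR : ‖p.2.1‖ ≤ R) : ∃ q ∈ K0 G R, q.2.1 = p.2.1 ∧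
      ∀ t, deriv (Y p) t = deriv (Y q) (q.2.2 + (t - p.2.2)) := by
  obtain ⟨x, v, s⟩ := p
  refine ⟨(x, v, s - ⌊s⌋), ⟨⟨hp.1, mem_closedBall_zero_iff.2 hR, ?_, ?_⟩, sub_eq_zero.2 hp.2⟩,
    rfl, fun t => ?_⟩
  · exact sub_nonneg.2 (Int.floor_le s)
  · have := Int.lt_floor_add_one s
    change s - ⌊s⌋ ≤ 1
    linarith
  · have e : Y (x, v, s) = fun τ => Y (x, v, s - ⌊s⌋) (τ - ⌊s⌋) := by
      funext τ
      have := hB.shf.flp hY x v (s - ⌊s⌋) ⟨hp.1, hp.2⟩ ⌊s⌋ (τ - ⌊s⌋)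
      rwa [sub_add_cancel, sub_add_cancel] at this
    rw [e, deriv_comp_sub_const]
    congr 1
    change t - ⌊s⌋ = s - ⌊s⌋ + (t - s)
    ring

theorem cont {G : Geo E} {Λ : PP E → ℝ} {Y : PP E → ℝ → E} (hY : Fl G Λ Y) (R : ℝ) (S : Set ℝ) :
    ContinuousOn (fun q : PP E × ℝ => deriv (Y q.1) (q.1.2.2 + q.2)) (K0 G R ×ˢ S) := by
  have h1 : Continuous fun q : PP E × ℝ => (q.1, q.1.2.2 + q.2) := by fun_prop
  have h2 := hY.cont.comp (s := K0 G R ×ˢ S) h1.continuousOn fun q hq =>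
    ⟨K0_sub G R hq.1, mem_univ _⟩
  exact continuous_snd.fst.comp_continuousOn h2

end FlbL

theorem flb (hB : Bas E) : FlbStmt E := by
  intro G Λ Y hY R₀
  refine ⟨fun T₀ => ?_, fun o ho => ?_⟩
  · obtain ⟨C, hC⟩ := ((FlbL.K0_cpt G R₀).prod (isCompact_Icc (a := -T₀) (b := T₀))
      ).exists_bound_of_continuousOn (FlbL.cont hY R₀ _)
    refine ⟨max C 0, le_max_right _ _, fun p hp hR t ht => ?_⟩
    obtain ⟨q, hq, -, h⟩ := FlbL.red hB hY hp hR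
    rw [h t]
    exact (hC (q, t - p.2.2) ⟨hq, abs_le.1 ht⟩).trans (le_max_left _ _)
  · obtain ⟨δ, hδ, hu⟩ := Metric.uniformContinuousOn_iff.1
      (((FlbL.K0_cpt G R₀).prod (isCompact_Icc (a := (-1 : ℝ)) (b := 1))
        ).uniformContinuousOn_of_continuous (FlbL.cont hY R₀ _)) o ho
    refine ⟨min (δ / 2) 1, lt_min (half_pos hδ) one_pos, fun p hp hR t ht => ?_⟩
    obtain ⟨q, hq, hv, h⟩ := FlbL.red hB hY hp hR
    have h1 := hu (q, t - p.2.2) ⟨hq, abs_le.1 (ht.trans (min_le_right _ _))⟩ (q, 0)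
      ⟨hq, by norm_num, by norm_num⟩ (by
        rw [Prod.dist_eq, dist_self, Real.dist_eq, sub_zero]
        exact max_lt hδ ((ht.trans (min_le_left _ _)).trans_lt (half_lt_self hδ)))
    have h2 : deriv (Y q) q.2.2 = q.2.1 :=
      congrArg (fun r : PP E => r.2.1) (hY.init q (FlbL.K0_sub G R₀ hq))
    rw [dist_eq_norm] at h1
    simp only [add_zero, h2] at h1
    rw [h t, ← hv]
    exact h1.le

end Pool.Agent.MP_7bf9b2_an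

end

section

/-! A curve whose mean square distance to the strands is small follows one strand. -/

namespace Pool.Agent.MP_7bf9b2_an

open scoped Topology
open Set Filter MeasureTheory Metric

set_option linter.unusedSectionVars false
set_option maxSynthPendingDepth 3

variable {E : Type} [NormedAddCommGroup E] [InnerProductSpace ℝ E] [FiniteDimensional ℝ E]

namespace GonL

/-- a Lipschitz function with small mean square stays below `ρ` -/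
theorem small {g : ℝ → ℝ} {C ρ r : ℝ} (hC : 0 ≤ C) (hρ : 0 < ρ)
    (hg : ∀ t t', |g t - g t'| ≤ C * ρ * |t - t'|)
    (h : ∫ t in r..(r + 1), g t ^ 2 ≤ 1 / (16 * (C + 1)) * ρ ^ 2) :
    ∀ t ∈ Icc r (r + 1), g t < ρ := by
  intro t0 ht0
  by_contra hn
  have hn' : ρ ≤ g t0 := not_lt.1 hn
  have hc : Continuous g := by
    refine (LipschitzWith.of_dist_le' (K := C * ρ) fun x y => ?_).continuous
    rw [Real.dist_eq, Real.dist_eq]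
    exact hg x y
  set η : ℝ := 1 / (2 * (C + 1)) with hη
  have hη0 : 0 < η := by positivity
  have hη1 : η * (2 * (C + 1)) = 1 := by rw [hη]; field_simp
  have hη2 : η ≤ 1 := by nlinarith
  set a : ℝ := min t0 (r + 1 - η) with ha
  have ha1 : r ≤ a := le_min ht0.1 (by linarith)
  have ha2 : a + η ≤ r + 1 := by have := min_le_right t0 (r + 1 - η); linarith
  have ha3 : a ≤ t0 := min_le_left _ _
  have ha4 : t0 ≤ a + η := by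
    rcases le_total t0 (r + 1 - η) with h1 | h1
    · rw [ha, min_eq_left h1]; linarith
    · rw [ha, min_eq_right h1]; linarith [ht0.2]
  have h1 : ∫ t in a..(a + η), g t ^ 2 ≤ ∫ t in r..(r + 1), g t ^ 2 :=
    intervalIntegral.integral_mono_interval ha1 (by linarith) ha2
      (Eventually.of_forall fun t => sq_nonneg (g t)) ((hc.pow 2).intervalIntegrable _ _)
  have h2 : ∫ _t in a..(a + η), (ρ / 2) ^ 2 ≤ ∫ t in a..(a + η), g t ^ 2 := by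
    refine intervalIntegral.integral_mono_on (by linarith) intervalIntegrable_const
      ((hc.pow 2).intervalIntegrable _ _) fun t ht => ?_
    have h3 : |t0 - t| ≤ η := abs_le.2 ⟨by linarith [ht.2], by linarith [ht.1]⟩
    have h4 : g t0 - g t ≤ C * ρ * η :=
      (le_abs_self _).trans ((hg t0 t).trans (mul_le_mul_of_nonneg_left h3 (by positivity)))
    have h5 : C * η ≤ 1 / 2 := by nlinarith
    have h6 : C * ρ * η ≤ ρ / 2 := by nlinarith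
    exact pow_le_pow_left₀ (by positivity) (by linarith) 2
  rw [intervalIntegral.integral_const, smul_eq_mul] at h2
  have h7 : 1 / (16 * (C + 1)) = η / 8 := by rw [hη]; field_simp; norm_num
  rw [h7] at h
  have h8 : 0 < η * ρ ^ 2 := by positivity
  nlinarith

/-- near the strands on an interval, one strand is the nearest one -/
theorem one (hB : Bas E) {y Γ : ℝ → E} {ρ a b : ℝ} {n : ℕ} (hy : Continuous y)
    (hΓ : Continuous Γ) (hn : 0 < n) (hp : Function.Periodic Γ (n : ℝ)) (hρ : 0 < ρ)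
    (hgap : Gap Γ n (3 * ρ)) (hab : a ≤ b) (h : ∀ τ ∈ Icc a b, dd Γ (y τ) τ < ρ) :
    ∃ i : ℤ, ∀ τ ∈ Icc a b, dd Γ (y τ) τ = ‖y τ - Γ (τ + i)‖ := by
  obtain ⟨i0, -, -, hi0⟩ := hB.dd.att hn hp (y a) a
  refine ⟨i0, fun τ hτ => hB.dd.uniq hp hgap _ _ _ ?_⟩
  have hf : Continuous fun τ : ℝ => ‖y τ - Γ (τ + i0)‖ := by fun_prop
  have hne : ∀ s ∈ Icc a b, ‖y s - Γ (s + i0)‖ ≠ ρ := by
    intro s hs he
    obtain ⟨i, -, -, hi⟩ := hB.dd.att hn hp (y s) s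
    have hlt := h s hs
    rw [hi] at hlt
    by_cases hd : (n : ℤ) ∣ i - i0
    · obtain ⟨k, hk⟩ := hd
      have e1 : s + (i : ℝ) = s + i0 + k * n := by
        have : (i : ℝ) - i0 = n * k := by exact_mod_cast hk
        linarith
      rw [e1, hp.int_mul k] at hlt
      linarith
    · have h1 := hgap (s + i0) (i - i0) hd
      have e1 : s + (i0 : ℝ) + ((i - i0 : ℤ) : ℝ) = s + i := by push_cast; ring
      rw [e1] at h1
      have h2 := norm_sub_le_norm_sub_add_norm_sub (Γ (s + i)) (y s) (Γ (s + i0))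
      rw [norm_sub_rev (Γ (s + i)) (y s)] at h2
      linarith
  have hlt : ‖y τ - Γ (τ + i0)‖ < ρ := by
    by_contra hge
    have h0 : ‖y a - Γ (a + i0)‖ < ρ := by
      rw [← hi0]; exact h a ⟨le_rfl, hab⟩
    obtain ⟨s, hs, he⟩ := intermediate_value_Icc hτ.1 hf.continuousOn ⟨h0.le, not_lt.1 hge⟩
    exact hne s ⟨hs.1, hs.2.trans hτ.2⟩ he
  linarith

end GonL

theorem gon (hB : Bas E) : GonStmt E := by
  intro C hC
  refine ⟨1 / (16 * (C + 1)), by positivity, ?_⟩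
  intro y Γ ρ n hy hΓ hn hp hρ hgap hg r hD
  have h1 := GonL.small (g := gg Γ ρ y) hC hρ hg hD
  have h2 : ∀ τ ∈ Icc (r : ℝ) (r + 1), dd Γ (y τ) τ < ρ := fun τ hτ => by
    have := h1 τ hτ
    unfold gg at this
    rcases min_lt_iff.1 this with h | h
    · exact h
    · exact absurd h (lt_irrefl _)
  obtain ⟨i, hi⟩ := GonL.one hB hy hΓ hn hp hρ hgap (by linarith) h2
  have hn' : (0 : ℤ) < n := by exact_mod_cast hn
  refine ⟨(r + i) % n, Int.emod_nonneg _ hn'.ne', Int.emod_lt_of_pos _ hn', ?_⟩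
  refine hB.dd.onp (j := r + i) hp (Int.dvd_self_sub_emod) fun θ hθ => ?_
  have hτ : (r : ℝ) + θ ∈ Icc (r : ℝ) (r + 1) := ⟨by linarith [hθ.1], by linarith [hθ.2]⟩
  have e1 : ((r + i : ℤ) : ℝ) + θ = r + θ + i := by push_cast; ring
  rw [e1, ← hi _ hτ]
  exact le_min le_rfl (h2 _ hτ).le

end Pool.Agent.MP_7bf9b2_an

end

section

/-! Compactness of sequences of near minimizers. -/

set_option maxSynthPendingDepth 3

namespace Pool.Agent.MP_7bf9b2_an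

open scoped Topology
open Set Filter MeasureTheory Metric

variable {E : Type} [NormedAddCommGroup E] [InnerProductSpace ℝ E] [FiniteDimensional ℝ E]

namespace Lim1L

variable {G : Geo E} {Λ : PP E → ℝ} {γ : ℕ → ℝ → E} {ε : ℕ → ℝ} {B : ℝ}

omit [FiniteDimensional ℝ E] in
theorem cv (h : NM G Λ γ ε B) (j : ℕ) (s t : ℝ) : Cv (γ j) s t :=
  (h.lip j).imp fun _ hC => hC.lipschitzOnWith

theorem nrm (hB : Bas E) (h : NM G Λ γ ε B) (j : ℕ) {s t : ℝ} (hst : s ≤ t) :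
    ‖γ j t - γ j s‖ ≤ ∫ τ in s..t, ‖deriv (γ j) τ‖ := by
  rw [← (hB.cur.ftc hst (cv h j s t)).2]
  exact intervalIntegral.norm_integral_le_integral_norm hst

theorem low (hB : Bas E) (hL : Lag G Λ) (h : NM G Λ γ ε B) (A : ℝ) : ∃ C : ℝ, 0 ≤ C ∧
    ∀ (j : ℕ) (s t : ℝ), s ≤ t →
      A * (∫ τ in s..t, ‖deriv (γ j) τ‖) - C * (t - s) ≤ act Λ (γ j) s t := by
  obtain ⟨C, hC⟩ := hL.sup A
  exact ⟨|C|, abs_nonneg _, fun j s t hst => hB.pth.low hL hst (cv h j s t)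
    (fun τ _ => G.M_sub_U1 (h.mem j τ)) fun p hp => by linarith [hC p hp, le_abs_self C]⟩

theorem md (hB : Bas E) (hL : Lag G Λ) (h : NM G Λ γ ε B) {δ : ℝ} (hδ : 0 < δ) :
    ∃ η > 0, ∀ (j : ℕ) (a b : ℝ), |b - a| ≤ η → ‖γ j b - γ j a‖ ≤ δ := by
  obtain ⟨C0, c0, h0⟩ := low hB hL h 0
  have hD : 0 < |B| + C0 + 1 := by positivity
  obtain ⟨C, c, h1⟩ := low hB hL h ((|B| + C0 + 1) / δ)
  have key : ∀ (j : ℕ) (a b : ℝ), a ≤ b → b - a ≤ 1 / (C + 1) → ‖γ j b - γ j a‖ ≤ δ := by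
    intro j a b hab hb
    have e1 : (b - a) * (C + 1) ≤ 1 := by rwa [le_div_iff₀ (by positivity)] at hb
    have e2 : 0 ≤ C * (b - a) := mul_nonneg c (by linarith)
    have e3 : b ≤ a + 1 := by nlinarith
    have e4 := hB.pth.add hL hab e3 (cv h j a (a + 1)) fun τ _ => G.M_sub_U1 (h.mem j τ)
    have e5 := h0 j b (a + 1) e3
    have e6 := h1 j a b hab
    have e7 := mul_le_mul_of_nonneg_left (nrm hB h j hab) (div_pos hD hδ).le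
    have e8 : C0 * (a + 1 - b) ≤ C0 := mul_le_of_le_one_right c0 (by linarith)
    have e9 : (|B| + C0 + 1) / δ * ‖γ j b - γ j a‖ ≤ |B| + C0 + 1 := by
      nlinarith [h.bd j a, le_abs_self B]
    rw [div_mul_eq_mul_div, div_le_iff₀ hδ] at e9
    exact le_of_mul_le_mul_left e9 hD
  refine ⟨1 / (C + 1), by positivity, fun j a b hab => ?_⟩
  rcases le_total a b with e | e
  · exact key j a b e ((le_abs_self _).trans hab)
  · rw [norm_sub_rev]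
    rw [abs_sub_comm] at hab
    exact key j b a e ((le_abs_self _).trans hab)

theorem sm (hB : Bas E) (hL : Lag G Λ) (h : NM G Λ γ ε B) : ∃ R : ℝ, ∀ k : ℕ, 0 < k → ∀ j : ℕ,
    ∑ i ∈ Finset.range k, ‖γ j (i / k + 1 / k) - γ j (i / k)‖ ≤ R := by
  obtain ⟨C, -, h1⟩ := low hB hL h 1
  refine ⟨B + C, fun k hk j => ?_⟩
  have hk' : (0 : ℝ) < k := Nat.cast_pos.2 hk
  have e0 : ∀ i : ℕ, (i : ℝ) / k ≤ ((i + 1 : ℕ) : ℝ) / k := fun i =>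
    div_le_div_of_nonneg_right (Nat.cast_le.2 (Nat.le_succ i)) hk'.le
  have e1 := intervalIntegral.sum_integral_adjacent_intervals (μ := volume)
    (f := fun τ => ‖deriv (γ j) τ‖) (a := fun i : ℕ => (i : ℝ) / k) (n := k)
    fun i _ => (hB.cur.ftc (e0 i) (cv h j _ _)).1.norm
  have e2 := h1 j 0 1 zero_le_one
  have e3 := h.bd j 0
  simp only [Nat.cast_zero, zero_div, div_self hk'.ne'] at e1
  rw [zero_add] at e3
  refine (Finset.sum_le_sum fun i _ => ?_).trans (e1.le.trans (by linarith))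
  have := nrm hB h j (e0 i)
  rwa [Nat.cast_succ, add_div] at this ⊢

end Lim1L

theorem lim1 (hB : Bas E) : Lim1Stmt E := by
  intro G Λ γ ε B hL h
  have h1 : ∀ t, ∃ x ∈ G.M₀, Tendsto (fun j => γ j t) (hyperfilter ℕ) (𝓝 x) := fun t =>
    G.cpt.ultrafilter_le_nhds ((hyperfilter ℕ).map fun j => γ j t)
      (le_principal_iff.2 (mem_map.2 (univ_mem' fun j => h.mem j t)))
  choose g g1 g2 using h1
  have h2 : ∀ δ > 0, ∃ η > 0, (∀ (j : ℕ) (a b : ℝ), |b - a| ≤ η → ‖γ j b - γ j a‖ ≤ δ) ∧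
      ∀ a b : ℝ, |b - a| ≤ η → ‖g b - g a‖ ≤ δ := fun δ hδ => by
    obtain ⟨η, h3, h4⟩ := Lim1L.md hB hL h hδ
    exact ⟨η, h3, h4, fun a b hab =>
      le_of_tendsto' ((g2 b).sub (g2 a)).norm fun j => h4 j a b hab⟩
  refine ⟨hyperfilter ℕ, g, ⟨inferInstance, Nat.hyperfilter_le_atTop, fun a b δ hδ => ?_⟩,
    Metric.uniformContinuous_iff_le.2 fun δ hδ => ?_, g1, ?_⟩
  · obtain ⟨η, h3, h4, h5⟩ := h2 (δ / 3) (by positivity)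
    refine isCompact_Icc.induction_on
      (p := fun s => ∀ᶠ j in (hyperfilter ℕ : Filter ℕ), ∀ τ ∈ s, ‖γ j τ - g τ‖ ≤ δ)
      (Eventually.of_forall fun _ _ h => h.elim)
      (fun s t hst ht => ht.mono fun j hj τ hτ => hj τ (hst hτ))
      (fun s t hs ht => (hs.and ht).mono fun j hj τ hτ => hτ.elim (hj.1 τ) (hj.2 τ))
      fun x _ => ⟨closedBall x η, mem_nhdsWithin_of_mem_nhds (closedBall_mem_nhds x h3), ?_⟩
    filter_upwards [g2 x (closedBall_mem_nhds _ (show 0 < δ / 3 by positivity))] with j hj τ hτ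
    have e1 : ‖γ j x - g x‖ ≤ δ / 3 := mem_closedBall_iff_norm.1 hj
    have e2 := h4 j x τ hτ
    have e3 := h5 x τ hτ
    have e4 := norm_sub_le_norm_sub_add_norm_sub (γ j τ) (γ j x) (g τ)
    have e5 := norm_sub_le_norm_sub_add_norm_sub (γ j x) (g x) (g τ)
    rw [norm_sub_rev] at e3
    linarith
  · obtain ⟨η, h3, -, h5⟩ := h2 δ hδ
    exact ⟨η, h3, fun {a b} hab => by rw [dist_eq_norm]; exact h5 b a hab⟩
  · obtain ⟨R, hR⟩ := Lim1L.sm hB hL h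
    refine ⟨R, fun k hk => ?_⟩
    have hk' : (k : ℝ) ≠ 0 := Nat.cast_ne_zero.2 hk.ne'
    have e1 : ∑ i ∈ Finset.range k, ‖g (i / k + 1 / k) - g (i / k)‖ ≤
        ∑ _i ∈ Finset.range k, R * (1 / k) := by
      rw [Finset.sum_const, Finset.card_range, nsmul_eq_mul, mul_left_comm, mul_one_div_cancel hk',
        mul_one]
      exact le_of_tendsto' (tendsto_finsetSum _ fun i _ => ((g2 _).sub (g2 _)).norm) (hR k hk)
    obtain ⟨i, -, hi⟩ := Finset.exists_le_of_sum_le (Finset.nonempty_range_iff.2 hk.ne') e1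
    exact ⟨_, hi⟩

end Pool.Agent.MP_7bf9b2_an

end

section

/-! The locking argument in the case of positive excess. -/

set_option maxSynthPendingDepth 3

namespace Pool.Agent.MP_7bf9b2_an

open scoped Topology
open Set Filter MeasureTheory Metric

variable {E : Type} [NormedAddCommGroup E] [InnerProductSpace ℝ E] [FiniteDimensional ℝ E]

theorem lk (hB : Bas E) (hc : CbStmt) (hd : DichStmt) (hp : PrepStmt E) (h1 : OneStmt E)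
    (h2 : TwoStmt E) (h5 : FiveStmt E) (hx : CrossStmt E) (hg : GonStmt E) (he : EndStmt E) :
    LkStmt E := by
  intro G Λ₀ σ₀ R κ K A β ε as hb hε hpos hδ
  have hK := (hb.uni Λ₀ hb.lag (Close.refl hb.s0.le)).bd.K1
  have hK0 : 0 < K := by linarith
  have hr := G.r0_pos
  obtain ⟨C₄, hC₄, hX⟩ := hx G κ K
  obtain ⟨lam, hl, hG⟩ := hg C₄ hC₄
  obtain ⟨B, n₀, γ, C₁, hγ, hC⟩ := hc K (ε / 2) (min (1 / 2) ε / 4) (min (1 / 4) lam) hK0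
    (by positivity) (by positivity) (by positivity) (min_le_left _ _)
  obtain ⟨n, b, hn0, hn1, hab, hb0, m1, m2, m3⟩ := hd as hpos hδ B n₀ γ C₁ (8 * K * G.r0 ^ 2) hγ
    (by positivity)
  have ha := hpos n hn1
  have hbp : 0 < b := ha.trans_le hab
  obtain ⟨ρ, hρ, eρ⟩ : ∃ ρ : ℝ, 0 < ρ ∧ b = 32 * K * ρ ^ 2 :=
    ⟨√(b / (32 * K)), by positivity, by rw [Real.sq_sqrt (by positivity)]; field_simp⟩
  have hρ2 : 2 * ρ ≤ G.r0 := by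
    refine (sq_le_sq₀ (by positivity) hr.le).1 ?_
    exact le_of_mul_le_mul_left (a := 8 * K) (by linarith) (by positivity)
  refine ⟨n, n, ρ, hn1, hn1, dvd_rfl, Or.inl rfl, hρ, hρ2, fun k k0 kn => ?_, fun Γ₀ φ hch => ?_⟩
  · rw [← eρ]
    rcases le_or_gt k (n / 2) with h | h
    · linarith [m2 k k0 (by omega), m1 (n - k) (by omega) (by omega)]
    · linarith [m2 (n - k) (by omega) (by omega), m1 k k0 kn.le]
  obtain ⟨μ, hμ, hP⟩ := hp hb hch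
  obtain ⟨τ₁, hτ₁, hT⟩ := hC n as b hn0 ha hab hb.nn m1 m2 m3 μ hμ
  have hn : (0 : ℝ) < n := by exact_mod_cast hn1
  obtain ⟨σ, hσ, hS⟩ := hP (min τ₁ (b / n)) (by positivity)
  refine ⟨σ, hσ, fun Λ Y hL hY hcl => ?_⟩
  obtain ⟨α, Γ, hlow, horb, hpm, hspd, hgap, hact, hex, hall⟩ := hS Λ Y hL hY hcl
  refine he hL hn1 hρ hlow horb hpm hgap hex fun y hy => ?_
  obtain ⟨⟨σ', ctx⟩, four, -⟩ := hall y hy
  refine ⟨ctx.cont, ?_⟩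
  have hact' : act Λ Γ 0 n + α * n ≤ 64 * K * ρ ^ 2 := by
    have := (le_div_iff₀' hn).1 (min_le_right τ₁ (b / n))
    linarith
  have hlip := hB.dd.lip (hy.el.cu.c2.differentiable two_ne_zero)
    (hpm.el.cu.c2.differentiable two_ne_zero) hρ.le (mul_nonneg hC₄ hρ.le)
    (hX Λ y Γ R α ρ n hL ctx.bd hy ctx.spd hpm.el hspd hn1 hpm.per hρ ctx.rle hact')
  have hi : ∀ r : ℤ, ∃ j : ℤ, (0 ≤ j ∧ j < n) ∧
      (DD Γ ρ y r ≤ min (1 / 4) lam * ρ ^ 2 → On y Γ ρ r j) := fun r => by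
    by_cases h : DD Γ ρ y r ≤ min (1 / 4) lam * ρ ^ 2
    · obtain ⟨j, j0, j1, j2⟩ := hG y Γ ρ n hy.el.cu.c2.continuous hpm.el.cu.c2.continuous hn1
        hpm.per hρ hgap hlip r
        (h.trans (mul_le_mul_of_nonneg_right (min_le_right _ _) (sq_nonneg ρ)))
      exact ⟨j, ⟨j0, j1⟩, fun _ => j2⟩
    · exact ⟨0, ⟨le_rfl, by exact_mod_cast hn1⟩, fun h' => absurd h' h⟩
  choose idx i1 i2 using hi
  obtain ⟨C, five⟩ := h5 ctx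
  exact hT (ρ ^ 2) _ C (DD Γ ρ y) idx eρ (add_le_add_right (min_le_left _ _) _)
    (hB.dd.DDb hρ.le ctx.cont) i1
    (fun s s' t' t a1 a2 a3 b1 b2 b3 b4 c1 c2 =>
      h2 ctx s s' t' t _ _ a1 a2 a3 (i2 s b1) (c1 ▸ i2 t b4) (i2 s' b2) (c2 ▸ i2 t' b3))
    (fun s t a1 b1 b2 c1 => h1 ctx s t _ a1 (i2 s b1) (c1 ▸ i2 t b2)) four five

end Pool.Agent.MP_7bf9b2_an

end

section

namespace Pool.Agent.MP_7bf9b2_an

open scoped Topology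
open Set Filter MeasureTheory Metric

set_option maxSynthPendingDepth 3

variable {E : Type} [NormedAddCommGroup E] [InnerProductSpace ℝ E] [FiniteDimensional ℝ E]

theorem modS (hB : Bas E) : ModStmt E := by
  intro G Λ η a b hL hab hη hM δ hδ
  have : ProperSpace E := FiniteDimensional.proper_real E
  obtain ⟨C, hC⟩ := hη
  have hba : 0 < b - a := sub_pos.2 hab
  have hc : ContinuousOn Λ {p : PP E | p.1 ∈ G.U1} :=
    hL.smooth.continuousOn.mono fun p hp => G.U1_sub_U hp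
  have hK : IsCompact (G.U1 ×ˢ closedBall (0 : E) (C + 1) ×ˢ Icc a b) :=
    G.isCompact_U1.prod ((isCompact_closedBall _ _).prod isCompact_Icc)
  obtain ⟨θ, hθ, hu⟩ := Metric.uniformContinuousOn_iff.1
    (hK.uniformContinuousOn_of_continuous (hc.mono fun p hp => hp.1)) (δ / (b - a))
    (by positivity)
  obtain ⟨μ, hμ, hμ1, hμθ⟩ : ∃ μ : ℝ, 0 < μ ∧ μ ≤ 1 ∧ μ < θ :=
    ⟨min 1 (θ / 2), by positivity, min_le_left _ _, (min_le_right _ _).trans_lt (by linarith)⟩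
  have hr := G.r0_pos
  refine ⟨min (G.r0 / 2) (min (μ / 3) ((b - a) * μ / 2)), by positivity, fun w₁ w₂ h1 h2 => ?_⟩
  simp only [le_min_iff] at h1 h2
  obtain ⟨u, hu0⟩ : ∃ u : E, u = (b - a)⁻¹ • (w₂ - w₁) := ⟨_, rfl⟩
  have hu1 : (b - a) • u = w₂ - w₁ := by rw [hu0, smul_inv_smul₀ hba.ne']
  have hu2 : (b - a) * ‖u‖ ≤ ‖w₂‖ + ‖w₁‖ := by
    have h3 := norm_sub_le w₂ w₁
    rwa [← hu1, norm_smul, Real.norm_of_nonneg hba.le] at h3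
  have hu3 : ‖u‖ ≤ μ := le_of_mul_le_mul_left (by linarith [h1.2.2, h2.2.2]) hba
  have hξ : ∀ τ ∈ Icc a b, ‖w₁ + (τ - a) • u‖ ≤ ‖w₁‖ + (‖w₂‖ + ‖w₁‖) := fun τ hτ => by
    refine (norm_add_le _ _).trans (add_le_add le_rfl (le_trans ?_ hu2))
    rw [norm_smul, Real.norm_of_nonneg (sub_nonneg.2 hτ.1)]
    exact mul_le_mul_of_nonneg_right (by linarith [hτ.2]) (norm_nonneg u)
  have hγU : ∀ τ ∈ Icc a b, η τ + (w₁ + (τ - a) • u) ∈ G.U1 := fun τ hτ =>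
    G.add_mem_U1 (hM τ hτ) (by linarith [hξ τ hτ, h1.1, h2.1])
  have hγ : Cv (fun τ => η τ + (w₁ + (τ - a) • u)) a b := by
    obtain ⟨C', hC'⟩ := hB.cur.c1 (γ := fun τ : ℝ => w₁ + (τ - a) • u) a b (by fun_prop)
    exact ⟨C + C', hC.add hC'⟩
  refine ⟨hab.le, fun τ => η τ + (w₁ + (τ - a) • u), hγ, hγU, by simp, by simp [hu1], ?_⟩
  have i1 := hB.cur.intF hab.le hγ hc hγU
  have i2 := hB.cur.intF hab.le ⟨C, hC⟩ hc fun τ hτ => G.M_sub_U1 (hM τ hτ)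
  have h3 := intervalIntegral.integral_mono_ae_restrict hab.le i1
    (i2.add (intervalIntegrable_const (c := δ / (b - a)))) (by
      refine (ae_restrict_iff' measurableSet_Icc).2 ?_
      filter_upwards [hB.cur.ae hC] with τ hτ hm
      obtain ⟨hd, hn⟩ := hτ hm
      have h4 : HasDerivAt (fun τ => η τ + (w₁ + (τ - a) • u)) (deriv η τ + u) τ := by
        have h5 := (((hasDerivAt_id τ).sub_const a).smul_const u).const_add w₁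
        rw [one_smul] at h5
        exact hd.hasDerivAt.add h5
      have h5 := hu (ph (fun τ => η τ + (w₁ + (τ - a) • u)) τ) ⟨hγU τ hm, by
          rw [mem_closedBall_zero_iff]
          show ‖deriv _ τ‖ ≤ _
          rw [h4.deriv]
          linarith [norm_add_le (deriv η τ) u], hm⟩ (ph η τ)
        ⟨G.M_sub_U1 (hM τ hm), by
          rw [mem_closedBall_zero_iff]
          show ‖deriv η τ‖ ≤ _
          linarith, hm⟩ (by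
          simp only [ph, Prod.dist_eq, h4.deriv, dist_self_add_left, dist_self, max_lt_iff]
          exact ⟨by linarith [hξ τ hm, h1.2.1, h2.2.1], by linarith, hθ⟩)
      rw [Real.dist_eq] at h5
      show Λ _ ≤ Λ _ + _
      linarith [(abs_lt.1 h5).2])
  rw [intervalIntegral.integral_add i2 intervalIntegrable_const, intervalIntegral.integral_const,
    smul_eq_mul, mul_div_cancel₀ _ hba.ne'] at h3
  exact h3

end Pool.Agent.MP_7bf9b2_an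

end

section

/-! A periodic potential that vanishes on a closed orbit, with uniform bounds. -/

set_option maxSynthPendingDepth 3

namespace Pool.Agent.MP_7bf9b2_an

open scoped Topology
open Set Filter MeasureTheory Metric

variable {E : Type} [NormedAddCommGroup E] [InnerProductSpace ℝ E] [FiniteDimensional ℝ E]

namespace PsiL

variable (E) in
theorem exF : ∃ (F : E → ℝ) (C : ℝ), 0 < C ∧ ContDiff ℝ 2 F ∧ F 0 = 1 ∧
    (∀ u, 1 ≤ ‖u‖ → F u = 0) ∧ (∀ u, min ‖u‖ 1 ^ 2 ≤ 1 - F u) ∧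
    ∀ k : ℕ, k ≤ 2 → ∀ u, ‖iteratedFDeriv ℝ k (fun u => 1 - F u) u‖ ≤ C := by
  let β : ContDiffBump (0 : E) := ⟨1 / 2, 1, by norm_num, by norm_num⟩
  have hz : ∀ u : E, 1 ≤ ‖u‖ → β u = 0 := fun u hu =>
    β.zero_of_le_dist (by rw [dist_zero_right]; exact hu)
  have hF : ContDiff ℝ 2 fun u : E => (1 - ‖u‖ ^ 2) * β u :=
    (contDiff_const.sub (contDiff_norm_sq ℝ)).mul β.contDiff
  have hc : HasCompactSupport fun u : E => (1 - ‖u‖ ^ 2) * β u := β.hasCompactSupport.mul_left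
  have hb : ∀ k : ℕ, k ≤ 2 → ∃ C : ℝ, ∀ u,
      ‖iteratedFDeriv ℝ k (fun u : E => (1 - ‖u‖ ^ 2) * β u) u‖ ≤ C := fun k hk =>
    (hF.continuous_iteratedFDeriv (by exact_mod_cast hk)).bounded_above_of_compact_support
      (hc.iteratedFDeriv k)
  obtain ⟨C0, h0⟩ := hb 0 (by norm_num)
  obtain ⟨C1, h1⟩ := hb 1 (by norm_num)
  obtain ⟨C2, h2⟩ := hb 2 le_rfl
  have p0 : 0 ≤ C0 := (norm_nonneg _).trans (h0 0)
  have p1 : 0 ≤ C1 := (norm_nonneg _).trans (h1 0)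
  have p2 : 0 ≤ C2 := (norm_nonneg _).trans (h2 0)
  refine ⟨_, 1 + C0 + C1 + C2, by positivity, hF, ?_, fun u hu => ?_, fun u => ?_,
    fun k hk u => ?_⟩
  · rw [β.one_of_mem_closedBall (mem_closedBall_self β.rIn_pos.le)]
    simp
  · rw [hz u hu, mul_zero]
  · rcases le_total ‖u‖ 1 with hu | hu
    · rw [min_eq_left hu]
      have a1 : 0 ≤ 1 - ‖u‖ ^ 2 := sub_nonneg.2 (pow_le_one₀ (norm_nonneg _) hu)
      have a2 := mul_le_mul_of_nonneg_left (β.le_one (x := u)) a1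
      linarith
    · rw [min_eq_right hu, hz u hu]
      norm_num
  · rw [fun_iteratedFDeriv_sub_apply contDiffAt_const
      (hF.of_le (by exact_mod_cast hk)).contDiffAt]
    refine (norm_sub_le _ _).trans ?_
    have a1 : ‖iteratedFDeriv ℝ k (fun _ : E => (1 : ℝ)) u‖ ≤ 1 := by
      rcases eq_or_ne k 0 with rfl | hk0
      · rw [norm_iteratedFDeriv_zero, norm_one]
      · rw [iteratedFDeriv_const_of_ne hk0, Pi.zero_apply, norm_zero]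
        exact zero_le_one
    have a2 : ‖iteratedFDeriv ℝ k (fun u : E => (1 - ‖u‖ ^ 2) * β u) u‖ ≤ C0 + C1 + C2 := by
      have b0 := h0 u
      have b1 := h1 u
      have b2 := h2 u
      interval_cases k <;> linarith
    linarith

omit [FiniteDimensional ℝ E] in
theorem fst_bd {k : ℕ} (h1 : 1 ≤ k) (h2 : k ≤ 2) (q : E × ℝ) :
    ‖iteratedFDeriv ℝ k (fun q : E × ℝ => q.1) q‖ ≤ 1 := by
  have e : fderiv ℝ (fun q : E × ℝ => q.1) = fun _ => ContinuousLinearMap.fst ℝ E ℝ :=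
    funext fun q => fderiv_fst
  interval_cases k
  · rw [norm_iteratedFDeriv_one, e]
    exact ContinuousLinearMap.norm_fst_le ℝ E ℝ
  · rw [← norm_iteratedFDeriv_fderiv, e, iteratedFDeriv_const_of_ne one_ne_zero, Pi.zero_apply,
      norm_zero]
    exact zero_le_one

omit [FiniteDimensional ℝ E] in
theorem snd_bd {y : ℝ → E} {R A : ℝ} (hy : ContDiff ℝ 2 y) (hR : Spd R y) (hA : Acc A y) {k : ℕ}
    (h1 : 1 ≤ k) (h2 : k ≤ 2) (q : E × ℝ) :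
    ‖iteratedFDeriv ℝ k (fun q : E × ℝ => y q.2) q‖ ≤ |R| + |A| := by
  have e := (ContinuousLinearMap.snd ℝ E ℝ).iteratedFDeriv_comp_right hy q
    (i := k) (by exact_mod_cast h2)
  have e' : iteratedFDeriv ℝ k (fun q : E × ℝ => y q.2) q =
    (iteratedFDeriv ℝ k y q.2).compContinuousLinearMap fun _ => ContinuousLinearMap.snd ℝ E ℝ := e
  rw [e']
  refine (ContinuousMultilinearMap.norm_compContinuousLinearMap_le _ _).trans ?_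
  have a1 : ∏ _i : Fin k, ‖ContinuousLinearMap.snd ℝ E ℝ‖ ≤ 1 :=
    Finset.prod_le_one (fun _ _ => norm_nonneg _) fun _ _ => ContinuousLinearMap.norm_snd_le ℝ E ℝ
  refine (mul_le_of_le_one_right (norm_nonneg _) a1).trans ?_
  rw [norm_iteratedFDeriv_eq_norm_iteratedDeriv]
  have b1 := (hR q.2).trans (le_abs_self R)
  have b2 := (hA q.2).trans (le_abs_self A)
  have b3 := abs_nonneg R
  have b4 := abs_nonneg A
  interval_cases k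
  · rw [iteratedDeriv_one]; linarith
  · rw [iteratedDeriv_succ, iteratedDeriv_one]; linarith

omit [FiniteDimensional ℝ E] in
theorem u_smooth {y : ℝ → E} (hy : ContDiff ℝ 2 y) (ρ : ℝ) :
    ContDiff ℝ 2 fun q : E × ℝ => ρ⁻¹ • (q.1 - y q.2) :=
  (contDiff_fst.sub (hy.comp contDiff_snd)).const_smul _

omit [FiniteDimensional ℝ E] in
theorem u_bd {y : ℝ → E} {R A ρ : ℝ} (hy : ContDiff ℝ 2 y) (hR : Spd R y) (hA : Acc A y)
    (hρ : 0 < ρ) (hρ1 : ρ ≤ 1) {k : ℕ} (h1 : 1 ≤ k) (h2 : k ≤ 2) (q : E × ℝ) :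
    ‖iteratedFDeriv ℝ k (fun q : E × ℝ => ρ⁻¹ • (q.1 - y q.2)) q‖ ≤
      ((1 + |R| + |A|) / ρ) ^ k := by
  have hk : (k : WithTop ℕ∞) ≤ 2 := by exact_mod_cast h2
  have hs : ContDiff ℝ k fun q : E × ℝ => y q.2 := (hy.comp contDiff_snd).of_le hk
  rw [iteratedFDeriv_const_smul_apply' (contDiff_fst.sub hs).contDiffAt,
    fun_iteratedFDeriv_sub_apply contDiffAt_fst hs.contDiffAt, norm_smul, norm_inv,
    Real.norm_of_nonneg hρ.le]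
  have a1 := fst_bd h1 h2 q
  have a2 := snd_bd hy hR hA h1 h2 q
  have a3 : 1 ≤ (1 + |R| + |A|) / ρ := by
    rw [le_div_iff₀ hρ]
    linarith [abs_nonneg R, abs_nonneg A]
  refine le_trans ?_ (le_self_pow₀ a3 (by omega))
  rw [div_eq_inv_mul]
  exact mul_le_mul_of_nonneg_left ((norm_sub_le _ _).trans (by linarith)) (inv_nonneg.2 hρ.le)

omit [FiniteDimensional ℝ E] in
theorem term_bd {H : E → ℝ} {C : ℝ} (hC : 0 < C) (hH : ContDiff ℝ 2 H)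
    (hb : ∀ k : ℕ, k ≤ 2 → ∀ u, ‖iteratedFDeriv ℝ k H u‖ ≤ C)
    {y : ℝ → E} {R A ρ : ℝ} (hy : ContDiff ℝ 2 y) (hR : Spd R y) (hA : Acc A y)
    (hρ : 0 < ρ) (hρ1 : ρ ≤ 1) {k : ℕ} (h2 : k ≤ 2) (q : E × ℝ) :
    ‖iteratedFDeriv ℝ k (fun q : E × ℝ => ρ ^ 2 • H (ρ⁻¹ • (q.1 - y q.2))) q‖ ≤
      2 * C * (1 + |R| + |A|) ^ 2 := by
  have hk : (k : WithTop ℕ∞) ≤ 2 := by exact_mod_cast h2
  have hu := u_smooth hy ρ
  have h := norm_iteratedFDeriv_comp_le hH hu hk q (C := C) (D := (1 + |R| + |A|) / ρ)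
    (fun i hi => hb i (hi.trans h2) _) fun i h1 hi => u_bd hy hR hA hρ hρ1 h1 (hi.trans h2) q
  have hc : ContDiff ℝ k fun q : E × ℝ => H (ρ⁻¹ • (q.1 - y q.2)) := (hH.comp hu).of_le hk
  rw [iteratedFDeriv_const_smul_apply' hc.contDiffAt, norm_smul,
    Real.norm_of_nonneg (sq_nonneg ρ)]
  refine (mul_le_mul_of_nonneg_left h (sq_nonneg ρ)).trans ?_
  have a0 : 1 ≤ 1 + |R| + |A| := by linarith [abs_nonneg R, abs_nonneg A]
  have a1 : (k.factorial : ℝ) ≤ 2 := by exact_mod_cast Nat.factorial_le h2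
  have a2 : ρ ^ 2 * ((1 + |R| + |A|) / ρ) ^ k ≤ (1 + |R| + |A|) ^ 2 := by
    have a3 : 1 ≤ (1 + |R| + |A|) / ρ := by
      rw [le_div_iff₀ hρ]
      linarith
    refine (mul_le_mul_of_nonneg_left (pow_le_pow_right₀ a3 h2) (sq_nonneg ρ)).trans (le_of_eq ?_)
    field_simp
  calc ρ ^ 2 * (k.factorial * C * ((1 + |R| + |A|) / ρ) ^ k)
      = k.factorial * C * (ρ ^ 2 * ((1 + |R| + |A|) / ρ) ^ k) := by ring
    _ ≤ 2 * C * (1 + |R| + |A|) ^ 2 := by gcongr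

omit [FiniteDimensional ℝ E] in
theorem near (hB : Bas E) {Γ : ℝ → E} {n : ℕ} {ρ : ℝ} (hn : 0 < n)
    (hp : Function.Periodic Γ (n : ℝ)) (hρ : 0 < ρ) (hg : Gap Γ n (4 * ρ)) (x : E) (t : ℝ) :
    ∃ i ∈ Finset.range n, dd Γ x t = ‖x - sh Γ i t‖ ∧
      ∀ j ∈ Finset.range n, j ≠ i → ρ < ‖x - sh Γ j t‖ := by
  obtain ⟨i, h0, h1, h2⟩ := hB.dd.att hn hp x t
  lift i to ℕ using h0
  have hi : i < n := by exact_mod_cast h1
  refine ⟨i, Finset.mem_range.2 hi, h2, fun j hj hne => ?_⟩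
  have hj' := Finset.mem_range.1 hj
  have hd : ¬ (n : ℤ) ∣ (j : ℤ) - i := by
    intro h
    have := Int.eq_zero_of_abs_lt_dvd h (by rw [abs_lt]; constructor <;> omega)
    omega
  have h3 := hg (t + (i : ℤ)) _ hd
  have e : t + ((i : ℤ) : ℝ) + (((j : ℤ) - i : ℤ) : ℝ) = t + ((j : ℤ) : ℝ) := by
    push_cast; ring
  rw [e] at h3
  have h4 := hB.dd.le Γ x t j
  have h5 : ‖Γ (t + (j : ℤ)) - Γ (t + (i : ℤ))‖ ≤ ‖x - Γ (t + (j : ℤ))‖ + ‖x - Γ (t + (i : ℤ))‖ := by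
    rw [norm_sub_rev x (Γ (t + (j : ℤ)))]
    exact norm_sub_le_norm_sub_add_norm_sub _ _ _
  show ρ < ‖x - Γ (t + (j : ℤ))‖
  linarith

end PsiL

theorem psi (hB : Bas E) : PsiStmt E := by
  intro R A
  obtain ⟨F, C, hC, hF, F0, Fz, Fl, Fb⟩ := PsiL.exF E
  refine ⟨2 * C * (1 + |R| + |A|) ^ 2, by positivity, ?_⟩
  intro Γ n ρ hΓ hR hA hn hp hρ hρ1 hg
  have hs : ∀ k : ℤ, ContDiff ℝ 2 (sh Γ k) := fun k => hΓ.comp (contDiff_id.add contDiff_const)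
  obtain ⟨ψ, hψ⟩ : ∃ ψ : E × ℝ → ℝ, ψ = fun q =>
      ρ ^ 2 • (1 - ∑ i ∈ Finset.range n, F (ρ⁻¹ • (q.1 - sh Γ i q.2))) := ⟨_, rfl⟩
  have loc : ∀ (x : E) (t : ℝ), ∃ i : ℤ, dd Γ x t = ‖x - sh Γ i t‖ ∧
      ψ =ᶠ[𝓝 (x, t)] fun q => ρ ^ 2 • (1 - F (ρ⁻¹ • (q.1 - sh Γ i q.2))) := by
    intro x t
    obtain ⟨i, hi, h1, h2⟩ := PsiL.near hB hn hp hρ hg x t
    refine ⟨i, h1, ?_⟩
    have h3 : ∀ᶠ q : E × ℝ in 𝓝 (x, t), ∀ j ∈ (Finset.range n).erase i,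
        ρ < ‖q.1 - sh Γ j q.2‖ := by
      refine (Finset.eventually_all _).2 fun j hj => ?_
      have hc : Continuous fun q : E × ℝ => ‖q.1 - sh Γ j q.2‖ :=
        (continuous_fst.sub ((hs j).continuous.comp continuous_snd)).norm
      exact hc.continuousAt.eventually (lt_mem_nhds
        (h2 j (Finset.mem_of_mem_erase hj) (Finset.ne_of_mem_erase hj)))
    filter_upwards [h3] with q hq
    rw [hψ]
    simp only
    rw [← Finset.add_sum_erase _ _ hi, Finset.sum_eq_zero, add_zero]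
    intro j hj
    refine Fz _ ?_
    rw [norm_smul, norm_inv, Real.norm_of_nonneg hρ.le, ← div_eq_inv_mul, le_div_iff₀ hρ, one_mul]
    exact (hq j hj).le
  refine ⟨ψ, ⟨?_, fun x t => ?_, fun k hk q => ?_⟩, fun x t => ?_, fun t => ?_⟩
  · rw [hψ]
    exact (contDiff_const.sub (ContDiff.sum fun i _ =>
      hF.comp (PsiL.u_smooth (hs (i : ℕ)) ρ))).const_smul (ρ ^ 2)
  · rw [hψ]
    simp only
    congr 2
    have e1 := Finset.sum_range_succ (fun i : ℕ => F (ρ⁻¹ • (x - sh Γ i t))) n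
    have e2 := Finset.sum_range_succ' (fun i : ℕ => F (ρ⁻¹ • (x - sh Γ i t))) n
    have e3 : sh Γ (n : ℕ) t = sh Γ (0 : ℕ) t := by
      simp only [sh, Int.cast_natCast, Nat.cast_zero, Int.cast_zero, add_zero]
      exact hp t
    have e4 : ∀ i : ℕ, sh Γ i (t + 1) = sh Γ (i + 1 : ℕ) t := by
      intro i
      simp only [sh]
      congr 1
      push_cast
      ring
    simp only [e4]
    rw [e3] at e1
    linarith
  · obtain ⟨i, -, h⟩ := loc q.1 q.2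
    rw [(h.iteratedFDeriv ℝ k).self_of_nhds]
    exact PsiL.term_bd hC (contDiff_const.sub hF) Fb (hs i) (hB.shf.spd i hR) (hB.shf.acc i hA)
      hρ hρ1 hk q
  · obtain ⟨i, h1, h⟩ := loc x t
    rw [h.self_of_nhds, h1]
    refine le_trans (le_of_eq ?_)
      (mul_le_mul_of_nonneg_left (Fl (ρ⁻¹ • (x - sh Γ i t))) (sq_nonneg ρ))
    rw [← mul_pow, mul_min_of_nonneg _ _ hρ.le, norm_smul, norm_inv, Real.norm_of_nonneg hρ.le,
      mul_inv_cancel_left₀ hρ.ne', mul_one]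
  · obtain ⟨i, h1, h⟩ := loc (Γ t) t
    have h2 := hB.dd.le Γ (Γ t) t 0
    rw [Int.cast_zero, add_zero, sub_self, norm_zero, h1, norm_le_zero_iff] at h2
    rw [h.self_of_nhds]
    simp only [h2, smul_zero, F0, sub_self]

end Pool.Agent.MP_7bf9b2_an

end

section

/-! Pointwise superlinearity and convexity give uniform superlinearity. -/

namespace Pool.Agent.MP_7bf9b2_an

open scoped Topology
open Set Filter MeasureTheory Metric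

set_option linter.unusedSectionVars false
set_option maxSynthPendingDepth 3

variable {E : Type} [NormedAddCommGroup E] [InnerProductSpace ℝ E] [FiniteDimensional ℝ E]

namespace SupL

theorem line (z u : E) (t s : ℝ) :
    HasDerivAt (fun s : ℝ => ((z, s • u, t) : PP E)) (iV u) s := by
  have h1 : HasDerivAt (fun s : ℝ => s • u) u s := by
    simpa using (hasDerivAt_id s).smul_const u
  exact (hasDerivAt_const s z).prodMk (h1.prodMk (hasDerivAt_const s t))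

theorem ray {G : Geo E} {Λ : PP E → ℝ} (h : ContDiffOn ℝ 2 Λ G.Om)
    (hp : ∀ p : PP E, p.1 ∈ G.U → ∀ w : E, w ≠ 0 → 0 < D2 Λ p (iV w) (iV w))
    {z : E} (hz : z ∈ G.U) (u : E) (t : ℝ) :
    ConvexOn ℝ univ fun s : ℝ => Λ (z, s • u, t) := by
  have hc : ∀ s : ℝ, ContDiffAt ℝ 2 Λ (z, s • u, t) := fun s =>
    h.contDiffAt (G.isOpen_Om.mem_nhds hz)
  have h1 : ∀ s : ℝ, HasDerivAt (fun s : ℝ => Λ (z, s • u, t))
      (fderiv ℝ Λ (z, s • u, t) (iV u)) s := fun s =>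
    ((hc s).differentiableAt (by norm_num)).hasFDerivAt.comp_hasDerivAt s (line z u t s)
  have h2 : ∀ s : ℝ, HasDerivAt (fun s : ℝ => fderiv ℝ Λ (z, s • u, t) (iV u))
      (D2 Λ (z, s • u, t) (iV u) (iV u)) s := fun s => by
    have h3 : DifferentiableAt ℝ (fderiv ℝ Λ) (z, s • u, t) :=
      ((hc s).fderiv_right (m := 1) (by norm_num)).differentiableAt (by norm_num)
    have h4 := h3.hasFDerivAt.comp_hasDerivAt s (line z u t s)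
    simpa [D2] using h4.clm_apply (hasDerivAt_const s (iV u))
  have e : deriv (fun s : ℝ => Λ (z, s • u, t)) = fun s => fderiv ℝ Λ (z, s • u, t) (iV u) :=
    funext fun s => (h1 s).deriv
  refine Monotone.convexOn_univ_of_deriv (fun s => (h1 s).differentiableAt) ?_
  rw [e]
  refine monotone_of_deriv_nonneg (fun s => (h2 s).differentiableAt) fun s => ?_
  rw [(h2 s).deriv]
  by_cases hu : u = 0
  · rw [hu, map_zero, map_zero]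
  · exact (hp _ hz u hu).le

theorem far {G : Geo E} {Λ : PP E → ℝ} (h : ContDiffOn ℝ 2 Λ G.Om)
    (hp : ∀ p : PP E, p.1 ∈ G.U → ∀ w : E, w ≠ 0 → 0 < D2 Λ p (iV w) (iV w))
    {z : E} (hz : z ∈ G.U) {t A R : ℝ} (hR : 0 < R)
    (hs : ∀ v ∈ sphere (0 : E) R, Λ (z, 0, t) + A * R < Λ (z, v, t)) {v : E} (hv : R ≤ ‖v‖) :
    Λ (z, 0, t) + A * ‖v‖ ≤ Λ (z, v, t) := by
  have h0 : 0 < ‖v‖ := hR.trans_le hv
  have hθ : 0 < R / ‖v‖ := div_pos hR h0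
  have hθ1 : R / ‖v‖ ≤ 1 := (div_le_one h0).2 hv
  have h1 := (ray h hp hz v t).2 (mem_univ 0) (mem_univ 1) (sub_nonneg.2 hθ1) hθ.le (by ring)
  simp only [smul_eq_mul, mul_zero, mul_one, zero_add, zero_smul, one_smul] at h1
  have h2 := hs ((R / ‖v‖) • v) (by
    rw [mem_sphere_zero_iff_norm, norm_smul, Real.norm_of_nonneg hθ.le, div_mul_cancel₀ _ h0.ne'])
  have h3 : R / ‖v‖ * (A * ‖v‖) = A * R := by field_simp
  have h4 : R / ‖v‖ * (Λ (z, 0, t) + A * ‖v‖) ≤ R / ‖v‖ * Λ (z, v, t) := by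
    rw [mul_add, h3]
    linarith
  exact le_of_mul_le_mul_left h4 hθ

theorem loc {G : Geo E} {Λ : PP E → ℝ} (h : ContDiffOn ℝ 2 Λ G.Om)
    (hp : ∀ p : PP E, p.1 ∈ G.U → ∀ w : E, w ≠ 0 → 0 < D2 Λ p (iV w) (iV w))
    {z₀ : E} (hz : z₀ ∈ G.U) {t₀ A C : ℝ} (hC : ∀ v : E, (A + 1) * ‖v‖ - C ≤ Λ (z₀, v, t₀)) :
    ∀ᶠ x : E × ℝ in 𝓝 (z₀, t₀), ∀ v : E, A * ‖v‖ - (C + 1) ≤ Λ (x.1, v, x.2) := by
  have : ProperSpace E := FiniteDimensional.proper_real E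
  have hc : ∀ v : E, ContinuousAt Λ (z₀, v, t₀) := fun v =>
    h.continuousOn.continuousAt (G.isOpen_Om.mem_nhds hz)
  have c1 : ∀ v : E, ContinuousAt (fun y : (E × ℝ) × E => Λ (y.1.1, y.2, y.1.2)) ((z₀, t₀), v) :=
    fun v => ContinuousAt.comp (f := fun y : (E × ℝ) × E => ((y.1.1, y.2, y.1.2) : PP E))
      (hc v) (by fun_prop)
  have c0 : ∀ v : E, ContinuousAt (fun y : (E × ℝ) × E => Λ (y.1.1, 0, y.1.2)) ((z₀, t₀), v) :=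
    fun v => ContinuousAt.comp (f := fun y : (E × ℝ) × E => ((y.1.1, 0, y.1.2) : PP E))
      (hc 0) (by fun_prop)
  set R := |C + Λ (z₀, 0, t₀)| + 1 with hRd
  have hR : 0 < R := by positivity
  have hR1 : C + Λ (z₀, 0, t₀) < R := by linarith [le_abs_self (C + Λ (z₀, 0, t₀))]
  have e1 : ∀ᶠ x : E × ℝ in 𝓝 (z₀, t₀), ∀ v ∈ sphere (0 : E) R,
      Λ (x.1, 0, x.2) + A * R < Λ (x.1, v, x.2) := by
    refine (isCompact_sphere (0 : E) R).eventually_forall_of_forall_eventually fun v hv => ?_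
    refine ContinuousAt.eventually_lt ((c0 v).add continuousAt_const) (c1 v) ?_
    have := hC v
    rw [mem_sphere_zero_iff_norm.1 hv] at this
    change Λ (z₀, 0, t₀) + A * R < Λ (z₀, v, t₀)
    linarith
  have e2 : ∀ᶠ x : E × ℝ in 𝓝 (z₀, t₀), ∀ v ∈ closedBall (0 : E) R,
      A * ‖v‖ - (C + 1) < Λ (x.1, v, x.2) := by
    refine (isCompact_closedBall (0 : E) R).eventually_forall_of_forall_eventually fun v _ => ?_
    refine ContinuousAt.eventually_lt (f := fun y : (E × ℝ) × E => A * ‖y.2‖ - (C + 1))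
      (by fun_prop) (c1 v) ?_
    have := hC v
    change A * ‖v‖ - (C + 1) < Λ (z₀, v, t₀)
    linarith [norm_nonneg v]
  have e3 : ∀ᶠ x : E × ℝ in 𝓝 (z₀, t₀), x.1 ∈ G.U :=
    continuous_fst.continuousAt.eventually (G.isOpen_U.mem_nhds hz)
  filter_upwards [e1, e2, e3] with x h1 h2 h3 v
  rcases le_total ‖v‖ R with hv | hv
  · exact (h2 v (mem_closedBall_zero_iff.2 hv)).le
  · have h4 := far h hp h3 hR h1 hv
    have h5 := h2 0 (mem_closedBall_self hR.le)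
    rw [norm_zero, mul_zero] at h5
    linarith

end SupL

theorem supS : SupStmt E := by
  intro G Λ h hper hp hs A
  have key : ∃ C : ℝ, ∀ x ∈ G.U1 ×ˢ Icc (0 : ℝ) 1, ∀ v : E, A * ‖v‖ - C ≤ Λ (x.1, v, x.2) := by
    refine (G.isCompact_U1.prod isCompact_Icc).induction_on
      (p := fun s => ∃ C : ℝ, ∀ x ∈ s, ∀ v : E, A * ‖v‖ - C ≤ Λ (x.1, v, x.2))
      ⟨0, fun x hx => absurd hx (notMem_empty x)⟩ ?_ ?_ ?_
    · rintro s t hst ⟨C, hC⟩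
      exact ⟨C, fun x hx => hC x (hst hx)⟩
    · rintro s t ⟨C, hC⟩ ⟨C', hC'⟩
      refine ⟨max C C', fun x hx v => ?_⟩
      rcases hx with hx | hx
      · linarith [hC x hx v, le_max_left C C']
      · linarith [hC' x hx v, le_max_right C C']
    · rintro ⟨z, t⟩ hx
      obtain ⟨C, hC⟩ := hs z hx.1 t (A + 1)
      exact ⟨_, mem_nhdsWithin_of_mem_nhds (SupL.loc h hp (G.U1_sub_U hx.1) hC), C + 1,
        fun x hx => hx⟩
  obtain ⟨C, hC⟩ := key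
  refine ⟨C, ?_⟩
  rintro ⟨z, v, t⟩ hz
  have hP : Function.Periodic (fun t : ℝ => Λ (z, v, t)) 1 := fun t => hper z v t
  obtain ⟨y, hy, e⟩ := hP.exists_mem_Ico₀ one_pos t
  have := hC (z, y) ⟨hz, Ico_subset_Icc_self hy⟩ v
  change A * ‖v‖ - C ≤ Λ (z, v, t)
  rw [show Λ (z, v, t) = Λ (z, v, y) from e]
  exact this

end Pool.Agent.MP_7bf9b2_an

end

section

namespace Pool.Agent.MP_7bf9b2_an

open scoped Topology
open Set Filter MeasureTheory Metric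

set_option maxSynthPendingDepth 3

variable {E : Type} [NormedAddCommGroup E] [InnerProductSpace ℝ E] [FiniteDimensional ℝ E]

namespace TonL

theorem lim (hB : Bas E) (hW : WeiStmt E) (hX : BdxStmt E) {G : Geo E} {Λ : PP E → ℝ}
    (hΛ : Lag G Λ) {γ : ℕ → ℝ → E} {l : Filter ℕ} {g : ℝ → E} {n : ℕ} {m : ℝ} (hc : Cvg γ l g)
    (hg : ELc G Λ g) (hp : Function.Periodic g (n : ℝ))
    (hγ : ∀ j, Function.Periodic (γ j) (n : ℝ)) (hl : ∀ j, Cv (γ j) 0 n)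
    (ha : ∀ j : ℕ, act Λ (γ j) 0 n ≤ m + 1 / ((j : ℝ) + 1)) : act Λ g 0 n ≤ m := by
  have := hc.ne
  have hn : (0 : ℝ) ≤ n := Nat.cast_nonneg n
  obtain ⟨R, hR⟩ := (isCompact_Icc (a := (0 : ℝ)) (b := n)).exists_bound_of_continuousOn
    (hg.cu.c2.continuous_deriv (by norm_num)).continuousOn
  have hR0 : 0 ≤ R := (norm_nonneg _).trans (hR 0 ⟨le_rfl, hn⟩)
  obtain ⟨κ, K, hb⟩ := hX hΛ R hR0
  have hκ := hb.k0
  have hK : 0 < K := by linarith [hb.K1]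
  have hr := G.r0_pos
  have ht : Tendsto (fun δ : ℝ => m + δ + (κ * (K * δ / κ) ^ 2 / 2 + K * δ ^ 2 / 2) * (n - 0))
      (𝓝[>] 0) (𝓝 m) := by
    refine tendsto_nhdsWithin_of_tendsto_nhds (Continuous.tendsto' (by fun_prop) 0 m ?_)
    simp
  refine ge_of_tendsto ht ?_
  filter_upwards [Ioc_mem_nhdsGT (show (0 : ℝ) < min (2 * G.r0) (κ / K) by positivity)] with δ hδ
  obtain ⟨hδ0, hδ⟩ := hδ
  have h1 : δ ≤ 2 * G.r0 := hδ.trans (min_le_left _ _)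
  have h2 : δ * K ≤ κ := (le_div_iff₀ hK).1 (hδ.trans (min_le_right _ _))
  have h3 : ∀ᶠ j : ℕ in l, 1 / ((j : ℝ) + 1) ≤ δ :=
    hc.le (tendsto_one_div_add_atTop_nhds_zero_nat.eventually_le_const hδ0)
  obtain ⟨j, h4, h5⟩ := (h3.and (hc.cv 0 n δ hδ0)).exists
  have e : κ * (K * δ / κ) = K * δ := by field_simp
  have h6 := hW (θ := K * δ / κ) hΛ hb hg hn hR (hl j) h5 h1 (by positivity)
    ((div_le_one hκ).2 (by linarith)) e.ge 0 ⟨le_rfl, hn⟩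
  have e1 : mom Λ g n = mom Λ g 0 := by simpa using hB.shf.pmom hΛ hp 0
  have e2 : γ j n = γ j 0 := by simpa using hγ j 0
  have e3 : g n = g 0 := by simpa using hp 0
  rw [e1, e2, e3, sub_self, sub_self, mul_zero] at h6
  linarith [ha j]

end TonL

theorem ton (hB : Bas E) (hL : LimStmt E) (hP : PextStmt E) (hW : WeiStmt E) (hX : BdxStmt E) :
    TonStmt E := by
  intro G Λ Y hΛ hY n hn
  have hn1 : (1 : ℝ) ≤ n := by exact_mod_cast hn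
  obtain ⟨C, hC⟩ := hΛ.sup 0
  have low : ∀ {γ : ℝ → E} {s t : ℝ}, s ≤ t → Cv γ s t → (∀ τ ∈ Icc s t, γ τ ∈ G.U1) →
      -(C * (t - s)) ≤ act Λ γ s t := fun h1 h2 h3 => by
    simpa using hB.pth.low hΛ h1 h2 h3 hC
  let S : Set ℝ := {A | ∃ x s, Path G Λ x s x (s + n) A}
  have hne : S.Nonempty := by
    obtain ⟨x, hx⟩ := G.conn.nonempty
    obtain ⟨κ, K, hb⟩ := hX hΛ 0 le_rfl
    exact ⟨_, x, 0, hB.pth.const hΛ (by linarith) (G.M_sub_U1 hx) fun τ =>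
      (le_abs_self _).trans (hb.b0 (x, 0, τ) (G.M_sub_U1 hx) (by simp))⟩
  have hbd : BddBelow S := ⟨-(C * n), by
    rintro A ⟨x, s, h1, γ, h2, h3, -, -, h4⟩
    simpa using (low h1 h2 h3).trans h4⟩
  have hm : ∀ x s A, Path G Λ x s x (s + n) A → sInf S ≤ A := fun x s A h =>
    csInf_le hbd ⟨x, s, h⟩
  have hex : ∀ j : ℕ, ∃ (γ : ℝ → E) (C : NNReal), LipschitzWith C γ ∧ (∀ t, γ t ∈ G.M₀) ∧
      Function.Periodic γ (n : ℝ) ∧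
      ∀ a : ℝ, act Λ γ a (a + n) ≤ sInf S + 1 / ((j : ℝ) + 1) := fun j => by
    obtain ⟨A, ⟨x, s, h1⟩, h2⟩ := exists_lt_of_csInf_lt hne
      (lt_add_of_pos_right (sInf S) (show 0 < 1 / ((j : ℝ) + 1) by positivity))
    exact hP hΛ hn (h1.mono h2.le)
  choose γ L hl hM hp ha using hex
  have cv : ∀ j s t, Cv (γ j) s t := fun j s t => ⟨L j, (hl j).lipschitzOnWith⟩
  have hU : ∀ j s t, ∀ τ ∈ Icc s t, γ j τ ∈ G.U1 := fun j _ _ τ _ => G.M_sub_U1 (hM j τ)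
  have hN : NM G Λ γ (fun j => 1 / ((j : ℝ) + 1)) (sInf S + 1 + C * (n - 1)) := by
    refine ⟨fun j => ⟨L j, hl j⟩, hM, tendsto_one_div_add_atTop_nhds_zero_nat,
      fun j a b A hb h => ?_, fun j a => ?_⟩
    · have h1 : b ≤ a + n := by linarith
      have h2 := hB.pth.concat hΛ h
        (⟨h1, γ j, cv j _ _, hU j _ _, rfl, hp j a, le_rfl⟩ : Path G Λ _ b (γ j a) (a + n) _)
      have h3 := hB.pth.add hΛ h.1 h1 (cv j _ _) (hU j _ _)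
      linarith [hm _ _ _ h2, ha j a]
    · have h1 : a + 1 ≤ a + n := by linarith
      have h2 := low h1 (cv j _ _) (hU j _ _)
      have h3 := hB.pth.add hΛ (show a ≤ a + 1 by linarith) h1 (cv j _ _) (hU j _ _)
      have h4 : 1 / ((j : ℝ) + 1) ≤ 1 :=
        (div_le_one (by positivity)).2 (le_add_of_nonneg_left (Nat.cast_nonneg j))
      have e : a + n - (a + 1) = n - 1 := by ring
      rw [e] at h2
      linarith [ha j a]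
  obtain ⟨l, g, hc, hg⟩ := hL hΛ hY hN
  have hel := (hB.el.orb hY hg).1
  have hper : Function.Periodic g (n : ℝ) := fun t => by
    have := hc.ne
    refine eq_of_forall_dist_le fun δ hδ => ?_
    obtain ⟨j, hj⟩ := (hc.cv t (t + n) (δ / 2) (by positivity)).exists
    have h1 := hj t ⟨le_rfl, by linarith⟩
    have h2 := hj (t + n) ⟨by linarith, le_rfl⟩
    rw [hp j t] at h2
    have h3 := dist_triangle_left (g (t + n)) (g t) (γ j t)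
    rw [dist_eq_norm (γ j t), dist_eq_norm (γ j t)] at h3
    linarith
  exact ⟨g, hg, hel, hper, fun x s A h => (TonL.lim hB hW hX hΛ hc hel hper hp
    (fun j => cv j _ _) fun j => by simpa only [zero_add] using ha j 0).trans (hm x s A h)⟩

end Pool.Agent.MP_7bf9b2_an

end

section

set_option maxSynthPendingDepth 3

namespace Pool.Agent.MP_7bf9b2_an

open scoped Topology
open Set Filter MeasureTheory Metric

variable {E : Type} [NormedAddCommGroup E] [InnerProductSpace ℝ E] [FiniteDimensional ℝ E]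

namespace TubeL

/-- a Lipschitz function with small square integral is small -/
theorem small {g : ℝ → ℝ} {L e d r : ℝ} (hc : Continuous g) (hL : 0 ≤ L)
    (hl : ∀ t t', |g t - g t'| ≤ L * |t - t'|) (he : 0 < e) (hd : 0 < d) (hd1 : d ≤ 1 / 2)
    (hd2 : L * d ≤ e / 2) (h : ∫ t in r..(r + 1), g t ^ 2 < d * (e / 2) ^ 2) :
    ∀ τ ∈ Icc r (r + 1), g τ < e := by
  intro τ hτ
  by_contra hcon
  rw [not_lt] at hcon
  obtain ⟨a, ha1, ha2, ha3⟩ : ∃ a, r ≤ a ∧ a + d ≤ r + 1 ∧ ∀ x ∈ Icc a (a + d), |τ - x| ≤ d := by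
    rcases le_total τ (r + 1 / 2) with h1 | h1
    · exact ⟨τ, hτ.1, by linarith, fun x hx => abs_le.2 ⟨by linarith [hx.2], by linarith [hx.1]⟩⟩
    · exact ⟨τ - d, by linarith, by linarith [hτ.2],
        fun x hx => abs_le.2 ⟨by linarith [hx.2], by linarith [hx.1]⟩⟩
  have hc2 : Continuous fun t => g t ^ 2 := hc.pow 2
  have h1 : ∫ t in a..(a + d), g t ^ 2 ≤ ∫ t in r..(r + 1), g t ^ 2 :=
    intervalIntegral.integral_mono_interval ha1 (by linarith) ha2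
      (Eventually.of_forall fun t => sq_nonneg _) (hc2.intervalIntegrable _ _)
  have h2 : ∫ _ in a..(a + d), (e / 2) ^ 2 ≤ ∫ t in a..(a + d), g t ^ 2 := by
    refine intervalIntegral.integral_mono_on (by linarith)
      (continuous_const.intervalIntegrable _ _) (hc2.intervalIntegrable _ _) fun x hx => ?_
    have h3 := (abs_le.1 ((hl τ x).trans (mul_le_mul_of_nonneg_left (ha3 x hx) hL))).2
    exact pow_le_pow_left₀ (by linarith) (by linarith) 2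
  rw [intervalIntegral.integral_const, smul_eq_mul, add_sub_cancel_left] at h2
  linarith

/-- first order expansion -/
theorem tay {f : ℝ → E} {B : ℝ} (hf : ContDiff ℝ 2 f) (hB : Acc B f) (τ u : ℝ) :
    ‖f u - f τ - (u - τ) • deriv f τ‖ ≤ B * |u - τ| * |u - τ| := by
  have hd : Differentiable ℝ f := hf.differentiable (by norm_num)
  have hd' : Differentiable ℝ (deriv f) :=
    ((contDiff_succ_iff_deriv (n := 1)).1 hf).2.2.differentiable (by norm_num)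
  have hB0 : 0 ≤ B := (norm_nonneg _).trans (hB 0)
  have h1 : ∀ x, ‖deriv f x - deriv f τ‖ ≤ B * ‖x - τ‖ := fun x =>
    convex_univ.norm_image_sub_le_of_norm_deriv_le (fun x _ => hd' x) (fun x _ => hB x)
      (mem_univ _) (mem_univ _)
  have h2 := (convex_closedBall τ |u - τ|).norm_image_sub_le_of_norm_hasDerivWithin_le
    (f := fun x => f x - x • deriv f τ) (f' := fun x => deriv f x - deriv f τ)
    (C := B * |u - τ|) (x := τ) (y := u)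
    (fun x _ => by
      have := (hd x).hasDerivAt.sub ((hasDerivAt_id x).smul_const (deriv f τ))
      rw [one_smul] at this
      exact this.hasDerivWithinAt)
    (fun x hx => (h1 x).trans (mul_le_mul_of_nonneg_left (mem_closedBall_iff_norm.1 hx) hB0))
    (mem_closedBall_self (abs_nonneg _)) (mem_closedBall_iff_norm.2 le_rfl)
  have e : f u - f τ - (u - τ) • deriv f τ
      = f u - u • deriv f τ - (f τ - τ • deriv f τ) := by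
    rw [sub_smul]; abel
  rw [e]
  exact h2

/-- closeness of positions gives closeness of velocities -/
theorem vel {y Γ : ℝ → E} {A e h c τ u : ℝ} (hy : ContDiff ℝ 2 y) (hΓ : ContDiff ℝ 2 Γ)
    (ay : Acc A y) (aΓ : Acc A Γ) (hu : |u - τ| = h) (h1 : ‖y τ - Γ (τ + c)‖ ≤ e)
    (h2 : ‖y u - Γ (u + c)‖ ≤ e) :
    h * ‖deriv y τ - deriv Γ (τ + c)‖ ≤ 2 * e + 2 * A * h * h := by
  have a1 := tay hy ay τ u
  have a2 := tay hΓ aΓ (τ + c) (u + c)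
  rw [add_sub_add_right_eq_sub] at a2
  rw [hu] at a1 a2
  have e1 : (u - τ) • (deriv y τ - deriv Γ (τ + c)) = (y u - Γ (u + c)) - (y τ - Γ (τ + c))
      - (y u - y τ - (u - τ) • deriv y τ)
      + (Γ (u + c) - Γ (τ + c) - (u - τ) • deriv Γ (τ + c)) := by
    rw [smul_sub]; abel
  rw [← hu, ← Real.norm_eq_abs, ← norm_smul, e1, Real.norm_eq_abs, hu]
  have b1 := norm_add_le ((y u - Γ (u + c)) - (y τ - Γ (τ + c))
    - (y u - y τ - (u - τ) • deriv y τ)) (Γ (u + c) - Γ (τ + c) - (u - τ) • deriv Γ (τ + c))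
  have b2 := norm_sub_le ((y u - Γ (u + c)) - (y τ - Γ (τ + c))) (y u - y τ - (u - τ) • deriv y τ)
  have b3 := norm_sub_le (y u - Γ (u + c)) (y τ - Γ (τ + c))
  linarith

/-- a single strand on an interval -/
theorem strand (hB : Bas E) {y Γ : ℝ → E} {ρ a b : ℝ} {n : ℕ} (hy : Continuous y)
    (hΓ : Continuous Γ) (hρ : 0 < ρ) (hn : 0 < n) (hp : Function.Periodic Γ (n : ℝ))
    (hg : Gap Γ n (3 * ρ)) (hab : a ≤ b) (h : ∀ τ ∈ Icc a b, gg Γ ρ y τ < ρ) :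
    ∃ j : ℤ, ∀ τ ∈ Icc a b, ‖y τ - Γ (τ + j)‖ = gg Γ ρ y τ := by
  obtain ⟨j, -, -, hj⟩ := hB.dd.att hn hp (y a) a
  have key : ∀ τ, ‖y τ - Γ (τ + j)‖ ≤ ρ → ‖y τ - Γ (τ + j)‖ = gg Γ ρ y τ := fun τ hτ => by
    rw [gg, hB.dd.uniq hp hg (y τ) τ j (by linarith), min_eq_left hτ]
  have ha : ‖y a - Γ (a + j)‖ ≤ ρ := by
    have h1 := h a ⟨le_rfl, hab⟩
    rw [gg, hj, min_lt_iff] at h1
    exact (h1.resolve_right (lt_irrefl _)).le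
  refine ⟨j, fun τ hτ => key τ ?_⟩
  by_contra hcon
  rw [not_le] at hcon
  have hc : Continuous fun x => ‖y x - Γ (x + j)‖ := by fun_prop
  obtain ⟨x, hx, hx'⟩ := intermediate_value_Icc hτ.1 hc.continuousOn ⟨ha, hcon.le⟩
  have h1 := key x (le_of_eq hx')
  have h2 := h x ⟨hx.1, hx.2.trans hτ.2⟩
  exact h2.ne (h1.symm.trans hx')

end TubeL

open TubeL

theorem tube (hB : Bas E) : TubeStmt E := by
  intro R A ρ η hρ hη
  obtain ⟨h, hh0, hh1, hh2⟩ : ∃ h : ℝ, 0 < h ∧ h ≤ 1 / 2 ∧ (|A| + 1) * h ≤ η / 4 :=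
    ⟨min (1 / 2) (η / 4 / (|A| + 1)), by positivity, min_le_left _ _, by
      rw [mul_comm]; exact (le_div_iff₀ (by positivity)).1 (min_le_right _ _)⟩
  obtain ⟨e, he0, he1, he2, he3⟩ : ∃ e : ℝ, 0 < e ∧ e ≤ η ∧ e ≤ ρ ∧ e ≤ η * h / 4 :=
    ⟨min (min η ρ) (η * h / 4), by positivity, (min_le_left _ _).trans (min_le_left _ _),
      (min_le_left _ _).trans (min_le_right _ _), min_le_right _ _⟩
  obtain ⟨d, hd0, hd1, hd2⟩ : ∃ d : ℝ, 0 < d ∧ d ≤ 1 / 2 ∧ (2 * |R| + 1) * d ≤ e / 2 :=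
    ⟨min (1 / 2) (e / 2 / (2 * |R| + 1)), by positivity, min_le_left _ _, by
      rw [mul_comm]; exact (le_div_iff₀ (by positivity)).1 (min_le_right _ _)⟩
  have hμ : 0 < d * (e / 2) ^ 2 := by positivity
  refine ⟨d * (e / 2) ^ 2 / 2, by positivity, ?_⟩
  intro y Γ n hy hΓ sy sΓ ay aΓ hn hp hg s t hst hD
  have dy : Differentiable ℝ y := hy.differentiable (by norm_num)
  have dΓ : Differentiable ℝ Γ := hΓ.differentiable (by norm_num)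
  have hst' : (s : ℝ) ≤ t := by exact_mod_cast hst
  have hlip := hB.dd.lip (L := 2 * |R| + 1) dy dΓ hρ.le (by positivity) fun u i _ => by
    linarith [norm_sub_le (deriv y u) (deriv Γ (u + i)), sy u, sΓ (u + i), le_abs_self R]
  have hsm : ∀ τ ∈ Icc (s : ℝ) (t + 1), gg Γ ρ y τ < e := by
    intro τ hτ
    obtain ⟨r, hr, hr'⟩ : ∃ r ∈ Finset.Icc s t, τ ∈ Icc (r : ℝ) (r + 1) := by
      rcases le_or_gt ⌊τ⌋ t with h1 | h1
      · exact ⟨⌊τ⌋, Finset.mem_Icc.2 ⟨Int.le_floor.2 hτ.1, h1⟩, Int.floor_le τ,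
          (Int.lt_floor_add_one τ).le⟩
      · exact ⟨t, Finset.mem_Icc.2 ⟨hst, le_rfl⟩, Int.le_floor.1 h1.le, hτ.2⟩
    exact small (hB.dd.cont dy dΓ hρ.le sy sΓ) (by positivity) hlip he0 hd0 hd1 hd2
      ((hD r hr).trans_lt (by linarith)) τ hr'
  obtain ⟨j, hj⟩ := strand hB dy.continuous dΓ.continuous hρ hn hp hg
    (show (s : ℝ) ≤ t + 1 by linarith) fun τ hτ => (hsm τ hτ).trans_le he2
  have hcl : ∀ τ ∈ Icc (s : ℝ) (t + 1), ‖y τ - Γ (τ + j)‖ ≤ e := fun τ hτ =>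
    (hj τ hτ).trans_le (hsm τ hτ).le
  refine ⟨j, fun τ hτ => ⟨(hcl τ hτ).trans he1, ?_, (hj τ hτ).le⟩⟩
  obtain ⟨u, hu, hu'⟩ : ∃ u ∈ Icc (s : ℝ) (t + 1), |u - τ| = h := by
    rcases le_total τ (s + 1 / 2) with h1 | h1
    · exact ⟨τ + h, ⟨by linarith [hτ.1], by linarith⟩, by
        rw [add_sub_cancel_left, abs_of_pos hh0]⟩
    · exact ⟨τ - h, ⟨by linarith, by linarith [hτ.2]⟩, by
        rw [sub_sub_cancel_left, abs_neg, abs_of_pos hh0]⟩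
  have h1 := vel hy hΓ ay aΓ hu' (hcl τ hτ) (hcl u hu)
  refine le_of_mul_le_mul_left (a := h) (h1.trans ?_) hh0
  have h2 : A * h ≤ η / 4 := by nlinarith [le_abs_self A]
  nlinarith

end Pool.Agent.MP_7bf9b2_an

end

section

/-!
The inequality for two nested returns.
-/

namespace Pool.Agent.MP_7bf9b2_an

open scoped Topology
open Set Filter MeasureTheory Metric

set_option maxSynthPendingDepth 3
set_option linter.unusedSectionVars false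

variable {E : Type} [NormedAddCommGroup E] [InnerProductSpace ℝ E] [FiniteDimensional ℝ E]

namespace TwoL

variable {G : Geo E} {Λ₀ Λ : PP E → ℝ} {y Γ : ℝ → E} {α β : ℝ} {as : ℕ → ℝ}
  {R κ K ρ ε₁ σ' e : ℝ}

/-- an arc of `y` followed by a short variation at the end point -/
theorem half (hB : Bas E) (hV : VlStmt E) (h : LCtx G Λ₀ Λ y Γ α β as R κ K ρ ε₁ σ' e)
    {a b : ℝ} (hab : a ≤ b - 1 / 2) {w : E} (hw : ‖w‖ ≤ 2 * G.r0) :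
    Path G Λ₀ (y a) a (y b + w) b
      (act Λ y a b + mom Λ y b w + K * ‖w‖ ^ 2 + σ' * (b - a)) := by
  have hcu : Cu G y := h.st.el.cu
  have p1 := hB.el.arc h.lag0 hcu a (b - 1 / 2) hab
  have hc : act Λ₀ y a (b - 1 / 2) ≤ act Λ y a (b - 1 / 2) + σ' * (b - 1 / 2 - a) :=
    hB.pth.cmp (R' := R + 1) h.lag h.lag0 hab
      (hB.cur.c1 a (b - 1 / 2) (hcu.c2.of_le (by norm_num)))
      (fun τ _ => G.M_sub_U1 (hcu.mem τ))
      (Eventually.of_forall fun τ _ => (h.spd τ).trans (by linarith)) h.cmp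
  have p2 := (hV h.lag h.lag0 h.bd h.st.el h.spd h.cmp b w hw).1
  refine (hB.pth.concat h.lag0 p1 p2).mono ?_
  have := hB.el.add h.lag hcu a (b - 1 / 2) b
  linarith

/-- two times on the same strand -/
theorem near {r r' j : ℤ} {θ : ℝ} (hθ : θ ∈ Icc (1 / 2 : ℝ) 1) (h1 : On y Γ ρ r j)
    (h2 : On y Γ ρ r' j) :
    ‖y (r + θ) - y (r' + θ)‖ ≤ 2 * ρ ∧
      ‖y (r + θ) - y (r' + θ)‖ ^ 2 ≤ 2 * (gg Γ ρ y (r + θ) ^ 2 + gg Γ ρ y (r' + θ) ^ 2) := by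
  have hθ' : θ ∈ Icc (0 : ℝ) 1 := ⟨by linarith [hθ.1], hθ.2⟩
  have a1 := h1 θ hθ'
  have a2 := h2 θ hθ'
  have a3 : ‖y (r + θ) - y (r' + θ)‖ ≤ gg Γ ρ y (r + θ) + gg Γ ρ y (r' + θ) := by
    have := norm_sub_le_norm_sub_add_norm_sub (y (r + θ)) (Γ (j + θ)) (y (r' + θ))
    rw [norm_sub_rev (Γ (j + θ))] at this
    linarith
  have b1 : gg Γ ρ y (r + θ) ≤ ρ := min_le_right _ _
  have b2 : gg Γ ρ y (r' + θ) ≤ ρ := min_le_right _ _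
  refine ⟨by linarith, ?_⟩
  have := pow_le_pow_left₀ (norm_nonneg _) a3 2
  nlinarith [sq_nonneg (gg Γ ρ y (r + θ) - gg Γ ρ y (r' + θ))]

end TwoL

theorem two (hB : Bas E) (hV : VlStmt E) (hC : CutStmt E) : TwoStmt E := by
  intro G Λ₀ Λ y Γ α β as R κ K ρ ε₁ σ' e h s s' t' t j j' h1 h2 h3 o1 o2 o3 o4
  obtain ⟨θ, hθ, m1⟩ := hB.dd.mv h.cont s t
  obtain ⟨θ', hθ', m2⟩ := hB.dd.mv h.cont s' t'
  obtain ⟨n1, q1⟩ := TwoL.near hθ o1 o2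
  obtain ⟨n2, q2⟩ := TwoL.near hθ' o4 o3
  have hr := h.rle
  have hw : ‖y (s + θ) - y (t + θ)‖ ≤ 2 * G.r0 := by linarith
  have hw' : ‖y (t' + θ') - y (s' + θ')‖ ≤ 2 * G.r0 := by linarith
  have c1 : (s : ℝ) + 1 ≤ s' := by exact_mod_cast h1
  have c3 : (t' : ℝ) + 1 ≤ t := by exact_mod_cast h3
  have p1 := TwoL.half hB hV h (a := s + θ) (b := s' + θ') (by linarith [hθ.2, hθ'.1]) hw'
  have p2 := TwoL.half hB hV h (a := t' + θ') (b := t + θ) (by linarith [hθ.1, hθ'.2]) hw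
  rw [add_sub_cancel] at p1 p2
  have p3 := hB.pth.shift (s' - t') h.lag0 p2
  have hl : (((t - s - (t' - s')).toNat : ℕ) : ℝ) = (t : ℝ) - s - (t' - s') := by
    have : (((t - s - (t' - s')).toNat : ℕ) : ℤ) = t - s - (t' - s') :=
      Int.toNat_of_nonneg (by omega)
    exact_mod_cast this
  have e1 : (t' : ℝ) + θ' + ((s' - t' : ℤ) : ℝ) = s' + θ' := by push_cast; ring
  have e2 : (t : ℝ) + θ + ((s' - t' : ℤ) : ℝ) = s + θ + ((t - s - (t' - s')).toNat : ℕ) := by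
    rw [hl]; push_cast; ring
  rw [e1, e2] at p3
  have lb := h.lb _ _ _ _ (hB.pth.concat h.lag0 p1 p3)
  rw [hl] at lb
  have k1 := hC h.lag h.bd h.st h.spd (t' + θ') (s' + θ') (t' - s') (by push_cast; ring) hw'
  have k2 := hC h.lag h.bd h.st h.spd (s + θ) (t + θ) (s - t) (by push_cast; ring) hw
  have hcu : Cu G y := h.st.el.cu
  have a1 := hB.el.add h.lag hcu (s + θ) (s' + θ') (t' + θ')
  have a2 := hB.el.add h.lag hcu (s + θ) (t' + θ') (t + θ)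
  have a3 := hB.el.add h.lag hcu (s + θ) (t + θ) (s + θ)
  have a4 : act Λ y (s + θ) (s + θ) = 0 := intervalIntegral.integral_same
  have hK : 0 ≤ K := le_trans zero_le_one h.bd.K1
  have c2 : (s' : ℝ) + 1 ≤ t' := by exact_mod_cast h2
  have f1 : K * ‖y (s + θ) - y (t + θ)‖ ^ 2 ≤ K * (4 * (DD Γ ρ y s + DD Γ ρ y t)) :=
    mul_le_mul_of_nonneg_left (by linarith) hK
  have f2 : K * ‖y (t' + θ') - y (s' + θ')‖ ^ 2 ≤ K * (4 * (DD Γ ρ y s' + DD Γ ρ y t')) :=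
    mul_le_mul_of_nonneg_left (by linarith) hK
  have f3 : (β - α + σ') * ((t : ℝ) - s - (t' - s')) ≤ e * ((t : ℝ) - s - (t' - s')) :=
    mul_le_mul_of_nonneg_right h.ab (by linarith)
  push_cast at k1 k2 ⊢
  linarith

end Pool.Agent.MP_7bf9b2_an

end

section

/-! Variations of Euler-Lagrange curves with a free end point. -/

namespace Pool.Agent.MP_7bf9b2_an

open scoped Topology
open Set Filter MeasureTheory Metric

set_option maxSynthPendingDepth 3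

variable {E : Type} [NormedAddCommGroup E] [InnerProductSpace ℝ E] [FiniteDimensional ℝ E]

namespace VlL

variable {G : Geo E} {Λ : PP E → ℝ} {y : ℝ → E} {R κ K : ℝ}

theorem pt (hB : Bas E) (hL : Lag G Λ) (hb : Bd G Λ R κ K) {x v ξ u : E} {τ m : ℝ}
    (hx : x ∈ G.M₀) (hv : ‖v‖ ≤ R) (hm : m ≤ 2 * G.r0) (hξ : ‖ξ‖ ≤ m) (hu : ‖u‖ ≤ 2 * m) :
    Λ (x + ξ, v + u, τ) ≤ Λ (x, v, τ) + fderiv ℝ Λ (x, v, τ) (ξ, u, 0) + 2 * K * m ^ 2 := by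
  have hm0 : 0 ≤ m := (norm_nonneg _).trans hξ
  have hr := G.r0_le
  have h := hB.tay.tay G.isOpen_Om hL.smooth (x, v, τ) (ξ, u, 0) 0 K (fun s hs => by
    have e : ((x, v, τ) : PP E) + s • (ξ, u, 0) = (x + s • ξ, v + s • u, τ) := by simp
    have h1 : ‖s • ξ‖ ≤ 2 * G.r0 := by
      rw [norm_smul, Real.norm_of_nonneg hs.1]
      nlinarith [norm_nonneg ξ, hs.1, hs.2]
    have h2 : ‖v + s • u‖ ≤ R + 1 := by
      refine (norm_add_le _ _).trans ?_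
      rw [norm_smul, Real.norm_of_nonneg hs.1]
      nlinarith [norm_nonneg u, hs.1, hs.2]
    have h3 := G.add_mem_U1 hx h1
    rw [e, sub_zero]
    exact ⟨G.U1_sub_U h3, hb.b2 (x + s • ξ, v + s • u, τ) h3 h2⟩)
  have e : ((x, v, τ) : PP E) + (ξ, u, 0) = (x + ξ, v + u, τ) := by simp
  have hn : ‖((ξ, u, 0) : PP E)‖ ≤ 2 * m := by
    rw [Prod.norm_def, Prod.norm_def]
    refine max_le (by simp only; linarith) (max_le hu ?_)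
    simp only [norm_zero]
    linarith
  have hK : 0 ≤ K := by linarith [hb.K1]
  have h2 : K * ‖((ξ, u, 0) : PP E)‖ ^ 2 ≤ K * (2 * m) ^ 2 := by gcongr
  rw [e] at h
  have h3 := (le_abs_self _).trans h
  simp only [zero_apply, zero_div, sub_zero] at h3
  nlinarith

theorem var (hB : Bas E) (hL : Lag G Λ) (hb : Bd G Λ R κ K) (hy : ELc G Λ y) (hs : Spd R y)
    {a b : ℝ} (hab : a ≤ b) {φ : ℝ → ℝ} (hφ : ∀ s t, |φ s - φ t| ≤ 2 * |s - t|)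
    (h01 : ∀ τ ∈ Icc a b, 0 ≤ φ τ ∧ φ τ ≤ 1) {w : E} (hw : ‖w‖ ≤ 2 * G.r0) :
    Cv (fun τ => y τ + φ τ • w) a b ∧ (∀ τ ∈ Icc a b, ‖φ τ • w‖ ≤ ‖w‖) ∧
    (∀ᵐ τ, τ ∈ Icc a b → ‖deriv (fun τ => y τ + φ τ • w) τ - deriv y τ‖ ≤ 2 * ‖w‖) ∧
    act Λ (fun τ => y τ + φ τ • w) a b ≤ act Λ y a b +
      (φ b * mom Λ y b w - φ a * mom Λ y a w) + 2 * K * ‖w‖ ^ 2 * (b - a) := by
  have hl : LipschitzOnWith (2 * ‖w‖₊) (fun τ => φ τ • w) (Icc a b) :=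
    LipschitzOnWith.of_dist_le_mul fun s _ t _ => by
      rw [dist_eq_norm, ← sub_smul, norm_smul, Real.norm_eq_abs, Real.dist_eq]
      push_cast
      nlinarith [hφ s t, norm_nonneg w]
  have hc1 : ContDiff ℝ 1 y := hy.cu.c2.of_le (by norm_num)
  obtain ⟨C, hC⟩ := hB.cur.c1 a b hc1
  have hcv : Cv (fun τ => y τ + φ τ • w) a b := ⟨_, hC.add hl⟩
  have hn : ∀ τ ∈ Icc a b, ‖φ τ • w‖ ≤ ‖w‖ := fun τ hτ => by
    rw [norm_smul, Real.norm_of_nonneg (h01 τ hτ).1]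
    nlinarith [norm_nonneg w, (h01 τ hτ).2]
  have hd : ∀ᵐ τ, τ ∈ Icc a b → deriv (fun τ => y τ + φ τ • w) τ =
      deriv y τ + deriv (fun τ => φ τ • w) τ ∧ ‖deriv (fun τ => φ τ • w) τ‖ ≤ 2 * ‖w‖ := by
    filter_upwards [hB.cur.ae hl] with τ h hτ
    refine ⟨deriv_fun_add (hc1.differentiable (by norm_num) τ) (h hτ).1, ?_⟩
    have := (h hτ).2
    push_cast at this
    exact this
  refine ⟨hcv, hn, ?_, ?_⟩
  · filter_upwards [hd] with τ h hτ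
    rw [(h hτ).1, add_sub_cancel_left]
    exact (h hτ).2
  have hU : ∀ τ ∈ Icc a b, y τ + φ τ • w ∈ G.U1 := fun τ hτ =>
    G.add_mem_U1 (hy.cu.mem τ) ((hn τ hτ).trans hw)
  have i1 : IntervalIntegrable (fun τ => Λ (ph (fun τ => y τ + φ τ • w) τ)) volume a b :=
    hB.cur.intF (S := G.U1) hab hcv (hL.smooth.continuousOn.mono fun p hp => G.U1_sub_U hp) hU
  have i2 : IntervalIntegrable (fun τ => Λ (ph y τ)) volume a b :=
    (hB.el.cL hL hy.cu).intervalIntegrable a b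
  have hc := (hB.el.cD1 hL hy.cu).continuous
  have i3 : IntervalIntegrable
      (fun τ => fderiv ℝ Λ (ph y τ) (φ τ • w, deriv (fun τ => φ τ • w) τ, 0)) volume a b :=
    hB.cur.intF (γ := fun τ => φ τ • w) (S := univ)
      (F := fun p => fderiv ℝ Λ (ph y p.2.2) (p.1, p.2.1, 0)) hab ⟨_, hl⟩
      (Continuous.continuousOn ((hc.comp (continuous_snd.comp continuous_snd)).clm_apply
        (by fun_prop))) fun _ _ => mem_univ _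
  have fv := hB.el.fv (ξ := fun τ => φ τ • w) hL hy hab ⟨_, hl⟩
  have hmono := intervalIntegral.integral_mono_ae_restrict hab i1
    ((i2.add i3).add (intervalIntegrable_const (c := 2 * K * ‖w‖ ^ 2))) (by
      rw [EventuallyLE, ae_restrict_iff' measurableSet_Icc]
      filter_upwards [hd] with τ h hτ
      have := pt hB hL hb (τ := τ) (hy.cu.mem τ) (hs τ) hw (hn τ hτ) (h hτ).2
      unfold ph
      rw [(h hτ).1]
      exact this)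
  rw [intervalIntegral.integral_add (i2.add i3) intervalIntegrable_const,
    intervalIntegral.integral_add i2 i3, fv, intervalIntegral.integral_const] at hmono
  simp only [map_smul, smul_eq_mul] at hmono
  unfold act
  linarith

end VlL

theorem vlc (hB : Bas E) : VlcStmt E := by
  intro G Λ y R κ K hL hb hy hs s t w hst hw
  have hφ : ∀ a b : ℝ, |max (1 + 2 * (a - t)) 0 - max (1 + 2 * (b - t)) 0| ≤ 2 * |a - b| := by
    intro a b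
    refine (abs_max_sub_max_le_abs _ _ _).trans (le_of_eq ?_)
    rw [show 1 + 2 * (a - t) - (1 + 2 * (b - t)) = 2 * (a - b) by ring, abs_mul]
    norm_num
  have h01 : ∀ τ, τ ≤ t → 0 ≤ max (1 + 2 * (τ - t)) 0 ∧ max (1 + 2 * (τ - t)) 0 ≤ 1 :=
    fun τ hτ => ⟨le_max_right _ _, max_le (by linarith) zero_le_one⟩
  have h0 : ∀ τ, τ ≤ t - 1 / 2 → max (1 + 2 * (τ - t)) 0 = 0 := fun τ hτ =>
    max_eq_right (by linarith)
  have h1 : max (1 + 2 * (t - t)) 0 = 1 := by simp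
  obtain ⟨a1, a2, a3, -⟩ := VlL.var hB hL hb hy hs (a := s) (b := t) (by linarith) hφ
    (fun τ hτ => h01 τ hτ.2) hw
  obtain ⟨-, -, -, b4⟩ := VlL.var hB hL hb hy hs (a := t - 1 / 2) (b := t) (by linarith) hφ
    (fun τ hτ => h01 τ hτ.2) hw
  have he : ∀ τ ∈ Icc s (t - 1 / 2), y τ + max (1 + 2 * (τ - t)) 0 • w = y τ := fun τ hτ => by
    rw [h0 τ hτ.2, zero_smul, add_zero]
  refine ⟨_, a1, fun τ hτ => ?_, he, ?_, a3, ?_⟩
  · rw [add_sub_cancel_left]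
    exact a2 τ hτ
  · rw [h1, one_smul]
  · have c1 := hB.pth.add hL hst (by linarith : t - 1 / 2 ≤ t) a1
      fun τ hτ => G.add_mem_U1 (hy.cu.mem τ) ((a2 τ hτ).trans hw)
    have c2 := hB.cur.congr (γ := fun τ => y τ + max (1 + 2 * (τ - t)) 0 • w) (γ' := y) Λ hst he
    have c3 := hB.el.add hL hy.cu s (t - 1 / 2) t
    rw [h1, h0 _ le_rfl] at b4
    linarith

theorem vl (hB : Bas E) : VlStmt E := by
  intro G Λ Λ' y R κ K σ' hL hL' hb hy hs hσ t w hw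
  have hr := G.r0_le
  have key : ∀ {a b : ℝ} (hab : a ≤ b) {φ : ℝ → ℝ}, (∀ s t, |φ s - φ t| ≤ 2 * |s - t|) →
      (∀ τ ∈ Icc a b, 0 ≤ φ τ ∧ φ τ ≤ 1) →
      Path G Λ' (y a + φ a • w) a (y b + φ b • w) b (act Λ y a b +
        (φ b * mom Λ y b w - φ a * mom Λ y a w) + 2 * K * ‖w‖ ^ 2 * (b - a) + σ' * (b - a)) := by
    intro a b hab φ hφ h01
    obtain ⟨a1, a2, a3, a4⟩ := VlL.var hB hL hb hy hs hab hφ h01 hw
    have hU : ∀ τ ∈ Icc a b, y τ + φ τ • w ∈ G.U1 := fun τ hτ =>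
      G.add_mem_U1 (hy.cu.mem τ) ((a2 τ hτ).trans hw)
    refine ⟨hab, _, a1, hU, rfl, rfl, ?_⟩
    have := hB.pth.cmp (R' := R + 1) hL hL' hab a1 hU (by
      filter_upwards [a3] with τ h hτ
      have h1 := norm_sub_norm_le (deriv (fun τ => y τ + φ τ • w) τ) (deriv y τ)
      linarith [h hτ, hs τ]) hσ
    linarith
  constructor
  · have h := key (a := t - 1 / 2) (b := t) (by linarith) (φ := fun τ => 1 + 2 * (τ - t))
      (fun a b => le_of_eq (by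
        rw [show 1 + 2 * (a - t) - (1 + 2 * (b - t)) = 2 * (a - b) by ring, abs_mul]
        norm_num))
      fun τ hτ => ⟨by linarith [hτ.1], by linarith [hτ.2]⟩
    simp only [show 1 + 2 * (t - 1 / 2 - t) = 0 by ring, show 1 + 2 * (t - t) = 1 by ring,
      zero_smul, add_zero, one_smul] at h
    exact h.mono (le_of_eq (by ring))
  · have h := key (a := t) (b := t + 1 / 2) (by linarith) (φ := fun τ => 1 - 2 * (τ - t))
      (fun a b => le_of_eq (by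
        rw [show 1 - 2 * (a - t) - (1 - 2 * (b - t)) = 2 * (b - a) by ring, abs_mul,
          abs_sub_comm]
        norm_num))
      fun τ hτ => ⟨by linarith [hτ.2], by linarith [hτ.1]⟩
    simp only [show 1 - 2 * (t + 1 / 2 - t) = 0 by ring, show 1 - 2 * (t - t) = 1 by ring,
      zero_smul, add_zero, one_smul] at h
    exact h.mono (le_of_eq (by ring))

end Pool.Agent.MP_7bf9b2_an

end

section

/-!
Transfer between the manifold `M` and the ambient model.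
-/

namespace Pool.Agent.MP_7bf9b2_an

open scoped Topology Manifold ContDiff
open Set Filter MeasureTheory Metric

set_option linter.unusedSectionVars false
set_option maxSynthPendingDepth 3

variable {V : Type} [NormedAddCommGroup V] [NormedSpace ℝ V] [FiniteDimensional ℝ V]
  {M : Type} [TopologicalSpace M] [ChartedSpace V M] [IsManifold 𝓘(ℝ, V) ∞ M]
  {E : Type} [NormedAddCommGroup E] [InnerProductSpace ℝ E] [FiniteDimensional ℝ E]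

variable (V M E) in
/-- an embedding `e` of `M` in `E` with a retraction `pr` of a neighbourhood -/
structure Amb where
  G : Geo E
  e : M → E
  pr : E → M
  he : ContMDiff 𝓘(ℝ, V) 𝓘(ℝ, E) ∞ e
  rng : G.M₀ = range e
  hpr : ContMDiffOn 𝓘(ℝ, E) 𝓘(ℝ, V) 3 pr G.U
  inv : ∀ x, pr (e x) = x
  hr : ∀ z, G.r z = e (pr z)

namespace Amb
variable (a : Amb V M E)
noncomputable def lt (z v : E) : TB V M := tv (a.pr z) (mfderiv 𝓘(ℝ, E) 𝓘(ℝ, V) a.pr z v)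
noncomputable def lift (p : PP E) : TT V M := (a.lt p.1 p.2.1, cl p.2.2)
noncomputable def amb (ℒ : TT V M → ℝ) (p : PP E) : ℝ :=
  ℒ (a.lift p) + ‖p.2.1 - fderiv ℝ a.G.r p.1 p.2.1‖ ^ 2 / 2 + ‖p.1 - a.G.r p.1‖ ^ 2 / 2
def pos (z : TT V M) : E := a.e z.1.proj
noncomputable def vel (z : TT V M) : E := mfderiv 𝓘(ℝ, V) 𝓘(ℝ, E) a.e z.1.proj z.1.snd
def potL (f : Pot V M) (p : PP E) : ℝ := f.toFun (a.pr p.1, cl p.2.2)
noncomputable def formL (η : TB V M → ℝ) (p : PP E) : ℝ := η (a.lt p.1 p.2.1)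
/-- the retraction read in the chart at `x₀` -/
noncomputable def hc (x₀ : M) (z : E) : V := chartAt V x₀ (a.pr z)
/-- its domain -/
def W (x₀ : M) : Set E := a.G.U ∩ a.pr ⁻¹' (chartAt V x₀).source
end Amb

/-- `L + f` -/
def lagf (L : TT V M → ℝ) (f : Pot V M) : TT V M → ℝ := fun z => L z + f.toFun (z.1.proj, z.2)

/-- `L + f - ∑ c i η i` -/
def lagr (L : TT V M → ℝ) (f : Pot V M) {m : ℕ} (η : Fin m → TB V M → ℝ) (c : Fin m → ℝ) :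
    TT V M → ℝ := fun z => L z + f.toFun (z.1.proj, z.2) - ∑ i, c i * η i z.1

variable (V M E)

/-- `C²` functions on `TM × ℝ` in charts and on fibres -/
structure Ch1Stmt : Prop where
  loc : ∀ {F : TB V M × ℝ → ℝ}, IsC2 F → ∀ x₀ : M,
    ContDiffOn ℝ 2 (fun p : V × V × ℝ => F (coord x₀ p.1 p.2.1, p.2.2))
      {p | p.1 ∈ (chartAt V x₀).target}
  fib : ∀ {F : TB V M × ℝ → ℝ}, IsC2 F → ∀ (x : M) (t : ℝ),
    ContDiff ℝ 2 fun v : V => F (tv x v, t)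
  cont : ∀ {ℒ : TT V M → ℝ}, IsC2 (fun p : TB V M × ℝ => ℒ (p.1, cl p.2)) → Continuous ℒ
  pot : ∀ (f : Pot V M) (x₀ : M), ContDiffOn ℝ 2 (f.loc x₀) ((chartAt V x₀).target ×ˢ univ)

structure Ch2Stmt : Prop where
  oW : ∀ (a : Amb V M E) (x₀ : M), IsOpen (a.W x₀)
  cW : ∀ (a : Amb V M E) (x₀ : M), ContDiffOn ℝ 3 (a.hc x₀) (a.W x₀)
  lt_eq : ∀ (a : Amb V M E) (x₀ : M), ∀ z ∈ a.W x₀, ∀ v : E,
    a.lt z v = coord x₀ (a.hc x₀ z) (fderiv ℝ (a.hc x₀) z v)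
  lift_pv : ∀ (a : Amb V M E) (z : TT V M) (t : ℝ), z.2 = cl t → a.lift (a.pos z, a.vel z, t) = z
  tm : ∀ (a : Amb V M E) (z : TT V M) (t : ℝ), (a.pos z, a.vel z, t) ∈ a.G.TM
  cpos : ∀ a : Amb V M E, Continuous a.pos
  cvel : ∀ a : Amb V M E, Continuous a.vel
  clift : ∀ a : Amb V M E, ContinuousOn a.lift a.G.Om
  dr : ∀ (a : Amb V M E) (p : PP E), p.1 ∈ a.G.U →
    a.pos (a.lift p) = a.G.r p.1 ∧ a.vel (a.lift p) = fderiv ℝ a.G.r p.1 p.2.1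
  t2 : Amb V M E → T2Space (TT V M)
  c2 : ∀ (a : Amb V M E) {F : TB V M × ℝ → ℝ}, IsC2 F →
    ContDiffOn ℝ 2 (fun p : PP E => F (a.lt p.1 p.2.1, p.2.2)) a.G.Om

/-- nearest point retraction, local statement -/
def Retr1Stmt : Prop := ∀ [CompactSpace M] [Nonempty M] (e : M → E),
  ContMDiff 𝓘(ℝ, V) 𝓘(ℝ, E) ∞ e → Function.Injective e →
  (∀ x, Function.Injective (mfderiv 𝓘(ℝ, V) 𝓘(ℝ, E) e x)) →
  ∃ pr : E → M, (∀ x, pr (e x) = x) ∧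
    ∀ x, ∃ W ∈ 𝓝 (e x), ContMDiffOn 𝓘(ℝ, E) 𝓘(ℝ, V) 3 pr W

def RetrStmt : Prop := ∀ [T2Space M] [CompactSpace M] [ConnectedSpace M],
  ∃ N : ℕ, Nonempty (Amb V M (EuclideanSpace ℝ (Fin N)))

def ALag1Stmt : Prop := ∀ (a : Amb V M E) {ℒ : TT V M → ℝ}, IsTonelli ℒ →
  ContDiffOn ℝ 2 (a.amb ℒ) a.G.Om ∧
  (∀ (z v : E) (t : ℝ), a.amb ℒ (z, v, t + 1) = a.amb ℒ (z, v, t)) ∧
  (∀ z ∈ a.G.U, ∀ (v : E) (t : ℝ),
    a.amb ℒ (a.G.r z, fderiv ℝ a.G.r z v, t) + ‖z - a.G.r z‖ ^ 2 / 2 ≤ a.amb ℒ (z, v, t)) ∧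
  ∀ z ∈ a.G.U1, ∀ t A : ℝ, ∃ C : ℝ, ∀ v : E, A * ‖v‖ - C ≤ a.amb ℒ (z, v, t)

def ALag2Stmt : Prop := ∀ (a : Amb V M E) {ℒ : TT V M → ℝ}, IsTonelli ℒ →
  ContDiffOn ℝ 2 (a.amb ℒ) a.G.Om →
  ∀ p : PP E, p.1 ∈ a.G.U → ∀ w : E, w ≠ 0 → 0 < D2 (a.amb ℒ) p (iV w) (iV w)

/-- the Euler-Lagrange equation passes from the chart to the ambient space -/
def ElCoreStmt : Prop := ∀ {W : Set E} {T : Set V} {h : E → V} {r : E → E}
  {ℓ : V × V × ℝ → ℝ} {Λ : PP E → ℝ} {y : ℝ → E} {t₀ : ℝ}, IsOpen W → IsOpen T →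
  ContDiffOn ℝ 3 h W → ContDiffOn ℝ 3 r W → MapsTo h W T → ContDiffOn ℝ 2 ℓ {p | p.1 ∈ T} →
  (∀ p : PP E, p.1 ∈ W → Λ p = ℓ (h p.1, fderiv ℝ h p.1 p.2.1, p.2.2) +
    ‖p.2.1 - fderiv ℝ r p.1 p.2.1‖ ^ 2 / 2 + ‖p.1 - r p.1‖ ^ 2 / 2) →
  ContDiff ℝ 2 y → y t₀ ∈ W → (∀ t, r (y t) = y t) →
  ELAt (fun q v s => ℓ (q, v, t₀ + s)) (fun s => h (y (t₀ + s))) →
  HasDerivAt (mom Λ y) (px Λ (ph y t₀)) t₀

def AElStmt : Prop := ∀ (a : Amb V M E) {ℒ : TT V M → ℝ} {Φ : Flow ℝ (TT V M)},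
  IsC2 (fun p : TB V M × ℝ => ℒ (p.1, cl p.2)) → IsEL ℒ Φ → ∀ (z : TT V M) (t₀ : ℝ),
  z.2 = cl t₀ → ELc a.G (a.amb ℒ) (fun t => a.pos (Φ (t - t₀) z)) ∧
    ∀ t, deriv (fun t => a.pos (Φ (t - t₀) z)) t = a.vel (Φ (t - t₀) z)

def AFlStmt : Prop := ∀ (a : Amb V M E) {ℒ : TT V M → ℝ} {Φ : Flow ℝ (TT V M)},
  IsC2 (fun p : TB V M × ℝ => ℒ (p.1, cl p.2)) → IsEL ℒ Φ →
  ∃ Y : PP E → ℝ → E, Fl a.G (a.amb ℒ) Y ∧
    Rep a.G (a.amb ℒ) Y Φ ℒ (fun z => z.2) a.pos a.vel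

def TonFStmt : Prop := ∀ {L : TT V M → ℝ} (f : Pot V M) {m : ℕ} {η : Fin m → TB V M → ℝ}
  (c : Fin m → ℝ), IsTonelli L → (∀ i, IsClosedForm (η i)) →
  IsTonelli (lagr L f η c) ∧ IsC2 fun p : TB V M × ℝ => lagf L f (p.1, cl p.2)

def ElFStmt : Prop := ∀ {ℒ : TT V M → ℝ} {Φ : Flow ℝ (TT V M)} {m : ℕ}
  {η : Fin m → TB V M → ℝ} (c : Fin m → ℝ), IsC2 (fun p : TB V M × ℝ => ℒ (p.1, cl p.2)) →
  (∀ i, IsClosedForm (η i)) → IsEL ℒ Φ → IsEL (fun z => ℒ z - ∑ i, c i * η i z.1) Φ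

def T1Stmt : Prop := ∀ (a : Amb V M E) (f : Pot V M), ∀ N ∈ 𝓝 f, ∃ ε' > 0,
  ∀ φ : E × ℝ → ℝ, C2Bd ε' φ → ∃ f₁ ∈ N, ∀ (x : M) (t : ℝ),
    f₁.toFun (x, cl t) = f.toFun (x, cl t) + φ (a.e x, t)

def T2Stmt : Prop := ∀ (a : Amb V M E) (f₁ : Pot V M),
  ContDiffOn ℝ 2 (a.potL f₁) a.G.Om ∧
  ∀ σ > 0, ∃ N₁ ∈ 𝓝 f₁, ∀ f' ∈ N₁, Close a.G σ (a.potL f') (a.potL f₁)

def T3Stmt : Prop := ∀ (a : Amb V M E) {η : TB V M → ℝ}, IsClosedForm η →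
  ContDiffOn ℝ 2 (a.formL η) a.G.Om ∧ ∃ C : ℝ, 0 ≤ C ∧ Close a.G C (a.formL η) fun _ => 0

def T4Stmt : Prop := ∀ (a : Amb V M E) {L : TT V M → ℝ} {m : ℕ} {η : Fin m → TB V M → ℝ}
  (c : Fin m → ℝ) (f f₁ : Pot V M) (φ : E × ℝ → ℝ), IsTonelli L → (∀ i, IsClosedForm (η i)) →
  (∀ (x : M) (t : ℝ), f₁.toFun (x, cl t) = f.toFun (x, cl t) + φ (a.e x, t)) →
  ∀ σ > 0, ∃ N₁ ∈ 𝓝 f₁, ∃ δ > 0, ∀ f' ∈ N₁, ∀ c' : Fin m → ℝ, dist c' c < δ →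
    Close a.G σ (a.amb (lagr L f' η c')) (addP a.G (a.amb (lagr L f η c)) φ)

end Pool.Agent.MP_7bf9b2_an

end

section

namespace Pool.Agent.MP_7bf9b2_an

open scoped Topology Manifold ContDiff
open Set Filter MeasureTheory Metric

set_option linter.unusedSectionVars false
set_option maxSynthPendingDepth 3

/-- Baire type conclusion. -/
theorem fin_baire {P C : Type} [TopologicalSpace P] [PseudoMetricSpace C]
    [TopologicalSpace.SeparableSpace C] [Nonempty C] (Good : P → C → Prop) (Adm : P → Prop)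
    (h : ∀ (f : P) (c : C), Adm f → ∀ N ∈ 𝓝 f, ∃ f₁ ∈ N, ∃ N₁ ∈ 𝓝 f₁, ∃ δ > 0, ∀ f' ∈ N₁,
      ∀ c', dist c' c < δ → Good f' c') :
    ∃ O ∈ residual P, ∀ f ∈ O, Adm f → ∃ U : Set C, IsOpen U ∧ Dense U ∧ ∀ c ∈ U, Good f c := by
  obtain ⟨c, hc⟩ := TopologicalSpace.exists_dense_seq C
  let W : ℕ → Set P := fun j =>
    {f | ∃ N₁ ∈ 𝓝 f, ∃ δ > 0, ∀ f' ∈ N₁, ∀ c', dist c' (c j) < δ → Good f' c'}
  have hWo : ∀ j, IsOpen (W j) := by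
    intro j
    rw [isOpen_iff_mem_nhds]
    rintro f ⟨N₁, hN₁, δ, hδ, hg⟩
    filter_upwards [eventually_mem_nhds_iff.2 hN₁] with g hg'
    exact ⟨N₁, hg', δ, hδ, hg⟩
  refine ⟨⋂ j, W j ∪ (closure (W j))ᶜ, ?_, ?_⟩
  · refine (countable_iInter_mem).2 fun j => ?_
    refine residual_of_dense_open ((hWo j).union isClosed_closure.isOpen_compl) ?_
    intro x
    by_cases hx : x ∈ closure (W j)
    · exact closure_mono subset_union_left hx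
    · exact subset_closure (Or.inr hx)
  · intro f hf ha
    have hW : ∀ j, f ∈ W j := by
      intro j
      rcases mem_iInter.1 hf j with h1 | h1
      · exact h1
      · exfalso
        refine h1 (mem_closure_iff_nhds.2 fun N hN => ?_)
        obtain ⟨f₁, hf₁, hrest⟩ := h f (c j) ha N hN
        exact ⟨f₁, hf₁, hrest⟩
    refine ⟨interior {c' | Good f c'}, isOpen_interior, ?_, fun c' hc' => interior_subset hc'⟩
    refine Dense.mono ?_ hc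
    rintro _ ⟨j, rfl⟩
    obtain ⟨N₁, hN₁, δ, hδ, hg⟩ := hW j
    rw [mem_interior_iff_mem_nhds]
    filter_upwards [ball_mem_nhds (c j) hδ] with c' hc'
    exact hg f (mem_of_mem_nhds hN₁) c' hc'

variable {V : Type} [NormedAddCommGroup V] [NormedSpace ℝ V] [FiniteDimensional ℝ V]
  {M : Type} [TopologicalSpace M] [ChartedSpace V M] [IsManifold 𝓘(ℝ, V) ∞ M]
  {E : Type} [NormedAddCommGroup E] [InnerProductSpace ℝ E] [FiniteDimensional ℝ E]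

theorem alag (h1 : ALag1Stmt V M E) (h2 : ALag2Stmt V M E) (hs : SupStmt E) (a : Amb V M E)
    {ℒ : TT V M → ℝ} (hL : IsTonelli ℒ) : Lag a.G (a.amb ℒ) := by
  obtain ⟨s1, s2, s3, s4⟩ := h1 a hL
  exact ⟨s1, s2, s3, h2 a hL s1, hs s1 s2 (h2 a hL s1) s4⟩

theorem ml [MeasurableSpace (TT V M)] [BorelSpace (TT V M)] (h1 : ALag1Stmt V M E)
    (h2 : ALag2Stmt V M E) (hs : SupStmt E) (hc : Ch2Stmt V M E) (hfl : AFlStmt V M E)
    (ht : TonFStmt V M) (he : ElFStmt V M) (t1 : T1Stmt V M E) (t4 : T4Stmt V M E)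
    (ham : AmStmt E) (hms : Ms3Stmt E) (a : Amb V M E) {L : TT V M → ℝ} (hL : IsTonelli L)
    {m : ℕ} {η : Fin m → TB V M → ℝ} (hη : ∀ i, IsClosedForm (η i)) (f : Pot V M)
    (c : Fin m → ℝ) (Φ : Flow ℝ (TT V M)) (hΦ : IsEL (lagf L f) Φ) :
    ∀ N ∈ 𝓝 f, ∃ f₁ ∈ N, ∃ N₁ ∈ 𝓝 f₁, ∃ δ > 0, ∀ f' ∈ N₁, ∀ c' : Fin m → ℝ, dist c' c < δ →
      ∀ Φ' : Flow ℝ (TT V M), IsEL (lagf L f') Φ' → UniqPer Φ' (lagr L f' η c') := by
  intro N hN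
  have key : ∀ (g : Pot V M) (d : Fin m → ℝ) (Ψ : Flow ℝ (TT V M)), IsEL (lagf L g) Ψ →
      Lag a.G (a.amb (lagr L g η d)) ∧ ∃ Y : PP E → ℝ → E, Fl a.G (a.amb (lagr L g η d)) Y ∧
        Rep a.G (a.amb (lagr L g η d)) Y Ψ (lagr L g η d) (fun z => z.2) a.pos a.vel := by
    intro g d Ψ hΨ
    obtain ⟨k1, k2⟩ := ht g d hL hη
    exact ⟨alag h1 h2 hs a k1, hfl a k1.smooth (he d k2 hη hΨ)⟩
  obtain ⟨ε', hε', hφ⟩ := t1 a f N hN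
  obtain ⟨l0, Y₀, f0, -⟩ := key f c Φ hΦ
  obtain ⟨φ, hφb, σ, hσ, hlock⟩ := ham l0 f0 ε' hε'
  obtain ⟨f₁, hf₁, hf₁e⟩ := hφ φ hφb
  obtain ⟨N₁, hN₁, δ, hδ, hcl⟩ := t4 a c f f₁ φ hL hη hf₁e σ hσ
  refine ⟨f₁, hf₁, N₁, hN₁, δ, hδ, fun f' hf' c' hc' Φ' hΦ' => ?_⟩
  obtain ⟨l1, Y, fl, rep⟩ := key f' c' Φ' hΦ'
  have := hc.t2 a
  exact hms l1 rep (hlock _ Y l1 fl (hcl f' hf' c' hc'))

end Pool.Agent.MP_7bf9b2_an

end

section

/-! Closed one-forms do not change the Euler-Lagrange equation. -/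

namespace Pool.Agent.MP_7bf9b2_an

open scoped Topology Manifold ContDiff
open Set Filter MeasureTheory Metric

set_option linter.unusedSectionVars false
set_option maxSynthPendingDepth 3

variable {V : Type} [NormedAddCommGroup V] [NormedSpace ℝ V] [FiniteDimensional ℝ V]
  {M : Type} [TopologicalSpace M] [ChartedSpace V M] [IsManifold 𝓘(ℝ, V) ∞ M]
  {E : Type} [NormedAddCommGroup E] [InnerProductSpace ℝ E] [FiniteDimensional ℝ E]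

namespace ElFL

theorem core {ℓ : V → V → ℝ → ℝ} {q : ℝ → V} {A : V → V →L[ℝ] ℝ}
    (hA : DifferentiableAt ℝ A (q 0))
    (hs : ∀ u w, fderiv ℝ A (q 0) u w = fderiv ℝ A (q 0) w u) (hq : DifferentiableAt ℝ q 0)
    (h1 : ∀ᶠ s in 𝓝 (0 : ℝ), DifferentiableAt ℝ (fun v => ℓ (q s) v s) (deriv q s))
    (h2 : DifferentiableAt ℝ (fun x => ℓ x (deriv q 0) 0) (q 0)) (h : ELAt ℓ q) :
    ELAt (fun x v s => ℓ x v s - A x v) q := by
  have a1 : HasDerivAt (fun s => A (q s)) (fderiv ℝ A (q 0) (deriv q 0)) 0 :=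
    hA.hasFDerivAt.comp_hasDerivAt 0 hq.hasDerivAt
  have a2 : HasFDerivAt (fun x => A x (deriv q 0)) (fderiv ℝ A (q 0) (deriv q 0)) (q 0) := by
    refine (hA.hasFDerivAt.clm_apply (hasFDerivAt_const (deriv q 0) (q 0))).congr_fderiv ?_
    ext u
    simp [hs (deriv q 0) u]
  unfold ELAt
  rw [(h2.hasFDerivAt.fun_sub a2).fderiv]
  refine (HasDerivAt.fun_sub h a1).congr_of_eventuallyEq ?_
  filter_upwards [h1] with s hs
  exact (hs.hasFDerivAt.fun_sub (A (q s)).hasFDerivAt).fderiv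

theorem form (h1 : Ch1Stmt V M) {η : TB V M → ℝ} (h : IsClosedForm η) (x₀ : M) :
    ∃ A : V → V →L[ℝ] ℝ, (∀ x v, η (coord x₀ x v) = A x v) ∧
      ∀ x ∈ (chartAt V x₀).target, DifferentiableAt ℝ A x ∧
        ∀ u w, fderiv ℝ A x u w = fderiv ℝ A x w u := by
  have hl : ∀ x, ∃ B : V →L[ℝ] ℝ, ∀ v, η (coord x₀ x v) = B v := fun x =>
    ⟨(LinearMap.toContinuousLinearMap
      (IsLinearMap.mk' _ (h.linear ((chartAt V x₀).symm x)))).comp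
        (mfderiv 𝓘(ℝ, V) 𝓘(ℝ, V) (chartAt V x₀).symm x), fun _ => rfl⟩
  choose A hA using hl
  have hc : ContDiffOn ℝ 2 A (chartAt V x₀).target := by
    refine contDiffOn_clm_apply.2 fun v => ?_
    have := (h1.loc h.smooth x₀).comp (f := fun x : V => (x, v, (0 : ℝ)))
      (s := (chartAt V x₀).target) (by fun_prop) fun x hx => hx
    exact this.congr fun x _ => (hA x v).symm
  refine ⟨A, hA, fun x hx => ?_⟩
  have hd : DifferentiableAt ℝ A x :=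
    (hc.contDiffAt ((chartAt V x₀).open_target.mem_nhds hx)).differentiableAt (by simp)
  have e : ∀ u w, fderiv ℝ A x u w = fderiv ℝ (fun y => η (coord x₀ y w)) x u := by
    intro u w
    simp only [hA]
    rw [fderiv_clm_apply hd (differentiableAt_const w)]
    simp
  refine ⟨hd, fun u w => ?_⟩
  rw [e, e]
  exact h.closed x₀ x hx w u

end ElFL

theorem elf (h1 : Ch1Stmt V M) : ElFStmt V M := by
  intro ℒ Φ m η c hL hη h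
  refine ⟨h.time, h.smooth, h.vel, fun z t ht => ?_⟩
  choose A hA hA' using fun i => ElFL.form h1 (hη i) z.1.proj
  have h0 : (Φ 0 z).1.proj = z.1.proj := by rw [Φ.map_zero_apply]
  have hq : DifferentiableAt ℝ (fun s : ℝ => chartAt V z.1.proj (Φ s z).1.proj) 0 := by
    have a1 : ContMDiffAt 𝓘(ℝ, V) 𝓘(ℝ, V) 2 (extChartAt 𝓘(ℝ, V) z.1.proj) (Φ 0 z).1.proj := by
      rw [h0]
      exact contMDiffAt_extChartAt
    have a2 := a1.comp 0 (h.smooth z 0)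
    exact (contMDiffAt_iff_contDiffAt.1 a2).differentiableAt (by simp)
  have hT : chartAt V z.1.proj (Φ 0 z).1.proj ∈ (chartAt V z.1.proj).target := by
    rw [h0]
    exact mem_chart_target V _
  have hev := hq.continuousAt.eventually ((chartAt V z.1.proj).open_target.mem_nhds hT)
  have hO : IsOpen {p : V × V × ℝ | p.1 ∈ (chartAt V z.1.proj).target} :=
    (chartAt V z.1.proj).open_target.preimage continuous_fst
  have hd : ∀ p : V × V × ℝ, p.1 ∈ (chartAt V z.1.proj).target → DifferentiableAt ℝ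
      (fun p : V × V × ℝ => ℒ (coord z.1.proj p.1 p.2.1, cl p.2.2)) p := fun p hp =>
    ((h1.loc hL z.1.proj).contDiffAt (hO.mem_nhds hp)).differentiableAt (by simp)
  have hf : HasFDerivAt (fun x => ∑ i, c i • A i x)
      (∑ i, c i • fderiv ℝ (A i) (chartAt V z.1.proj (Φ 0 z).1.proj))
      (chartAt V z.1.proj (Φ 0 z).1.proj) :=
    HasFDerivAt.fun_sum fun i _ => (hA' i _ hT).1.hasFDerivAt.const_smul (c i)
  have := ElFL.core (A := fun x => ∑ i, c i • A i x) hf.differentiableAt (fun u w => ?_) hq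
    (hev.mono fun s hs => ?_) ?_ (h.el z t ht)
  · convert this using 4 with x v s
    simp [hA]
  · rw [hf.fderiv]
    simp only [ContinuousLinearMap.sum_apply, ContinuousLinearMap.smul_apply, (hA' _ _ hT).2 u w]
  · exact (hd (_, _, t + s) hs).comp _ (f := fun v : V => (_, v, t + s)) (by fun_prop)
  · exact (hd (_, _, t + 0) hT).comp _ (f := fun x : V => (x, _, t + 0)) (by fun_prop)

end Pool.Agent.MP_7bf9b2_an

end
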