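import Pool.Agent.Mg.F7bf9b2.G21a10a

section

namespace Pool.Agent.MP_7bf9b2_an

open scoped Topology Manifold ContDiff
open Set Filter MeasureTheory Metric

set_option maxSynthPendingDepth 3

variable {V : Type} [NormedAddCommGroup V] [NormedSpace ℝ V] [FiniteDimensional ℝ V]
  {M : Type} [TopologicalSpace M] [ChartedSpace V M] [IsManifold 𝓘(ℝ, V) ∞ M]
  {E : Type} [NormedAddCommGroup E] [InnerProductSpace ℝ E] [FiniteDimensional ℝ E]

namespace ALag2L

theorem line {W : Type} [NormedAddCommGroup W] [NormedSpace ℝ W] {f : W → ℝ} {p : W}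
    (hf : ContDiffAt ℝ 2 f p) (u : W) :
    deriv (deriv fun s : ℝ => f (p + s • u)) 0 = fderiv ℝ (fderiv ℝ f) p u u := by
  have hl : ∀ s : ℝ, HasDerivAt (fun s : ℝ => p + s • u) u s := fun s => by
    simpa using ((hasDerivAt_id s).smul_const u).const_add p
  have h0 : p + (0 : ℝ) • u = p := by simp
  have ht : Tendsto (fun s : ℝ => p + s • u) (𝓝 0) (𝓝 p) := by
    have := (hl 0).continuousAt.tendsto
    rwa [h0] at this
  have h1 : (deriv fun s : ℝ => f (p + s • u)) =ᶠ[𝓝 0] fun s => fderiv ℝ f (p + s • u) u := by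
    filter_upwards [ht.eventually (hf.eventually (by simp))] with s hs
    exact ((hs.differentiableAt (by norm_num)).hasFDerivAt.comp_hasDerivAt s (hl s)).deriv
  have h2 : HasFDerivAt (fderiv ℝ f) (fderiv ℝ (fderiv ℝ f) p) (p + (0 : ℝ) • u) := by
    rw [h0]
    exact ((hf.fderiv_right (m := 1) (by norm_num)).differentiableAt (by norm_num)).hasFDerivAt
  have h3 := (h2.comp_hasDerivAt (0 : ℝ) (hl 0)).clm_apply (hasDerivAt_const (0 : ℝ) u)
  rw [h1.deriv_eq]
  simpa using h3.deriv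

theorem quad {g : ℝ → ℝ} (hg : ContDiff ℝ 2 g) (A B C : ℝ) :
    deriv (deriv fun s : ℝ => g s + (A + B * s + C * s ^ 2 / 2)) 0 = deriv (deriv g) 0 + C := by
  have h1 : (deriv fun s : ℝ => g s + (A + B * s + C * s ^ 2 / 2)) =
      fun s => deriv g s + (B + C * s) := by
    funext s
    have h2 : HasDerivAt (fun s : ℝ => A + B * s + C * s ^ 2 / 2) (B + C * s) s := by
      refine ((((hasDerivAt_id s).const_mul B).const_add A).add
        (((hasDerivAt_pow 2 s).const_mul C).div_const 2)).congr_deriv ?_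
      norm_num
      ring
    exact (((hg.differentiable (by norm_num)) s).hasDerivAt.add h2).deriv
  have h2 : HasDerivAt (fun s : ℝ => B + C * s) C 0 := by
    simpa using ((hasDerivAt_id (0 : ℝ)).const_mul C).const_add B
  rw [h1]
  exact ((hg.differentiable_deriv_two 0).hasDerivAt.add h2).deriv

end ALag2L

theorem alag2 (h1 : Ch1Stmt V M) (h2 : Ch2Stmt V M E) : ALag2Stmt V M E := by
  rintro a ℒ hT hs ⟨z, v, t⟩ hp w hw
  obtain ⟨P, hP⟩ : ∃ P : E →L[ℝ] V, P = mfderiv 𝓘(ℝ, E) 𝓘(ℝ, V) a.pr z := ⟨_, rfl⟩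
  have hlt : ∀ u, a.lt z u = tv (a.pr z) (P u) := fun u => by
    rw [hP]
    rfl
  have hg : ContDiff ℝ 2 fun s : ℝ => ℒ (tv (a.pr z) (P v + s • P w), cl t) :=
    (h1.fib hT.smooth (a.pr z) t).comp (f := fun s : ℝ => P v + s • P w) (by fun_prop)
  have e : (fun s : ℝ => a.amb ℒ ((z, v, t) + s • iV w)) = fun s : ℝ =>
      ℒ (tv (a.pr z) (P v + s • P w), cl t) +
        ((‖v - fderiv ℝ a.G.r z v‖ ^ 2 / 2 + ‖z - a.G.r z‖ ^ 2 / 2) +
          inner ℝ (v - fderiv ℝ a.G.r z v) (w - fderiv ℝ a.G.r z w) * s +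
          ‖w - fderiv ℝ a.G.r z w‖ ^ 2 * s ^ 2 / 2) := by
    funext s
    have e1 : ((z, v, t) : PP E) + s • iV w = (z, v + s • w, t) := by simp
    have e2 : v + s • w - fderiv ℝ a.G.r z (v + s • w) =
        (v - fderiv ℝ a.G.r z v) + s • (w - fderiv ℝ a.G.r z w) := by
      rw [map_add, map_smul, smul_sub]
      abel
    rw [e1]
    simp only [Amb.amb, Amb.lift, hlt]
    rw [e2, norm_add_sq_real, norm_smul, real_inner_smul_right, map_add, map_smul, mul_pow,
      Real.norm_eq_abs, sq_abs]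
    ring
  rw [D2, ← ALag2L.line (hs.contDiffAt (a.G.isOpen_Om.mem_nhds hp)), e, ALag2L.quad hg]
  by_cases h0 : P w = 0
  · have h3 : fderiv ℝ a.G.r z w = 0 := by
      refine ((h2.dr a (z, w, t) hp).2.symm.trans ?_)
      rw [Amb.lift, hlt, h0]
      exact map_zero (mfderiv 𝓘(ℝ, V) 𝓘(ℝ, E) a.e (a.pr z))
    simp only [h0, h3, smul_zero, sub_zero, deriv_const', deriv_const, zero_add]
    positivity
  · have h3 := hT.convex (a.pr z) (P v) (P w) (cl t) h0
    rw [iteratedDeriv_succ, iteratedDeriv_one] at h3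
    positivity

end Pool.Agent.MP_7bf9b2_an

end

section

/-!
Closeness of the ambient Lagrangians.
-/

namespace Pool.Agent.MP_7bf9b2_an

open scoped Topology Manifold ContDiff
open Set Filter MeasureTheory Metric

set_option linter.unusedSectionVars false
set_option maxSynthPendingDepth 3

variable {V : Type} [NormedAddCommGroup V] [NormedSpace ℝ V] [FiniteDimensional ℝ V]
  {M : Type} [TopologicalSpace M] [ChartedSpace V M] [IsManifold 𝓘(ℝ, V) ∞ M]
  {E : Type} [NormedAddCommGroup E] [InnerProductSpace ℝ E] [FiniteDimensional ℝ E]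

namespace T4L

section Gen

variable {W F : Type} [NormedAddCommGroup W] [NormedSpace ℝ W] [NormedAddCommGroup F]
  [NormedSpace ℝ F] {f g : W → F} {S : Set W} {p : W}

theorem d1 (hS : IsOpen S) (hf : ContDiffOn ℝ 2 f S) (hp : p ∈ S) : DifferentiableAt ℝ f p :=
  (hf.contDiffAt (hS.mem_nhds hp)).differentiableAt (by norm_num)

theorem d2 (hS : IsOpen S) (hf : ContDiffOn ℝ 2 f S) (hp : p ∈ S) :
    DifferentiableAt ℝ (fderiv ℝ f) p :=
  (((hf.fderiv_of_isOpen hS (by norm_num) : ContDiffOn ℝ 1 (fderiv ℝ f) S)).contDiffAt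
    (hS.mem_nhds hp)).differentiableAt (by norm_num)

theorem lin1 (hS : IsOpen S) (hf : ContDiffOn ℝ 2 f S) (hg : ContDiffOn ℝ 2 g S) (hp : p ∈ S)
    (c : ℝ) : fderiv ℝ (fun z => f z + c • g z) p = fderiv ℝ f p + c • fderiv ℝ g p :=
  ((d1 hS hf hp).hasFDerivAt.add ((d1 hS hg hp).hasFDerivAt.const_smul c)).fderiv

theorem lin2 (hS : IsOpen S) (hf : ContDiffOn ℝ 2 f S) (hg : ContDiffOn ℝ 2 g S) (hp : p ∈ S)
    (c : ℝ) : fderiv ℝ (fderiv ℝ fun z => f z + c • g z) p =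
      fderiv ℝ (fderiv ℝ f) p + c • fderiv ℝ (fderiv ℝ g) p := by
  have : (fderiv ℝ fun z => f z + c • g z) =ᶠ[𝓝 p] fun q => fderiv ℝ f q + c • fderiv ℝ g q := by
    filter_upwards [hS.mem_nhds hp] with q hq using lin1 hS hf hg hq c
  rw [this.fderiv_eq]
  exact ((d2 hS hf hp).hasFDerivAt.add ((d2 hS hg hp).hasFDerivAt.const_smul c)).fderiv

theorem nrm {a b a' : F} {c s t w : ℝ} (h1 : ‖a - a'‖ ≤ s * w) (h2 : ‖b - 0‖ ≤ t * w) :
    ‖a + c • b - a'‖ ≤ (s + |c| * t) * w := by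
  rw [sub_zero] at h2
  have e : a + c • b - a' = (a - a') + c • b := by abel
  rw [e]
  refine (norm_add_le _ _).trans ?_
  rw [norm_smul, Real.norm_eq_abs]
  have := mul_le_mul_of_nonneg_left h2 (abs_nonneg c)
  linarith

end Gen

variable {G : Geo E} {A B H : PP E → ℝ} {σ τ : ℝ}

theorem D2_zero (p : PP E) : D2 (fun _ : PP E => (0 : ℝ)) p = 0 := by
  simp [D2]

/-- adding a multiple of a small function -/
theorem step (hA : ContDiffOn ℝ 2 A G.Om) (hH : ContDiffOn ℝ 2 H G.Om) (h : Close G σ A B)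
    (h' : Close G τ H fun _ => 0) (c : ℝ) : Close G (σ + |c| * τ) (fun p => A p + c • H p) B := by
  refine ⟨fun p hp => ?_, fun p hp => ?_, fun p hp => ?_⟩
  · exact nrm (F := ℝ) (h.c0 p hp) (h'.c0 p hp)
  · have hp' : p ∈ G.Om := G.U1_sub_U hp
    rw [lin1 G.isOpen_Om hA hH hp']
    refine nrm (h.c1 p hp) ?_
    have := h'.c1 p hp
    rwa [fderiv_fun_const, Pi.zero_apply] at this
  · have hp' : p ∈ G.Om := G.U1_sub_U hp
    have e : D2 (fun p => A p + c • H p) p = D2 A p + c • D2 H p := lin2 G.isOpen_Om hA hH hp' c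
    rw [e]
    refine nrm (h.c2 p hp) ?_
    have := h'.c2 p hp
    rwa [D2_zero] at this

theorem steps {ι : Type} (S : Finset ι) {Hs : ι → PP E → ℝ} {C c : ι → ℝ}
    (hA : ContDiffOn ℝ 2 A G.Om) (hH : ∀ i, ContDiffOn ℝ 2 (Hs i) G.Om) (h : Close G σ A B)
    (h' : ∀ i, Close G (C i) (Hs i) fun _ => 0) :
    Close G (σ + ∑ i ∈ S, |c i| * C i) (fun p => A p + ∑ i ∈ S, c i • Hs i p) B := by
  classical
  induction S using Finset.induction_on with
  | empty => simpa using h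
  | insert j S hj ih =>
    have h1 : ContDiffOn ℝ 2 (fun p => A p + ∑ i ∈ S, c i • Hs i p) G.Om :=
      hA.add (ContDiffOn.sum fun i _ => (hH i).const_smul (c i))
    have h2 := step h1 (hH j) ih (h' j) (c j)
    have e1 : σ + ∑ i ∈ insert j S, |c i| * C i = σ + ∑ i ∈ S, |c i| * C i + |c j| * C j := by
      rw [Finset.sum_insert hj]; ring
    have e2 : (fun p => A p + ∑ i ∈ insert j S, c i • Hs i p) =
        fun p => A p + ∑ i ∈ S, c i • Hs i p + c j • Hs j p := by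
      funext p
      rw [Finset.sum_insert hj]; ring
    rw [e1, e2]
    exact h2

theorem diff (hA : ContDiffOn ℝ 2 A G.Om) (hB : ContDiffOn ℝ 2 B G.Om) (h : Close G σ A B) :
    Close G σ (fun p => A p + (-1 : ℝ) • B p) fun _ => 0 := by
  refine ⟨fun p hp => ?_, fun p hp => ?_, fun p hp => ?_⟩
  · rw [neg_one_smul, sub_zero, ← sub_eq_add_neg]
    exact h.c0 p hp
  · have hp' : p ∈ G.Om := G.U1_sub_U hp
    rw [lin1 G.isOpen_Om hA hB hp', fderiv_fun_const, Pi.zero_apply, neg_one_smul, sub_zero,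
      ← sub_eq_add_neg]
    exact h.c1 p hp
  · have hp' : p ∈ G.Om := G.U1_sub_U hp
    have e : D2 (fun p => A p + (-1 : ℝ) • B p) p = D2 A p + (-1 : ℝ) • D2 B p :=
      lin2 G.isOpen_Om hA hB hp' (-1)
    rw [e, D2_zero, neg_one_smul, sub_zero, ← sub_eq_add_neg]
    exact h.c2 p hp

end T4L

open T4L in
theorem t4 (ht : TonFStmt V M) (hl : ALag1Stmt V M E) (h2 : T2Stmt V M E) (h3 : T3Stmt V M E) :
    T4Stmt V M E := by
  intro a L m η c f f₁ φ hL hη hf σ hσ
  have e0 : addP a.G (a.amb (lagr L f η c)) φ = a.amb (lagr L f₁ η c) := by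
    funext p
    have := hf (a.pr p.1) p.2.2
    simp only [addP, Amb.amb, lagr, Amb.lift, Amb.lt, tv, a.hr, this]
    ring
  choose C hC0 hC using fun i => (h3 a (hη i)).2
  obtain ⟨N₁, hN, hN'⟩ := (h2 a f₁).2 (σ / 2) (by positivity)
  have hS : 0 ≤ ∑ i, C i := Finset.sum_nonneg fun i _ => hC0 i
  refine ⟨N₁, hN, σ / 2 / (∑ i, C i + 1), by positivity, fun f' hf' c' hc' => ?_⟩
  rw [e0]
  have hB : ContDiffOn ℝ 2 (a.amb (lagr L f₁ η c)) a.G.Om := (hl a (ht f₁ c hL hη).1).1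
  have hP : ContDiffOn ℝ 2 (fun p => a.potL f' p + (-1 : ℝ) • a.potL f₁ p) a.G.Om :=
    (h2 a f').1.add ((h2 a f₁).1.const_smul (-1 : ℝ))
  have s1 := step hB hP (Close.refl le_rfl) (diff (h2 a f').1 (h2 a f₁).1 (hN' f' hf')) 1
  have s2 := steps Finset.univ (c := fun i => c i - c' i) (hB.add (hP.const_smul (1 : ℝ)))
    (fun i => (h3 a (hη i)).1) s1 hC
  have e1 : a.amb (lagr L f' η c') = fun p => a.amb (lagr L f₁ η c) p +
      (1 : ℝ) • (a.potL f' p + (-1 : ℝ) • a.potL f₁ p) +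
      ∑ i, (c i - c' i) • a.formL (η i) p := by
    funext p
    simp only [Amb.amb, lagr, Amb.lift, Amb.potL, Amb.formL, Amb.lt, tv, smul_eq_mul, sub_mul,
      Finset.sum_sub_distrib]
    ring
  rw [e1]
  refine s2.mono ?_
  have h4 : ∑ i, |c i - c' i| * C i ≤ σ / 2 / (∑ i, C i + 1) * ∑ i, C i := by
    rw [Finset.mul_sum]
    refine Finset.sum_le_sum fun i _ => mul_le_mul_of_nonneg_right ?_ (hC0 i)
    rw [abs_sub_comm, ← Real.dist_eq]
    exact (dist_le_pi_dist c' c i).trans hc'.le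
  have h5 : σ / 2 / (∑ i, C i + 1) * ∑ i, C i ≤ σ / 2 := by
    rw [div_mul_eq_mul_div, div_le_iff₀ (by positivity)]
    nlinarith
  rw [abs_one]
  linarith

end Pool.Agent.MP_7bf9b2_an

end
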