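import Pool.Agent.Mg.F7bf9b2.G21a10a

section

/-! Acceleration bounds along Euler-Lagrange curves. -/

set_option maxSynthPendingDepth 3
set_option linter.unusedSectionVars false

namespace Pool.Agent.MP_7bf9b2_an

open scoped Topology
open Set Filter MeasureTheory Metric

variable {E : Type} [NormedAddCommGroup E] [InnerProductSpace ℝ E] [FiniteDimensional ℝ E]

namespace AccL

theorem eqn {G : Geo E} {Λ : PP E → ℝ} {y : ℝ → E} (hL : Lag G Λ) (hy : ELc G Λ y) (t : ℝ)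
    (w : E) : D2 Λ (ph y t) (deriv y t, deriv (deriv y) t, 1) (iV w) =
      fderiv ℝ Λ (ph y t) (iX w) := by
  have h1 : HasDerivAt y (deriv y t) t := (hy.cu.c2.differentiable (by norm_num) t).hasDerivAt
  have h2 : HasDerivAt (deriv y) (deriv (deriv y) t) t :=
    (hy.cu.c2.differentiable_deriv_two t).hasDerivAt
  have h3 : HasDerivAt (ph y) (deriv y t, deriv (deriv y) t, 1) t :=
    h1.prodMk (h2.prodMk (hasDerivAt_id t))
  have h4 : ContDiffAt ℝ 2 Λ (ph y t) :=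
    hL.smooth.contDiffAt (G.isOpen_Om.mem_nhds (G.M_sub_U (hy.cu.mem t)))
  have h5 : HasFDerivAt (fderiv ℝ Λ) (D2 Λ (ph y t)) (ph y t) :=
    ((h4.fderiv_right (m := 1) (by norm_num)).differentiableAt (by norm_num)).hasFDerivAt
  have h6 := (h5.comp_hasDerivAt t h3).clm_apply (hasDerivAt_const t (iV w))
  have h7 := (hy.el t).clm_apply (hasDerivAt_const t w)
  simp only [map_zero, add_zero] at h6 h7
  exact h6.unique h7

end AccL

theorem acc (hB : Bas E) : AccStmt E := by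
  intro G Λ y R κ K hL hb hy hs t
  have hm := G.M_sub_U1 (hy.cu.mem t)
  have hv : ‖(ph y t).2.1‖ ≤ R + 1 := (hs t).trans (by linarith)
  have e := AccL.eqn hL hy t (deriv (deriv y) t)
  have hst := hs t
  have h1 := hb.b1 _ hm hv
  have h2 := hb.b2 _ hm hv
  have h3 := hb.cvx _ hm hv (deriv (deriv y) t)
  have hR := hb.R0
  have hK := hb.K1
  generalize deriv (deriv y) t = a at *
  generalize deriv y t = v at *
  generalize D2 Λ (ph y t) = D at *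
  generalize fderiv ℝ Λ (ph y t) = F at *
  have s : ((v, a, 1) : PP E) = iV a + (v, 0, 1) := by simp
  rw [s, map_add, ContinuousLinearMap.add_apply] at e
  have n1 : ‖(iX a : PP E)‖ = ‖a‖ := by simp
  have n2 : ‖(iV a : PP E)‖ = ‖a‖ := by simp
  have n3 : ‖((v, 0, 1) : PP E)‖ ≤ R + 1 := by
    simp only [Prod.norm_mk, norm_zero, norm_one, max_le_iff]
    refine ⟨by linarith, by linarith, by linarith⟩
  have b1 : F (iX a) ≤ K * ‖a‖ := by
    refine (le_abs_self _).trans ((F.le_opNorm _).trans ?_)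
    rw [n1]
    gcongr
  have b2 : -D (v, 0, 1) (iV a) ≤ K * (R + 1) * ‖a‖ := by
    refine (neg_le_abs _).trans ((D.le_opNorm₂ _ _).trans ?_)
    rw [n2]
    gcongr
  rw [le_div_iff₀ hb.k0]
  rcases (norm_nonneg a).eq_or_lt with h0 | h0
  · rw [← h0, zero_mul]
    positivity
  · refine le_of_mul_le_mul_right ?_ h0
    nlinarith

end Pool.Agent.MP_7bf9b2_an

end

section

/-! The combinatorial core in the case of positive excess. -/

namespace Pool.Agent.MP_7bf9b2_an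

open scoped Topology
open Set Filter MeasureTheory Metric

set_option maxSynthPendingDepth 3

namespace CbL

/-- the normalised hypotheses -/
structure Cx (K ε₁ c g w τ μ b e C : ℝ) (n q H : ℕ) (A D : ℤ → ℝ) (idx : ℤ → ℤ) : Prop where
  K0 : 0 < K
  e0 : 0 < ε₁
  g0 : 0 < g
  w0 : 0 < w
  t0 : 0 ≤ τ
  gb : 128 * K * g ≤ b
  qb : 3 * b ≤ q * (ε₁ * g)
  wg : 6 * w ≤ ε₁ * g
  q1 : 1 ≤ q
  nq : 20 * q ≤ n
  H1 : 10 * H ≤ 6 * n
  H2 : n + 4 * q ≤ 2 * H + 1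
  ab : n * w ≤ b
  tw : 2 * (n * τ) ≤ w
  tm : 2 * (n * τ) ≤ ε₁ * μ
  ee : e ≤ w + τ
  A0 : ∀ l, 0 ≤ A l
  A1 : ∀ l : ℤ, 1 ≤ l → l ≤ n → n * w ≤ A l
  A2 : ∀ l : ℤ, 1 ≤ l → l ≤ H → b ≤ A l
  A3 : 3 * (n * w) ≤ ε₁ * g ∨ ∀ l : ℤ, 1 ≤ l → l ≤ n + 2 * q → n * w - ε₁ * g / 6 ≤ A l
  D0 : ∀ r, 0 ≤ D r
  ix : ∀ r, 0 ≤ idx r ∧ idx r < n
  I2 : ∀ s s' t' t : ℤ, s < s' → s' < t' → t' < t → D s ≤ g → D s' ≤ g → D t' ≤ g → D t ≤ g →
    idx s = idx t → idx s' = idx t' → A (t - s - (t' - s')) ≤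
      ((t - s - (t' - s') : ℤ) : ℝ) * e + 8 * K * (D s + D t + D s' + D t')
  I3 : ∀ s t : ℤ, s < t → D s ≤ g → D t ≤ g → idx s = idx t →
    A (t - s) + ε₁ * ∑ r ∈ Finset.Ioo s t, D r ≤ ((t - s : ℤ) : ℝ) * e + 8 * K * (D s + D t)
  I4 : ∀ s : ℤ, (∀ r ∈ Finset.Icc s (s + n), D r ≤ μ) →
    c * ∑ r ∈ Finset.Ioo s (s + n), D r ≤ 8 * K * (D s + D (s + n))
  I5 : ∀ s t : ℤ, s ≤ t → ε₁ * ∑ r ∈ Finset.Ico s t, D r ≤ C + ((t - s : ℤ) : ℝ) * e

/-- first return pairs -/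
def Pr (g : ℝ) (L : ℕ) (D : ℤ → ℝ) (idx : ℤ → ℤ) : Set (ℤ × ℤ) :=
  {p | p.1 < p.2 ∧ p.2 - p.1 ≤ L ∧ D p.1 ≤ g ∧ D p.2 ≤ g ∧ idx p.1 = idx p.2 ∧
    ∀ r, p.1 < r → r < p.2 → D r ≤ g → idx r ≠ idx p.1}

theorem bad_le {D : ℤ → ℝ} (h : ∀ r, 0 ≤ D r) (g : ℝ) (S : Finset ℤ) :
    ((S.filter fun r => ¬ D r ≤ g).card : ℝ) * g ≤ ∑ r ∈ S, D r := by
  have := Finset.card_nsmul_le_sum (S.filter fun r => ¬ D r ≤ g) D g
    fun r hr => (not_le.1 (Finset.mem_filter.1 hr).2).le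
  rw [nsmul_eq_mul] at this
  exact this.trans (Finset.sum_le_sum_of_subset_of_nonneg (Finset.filter_subset _ _)
    fun r _ _ => h r)

theorem sum_x (D : ℤ → ℝ) (ε₁ v : ℝ) {s t : ℤ} (h : s ≤ t) :
    ∑ r ∈ Finset.Ico s t, (ε₁ * D r - v) =
      ε₁ * ∑ r ∈ Finset.Ico s t, D r - ((t : ℝ) - s) * v := by
  rw [Finset.sum_sub_distrib, Finset.mul_sum, Finset.sum_const, Int.card_Ico, nsmul_eq_mul]
  have : (((t - s).toNat : ℤ) : ℝ) = ((t - s : ℤ) : ℝ) := by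
    rw [Int.toNat_of_nonneg (sub_nonneg.2 h)]
  rw [Int.cast_natCast, Int.cast_sub] at this
  rw [this]

theorem sum_split (D : ℤ → ℝ) {s t u : ℤ} (h : s ≤ t) (h' : t ≤ u) :
    ∑ r ∈ Finset.Ico s u, D r = ∑ r ∈ Finset.Ico s t, D r + ∑ r ∈ Finset.Ico t u, D r := by
  rw [← Finset.sum_union (Finset.Ico_disjoint_Ico_consecutive s t u),
    Finset.Ico_union_Ico_eq_Ico h h']

variable {K ε₁ c g w τ μ b e C : ℝ} {n q H : ℕ} {A D : ℤ → ℝ} {idx : ℤ → ℤ}
  (X : Cx K ε₁ c g w τ μ b e C n q H A D idx)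

include X

theorem Cx.n20 : (20 : ℝ) ≤ n := by
  have := X.q1
  have := X.nq
  exact_mod_cast (by omega : 20 ≤ n)

theorem Cx.a0 : 0 < (n : ℝ) * w := mul_pos (by linarith [X.n20]) X.w0

theorem Cx.e11 : e ≤ 11 / 10 * w := by
  have := mul_le_mul_of_nonneg_right X.n20 X.t0
  linarith [X.ee, X.tw, X.w0]

theorem Cx.len {l k : ℤ} (h0 : 0 ≤ l) (h : 10 * l ≤ k * n) :
    (l : ℝ) * e ≤ 11 / 100 * k * (n * w) := by
  have h1 : (0 : ℝ) ≤ l := by exact_mod_cast h0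
  have h2 : (10 : ℝ) * l ≤ k * n := by exact_mod_cast h
  have h3 := mul_le_mul_of_nonneg_left X.e11 h1
  have h4 := mul_le_mul_of_nonneg_right h2 X.w0.le
  linarith

theorem Cx.two {s t : ℤ} (hs : D s ≤ g) (ht : D t ≤ g) : 8 * K * (D s + D t) ≤ b / 8 := by
  have := mul_le_mul_of_nonneg_left (add_le_add hs ht) X.K0.le
  linarith [X.gb]

theorem Cx.sum0 (S : Finset ℤ) : 0 ≤ ε₁ * ∑ r ∈ S, D r :=
  mul_nonneg X.e0.le (Finset.sum_nonneg fun r _ => X.D0 r)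

theorem Cx.s1 {s t : ℤ} (h : s < t) (hs : D s ≤ g) (ht : D t ≤ g) (hi : idx s = idx t) :
    s + H < t := by
  by_contra hc
  have h1 := X.A2 (t - s) (by omega) (by omega)
  have h2 := X.I3 s t h hs ht hi
  have h3 := X.len (l := t - s) (k := 6) (by omega) (by have := X.H1; omega)
  have h4 := X.two hs ht
  have h5 := X.sum0 (Finset.Ioo s t)
  push_cast at h2 h3
  linarith [X.ab, X.a0]

theorem Cx.cnt {S : Finset ℤ} (h : InjOn idx S) : S.card ≤ n := by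
  have := Finset.card_le_card_of_injOn (t := Finset.Ico (0 : ℤ) n) idx
    (fun r _ => Finset.mem_coe.2 (Finset.mem_Ico.2 (X.ix r))) h
  simpa using this

theorem Cx.good {S : Finset ℤ} (h : ε₁ * ∑ r ∈ S, D r ≤ 3 * b) :
    S.card ≤ (S.filter fun r => D r ≤ g).card + q := by
  have h1 := mul_le_mul_of_nonneg_left (bad_le X.D0 g S) X.e0.le
  have h2 : ((S.filter fun r => ¬ D r ≤ g).card : ℝ) * (ε₁ * g) ≤ q * (ε₁ * g) := by
    linarith [X.qb]
  have h3 : (S.filter fun r => ¬ D r ≤ g).card ≤ q := by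
    exact_mod_cast le_of_mul_le_mul_right h2 (mul_pos X.e0 X.g0)
  have := Finset.card_filter_add_card_filter_not (s := S) fun r => D r ≤ g
  omega

theorem Cx.inj (j : ℤ) : InjOn idx ((Finset.Ico j (j + H)).filter fun r => D r ≤ g) := by
  intro s hs t ht hi
  simp only [Finset.coe_filter, Finset.mem_Ico, mem_ofPred_eq] at hs ht
  rcases lt_trichotomy s t with h | h | h
  · have := X.s1 h hs.2 ht.2 hi
    omega
  · exact h
  · have := X.s1 h ht.2 hs.2 hi.symm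
    omega

theorem Cx.light {j : ℤ} (h : ∑ r ∈ Finset.Ico j (j + H), (ε₁ * D r - 2 * w) ≤ 0) :
    H ≤ (((Finset.Ico j (j + H)).filter fun r => D r ≤ g).image idx).card + q := by
  rw [sum_x D _ _ (by omega)] at h
  have h1 : (10 : ℝ) * H ≤ 6 * n := by exact_mod_cast X.H1
  have h2 := mul_le_mul_of_nonneg_right h1 X.w0.le
  push_cast at h
  have := X.good (S := Finset.Ico j (j + H)) (by linarith [X.ab, X.a0])
  rw [Finset.card_image_of_injOn (X.inj j)]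
  simpa using this

theorem Cx.s2 (h1 : SunStmt) (j : ℤ) :
    ε₁ * ∑ r ∈ Finset.Ico j (j + (n + 2 * q)), D r ≤ 3 * b := by
  obtain ⟨⟨s₀, a1, a2, a3⟩, t₀, b1, b2, b3⟩ := h1 (fun r => ε₁ * D r - 2 * w) C (9 / 10 * w)
    (by linarith [X.w0]) (fun s t h => by
      have h0 : (0 : ℝ) ≤ t - s := by exact_mod_cast sub_nonneg.2 h
      have h2 := X.I5 s t h
      have h3 := mul_le_mul_of_nonneg_left X.e11 h0
      push_cast at h2
      rw [sum_x D _ _ h]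
      linarith) j (j + (n + 2 * q))
  have c1 := X.light (j := s₀ - H) (by rw [sub_add_cancel]; exact a2 _ (by omega))
  have c2 := X.light (j := t₀) (b2 _ (by omega))
  obtain ⟨s, hs, t, ht, hi⟩ : ∃ s ∈ (Finset.Ico (s₀ - H) (s₀ - H + H)).filter fun r => D r ≤ g,
      ∃ t ∈ (Finset.Ico t₀ (t₀ + H)).filter fun r => D r ≤ g, idx s = idx t := by
    by_contra hc
    have hd : Disjoint (((Finset.Ico (s₀ - H) (s₀ - H + H)).filter fun r => D r ≤ g).image idx)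
        (((Finset.Ico t₀ (t₀ + H)).filter fun r => D r ≤ g).image idx) := by
      refine Finset.disjoint_left.2 fun i hi hi' => hc ?_
      obtain ⟨s, hs, rfl⟩ := Finset.mem_image.1 hi
      obtain ⟨t, ht, h⟩ := Finset.mem_image.1 hi'
      exact ⟨s, hs, t, ht, h.symm⟩
    have h2 := Finset.card_le_card (t := Finset.Ico (0 : ℤ) n)
      (Finset.union_subset (s := ((Finset.Ico (s₀ - H) (s₀ - H + H)).filter
        fun r => D r ≤ g).image idx) (t := ((Finset.Ico t₀ (t₀ + H)).filter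
        fun r => D r ≤ g).image idx)
        (Finset.image_subset_iff.2 fun r _ => Finset.mem_Ico.2 (X.ix r))
        (Finset.image_subset_iff.2 fun r _ => Finset.mem_Ico.2 (X.ix r)))
    rw [Finset.card_union_of_disjoint hd, Int.card_Ico] at h2
    have := X.H2
    have := X.q1
    omega
  simp only [Finset.mem_filter, Finset.mem_Ico] at hs ht
  have d1 := X.I3 s t (by omega) hs.2 ht.2 hi
  have d2 := X.two hs.2 ht.2
  have d3 : ∑ r ∈ Finset.Ico s₀ t₀, D r ≤ ∑ r ∈ Finset.Ioo s t, D r :=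
    Finset.sum_le_sum_of_subset_of_nonneg (fun r hr => by
      rw [Finset.mem_Ico] at hr
      rw [Finset.mem_Ioo]
      omega) fun r _ _ => X.D0 r
  rw [sum_split D a1 (by omega), sum_split D (by omega) b1] at d3
  have d4 := mul_le_mul_of_nonneg_left d3 X.e0.le
  rw [sum_x D _ _ a1] at a3
  rw [sum_x D _ _ b1] at b3
  have d5 := X.len (l := t - s - (j - s₀) - (t₀ - (j + (n + 2 * q)))) (k := 23) (by omega)
    (by have := X.H1; have := X.nq; omega)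
  have d6 : (0 : ℝ) ≤ (j - s₀) + (t₀ - (j + (n + 2 * q))) := by
    exact_mod_cast (by omega : 0 ≤ (j - s₀) + (t₀ - (j + (n + 2 * q))))
  have d7 := mul_le_mul_of_nonneg_left X.e11 d6
  have d8 := mul_nonneg d6 X.w0.le
  have d9 := X.A0 (t - s)
  push_cast at d1 d5 b3
  linarith [X.ab, X.a0]

theorem Cx.long {s t : ℤ} (h : (s, t) ∈ Pr g (n + 2 * q) D idx) :
    ((t : ℝ) - s - n) * (ε₁ * g) ≤ ε₁ * ∑ r ∈ Finset.Ioo s t, D r := by
  obtain ⟨p1, p2, p3, p4, p5, p6⟩ := h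
  dsimp only at p1 p2 p3 p4 p5 p6
  have key : ∀ s' t', s ≤ s' → s' < t' → t' < t → D s' ≤ g → D t' ≤ g → idx s' ≠ idx t' := by
    intro s' t' h1 h2 h3 h4 h5 hi
    rcases h1.eq_or_lt with rfl | h1
    · exact p6 t' h2 h3 h5 hi.symm
    have k1 := X.s1 h2 h4 h5 hi
    have k0 := X.H2
    have k2 := X.A2 (t - s - (t' - s')) (by omega) (by omega)
    have k3 := X.I2 s s' t' t h1 h2 h3 p3 h4 h5 p4 p5 hi
    have k4 := X.len (l := t - s - (t' - s')) (k := 6) (by omega) (by have := X.H1; omega)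
    have k5 := X.two p3 p4
    have k6 := X.two h4 h5
    push_cast at k3 k4
    linarith [X.ab, X.a0]
  have h1 := X.cnt (S := insert s ((Finset.Ioo s t).filter fun r => D r ≤ g)) (by
    have m : ∀ r ∈ insert s ((Finset.Ioo s t).filter fun r => D r ≤ g),
        s ≤ r ∧ r < t ∧ D r ≤ g := fun r hr => by
      rcases Finset.mem_insert.1 hr with rfl | hr
      · exact ⟨le_rfl, p1, p3⟩
      · simp only [Finset.mem_filter, Finset.mem_Ioo] at hr
        exact ⟨hr.1.1.le, hr.1.2, hr.2⟩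
    intro x hx y hy hi
    obtain ⟨x1, x2, x3⟩ := m x hx
    obtain ⟨y1, y2, y3⟩ := m y hy
    rcases lt_trichotomy x y with h | h | h
    · exact absurd hi (key x y x1 h y2 x3 y3)
    · exact h
    · exact absurd hi.symm (key y x y1 h x2 y3 x3))
  rw [Finset.card_insert_of_notMem (by simp)] at h1
  have h2 := Finset.card_filter_add_card_filter_not (s := Finset.Ioo s t) fun r => D r ≤ g
  rw [Int.card_Ioo] at h2
  have h3 : (t : ℝ) - s - n ≤ ((Finset.Ioo s t).filter fun r => ¬ D r ≤ g).card := by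
    exact_mod_cast (by omega : t - s - n ≤ ((Finset.Ioo s t).filter fun r => ¬ D r ≤ g).card)
  have h4 := mul_le_mul_of_nonneg_left (bad_le X.D0 g (Finset.Ioo s t)) X.e0.le
  have h5 := mul_le_mul_of_nonneg_right h3 (mul_pos X.e0 X.g0).le
  linarith

theorem Cx.s3 {c4 : ℝ} (c1 : c4 ≤ ε₁ / 2) (c2 : c4 ≤ c) (c3 : c4 ≤ 8 * K) {s t : ℤ}
    (h : (s, t) ∈ Pr g (n + 2 * q) D idx) :
    c4 * ∑ r ∈ Finset.Ioo s t, D r ≤ 8 * K * (D s + D t) := by
  have hl := X.long h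
  obtain ⟨p1, p2, p3, p4, p5, -⟩ := h
  dsimp only at p1 p2 p3 p4 p5
  have i3 := X.I3 s t p1 p3 p4 p5
  have s0 : 0 ≤ ∑ r ∈ Finset.Ioo s t, D r := Finset.sum_nonneg fun r _ => X.D0 r
  have s1 := X.sum0 (Finset.Ioo s t)
  have m1 := mul_le_mul_of_nonneg_right c1 s0
  have l0 : (0 : ℝ) ≤ t - s := by exact_mod_cast sub_nonneg.2 p1.le
  have le := mul_le_mul_of_nonneg_left X.ee l0
  push_cast at i3
  rcases lt_trichotomy (t - s) n with hn | hn | hn
  · have k1 := X.A1 (t - s) (by omega) hn.le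
    have k2 : (t : ℝ) - s ≤ n - 1 := by exact_mod_cast (by omega : t - s ≤ n - 1)
    have k3 := mul_le_mul_of_nonneg_right k2 (add_nonneg X.w0.le X.t0)
    linarith [X.tw, X.t0, X.w0]
  · have k1 := X.A1 (t - s) (by omega) hn.le
    have k2 : (t : ℝ) - s = n := by exact_mod_cast hn
    rw [k2] at i3 le
    by_cases k3 : 2 * (n * τ) ≤ ε₁ * ∑ r ∈ Finset.Ioo s t, D r
    · linarith
    have k4 : ∑ r ∈ Finset.Ioo s t, D r ≤ μ :=
      le_of_mul_le_mul_left ((not_le.1 k3).le.trans X.tm) X.e0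
    by_cases k5 : ∑ r ∈ Finset.Ioo s t, D r ≤ D s + D t
    · exact (mul_le_mul_of_nonneg_right c3 s0).trans
        (mul_le_mul_of_nonneg_left k5 (by linarith [X.K0]))
    obtain rfl : t = s + n := by omega
    refine (mul_le_mul_of_nonneg_right c2 s0).trans (X.I4 s fun r hr => ?_)
    rw [Finset.mem_Icc] at hr
    rcases hr.1.eq_or_lt with rfl | r1
    · linarith [X.D0 (s + n)]
    rcases hr.2.eq_or_lt with rfl | r2
    · linarith [X.D0 s]
    exact (Finset.single_le_sum (fun r _ => X.D0 r) (Finset.mem_Ioo.2 ⟨r1, r2⟩)).trans k4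
  · have k1 : (1 : ℝ) ≤ t - s - n := by exact_mod_cast (by omega : 1 ≤ t - s - n)
    have k2 := mul_le_mul_of_nonneg_right k1 (mul_pos X.e0 X.g0).le
    rcases X.A3 with k3 | k3
    · have k4 := X.len (l := t - s) (k := 11) (by omega) (by have := X.nq; omega)
      push_cast at k4
      linarith [X.A0 (t - s), X.a0]
    · have k4 := k3 (t - s) (by omega) (by omega)
      have k5 : (t : ℝ) - s ≤ 2 * n := by
        exact_mod_cast (by have := X.nq; omega : t - s ≤ 2 * n)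
      have k6 := mul_le_mul_of_nonneg_right k5 X.t0
      have k7 := mul_le_mul_of_nonneg_left X.wg (zero_le_one.trans k1)
      linarith [X.tw, X.wg]

theorem Cx.s4 (h1 : SunStmt) (r : ℤ) : ∃ S : Finset (ℤ × ℤ),
    (S : Set (ℤ × ℤ)) ⊆ Pr g (n + 2 * q) D idx ∧ q ≤ S.card ∧ ∀ p ∈ S, p.1 < r ∧ r < p.2 := by
  classical
  obtain ⟨G, hG⟩ : ∃ G, G = (Finset.Ico (r - H) (r - H + (n + 2 * q))).filter fun r => D r ≤ g :=
    ⟨_, rfl⟩
  have m : ∀ x, x ∈ G ↔ (r - H ≤ x ∧ x < r - H + (n + 2 * q)) ∧ D x ≤ g := fun x => by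
    rw [hG, Finset.mem_filter, Finset.mem_Ico]
  have a1 := X.good (X.s2 h1 (r - H))
  rw [← hG, Int.card_Ico] at a1
  have a2 := X.cnt (S := G.filter fun s => ¬ ∃ t ∈ G, s < t ∧ idx t = idx s) (by
    intro x hx y hy hi
    obtain ⟨x1, x2⟩ := Finset.mem_filter.1 hx
    obtain ⟨y1, y2⟩ := Finset.mem_filter.1 hy
    rcases lt_trichotomy x y with h | h | h
    · exact absurd ⟨y, y1, h, hi.symm⟩ x2
    · exact h
    · exact absurd ⟨x, x1, h, hi⟩ y2)
  have a3 := Finset.card_filter_add_card_filter_not (s := G)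
    fun s => ∃ t ∈ G, s < t ∧ idx t = idx s
  refine ⟨(G ×ˢ G).filter (· ∈ Pr g (n + 2 * q) D idx), fun p hp => (Finset.mem_filter.1 hp).2,
    ?_, fun p hp => ?_⟩
  · refine le_trans (by omega) ((Finset.card_le_card
      (s := G.filter fun s => ∃ t ∈ G, s < t ∧ idx t = idx s) fun s hs => ?_).trans
      (Finset.card_image_le (f := Prod.fst)))
    obtain ⟨s1, t, t1, t2⟩ := Finset.mem_filter.1 hs
    obtain ⟨u, u1, u2⟩ := Finset.exists_min_image (G.filter fun t => s < t ∧ idx t = idx s) id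
      ⟨t, Finset.mem_filter.2 ⟨t1, t2⟩⟩
    obtain ⟨u3, u4, u5⟩ := Finset.mem_filter.1 u1
    have ms := (m s).1 s1
    have mu := (m u).1 u3
    refine Finset.mem_image.2 ⟨(s, u), Finset.mem_filter.2 ⟨Finset.mem_product.2 ⟨s1, u3⟩, u4,
      by dsimp only; omega, ms.2, mu.2, u5.symm, fun x x1 x2 x3 x4 => ?_⟩, rfl⟩
    dsimp only at x1 x2 x4
    exact absurd (u2 x (Finset.mem_filter.2 ⟨(m x).2 ⟨by omega, x3⟩, x1, x4⟩)) (not_le.2 x2)
  · obtain ⟨b1, b2, -, b3, b4, b5, -⟩ := Finset.mem_filter.1 hp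
    obtain ⟨b6, b7⟩ := Finset.mem_product.1 b1
    have := X.s1 b2 b3 b4 b5
    have := (m _).1 b6
    have := (m _).1 b7
    have := X.H2
    omega

theorem Cx.main (h1 : SunStmt) (h2 : SumStmt) {c4 ρ2 : ℝ} (c0 : 0 < c4) (c1 : c4 ≤ ε₁ / 2)
    (c2 : c4 ≤ c) (c3 : c4 ≤ 8 * K) (c5 : 32 * K ≤ c4 * q) (hD : ∀ r, D r ≤ ρ2) (r : ℤ) :
    D r = 0 := by
  refine h2 K c4 ρ2 (n + 2 * q) q D (Pr g (n + 2 * q) D idx) X.K0 c0 c5
    (fun r => ⟨X.D0 r, hD r⟩) (fun p hp => ⟨hp.1, hp.2.1, X.s3 c1 c2 c3 hp⟩) ?_ ?_ (X.s4 h1) r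
  · rintro ⟨s, t⟩ ⟨p1, -, -, p4, p5, p6⟩ ⟨s', t'⟩ ⟨r1, -, -, r4, r5, r6⟩ (rfl : s = s')
    rcases lt_trichotomy t t' with h | h | h
    · exact absurd p5.symm (r6 t p1 h p4)
    · rw [h]
    · exact absurd r5.symm (p6 t' r1 h r4)
  · rintro ⟨s, t⟩ ⟨p1, -, p3, -, p5, p6⟩ ⟨s', t'⟩ ⟨r1, -, r3, -, r5, r6⟩ (rfl : t = t')
    rcases lt_trichotomy s s' with h | h | h
    · exact absurd (r5.trans p5.symm) (p6 s' h r1 r3)
    · rw [h]
    · exact absurd (p5.trans r5.symm) (r6 s h p1 p3)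

end CbL

theorem cb (h1 : SunStmt) (h2 : SumStmt) : CbStmt := by
  intro K ε₁ c lam hK hε hc hl hl4
  obtain ⟨b1, hb1, hb⟩ : ∃ b1 : ℝ, 0 < b1 ∧ b1 * (32 * K) = ε₁ * lam :=
    ⟨ε₁ * lam / (32 * K), by positivity, by field_simp⟩
  obtain ⟨c4, c0, c1, c2, c3⟩ : ∃ c4 : ℝ, 0 < c4 ∧ c4 ≤ ε₁ / 2 ∧ c4 ≤ c ∧ c4 ≤ 8 * K :=
    ⟨min (ε₁ / 2) (min c (8 * K)), by positivity, min_le_left _ _,
      (min_le_right _ _).trans (min_le_left _ _), (min_le_right _ _).trans (min_le_right _ _)⟩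
  obtain ⟨q, hq⟩ := exists_nat_ge (max (3 / b1) (32 * K / c4))
  have q1 : 3 ≤ q * b1 := (div_le_iff₀ hb1).1 ((le_max_left _ _).trans hq)
  have q2 : 32 * K ≤ q * c4 := (div_le_iff₀ c0).1 ((le_max_right _ _).trans hq)
  have q3 : 1 ≤ q := by
    rcases Nat.eq_zero_or_pos q with rfl | h
    · norm_num at q1
    · exact h
  refine ⟨2 * q, 20 * q, b1 / 6, 3 / b1, by positivity, ?_⟩
  intro n as b hn ha hab a0 a1 a2 a3 μ hμ
  have n0 : (0 : ℝ) < n := by exact_mod_cast (by omega : 0 < n)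
  obtain ⟨w, hw, hw'⟩ : ∃ w : ℝ, as n / n = w ∧ as n = n * w := ⟨_, rfl, by field_simp⟩
  have w0 : 0 < w := hw ▸ div_pos ha n0
  obtain ⟨τ, t0, t1, t2⟩ : ∃ τ : ℝ, 0 < τ ∧ 2 * (n * τ) ≤ w ∧ 2 * (n * τ) ≤ ε₁ * μ := by
    have : 2 * (n * (min w (ε₁ * μ) / (2 * n))) = min w (ε₁ * μ) := by field_simp
    exact ⟨min w (ε₁ * μ) / (2 * n), by positivity, this.trans_le (min_le_left _ _),
      this.trans_le (min_le_right _ _)⟩
  refine ⟨τ, t0, fun ρ2 e C D idx hρ he hD hi i2 i3 i4 i5 => ?_⟩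
  rw [hw] at he
  rw [hw'] at ha hab a1 a3
  have b0 : 0 < b := ha.trans_le hab
  have r0 : 0 < ρ2 := (mul_pos_iff_of_pos_left (by positivity : 0 < 32 * K)).1 (hρ ▸ b0)
  have hp : ε₁ * (lam * ρ2) = b1 * b := by rw [hρ]; linear_combination -ρ2 * hb
  have n1 : (20 : ℝ) * q ≤ n := by exact_mod_cast hn
  have X : CbL.Cx K ε₁ c (lam * ρ2) w τ μ b e C n q (n / 2 + 2 * q) (fun l => as l.toNat) D idx :=
    { K0 := hK
      e0 := hε
      g0 := mul_pos hl r0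
      w0 := w0
      t0 := t0.le
      gb := by
        have := mul_le_mul_of_nonneg_right hl4 b0.le
        rw [hρ] at this ⊢
        linarith
      qb := by
        have := mul_le_mul_of_nonneg_right q1 b0.le
        rw [hp]
        linarith
      wg := by
        have k1 := mul_le_mul_of_nonneg_left hab hb1.le
        have k2 := mul_le_mul_of_nonneg_right n1 (mul_pos hb1 w0).le
        have k3 := mul_le_mul_of_nonneg_right q1 w0.le
        rw [hp]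
        linarith
      q1 := q3
      nq := hn
      H1 := by omega
      H2 := by omega
      ab := hab
      tw := t1
      tm := t2
      ee := he
      A0 := fun l => a0 _
      A1 := fun l l1 l2 => a1 _ (by omega) (by omega)
      A2 := fun l l1 l2 => a2 _ (by omega) (by omega)
      A3 := by
        rw [hp]
        refine a3.imp (fun h => ?_) fun h l l1 l2 => ?_
        · rw [div_mul_eq_mul_div, div_le_iff₀ hb1] at h
          linarith
        · have k1 := h l.toNat (by omega) (by omega)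
          have k2 := mul_le_mul_of_nonneg_left hab hb1.le
          linarith
      D0 := fun r => (hD r).1
      ix := hi
      I2 := i2
      I3 := i3
      I4 := i4
      I5 := i5 }
  exact X.main h1 h2 c0 c1 c2 c3 (by linarith) fun r => (hD r).2

end Pool.Agent.MP_7bf9b2_an

end

section

/-! The combinatorial core in the case of zero excess. -/

set_option maxSynthPendingDepth 3

open scoped Topology
open Set Filter MeasureTheory Metric

namespace Pool.Agent.MP_7bf9b2_an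

namespace Cb0L

theorem split (D : ℤ → ℝ) {a b c : ℤ} (h1 : a ≤ b) (h2 : b ≤ c) :
    ∑ r ∈ Finset.Ico a c, D r = ∑ r ∈ Finset.Ico a b, D r + ∑ r ∈ Finset.Ico b c, D r := by
  rw [← Finset.Ico_union_Ico_eq_Ico h1 h2,
    Finset.sum_union (Finset.Ico_disjoint_Ico_consecutive a b c)]

theorem single (D : ℤ → ℝ) (a : ℤ) : ∑ r ∈ Finset.Ico a (a + 1), D r = D a := by
  have e : Finset.Ico a (a + 1) = {a} := by
    ext r
    rw [Finset.mem_Ico, Finset.mem_singleton]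
    omega
  rw [e, Finset.sum_singleton]

theorem sumx (D : ℤ → ℝ) (ε τ : ℝ) {s t : ℤ} (h : s ≤ t) :
    ∑ r ∈ Finset.Ico s t, (ε * D r - τ) = ε * ∑ r ∈ Finset.Ico s t, D r - τ * (t - s) := by
  have e : (((t - s).toNat : ℕ) : ℝ) = t - s := by
    have h1 : (((t - s).toNat : ℕ) : ℤ) = t - s := Int.toNat_of_nonneg (sub_nonneg.2 h)
    exact_mod_cast congrArg (Int.cast : ℤ → ℝ) h1
  rw [Finset.sum_sub_distrib, ← Finset.mul_sum, Finset.sum_const, Int.card_Ico, nsmul_eq_mul, e,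
    mul_comm τ]

theorem small (h1 : SunStmt) {K ε₁ μ τ e C : ℝ} {n : ℕ} {D : ℤ → ℝ} (hK : 0 < K) (hε : 0 < ε₁)
    (hτ : 0 < τ) (a1 : 2 * τ * (n + 1) ≤ ε₁ * μ)
    (a2 : τ * (n + 2) + 16 * K * τ * (n + 2) / ε₁ ≤ ε₁ * μ) (he : e ≤ τ) (hD : ∀ r, 0 ≤ D r)
    (hp : ∀ s t₀ : ℤ, s < t₀ → D s ≤ μ → (∀ r ∈ Finset.Icc t₀ (t₀ + n), D r ≤ μ) →
      ∃ t ∈ Finset.Ico t₀ (t₀ + n),
        ε₁ * ∑ r ∈ Finset.Ioo s t, D r ≤ ((t - s : ℤ) : ℝ) * e + 8 * K * (D s + D t))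
    (hs : ∀ s t : ℤ, s ≤ t → ε₁ * ∑ r ∈ Finset.Ico s t, D r ≤ C + ((t - s : ℤ) : ℝ) * e)
    (r : ℤ) : D r ≤ μ := by
  have hn : (0 : ℝ) ≤ n := Nat.cast_nonneg n
  obtain ⟨⟨s₀, s1, s2, s3⟩, t₀, t1, t2, t3⟩ := h1 (fun r => ε₁ * D r - 2 * τ) C τ hτ
    (fun s t hst => by
      have h := hs s t hst
      have h0 : (0 : ℝ) ≤ t - s := sub_nonneg.2 (Int.cast_le.2 hst)
      rw [sumx D _ _ hst]
      push_cast at h
      nlinarith [mul_le_mul_of_nonneg_left he h0]) r (r + 1)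
  have b1 : ε₁ * D (s₀ - 1) ≤ 2 * τ := by
    have h := s2 (s₀ - 1) (by omega)
    have e1 := single (fun r => ε₁ * D r - 2 * τ) (s₀ - 1)
    rw [sub_add_cancel] at e1
    rw [e1] at h
    linarith
  have b2 : ∀ x ∈ Finset.Icc t₀ (t₀ + n), ε₁ * D x ≤ 2 * τ * (n + 1) := fun x hx => by
    obtain ⟨x1, x2⟩ := Finset.mem_Icc.1 hx
    have h := t2 (x + 1) (by omega)
    rw [sumx D _ _ (by omega), split D x1 (by omega), single] at h
    have h0 : 0 ≤ ∑ r ∈ Finset.Ico t₀ x, D r := Finset.sum_nonneg fun r _ => hD r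
    have h3 : (x : ℝ) ≤ t₀ + n := by exact_mod_cast x2
    push_cast at h
    nlinarith [mul_nonneg hε.le h0, mul_le_mul_of_nonneg_left h3 hτ.le]
  obtain ⟨t, ht, h⟩ := hp (s₀ - 1) t₀ (by omega)
    (le_of_mul_le_mul_left (by nlinarith [mul_nonneg hτ.le hn]) hε)
    fun x hx => le_of_mul_le_mul_left ((b2 x hx).trans a1) hε
  obtain ⟨x1, x2⟩ := Finset.mem_Ico.1 ht
  have b3 := b2 t (Finset.mem_Icc.2 ⟨x1, x2.le⟩)
  have e1 : Finset.Ioo (s₀ - 1) t = Finset.Ico s₀ t := by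
    ext x
    rw [Finset.mem_Ico, Finset.mem_Ioo]
    omega
  rw [e1, split D s1 (by omega), split D (a := r) (b := r + 1) (c := t) (by omega) (by omega),
    single, split D t1 x1] at h
  rw [sumx D _ _ s1] at s3
  rw [sumx D _ _ t1] at t3
  have h0 : 0 ≤ ∑ r ∈ Finset.Ico t₀ t, D r := Finset.sum_nonneg fun r _ => hD r
  have c1 : (s₀ : ℝ) ≤ r := by exact_mod_cast s1
  have c2 : (r : ℝ) + 1 ≤ t₀ := by exact_mod_cast t1
  have c3 : (t₀ : ℝ) ≤ t := by exact_mod_cast x1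
  have c4 : (t : ℝ) ≤ t₀ + n := by exact_mod_cast x2.le
  have b4 : 8 * K * (D (s₀ - 1) + D t) ≤ 16 * K * τ * (n + 2) / ε₁ := by
    rw [le_div_iff₀ hε]
    nlinarith [mul_le_mul_of_nonneg_left (add_le_add b1 b3) hK.le]
  push_cast at h t3
  have b5 : ((t : ℝ) - (s₀ - 1)) * e ≤ (t - (s₀ - 1)) * τ :=
    mul_le_mul_of_nonneg_left he (by linarith)
  refine le_of_mul_le_mul_left ?_ hε
  nlinarith [mul_nonneg hε.le h0, mul_le_mul_of_nonneg_left c1 hτ.le,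
    mul_le_mul_of_nonneg_left c2 hτ.le, mul_le_mul_of_nonneg_left c4 hτ.le]

end Cb0L

theorem cb0 (h1 : SunStmt) (h2 : SumStmt) : Cb0Stmt := by
  intro K ε₁ c μ n N hK hε hc hμ _ hN
  have hn : (0 : ℝ) ≤ n := Nat.cast_nonneg n
  have hM : 0 < 2 * ((n : ℝ) + 1) + ((n + 2) + 16 * K * (n + 2) / ε₁) := by positivity
  obtain ⟨τ, hτ, hτ'⟩ : ∃ τ : ℝ, 0 < τ ∧
      2 * τ * (n + 1) + (τ * (n + 2) + 16 * K * τ * (n + 2) / ε₁) = ε₁ * μ := by
    refine ⟨ε₁ * μ / (2 * ((n : ℝ) + 1) + ((n + 2) + 16 * K * (n + 2) / ε₁)), by positivity, ?_⟩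
    rw [← div_mul_cancel₀ (ε₁ * μ) hM.ne', mul_div_cancel_right₀ _ hM.ne']
    ring
  have p1 : 0 ≤ 2 * τ * (n + 1) := by positivity
  have p2 : 0 ≤ τ * (n + 2) + 16 * K * τ * (n + 2) / ε₁ := by positivity
  refine ⟨τ, hτ, fun ρ2 e C D he hD hp hq hs => ?_⟩
  have hμD := Cb0L.small h1 hK hε hτ (by linarith) (by linarith) he (fun r => (hD r).1) hp hs
  have hN1 : 1 ≤ N := by
    by_contra h
    have h0 : N = 0 := by omega
    rw [h0, Nat.cast_zero] at hN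
    linarith
  refine h2 K c ρ2 N (N - 1) D {p | p.2 = p.1 + N} hK hc ?_ hD ?_ ?_ ?_ fun r => ?_
  · rwa [Nat.cast_sub hN1, Nat.cast_one]
  · rintro ⟨s, t⟩ (rfl : t = s + N)
    exact ⟨by omega, by omega, hq s fun r _ => hμD r⟩
  · rintro ⟨s, t⟩ (rfl : t = s + N) ⟨s', t'⟩ (rfl : t' = s' + N) (rfl : s = s')
    rfl
  · rintro ⟨s, t⟩ (rfl : t = s + N) ⟨s', t'⟩ (rfl : t' = s' + N) (h : s + N = s' + N)
    rw [add_right_cancel h]
  · refine ⟨(Finset.Ioo (r - N) r).image fun s => (s, s + N), ?_, ?_, ?_⟩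
    · intro p hp
      obtain ⟨s, -, rfl⟩ := Finset.mem_image.1 (Finset.mem_coe.1 hp)
      rfl
    · rw [Finset.card_image_of_injective _ fun s s' h => (Prod.ext_iff.1 h).1, Int.card_Ioo]
      omega
    · intro p hp
      obtain ⟨s, hs, rfl⟩ := Finset.mem_image.1 hp
      obtain ⟨a1, a2⟩ := Finset.mem_Ioo.1 hs
      exact ⟨a2, by omega⟩

end Pool.Agent.MP_7bf9b2_an

end

section

/-! Taylor estimates. -/

set_option maxSynthPendingDepth 3
set_option linter.unusedSectionVars false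

namespace Pool.Agent.MP_7bf9b2_an

open scoped Topology
open Set Filter MeasureTheory Metric

variable {E : Type} [NormedAddCommGroup E] [InnerProductSpace ℝ E] [FiniteDimensional ℝ E]

namespace TayL

theorem mono1 {φ φ' : ℝ → ℝ} {a b : ℝ} (hab : a ≤ b) (h : ∀ s ∈ Icc a b, HasDerivAt φ (φ' s) s)
    (h0 : ∀ s ∈ Icc a b, 0 ≤ φ' s) : φ a ≤ φ b :=
  monotoneOn_of_deriv_nonneg (convex_Icc a b)
    (fun s hs => (h s hs).continuousAt.continuousWithinAt)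
    (fun s hs => (h s (interior_subset hs)).differentiableAt.differentiableWithinAt)
    (fun s hs => by rw [(h s (interior_subset hs)).deriv]; exact h0 s (interior_subset hs))
    (left_mem_Icc.2 hab) (right_mem_Icc.2 hab) hab

theorem low1 {g g1 : ℝ → ℝ} {a b c : ℝ} (hab : a ≤ b) (h : ∀ s ∈ Icc a b, HasDerivAt g (g1 s) s)
    (h0 : ∀ s ∈ Icc a b, c ≤ g1 s) : c * (b - a) ≤ g b - g a := by
  have := mono1 (φ := fun s => g s - c * s) (φ' := fun s => g1 s - c * 1) hab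
    (fun s hs => (h s hs).sub ((hasDerivAt_id s).const_mul c)) fun s hs => by
      linarith [h0 s hs]
  linarith

theorem low2 {g g1 g2 : ℝ → ℝ} {a b c : ℝ} (hab : a ≤ b)
    (h : ∀ s ∈ Icc a b, HasDerivAt g (g1 s) s) (h' : ∀ s ∈ Icc a b, HasDerivAt g1 (g2 s) s)
    (h0 : ∀ s ∈ Icc a b, c ≤ g2 s) : c * (b - a) ^ 2 / 2 ≤ g b - g a - g1 a * (b - a) := by
  have := low1 (g := fun s => g s - c * ((s - a) * (s - a)) / 2)
    (g1 := fun s => g1 s - c * (1 * (s - a) + (s - a) * 1) / 2) (c := g1 a) hab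
    (fun s hs => (h s hs).sub (((((hasDerivAt_id s).sub_const a).mul
      ((hasDerivAt_id s).sub_const a)).const_mul c).div_const 2)) fun s hs => by
      have := low1 hs.1 (fun r hr => h' r ⟨hr.1, hr.2.trans hs.2⟩)
        fun r hr => h0 r ⟨hr.1, hr.2.trans hs.2⟩
      linarith
  linarith

section line

variable {W : Type} [NormedAddCommGroup W] [NormedSpace ℝ W] {f : W → ℝ} {p h : W} {s : ℝ}

theorem line (p h : W) (s : ℝ) : HasDerivAt (fun s : ℝ => p + s • h) h s := by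
  simpa using ((hasDerivAt_id s).smul_const h).const_add p

theorem dfd {q : W} (hf : ContDiffAt ℝ 2 f q) : DifferentiableAt ℝ (fderiv ℝ f) q :=
  (hf.fderiv_right (m := 1) le_rfl).differentiableAt one_ne_zero

theorem d1 (hf : ContDiffAt ℝ 2 f (p + s • h)) :
    HasDerivAt (fun s : ℝ => f (p + s • h)) (fderiv ℝ f (p + s • h) h) s :=
  (hf.differentiableAt two_ne_zero).hasFDerivAt.comp_hasDerivAt s (line p h s)

theorem d2 (hf : ContDiffAt ℝ 2 f (p + s • h)) :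
    HasDerivAt (fun s : ℝ => fderiv ℝ f (p + s • h) h)
      (fderiv ℝ (fderiv ℝ f) (p + s • h) h h) s := by
  have h1 : HasDerivAt (fun s : ℝ => fderiv ℝ f (p + s • h))
      (fderiv ℝ (fderiv ℝ f) (p + s • h) h) s :=
    HasFDerivAt.comp_hasDerivAt (l := fderiv ℝ f) (f := fun s : ℝ => p + s • h) s
      (dfd hf).hasFDerivAt (line p h s)
  have h2 := h1.clm_apply (hasDerivAt_const s h)
  rwa [map_zero, add_zero] at h2

theorem tay0 {S : Set W} (hS : IsOpen S) (hf : ContDiffOn ℝ 2 f S) (p h : W)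
    (B : W →L[ℝ] W →L[ℝ] ℝ) (o : ℝ)
    (hb : ∀ s ∈ Icc (0 : ℝ) 1, p + s • h ∈ S ∧ ‖fderiv ℝ (fderiv ℝ f) (p + s • h) - B‖ ≤ o) :
    |f (p + h) - f p - fderiv ℝ f p h - B h h / 2| ≤ o * ‖h‖ ^ 2 / 2 := by
  have hc : ∀ s ∈ Icc (0 : ℝ) 1, ContDiffAt ℝ 2 f (p + s • h) := fun s hs =>
    hf.contDiffAt (hS.mem_nhds (hb s hs).1)
  have he : ∀ s ∈ Icc (0 : ℝ) 1,
      |fderiv ℝ (fderiv ℝ f) (p + s • h) h h - B h h| ≤ o * ‖h‖ ^ 2 := fun s hs => by
    have h1 := (fderiv ℝ (fderiv ℝ f) (p + s • h) - B).le_opNorm₂ h h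
    have h2 := mul_le_mul_of_nonneg_right (hb s hs).2 (sq_nonneg ‖h‖)
    rw [Real.norm_eq_abs, sub_apply, sub_apply] at h1
    nlinarith
  have h1 := low2 (c := B h h - o * ‖h‖ ^ 2) zero_le_one (fun s hs => d1 (hc s hs))
    (fun s hs => d2 (hc s hs)) fun s hs => by linarith [(abs_le.1 (he s hs)).1]
  have h2 := low2 (c := -B h h - o * ‖h‖ ^ 2) zero_le_one (fun s hs => (d1 (hc s hs)).neg)
    (fun s hs => (d2 (hc s hs)).neg) fun s hs => by linarith [(abs_le.1 (he s hs)).2]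
  simp only [Pi.neg_apply, one_smul, zero_smul, add_zero, sub_zero, one_pow, mul_one] at h1 h2
  rw [abs_le]
  constructor <;> linarith

end line

variable {G : Geo E} {Λ : PP E → ℝ} {R κ K : ℝ}

theorem cda (hL : Lag G Λ) {p : PP E} (hp : p.1 ∈ G.U) : ContDiffAt ℝ 2 Λ p :=
  hL.smooth.contDiffAt (G.isOpen_Om.mem_nhds hp)

theorem lipd (hL : Lag G Λ) (hB : Bd G Λ R κ K) (p q : PP E) (hp : p.1 ∈ G.M₀)
    (hq : ‖q.1 - p.1‖ ≤ 2 * G.r0) (hp' : ‖p.2.1‖ ≤ R + 1) (hq' : ‖q.2.1‖ ≤ R + 1) :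
    ‖fderiv ℝ Λ q - fderiv ℝ Λ p‖ ≤ K * ‖q - p‖ := by
  have hc : Convex ℝ (closedBall p.1 (2 * G.r0) ×ˢ closedBall (0 : E) (R + 1) ×ˢ (univ : Set ℝ)) :=
    (convex_closedBall _ _).prod ((convex_closedBall _ _).prod convex_univ)
  refine hc.norm_image_sub_le_of_norm_fderiv_le (𝕜 := ℝ) (f := fderiv ℝ Λ)
    (fun r hr => dfd (cda hL (G.U1_sub_U (G.mem_U1 hp (mem_closedBall_iff_norm.1 hr.1)))))
    (fun r hr => hB.b2 r (G.mem_U1 hp (mem_closedBall_iff_norm.1 hr.1))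
      (mem_closedBall_zero_iff.1 hr.2.1)) ⟨?_, mem_closedBall_zero_iff.2 hp', trivial⟩
    ⟨mem_closedBall_iff_norm.2 hq, mem_closedBall_zero_iff.2 hq', trivial⟩
  exact mem_closedBall_self (by linarith [G.r0_pos])

theorem addV (z v w : E) (t s : ℝ) : ((z, v, t) : PP E) + s • iV w = (z, v + s • w, t) := by
  simp

theorem norm_iV (w : E) : ‖iV w‖ = ‖w‖ := by
  simp [Prod.norm_def]

theorem norm_iX (w : E) : ‖iX w‖ = ‖w‖ := by
  simp [Prod.norm_def]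

theorem mono (hL : Lag G Λ) (hB : Bd G Λ R κ K) (z v v' : E) (t : ℝ) (hz : z ∈ G.U1)
    (hv : ‖v‖ ≤ R + 1) (hv' : ‖v'‖ ≤ R + 1) :
    κ * ‖v - v'‖ ≤ ‖pv Λ (z, v, t) - pv Λ (z, v', t)‖ := by
  have h1 := low1 (c := κ * ‖v - v'‖ ^ 2) zero_le_one
    (fun s _ => d2 (f := Λ) (p := (z, v', t)) (h := iV (v - v')) (s := s)
      (cda hL (by rw [addV]; exact G.U1_sub_U hz))) fun s hs => by
      refine hB.cvx _ (by rw [addV]; exact hz) ?_ _
      rw [addV]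
      exact mem_closedBall_zero_iff.1 ((convex_closedBall (0 : E) (R + 1)).add_smul_sub_mem
        (mem_closedBall_zero_iff.2 hv') (mem_closedBall_zero_iff.2 hv) hs)
  rw [addV, addV, one_smul, zero_smul, add_zero, add_sub_cancel] at h1
  have h2 := (pv Λ (z, v, t) - pv Λ (z, v', t)).le_opNorm (v - v')
  have h3 : fderiv ℝ Λ (z, v, t) (iV (v - v')) - fderiv ℝ Λ (z, v', t) (iV (v - v')) ≤
      ‖(pv Λ (z, v, t) - pv Λ (z, v', t)) (v - v')‖ := le_abs_self _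
  rcases (norm_nonneg (v - v')).eq_or_lt with e | e
  · rw [← e, mul_zero]
    exact norm_nonneg _
  · exact le_of_mul_le_mul_right (by nlinarith) e

theorem hub0 (hL : Lag G Λ) (hB : Bd G Λ R κ K) (z v w : E) (t θ : ℝ) (hz : z ∈ G.U1)
    (hv : ‖v‖ ≤ R) (h0 : 0 ≤ θ) (h1 : θ ≤ 1) : κ * θ * ‖w‖ - κ * θ ^ 2 / 2 ≤
      Λ (z, v + w, t) - Λ (z, v, t) - fderiv ℝ Λ (z, v, t) (iV w) := by
  have hc : ∀ s : ℝ, ContDiffAt ℝ 2 Λ ((z, v, t) + s • iV w) := fun s =>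
    cda hL (by rw [addV]; exact G.U1_sub_U hz)
  have hk : ∀ s : ℝ, 0 ≤ s → s * ‖w‖ ≤ 1 →
      κ * ‖w‖ ^ 2 ≤ fderiv ℝ (fderiv ℝ Λ) ((z, v, t) + s • iV w) (iV w) (iV w) := fun s s0 s1 => by
    refine hB.cvx _ (by rw [addV]; exact hz) ?_ _
    rw [addV]
    have := norm_add_le v (s • w)
    rw [norm_smul, Real.norm_of_nonneg s0] at this
    exact this.trans (by linarith)
  have hκ := hB.k0
  have e : ((z, v, t) : PP E) + iV w = (z, v + w, t) := by simp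
  rcases le_or_gt ‖w‖ 1 with hw | hw
  · have h2 := low2 zero_le_one (fun s _ => d1 (hc s)) (fun s _ => d2 (hc s))
      fun s hs => hk s hs.1 (mul_le_one₀ hs.2 (norm_nonneg _) hw)
    simp only [e, one_smul, zero_smul, add_zero, sub_zero, one_pow, mul_one] at h2
    nlinarith [mul_nonneg hκ.le (sq_nonneg (‖w‖ - θ))]
  · have hw0 : 0 < ‖w‖ := by linarith
    obtain ⟨a, ha⟩ : ∃ a, a * ‖w‖ = θ := ⟨θ / ‖w‖, div_mul_cancel₀ _ hw0.ne'⟩
    have a0 : 0 ≤ a := nonneg_of_mul_nonneg_left (ha ▸ h0) hw0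
    have a1 : a ≤ 1 := by nlinarith
    have hk' : ∀ s ∈ Icc 0 a, s * ‖w‖ ≤ 1 := fun s hs => by
      have := mul_le_mul_of_nonneg_right hs.2 hw0.le
      linarith
    have h2 := low2 a0 (fun s _ => d1 (hc s)) (fun s _ => d2 (hc s))
      fun s hs => hk s hs.1 (hk' s hs)
    have h3 := low1 a0 (fun s _ => d2 (hc s)) fun s hs => hk s hs.1 (hk' s hs)
    have h4 := low2 (c := 0) a1 (fun s _ => d1 (hc s)) (fun s _ => d2 (hc s)) fun s _ =>
      (hL.pos _ (by rw [addV]; exact G.U1_sub_U hz) w (norm_pos_iff.1 hw0)).le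
    simp only [e, one_smul, zero_smul, add_zero, sub_zero] at h2 h3 h4
    have h5 := mul_le_mul_of_nonneg_right h3 (sub_nonneg.2 a1)
    rw [← ha]
    nlinarith

theorem hub (hL : Lag G Λ) (hB : Bd G Λ R κ K) (x v ξ w : E) (t m θ : ℝ) (hx : x ∈ G.M₀)
    (hv : ‖v‖ ≤ R) (hξ : ‖ξ‖ ≤ m) (hm : m ≤ 2 * G.r0) (h0 : 0 ≤ θ) (h1 : θ ≤ 1) :
    (κ * θ - K * m) * ‖w‖ - κ * θ ^ 2 / 2 - K * m ^ 2 / 2 ≤
      Λ (x + ξ, v + w, t) - Λ (x, v, t) - fderiv ℝ Λ (x, v, t) (ξ, w, 0) := by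
  have hK : 0 ≤ K := zero_le_one.trans hB.K1
  have h2 := hub0 hL hB (x + ξ) v w t θ (G.add_mem_U1 hx (hξ.trans hm)) hv h0 h1
  have e : ∀ s : ℝ, ((x, v, t) : PP E) + s • iX ξ = (x + s • ξ, v, t) := fun s => by simp
  have e1 : ((x, v, t) : PP E) + iX ξ = (x + ξ, v, t) := by simp
  have h3 := lipd hL hB (x, v, t) (x + ξ, v, t) hx (by simpa using hξ.trans hm)
    (by simpa using hv.trans (by linarith)) (by simpa using hv.trans (by linarith))
  rw [← e1, add_sub_cancel_left, norm_iX, e1] at h3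
  have h4 := (fderiv ℝ Λ (x + ξ, v, t) - fderiv ℝ Λ (x, v, t)).le_opNorm (iV w)
  rw [norm_iV, Real.norm_eq_abs, sub_apply] at h4
  have h5 := mul_le_mul_of_nonneg_right (h3.trans (mul_le_mul_of_nonneg_left hξ hK))
    (norm_nonneg w)
  have h6 := tay0 G.isOpen_Om hL.smooth (x, v, t) (iX ξ) 0 K fun s hs => by
    have hs' : x + s • ξ ∈ G.U1 := by
      refine G.add_mem_U1 hx ?_
      rw [norm_smul, Real.norm_of_nonneg hs.1]
      exact (mul_le_of_le_one_left (norm_nonneg _) hs.2).trans (hξ.trans hm)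
    rw [e, sub_zero]
    exact ⟨G.U1_sub_U hs', hB.b2 _ hs' (hv.trans (by linarith))⟩
  rw [e1, norm_iX, zero_apply, zero_apply] at h6
  have h7 := mul_le_mul_of_nonneg_left (pow_le_pow_left₀ (norm_nonneg _) hξ 2) hK
  have e2 : ((ξ, w, 0) : PP E) = iX ξ + iV w := by simp
  rw [e2, map_add]
  linarith [(abs_le.1 h6).1, (abs_le.1 h4).1]

end TayL

theorem tay : TayStmt E where
  tay hS hf := TayL.tay0 hS hf
  lipd := TayL.lipd
  mono := TayL.mono
  sym hL _ hp a b := ((TayL.cda hL hp).isSymmSndFDerivAt (by simp)).eq a b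
  hub := TayL.hub

end Pool.Agent.MP_7bf9b2_an

end
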