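import Pool.Agent.Mg.F7bf9b2.G21a10a

section

set_option maxSynthPendingDepth 3

namespace Pool.Agent.MP_7bf9b2_an

open scoped Topology
open Set Filter MeasureTheory Metric

variable {E : Type} [NormedAddCommGroup E] [InnerProductSpace ℝ E] [FiniteDimensional ℝ E]

namespace Cvx3L

theorem uc (hB : Bas E) {G : Geo E} {Λ : PP E → ℝ} (hL : Lag G Λ) (R : ℝ) {o : ℝ} (ho : 0 < o) :
    ∃ r > 0, ∀ (x x' v v' : E) (t : ℝ), x ∈ G.U1 → x' ∈ G.U1 → ‖v‖ ≤ R → ‖v'‖ ≤ R →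
      ‖x - x'‖ ≤ r → ‖v - v'‖ ≤ r → ‖D2 Λ (x, v, t) - D2 Λ (x', v', t)‖ ≤ o := by
  have : ProperSpace E := FiniteDimensional.proper_real E
  have h1 : ContinuousOn (D2 Λ) G.Om :=
    (hL.smooth.fderiv_of_isOpen (m := 1) G.isOpen_Om (by norm_num)).continuousOn_fderiv_of_isOpen
      G.isOpen_Om le_rfl
  have h2 := (G.isCompact_U1.prod ((isCompact_closedBall (0 : E) R).prod
    (isCompact_Icc (a := (0 : ℝ)) (b := 1)))).uniformContinuousOn_of_continuous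
    (h1.mono fun p hp => G.U1_sub_U hp.1)
  obtain ⟨r, h3, h4⟩ := Metric.uniformContinuousOn_iff_le.1 h2 o ho
  refine ⟨r, h3, fun x x' v v' t a1 a2 a3 a4 a5 a6 => ?_⟩
  rw [← Int.fract_add_floor t, hB.shf.per2 hL, hB.shf.per2 hL, ← dist_eq_norm]
  have k : Int.fract t ∈ Icc (0 : ℝ) 1 := ⟨Int.fract_nonneg t, (Int.fract_lt_one t).le⟩
  refine h4 _ ⟨a1, mem_closedBall_zero_iff.2 a3, k⟩ _ ⟨a2, mem_closedBall_zero_iff.2 a4, k⟩ ?_
  rw [Prod.dist_eq, Prod.dist_eq, dist_self, dist_eq_norm, dist_eq_norm]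
  exact max_le a5 (max_le a6 h3.le)

theorem gard {B : PP E →L[ℝ] PP E →L[ℝ] ℝ} {κ K : ℝ} (hκ : 0 < κ) (hK : ‖B‖ ≤ K)
    (hc : ∀ w : E, κ * ‖w‖ ^ 2 ≤ B (iV w) (iV w)) (a b : E) :
    κ / 2 * ‖b‖ ^ 2 - (2 * K ^ 2 / κ + K) * ‖a‖ ^ 2 ≤ B (a, b, 0) (a, b, 0) := by
  have e : ((a, b, 0) : PP E) = iX a + iV b := by simp
  have n1 : ‖iX a‖ = ‖a‖ := by simp [Prod.norm_def]
  have n2 : ‖iV b‖ = ‖b‖ := by simp [Prod.norm_def]
  have k : ∀ u w, -(K * ‖u‖ * ‖w‖) ≤ B u w := fun u w =>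
    (abs_le.1 ((B.le_opNorm₂ u w).trans (by gcongr))).1
  have k1 := k (iX a) (iX a)
  have k2 := k (iX a) (iV b)
  have k3 := k (iV b) (iX a)
  rw [n1, n2] at k2 k3
  rw [n1] at k1
  have k4 : 2 * K * ‖a‖ * ‖b‖ ≤ κ / 2 * ‖b‖ ^ 2 + 2 * K ^ 2 / κ * ‖a‖ ^ 2 := by
    have : κ / 2 * ‖b‖ ^ 2 + 2 * K ^ 2 / κ * ‖a‖ ^ 2 - 2 * K * ‖a‖ * ‖b‖ =
        (κ * ‖b‖ - 2 * K * ‖a‖) ^ 2 / (2 * κ) := by
      field_simp
      ring
    have h0 : 0 ≤ (κ * ‖b‖ - 2 * K * ‖a‖) ^ 2 / (2 * κ) := by positivity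
    linarith
  rw [e]
  simp only [map_add, add_apply]
  linarith [hc b]

omit [InnerProductSpace ℝ E] [FiniteDimensional ℝ E] in
theorem nsq (a b : E) : ‖((a, b, 0) : PP E)‖ ^ 2 ≤ ‖a‖ ^ 2 + ‖b‖ ^ 2 := by
  have e : ‖((a, b, 0) : PP E)‖ = max ‖a‖ ‖b‖ := by simp [Prod.norm_def]
  rw [e]
  rcases le_total ‖a‖ ‖b‖ with h | h
  · rw [max_eq_right h]
    linarith [sq_nonneg ‖a‖]
  · rw [max_eq_left h]
    linarith [sq_nonneg ‖b‖]

/-- the pointwise inequality -/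
theorem point (hB : Bas E) {G : Geo E} {Λ Λ₁ : PP E → ℝ} {R κ K σ o r θ : ℝ} (hL : Lag G Λ)
    (hb : Bd G Λ₁ R κ K) (hc : Close G σ Λ Λ₁) (h0 : 0 ≤ σ) (h1 : σ * (R + 2) ≤ o / 2)
    (h2 : ∀ (x x' v v' : E) (t : ℝ), x ∈ G.U1 → x' ∈ G.U1 → ‖v‖ ≤ R + 1 → ‖v'‖ ≤ R + 1 →
      ‖x - x'‖ ≤ 2 * r → ‖v - v'‖ ≤ 2 * r → ‖D2 Λ₁ (x, v, t) - D2 Λ₁ (x', v', t)‖ ≤ o / 2)
    (h3 : r ≤ G.r0) (h4 : 0 ≤ θ) (h5 : 0 ≤ o) (h6 : o ≤ θ * (κ / 2)) {x v x' v' a b : E} (t : ℝ)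
    (k1 : x' ∈ G.M₀) (k2 : ‖v'‖ ≤ R) (k3 : ‖x - x'‖ ≤ r) (k4 : ‖v - v'‖ ≤ r) (k5 : ‖a‖ ≤ r)
    (k6 : ‖b‖ ≤ r) :
    Λ (x, v, t) + fderiv ℝ Λ (x, v, t) (a, b, 0) +
      (1 - θ) / 2 * D2 Λ₁ (x', v', t) (a, b, 0) (a, b, 0) -
      (θ * (2 * K ^ 2 / κ + K) + o) / 2 * ‖a‖ ^ 2 ≤ Λ (x + a, v + b, t) := by
  have r1 := G.r0_le
  have k7 : ‖v'‖ ≤ R + 1 := by linarith
  have hT := hB.tay.tay G.isOpen_Om hL.smooth (x, v, t) (a, b, 0) (D2 Λ₁ (x', v', t)) o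
    fun s hs => by
      have e : ((x, v, t) : PP E) + s • (a, b, 0) = (x + s • a, v + s • b, t) := by simp
      have n : ∀ y y' w : E, ‖y - y'‖ ≤ r → ‖w‖ ≤ r → ‖y + s • w - y'‖ ≤ 2 * r := by
        intro y y' w c1 c2
        have c3 : ‖s • w‖ ≤ r := by
          rw [norm_smul, Real.norm_of_nonneg hs.1]
          exact (mul_le_of_le_one_left (norm_nonneg w) hs.2).trans c2
        rw [add_sub_right_comm]
        linarith [norm_add_le (y - y') (s • w)]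
      have u1 : x + s • a ∈ G.U1 := G.mem_U1 k1 ((n x x' a k3 k5).trans (by linarith))
      have u2 : ‖v + s • b‖ ≤ R + 1 := by
        linarith [n v v' b k4 k6, norm_le_norm_add_norm_sub' (v + s • b) v']
      rw [e]
      refine ⟨G.U1_sub_U u1, ?_⟩
      have u3 := hc.c2 (x + s • a, v + s • b, t) u1
      have u4 := h2 _ _ _ _ t u1 (G.M_sub_U1 k1) u2 k7 (n x x' a k3 k5) (n v v' b k4 k6)
      have u5 : σ * (1 + ‖v + s • b‖) ≤ σ * (R + 2) := mul_le_mul_of_nonneg_left (by linarith) h0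
      have u6 := norm_sub_le_norm_sub_add_norm_sub (D2 Λ (x + s • a, v + s • b, t))
        (D2 Λ₁ (x + s • a, v + s • b, t)) (D2 Λ₁ (x', v', t))
      change ‖D2 Λ _ - _‖ ≤ o
      linarith
  have e : ((x, v, t) : PP E) + (a, b, 0) = (x + a, v + b, t) := by simp
  rw [e] at hT
  have g1 := mul_le_mul_of_nonneg_left (gard hb.k0 (hb.b2 (x', v', t) (G.M_sub_U1 k1) k7)
    (hb.cvx (x', v', t) (G.M_sub_U1 k1) k7) a b) h4
  have g2 := mul_le_mul_of_nonneg_left (nsq a b) h5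
  have g3 := mul_le_mul_of_nonneg_right h6 (sq_nonneg ‖b‖)
  linarith [(abs_le.1 hT).1]

end Cvx3L

open Cvx3L

theorem cvx3 (hB : Bas E) : Cvx3Stmt E := by
  intro G Λ₁ Γ₀ N R κ K c hL₁ hb hc₀ hs₀ hc hSV
  have k0 := hb.k0
  have K0 : 0 < K := by linarith [hb.K1]
  have R0 := hb.R0
  obtain ⟨C, hC⟩ : ∃ C, C = 2 * K ^ 2 / κ + K := ⟨_, rfl⟩
  have C0 : 0 < C := by
    rw [hC]
    positivity
  obtain ⟨θ, hθ⟩ : ∃ θ, θ = c / (2 * (2 * c + C)) := ⟨_, rfl⟩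
  have t0 : 0 < θ := by
    rw [hθ]
    positivity
  have t1 : θ * (2 * (2 * c + C)) = c := by
    rw [hθ]
    field_simp
  have t2 : θ ≤ 1 := by
    rw [hθ, div_le_one (by positivity)]
    linarith
  obtain ⟨o, ho⟩ : ∃ o, o = min (c / 2) (θ * (κ / 2)) := ⟨_, rfl⟩
  have o0 : 0 < o := ho ▸ lt_min (by positivity) (by positivity)
  have o1 : o ≤ c / 2 := ho ▸ min_le_left _ _
  have o2 : o ≤ θ * (κ / 2) := ho ▸ min_le_right _ _
  obtain ⟨r, r0, hr⟩ := uc hB hL₁ (R + 1) (half_pos o0)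
  refine ⟨min (r / 2) G.r0, lt_min (half_pos r0) G.r0_pos, o / 2 / (R + 2), by positivity,
    fun Λ Γ hL hcl hE hper hn s η hη he h1 h2 => ?_⟩
  have hle : s ≤ s + N := le_add_of_nonneg_right (Nat.cast_nonneg N)
  have hcu := hE.cu
  obtain ⟨C₁, l1⟩ := id hη
  have hξ : Cv (fun τ => η τ - Γ τ) s (s + N) := by
    obtain ⟨C₂, l2⟩ := hB.cur.c1 s (s + N) (hcu.c2.of_le one_le_two)
    exact ⟨_, l1.sub l2⟩
  have e1 : η s - Γ s = η (s + N) - Γ (s + N) := by rw [← he, hper s]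
  have s1 := hSV s _ hξ e1
  have f1 := hB.el.fv hL hE hle hξ
  rw [hB.shf.pmom hL hper s, ← e1, sub_self] at f1
  have cp : Continuous fun p : PP E => ((p.1, p.2.1, 0) : PP E) := by fun_prop
  have i1 := (hB.el.cL hL hcu).intervalIntegrable (μ := volume) s (s + N)
  have i2 := hB.cur.intF (S := univ)
    (F := fun p => fderiv ℝ Λ (ph Γ p.2.2) (p.1, p.2.1, 0)) hle hξ
    (((hB.el.cD1 hL hcu).continuous.comp (continuous_snd.comp continuous_snd)).clm_apply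
      cp).continuousOn fun _ _ => trivial
  have i3 := hB.cur.intF (S := univ)
    (F := fun p => D2 Λ₁ (ph Γ₀ p.2.2) (p.1, p.2.1, 0) (p.1, p.2.1, 0)) hle hξ
    ((((hB.el.cD2 hL₁ hc₀).comp (continuous_snd.comp continuous_snd)).clm_apply cp).clm_apply
      cp).continuousOn fun _ _ => trivial
  have i4 := hB.cur.intF (S := univ) (F := fun p => ‖p.1‖ ^ 2) hle hξ (by fun_prop)
    fun _ _ => trivial
  have i5 := hB.cur.intF (S := G.U) (F := Λ) hle hη hL.smooth.continuousOn fun τ hτ =>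
    G.U1_sub_U (G.mem_U1 (hcu.mem τ) ((h1 τ hτ).trans
      ((min_le_right _ _).trans (by linarith [G.r0_pos]))))
  have hm := intervalIntegral.integral_mono_ae_restrict hle
    (((i1.add i2).add (i3.const_mul ((1 - θ) / 2))).sub (i4.const_mul ((θ * C + o) / 2))) i5 (by
      refine (ae_restrict_iff' measurableSet_Icc).2 ?_
      filter_upwards [hB.cur.ae l1, h2] with τ a1 a2 hτ
      have e2 : deriv (fun τ => η τ - Γ τ) τ = deriv η τ - deriv Γ τ :=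
        deriv_fun_sub (a1 hτ).1 (hcu.c2.differentiable two_ne_zero τ)
      have := point hB hL hb hcl (by positivity) (le_of_eq (by field_simp))
        (fun x x' v v' t b1 b2 b3 b4 b5 b6 => hr x x' v v' t b1 b2 b3 b4
          (b5.trans (by linarith [min_le_left (r / 2) G.r0]))
          (b6.trans (by linarith [min_le_left (r / 2) G.r0])))
        (min_le_right _ _) t0.le o0.le o2 τ (hc₀.mem τ) (hs₀ τ) (hn τ).1 (hn τ).2 (h1 τ hτ) (a2 hτ)
      rw [add_sub_cancel, add_sub_cancel, ← hC, ← e2] at this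
      exact this)
  rw [intervalIntegral.integral_sub ((i1.add i2).add (i3.const_mul _)) (i4.const_mul _),
    intervalIntegral.integral_add (i1.add i2) (i3.const_mul _),
    intervalIntegral.integral_add i1 i2, intervalIntegral.integral_const_mul,
    intervalIntegral.integral_const_mul] at hm
  have p0 : 0 ≤ ∫ τ in s..(s + N), ‖η τ - Γ τ‖ ^ 2 :=
    intervalIntegral.integral_nonneg hle fun _ _ => sq_nonneg _
  have p1 := mul_le_mul_of_nonneg_left s1 (show 0 ≤ (1 - θ) / 2 by linarith)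
  have p2 := mul_le_mul_of_nonneg_right
    (show c / 2 ≤ (1 - θ) / 2 * (2 * c) - (θ * C + o) / 2 by linarith) p0
  simp only [ph] at hm f1 p1
  simp only [act, ph]
  linarith

end Pool.Agent.MP_7bf9b2_an

end

section

/-!
First half of the preparation.
-/

namespace Pool.Agent.MP_7bf9b2_an

open scoped Topology
open Set Filter MeasureTheory Metric

set_option linter.unusedSectionVars false
set_option maxSynthPendingDepth 3

variable {E : Type} [NormedAddCommGroup E] [InnerProductSpace ℝ E] [FiniteDimensional ℝ E]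

namespace Prep1L

theorem loop (hB : Bas E) {G : Geo E} {Λ : PP E → ℝ} {Γ : ℝ → E} {n : ℕ} (hL : Lag G Λ)
    (hc : Cu G Γ) (hp : Function.Periodic Γ (n : ℝ)) :
    Path G Λ (Γ 0) 0 (Γ 0) (0 + n) (act Λ Γ 0 n) := by
  have h := hB.el.arc hL hc 0 (0 + n) (by positivity)
  rw [hp 0] at h
  rw [zero_add] at h ⊢
  exact h

theorem cmp (hB : Bas E) {G : Geo E} {Λ Λ' : PP E → ℝ} {Γ : ℝ → E} {R s : ℝ} (n : ℕ)
    (hL : Lag G Λ) (hL' : Lag G Λ') (hc : Cu G Γ) (hs : Spd R Γ)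
    (h : ∀ p : PP E, p.1 ∈ G.U1 → ‖p.2.1‖ ≤ R + 1 → Λ' p ≤ Λ p + s) :
    act Λ' Γ 0 n ≤ act Λ Γ 0 n + s * n := by
  have h1 := hB.pth.cmp (η := Γ) (s := 0) (t := n) (R' := R + 1) hL hL' (Nat.cast_nonneg n)
    (hB.cur.c1 0 n (hc.c2.of_le (by norm_num))) (fun τ _ => G.M_sub_U1 (hc.mem τ))
    (Eventually.of_forall fun τ _ => (hs τ).trans (by linarith)) h
  rwa [sub_zero] at h1

theorem small {η ρ ε τ : ℝ} (hη : 0 < η) (hρ : 0 < ρ) (hε : 0 < ε) (hτ : 0 < τ) :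
    ∃ η₂ : ℝ, 0 < η₂ ∧ η₂ ≤ η ∧ η₂ ≤ ρ / 2 ∧ ε * η₂ ^ 2 ≤ τ / 2 := by
  refine ⟨min (min η (ρ / 2)) (min 1 (τ / (2 * ε))), by positivity,
    (min_le_left _ _).trans (min_le_left _ _), (min_le_left _ _).trans (min_le_right _ _), ?_⟩
  have h0 : 0 < min (min η (ρ / 2)) (min 1 (τ / (2 * ε))) := by positivity
  have h1 : min (min η (ρ / 2)) (min 1 (τ / (2 * ε))) ≤ 1 :=
    (min_le_right _ _).trans (min_le_left _ _)
  have h2 : min (min η (ρ / 2)) (min 1 (τ / (2 * ε))) ≤ τ / (2 * ε) :=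
    (min_le_right _ _).trans (min_le_right _ _)
  generalize min (min η (ρ / 2)) (min 1 (τ / (2 * ε))) = x at h0 h1 h2
  rw [le_div_iff₀ (by positivity)] at h2
  nlinarith [mul_le_mul_of_nonneg_left h1 (mul_pos hε h0).le]

end Prep1L

theorem prep1 (hB : Bas E) (hT : TonStmt E) (hC : CritStmt E) (hS : StatStmt E)
    (hN : NearStmt E) : Prep1Stmt E := by
  intro G Λ₀ σ₀ R κ K A β ε as n N ρ a Γ₀ φ hb hc η hη τ hτ
  have U0 := hb.uni Λ₀ hb.lag (Close.refl hb.s0.le)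
  obtain ⟨sp0, ac0⟩ := U0.pm Γ₀ n hc.npos hc.pm
  have R0 : 0 ≤ R := U0.bd.R0
  have hρ := hc.rpos
  have hε := hc.epos
  have hσ₀ := hb.s0
  obtain ⟨η₂, e0, e1, e2, e3⟩ := Prep1L.small hη hρ hε hτ
  obtain ⟨σ₁, hσ₁, hN⟩ := hN hb.lag hc sp0 ac0 η₂ e0
  obtain ⟨σ, hσ, s1, s2, s3⟩ : ∃ σ : ℝ, 0 < σ ∧ σ ≤ σ₀ / 2 ∧ σ ≤ σ₁ ∧ σ * (R + 2) ≤ τ / 4 := by
    refine ⟨min (min (σ₀ / 2) σ₁) (τ / (4 * (R + 2))), by positivity,
      (min_le_left _ _).trans (min_le_left _ _), (min_le_left _ _).trans (min_le_right _ _), ?_⟩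
    refine (mul_le_mul_of_nonneg_right (min_le_right _ _) (by positivity)).trans (le_of_eq ?_)
    field_simp
  refine ⟨σ, hσ, s1, fun Λ Y hL hF hcl => ?_⟩
  have U := hb.uni Λ hL ((hcl.trans hc.cl).mono (by linarith))
  choose! Γl hO hP using hT hL hF
  have hsp : ∀ l, 0 < l → Spd R (Γl l) := fun l hl => (U.pm _ l hl (hP l hl)).1
  obtain ⟨α, hlow, hα⟩ := hC hL U.bd fun l hl => ⟨hP l hl, hsp l hl⟩
  have hst : ∃ y, Static G Λ α y := hS hL hF U.bd hlow fun δ hδ => by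
    obtain ⟨l, hl, h⟩ := hα δ hδ
    exact ⟨l, Γl l, hl, hO l hl, hP l hl, hsp l hl, h⟩
  obtain ⟨j, hj⟩ := hN Λ (Γl n) hL (hcl.mono s2) (hP n hc.npos) (hsp n hc.npos)
    (U.pm _ n hc.npos (hP n hc.npos)).2
  have hPm : PMin G Λ (sh (Γl n) j) n := hB.shf.pm j hL (hP n hc.npos)
  have hSp : Spd R (sh (Γl n) j) := hB.shf.spd j (hsp n hc.npos)
  have hOr : Orb G Y (sh (Γl n) j) := hB.shf.orb j hF (hO n hc.npos)
  generalize sh (Γl n) j = Γ at hj hPm hSp hOr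
  set s := σ * (R + 2) with hs
  have s0 : 0 ≤ s := by positivity
  have c0 : ∀ p : PP E, p.1 ∈ G.U1 → ‖p.2.1‖ ≤ R + 1 → |Λ p - addP G Λ₀ φ p| ≤ s :=
    fun p hp hv => (hcl.c0 p hp).trans (mul_le_mul_of_nonneg_left (by linarith) hσ.le)
  have φ0 : ∀ (x : E) (t : ℝ), 0 ≤ φ (x, t) := fun x t =>
    le_trans (by positivity) (hc.low x t)
  have c1 : ∀ p : PP E, p.1 ∈ G.U1 → ‖p.2.1‖ ≤ R + 1 → Λ₀ p ≤ Λ p + s := fun p hp hv => by
    have h1 := (abs_le.1 (c0 p hp hv)).1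
    have h2 := φ0 (G.r p.1) p.2.2
    unfold addP at h1
    linarith
  have hαβ : α ≤ β + s := by
    refine le_of_forall_pos_le_add fun δ hδ => ?_
    obtain ⟨l, hl, h1⟩ := hα δ hδ
    have h2 := Prep1L.cmp hB l hL hb.lag (hP l hl).el.cu (hsp l hl) c1
    have h3 := hb.lb l _ _ _ (Prep1L.loop hB hb.lag (hP l hl).el.cu (hP l hl).per)
    have h4 := hb.nn l
    have h5 : (1 : ℝ) ≤ l := by exact_mod_cast hl
    by_contra h6
    have h7 : δ * l < (α - β - s) * l :=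
      mul_lt_mul_of_pos_right (by linarith [not_le.1 h6]) (by linarith)
    nlinarith
  have hΓ₀ : act Λ Γ₀ 0 n ≤ act Λ₀ Γ₀ 0 n + s * n := by
    have h1 := Prep1L.cmp hB (s := s) n hc.lag1 hL hc.pm.el.cu sp0 fun p hp hv => by
      linarith [(abs_le.1 (c0 p hp hv)).2]
    have h2 : act (addP G Λ₀ φ) Γ₀ 0 n = act Λ₀ Γ₀ 0 n := by
      unfold act
      congr 1
      funext t
      have h3 : φ (G.r (Γ₀ t), t) = 0 := by rw [G.fix _ (hc.pm.el.cu.mem t), hc.zero]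
      show Λ₀ (ph Γ₀ t) + φ (G.r (Γ₀ t), t) = _
      rw [h3, add_zero]
    rwa [h2] at h1
  have hl0 := Prep1L.loop hB hL hc.pm.el.cu hc.pm.per
  have hn : (0 : ℝ) < n := by exact_mod_cast hc.npos
  have ha := hc.ha
  have h1 := hPm.min _ _ _ hl0
  have h2 := hlow n _ _ _ hl0
  have h3 : β - α ≤ a / n + s := by
    rw [← sub_le_iff_le_add, le_div_iff₀ hn]
    nlinarith
  refine ⟨α, Γ, hlow, hOr, hPm, fun t i hi => ?_,
    fun t => ⟨(hj t).1.trans e1, (hj t).2.trans e1⟩, ?_, hst, fun y hy => ⟨s + ε * η₂ ^ 2, ?_⟩⟩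
  · have h4 := hc.gap t i hi
    have h5 := (hj t).1
    have h6 := (hj (t + i)).1
    have e : Γ₀ (t + i) - Γ₀ t =
        (Γ (t + i) - Γ t) - (Γ (t + i) - Γ₀ (t + i)) + (Γ t - Γ₀ t) := by abel
    have h7 := norm_add_le ((Γ (t + i) - Γ t) - (Γ (t + i) - Γ₀ (t + i))) (Γ t - Γ₀ t)
    have h8 := norm_sub_le (Γ (t + i) - Γ t) (Γ (t + i) - Γ₀ (t + i))
    rw [e] at h4
    linarith
  · nlinarith [mul_le_mul_of_nonneg_right hαβ hn.le, mul_le_mul_of_nonneg_right s3 hn.le,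
      mul_pos hn hτ]
  · have hy1 := (U.st α y hy).1
    have e4 : 0 ≤ ε * η₂ ^ 2 := by positivity
    refine ⟨hb.lag, hL, U.bd, hy, hy1, hb.lb, hb.nn, hρ, hc.rle,
      hB.dd.cont (hy.el.cu.c2.differentiable (by norm_num))
        (hPm.el.cu.c2.differentiable (by norm_num)) hρ.le hy1 hSp, by positivity, by positivity,
      fun p hp hv => by linarith [c1 p hp hv], fun p hp hv => ?_, by linarith⟩
    have h4 := (abs_le.1 (c0 p (G.M_sub_U1 hp) hv)).1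
    have h5 := hc.low p.1 p.2.2
    have h6 := hB.dd.cmp (fun t => (hj t).1) p.1 p.2.2
    have h7 : min (dd Γ p.1 p.2.2) ρ ≤ min (dd Γ₀ p.1 p.2.2) ρ + η₂ := by
      rw [← min_add_add_right]
      exact min_le_min h6 (by linarith)
    have h8 : 0 ≤ min (dd Γ p.1 p.2.2) ρ := le_min (hB.dd.nn _ _ _) hρ.le
    have h9 : min (dd Γ p.1 p.2.2) ρ ^ 2 ≤ 2 * min (dd Γ₀ p.1 p.2.2) ρ ^ 2 + 2 * η₂ ^ 2 := by
      refine (pow_le_pow_left₀ h8 h7 2).trans ?_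
      nlinarith [sq_nonneg (min (dd Γ₀ p.1 p.2.2) ρ - η₂)]
    unfold addP at h4
    rw [G.fix _ hp] at h4
    nlinarith [mul_le_mul_of_nonneg_left h9 hε.le]

end Pool.Agent.MP_7bf9b2_an

end

section

set_option maxSynthPendingDepth 3

namespace Pool.Agent.MP_7bf9b2_an

open scoped Topology
open Set Filter MeasureTheory Metric

variable {E : Type} [NormedAddCommGroup E] [InnerProductSpace ℝ E] [FiniteDimensional ℝ E]

namespace ShfL

variable {G : Geo E} {Λ : PP E → ℝ}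

theorem per0 (h : Lag G Λ) (z v : E) (t : ℝ) (k : ℤ) : Λ (z, v, t + k) = Λ (z, v, t) := by
  have hp : Function.Periodic (fun s : ℝ => Λ (z, v, s)) 1 := fun s => h.per z v s
  have := hp.int_mul k t
  rwa [mul_one] at this

theorem add_eq (z v : E) (t : ℝ) (k : ℤ) :
    ((z, v, t) : PP E) + (0, 0, (k : ℝ)) = (z, v, t + k) := by simp

theorem fd_per {F : Type} [NormedAddCommGroup F] [NormedSpace ℝ F] {f : PP E → F} (k : ℤ)
    (h : ∀ (z v : E) (t : ℝ), f (z, v, t + k) = f (z, v, t)) (z v : E) (t : ℝ) :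
    fderiv ℝ f (z, v, t + k) = fderiv ℝ f (z, v, t) := by
  have e : (fun p : PP E => f (p + (0, 0, (k : ℝ)))) = f := by
    funext ⟨a, b, s⟩
    rw [add_eq, h]
  rw [← add_eq, ← fderiv_comp_add_right, e]

theorem per1 (h : Lag G Λ) (z v : E) (t : ℝ) (k : ℤ) :
    fderiv ℝ Λ (z, v, t + k) = fderiv ℝ Λ (z, v, t) :=
  fd_per k (fun a b s => per0 h a b s k) z v t

theorem per2 (h : Lag G Λ) (z v : E) (t : ℝ) (k : ℤ) : D2 Λ (z, v, t + k) = D2 Λ (z, v, t) :=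
  fd_per k (fun a b s => per1 h a b s k) z v t

theorem dv (y : ℝ → E) (k : ℤ) (t : ℝ) : deriv (sh y k) t = deriv y (t + k) :=
  deriv_comp_add_const y (k : ℝ) t

theorem dv' (y : ℝ → E) (k : ℤ) : deriv (sh y k) = sh (deriv y) k := funext (dv y k)

theorem ph_sh (y : ℝ → E) (k : ℤ) (t : ℝ) : ph (sh y k) t = (y (t + k), deriv y (t + k), t) := by
  rw [ph, dv]; rfl

theorem sact (h : Lag G Λ) (y : ℝ → E) (k : ℤ) (a b : ℝ) :
    act Λ (sh y k) a b = act Λ y (a + k) (b + k) := by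
  unfold act
  rw [← intervalIntegral.integral_comp_add_right (fun τ => Λ (ph y τ)) (k : ℝ)]
  refine intervalIntegral.integral_congr fun τ _ => ?_
  show Λ (ph (sh y k) τ) = Λ (ph y (τ + k))
  rw [ph_sh, ph, per0 h]

theorem fd_sh (h : Lag G Λ) (y : ℝ → E) (k : ℤ) (t : ℝ) :
    fderiv ℝ Λ (ph (sh y k) t) = fderiv ℝ Λ (ph y (t + k)) := by
  rw [ph_sh, ph, per1 h]

theorem smom (h : Lag G Λ) (y : ℝ → E) (k : ℤ) (t : ℝ) :
    mom Λ (sh y k) t = mom Λ y (t + k) := by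
  rw [mom, mom, pv, pv, fd_sh h]

theorem cu {y : ℝ → E} (k : ℤ) (h : Cu G y) : Cu G (sh y k) :=
  ⟨h.c2.comp (contDiff_id.add contDiff_const), fun _ => h.mem _⟩

theorem el {y : ℝ → E} (k : ℤ) (h : Lag G Λ) (hy : ELc G Λ y) : ELc G Λ (sh y k) := by
  refine ⟨cu k hy.cu, fun t => ?_⟩
  have e : mom Λ (sh y k) = fun s => mom Λ y (s + k) := funext (smom h y k)
  rw [e, px, fd_sh h]
  exact (hy.el (t + k)).comp_add_const t (k : ℝ)

theorem pdv {Γ : ℝ → E} {n : ℕ} (h : Function.Periodic Γ (n : ℝ)) :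
    Function.Periodic (deriv Γ) (n : ℝ) := by
  intro t
  have e : (fun s => Γ (s + n)) = Γ := funext h
  rw [← deriv_comp_add_const, e]

theorem ph_per {Γ : ℝ → E} {n : ℕ} (h : Function.Periodic Γ (n : ℝ)) (t : ℝ) :
    ph Γ (t + n) = (Γ t, deriv Γ t, t + ((n : ℤ) : ℝ)) := by
  rw [ph, h t, pdv h t, Int.cast_natCast]

theorem pmom {Γ : ℝ → E} {n : ℕ} (hL : Lag G Λ) (h : Function.Periodic Γ (n : ℝ)) :
    Function.Periodic (mom Λ Γ) (n : ℝ) := by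
  intro t
  rw [mom, mom, pv, pv, ph_per h, per1 hL, ph]

theorem pact (he : ElStmt E) {Γ : ℝ → E} {n : ℕ} (hL : Lag G Λ) (hc : Cu G Γ)
    (h : Function.Periodic Γ (n : ℝ)) (s : ℝ) (m : ℕ) :
    act Λ Γ s (s + m * n) = m * act Λ Γ 0 n := by
  have hp : Function.Periodic (fun τ => Λ (ph Γ τ)) (n : ℝ) := fun t => by
    show Λ (ph Γ (t + n)) = Λ (ph Γ t)
    rw [ph_per h, per0 hL, ph]
  have h1 := hp.intervalIntegral_add_zsmul_eq (m : ℤ) s
    (fun a b => (he.cL hL hc).intervalIntegrable a b)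
  rw [hp.intervalIntegral_add_eq s 0, zero_add] at h1
  simpa [act] using h1

theorem flp {Y : PP E → ℝ → E} (h : Fl G Λ Y) (x v : E) (s : ℝ) (hx : (x, v, s) ∈ G.TM)
    (k : ℤ) (t : ℝ) : Y (x, v, s + k) (t + k) = Y (x, v, s) t := by
  induction k using Int.induction_on with
  | zero => simp
  | succ k ih =>
    rw [Int.cast_add, Int.cast_one, ← add_assoc, ← add_assoc, h.per x v (s + ((k : ℤ) : ℝ)) hx, ih]
  | pred k ih =>
    have e : ∀ a : ℝ, a + ((-(k : ℤ) - 1 : ℤ) : ℝ) + 1 = a + ((-(k : ℤ) : ℤ) : ℝ) := fun a => by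
      push_cast; ring
    rw [← h.per x v (s + ((-(k : ℤ) - 1 : ℤ) : ℝ)) hx, e, e, ih]

end ShfL

open ShfL in
theorem shf (hp : PthStmt E) (he : ElStmt E) : ShfStmt E where
  per0 := per0
  per1 := per1
  per2 := per2
  dv := dv
  sact := sact
  smom := smom
  cu := cu
  el := el
  st := fun k hL h => ⟨el k hL h.el, fun s t j A hA => by
    have h1 := hp.shift k hL hA
    rw [add_right_comm] at h1
    rw [sact hL]
    exact h.st _ _ j A h1⟩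
  pm := fun {G Λ Γ n} k hL h => ⟨el k hL h.el, fun t => by
    show Γ (t + n + k) = Γ (t + k)
    rw [add_right_comm, h.per], fun x s A hA => by
    have h1 := pact he hL h.el.cu h.per k 1
    rw [Nat.cast_one, one_mul, one_mul] at h1
    rw [sact hL, zero_add, add_comm, h1]
    exact h.min x s A hA⟩
  orb := fun {G Λ Y y} k hF ho => by
    obtain ⟨h1, h2⟩ := he.orb hF ho
    have h3 : (y k, deriv y k, (0 : ℝ)) ∈ G.TM := he.tm h1.cu k
    refine ⟨_, h3, funext fun t => ?_⟩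
    rw [← flp hF _ _ _ h3 k t, zero_add]
    exact (congrFun (h2 k) _).symm
  flp := flp
  spd := fun k h t => by rw [dv]; exact h _
  acc := fun k h t => by rw [dv', dv]; exact h _
  pact := pact he
  pdv := pdv
  pmom := pmom

end Pool.Agent.MP_7bf9b2_an

end
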