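import Pool.Agent.Mg.F7bf9b2.G21a10a
import Pool.Agent.MP_92c74b_an.Brouwer
import Pool.Agent.Mg.F7bf9b2.G3f0bb2
import Pool.Agent.Mg.F7bf9b2.G5de2c9

section

/-!
Adding a small potential to a Lagrangian.
-/

namespace Pool.Agent.MP_7bf9b2_an

open scoped Topology
open Set Filter MeasureTheory Metric

set_option maxSynthPendingDepth 3
set_option linter.unusedSectionVars false

variable {E : Type} [NormedAddCommGroup E] [InnerProductSpace ℝ E] [FiniteDimensional ℝ E]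

namespace AddpL

section Gen

variable {W F : Type} [NormedAddCommGroup W] [NormedSpace ℝ W] [NormedAddCommGroup F]
  [NormedSpace ℝ F]

theorem n1 (f : W → F) (x : W) : ‖iteratedFDeriv ℝ 1 f x‖ = ‖fderiv ℝ f x‖ := by
  rw [← norm_iteratedFDeriv_fderiv (n := 0), norm_iteratedFDeriv_zero]

theorem n2 (f : W → F) (x : W) : ‖iteratedFDeriv ℝ 2 f x‖ = ‖fderiv ℝ (fderiv ℝ f) x‖ := by
  rw [← norm_iteratedFDeriv_fderiv (n := 1), n1]

theorem inv1 {f : W → F} {a : W} {c : F} (h : ∀ z, f (z + a) = f z + c) (q : W) :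
    fderiv ℝ f (q + a) = fderiv ℝ f q := by
  rw [← fderiv_comp_add_right]
  simp only [h, fderiv_add_const]

theorem d1 {f : W → F} {S : Set W} (hS : IsOpen S) (hf : ContDiffOn ℝ 2 f S) {p : W}
    (hp : p ∈ S) : DifferentiableAt ℝ f p :=
  (hf.contDiffAt (hS.mem_nhds hp)).differentiableAt (by norm_num)

theorem c1 {f : W → F} {S : Set W} (hS : IsOpen S) (hf : ContDiffOn ℝ 2 f S) :
    ContDiffOn ℝ 1 (fderiv ℝ f) S :=
  hf.fderiv_of_isOpen hS (by norm_num)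

theorem d2 {f : W → F} {S : Set W} (hS : IsOpen S) (hf : ContDiffOn ℝ 2 f S) {p : W}
    (hp : p ∈ S) : DifferentiableAt ℝ (fderiv ℝ f) p :=
  ((c1 hS hf).contDiffAt (hS.mem_nhds hp)).differentiableAt (by norm_num)

theorem add1 {f g : W → F} {S : Set W} (hS : IsOpen S) (hf : ContDiffOn ℝ 2 f S)
    (hg : ContDiffOn ℝ 2 g S) {p : W} (hp : p ∈ S) :
    fderiv ℝ (fun z => f z + g z) p = fderiv ℝ f p + fderiv ℝ g p :=
  fderiv_fun_add (d1 hS hf hp) (d1 hS hg hp)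

theorem add2 {f g : W → F} {S : Set W} (hS : IsOpen S) (hf : ContDiffOn ℝ 2 f S)
    (hg : ContDiffOn ℝ 2 g S) {p : W} (hp : p ∈ S) :
    fderiv ℝ (fderiv ℝ fun z => f z + g z) p =
      fderiv ℝ (fderiv ℝ f) p + fderiv ℝ (fderiv ℝ g) p := by
  have : (fderiv ℝ fun z => f z + g z) =ᶠ[𝓝 p] fun q => fderiv ℝ f q + fderiv ℝ g q := by
    filter_upwards [hS.mem_nhds hp] with q hq using add1 hS hf hg hq
  rw [this.fderiv_eq]
  exact fderiv_fun_add (d2 hS hf hp) (d2 hS hg hp)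

end Gen

/-- the retraction on positions and times -/
def gm (G : Geo E) : PP E → E × ℝ := fun p => (G.r p.1, p.2.2)

theorem gm_sm (G : Geo E) : ContDiffOn ℝ 2 (gm G) G.Om :=
  ((G.smoothU.of_le (by norm_num)).comp contDiff_fst.contDiffOn fun _ hp => hp).prodMk
    (contDiff_snd.comp contDiff_snd).contDiffOn

theorem gm_bd (G : Geo E) : ∃ D : ℝ, 1 ≤ D ∧ ∀ p : PP E, p.1 ∈ G.U1 →
    ‖fderiv ℝ (gm G) p‖ ≤ D ∧ ‖fderiv ℝ (fderiv ℝ (gm G)) p‖ ≤ D := by
  have hK : IsCompact ((fun x : E => ((x, 0, 0) : PP E)) '' G.U1) :=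
    G.isCompact_U1.image (by fun_prop)
  have hs : (fun x : E => ((x, 0, 0) : PP E)) '' G.U1 ⊆ G.Om := by
    rintro _ ⟨x, hx, rfl⟩
    exact G.U1_sub_U hx
  have h1 := c1 G.isOpen_Om (gm_sm G)
  obtain ⟨C1, hC1⟩ := hK.exists_bound_of_continuousOn (h1.continuousOn.mono hs)
  obtain ⟨C2, hC2⟩ := hK.exists_bound_of_continuousOn
    ((h1.continuousOn_fderiv_of_isOpen G.isOpen_Om le_rfl).mono hs)
  refine ⟨max 1 (max C1 C2), le_max_left _ _, ?_⟩
  rintro ⟨x, v, t⟩ hx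
  have e : ((x, v, t) : PP E) = (x, 0, 0) + (0, v, t) := by simp
  have i1 : ∀ q : PP E, fderiv ℝ (gm G) (q + (0, v, t)) = fderiv ℝ (gm G) q :=
    inv1 (c := (0, t)) fun z => by simp [gm]
  have i2 : ∀ q : PP E, fderiv ℝ (fderiv ℝ (gm G)) (q + (0, v, t)) =
      fderiv ℝ (fderiv ℝ (gm G)) q := inv1 (c := 0) fun z => by rw [i1, add_zero]
  rw [e, i1, i2]
  exact ⟨(hC1 _ ⟨x, hx, rfl⟩).trans ((le_max_left _ _).trans (le_max_right _ _)),
    (hC2 _ ⟨x, hx, rfl⟩).trans ((le_max_right _ _).trans (le_max_right _ _))⟩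

theorem h_sm (G : Geo E) {φ : E × ℝ → ℝ} (hφ : ContDiff ℝ 2 φ) :
    ContDiffOn ℝ 2 (φ ∘ gm G) G.Om :=
  hφ.comp_contDiffOn (gm_sm G)

theorem h_bd (G : Geo E) {φ : E × ℝ → ℝ} {ε D : ℝ} (hφ : C2Bd ε φ) (hD : 1 ≤ D) {p : PP E}
    (hp : p ∈ G.Om) (h1 : ‖fderiv ℝ (gm G) p‖ ≤ D) (h2 : ‖fderiv ℝ (fderiv ℝ (gm G)) p‖ ≤ D)
    (k : ℕ) (hk : k ≤ 2) : ‖iteratedFDeriv ℝ k (φ ∘ gm G) p‖ ≤ k.factorial * ε * D ^ k := by
  rw [← iteratedFDerivWithin_of_isOpen k G.isOpen_Om hp]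
  refine norm_iteratedFDerivWithin_comp_le (t := univ) hφ.c2.contDiffOn (gm_sm G)
    (by exact_mod_cast hk) uniqueDiffOn_univ G.isOpen_Om.uniqueDiffOn (mapsTo_univ _ _) hp
    (fun i hi => ?_) fun i hi1 hi => ?_
  · rw [iteratedFDerivWithin_univ]
    exact hφ.bd i (hi.trans hk) _
  · rw [iteratedFDerivWithin_of_isOpen i G.isOpen_Om hp]
    have : i = 1 ∨ i = 2 := by omega
    rcases this with rfl | rfl
    · rwa [n1, pow_one]
    · rw [n2]
      nlinarith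

theorem h_vert (G : Geo E) {φ : E × ℝ → ℝ} (hφ : ContDiff ℝ 2 φ) {p : PP E} (hp : p ∈ G.Om)
    (w : E) : D2 (φ ∘ gm G) p (iV w) = 0 := by
  have i1 : ∀ u : E, fderiv ℝ (φ ∘ gm G) (p + iV u) = fderiv ℝ (φ ∘ gm G) p := fun u =>
    inv1 (c := 0) (fun z => by simp [gm]) p
  have h1 : HasFDerivAt (fun u : E => p + iV u) (iV : E →L[ℝ] PP E) 0 :=
    (iV : E →L[ℝ] PP E).hasFDerivAt.const_add p
  have h2 : HasFDerivAt (fderiv ℝ (φ ∘ gm G)) (D2 (φ ∘ gm G) p) (p + iV (0 : E)) := by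
    rw [map_zero, add_zero]
    exact (d2 G.isOpen_Om (h_sm G hφ) hp).hasFDerivAt
  have h3 := h2.comp (0 : E) h1
  have h4 : (fderiv ℝ (φ ∘ gm G) ∘ fun u : E => p + iV u) = fun _ => fderiv ℝ (φ ∘ gm G) p :=
    funext i1
  rw [h4] at h3
  have h5 := h3.unique (hasFDerivAt_const _ _)
  exact congrArg (fun T : E →L[ℝ] PP E →L[ℝ] ℝ => T w) h5

end AddpL

open AddpL in
theorem addp : AddpStmt E := by
  intro G
  obtain ⟨D, hD, hb⟩ := gm_bd G
  refine ⟨2 * D ^ 2, by positivity, fun Λ φ ε hL hφ => ?_⟩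
  have hH := h_sm G hφ.c2
  have he : addP G Λ φ = fun p => Λ p + (φ ∘ gm G) p := rfl
  have h0 : ∀ q, |φ q| ≤ ε := fun q => by
    have := hφ.bd 0 (by norm_num) q
    rwa [norm_iteratedFDeriv_zero, Real.norm_eq_abs] at this
  have hε : 0 ≤ ε := (abs_nonneg _).trans (h0 0)
  have hw : ∀ {a : ℝ} (p : PP E), a ≤ 2 * D ^ 2 * ε → a ≤ 2 * D ^ 2 * ε * (1 + ‖p.2.1‖) :=
    fun p h => h.trans (le_mul_of_one_le_right (by positivity) (by linarith [norm_nonneg p.2.1]))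
  have hD2 : D ≤ D ^ 2 := by nlinarith
  refine ⟨⟨hL.smooth.add hH, fun z v t => ?_, fun z hz v t => ?_, fun p hp w hw0 => ?_,
    fun A => ?_⟩, ⟨fun p hp => hw p ?_, fun p hp => hw p ?_, fun p hp => hw p ?_⟩⟩
  · simp only [addP, hL.per, hφ.per]
  · have := hL.ret z hz v t
    simp only [addP, G.fix _ (G.mapsU hz)]
    linarith
  · have h1 : D2 (addP G Λ φ) p = D2 Λ p + D2 (φ ∘ gm G) p := add2 G.isOpen_Om hL.smooth hH hp
    rw [h1, ContinuousLinearMap.add_apply, h_vert G hφ.c2 hp, add_zero]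
    exact hL.pos p hp w hw0
  · obtain ⟨C, hC⟩ := hL.sup A
    refine ⟨C + ε, fun p hp => ?_⟩
    have := hC p hp
    have h1 := (abs_le.1 (h0 (G.r p.1, p.2.2))).1
    simp only [addP]
    linarith
  · simp only [addP, add_sub_cancel_left]
    refine (h0 _).trans ?_
    nlinarith
  · have hp' : p ∈ G.Om := G.U1_sub_U hp
    rw [he, add1 G.isOpen_Om hL.smooth hH hp', add_sub_cancel_left, ← n1]
    refine (h_bd G hφ hD hp' (hb p hp).1 (hb p hp).2 1 (by norm_num)).trans ?_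
    simp only [Nat.factorial_one, Nat.cast_one, one_mul, pow_one]
    nlinarith
  · have hp' : p ∈ G.Om := G.U1_sub_U hp
    have h1 : D2 (addP G Λ φ) p = D2 Λ p + D2 (φ ∘ gm G) p := add2 G.isOpen_Om hL.smooth hH hp'
    rw [h1, add_sub_cancel_left, D2, ← n2]
    refine (h_bd G hφ hD hp' (hb p hp).1 (hb p hp).2 2 le_rfl).trans (le_of_eq ?_)
    simp only [Nat.factorial_two, Nat.cast_ofNat]
    ring

end Pool.Agent.MP_7bf9b2_an

end

section

set_option maxSynthPendingDepth 3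
set_option linter.unusedSectionVars false

namespace Pool.Agent.MP_7bf9b2_an

open scoped Topology
open Set Filter MeasureTheory Metric

variable {E : Type} [NormedAddCommGroup E] [InnerProductSpace ℝ E] [FiniteDimensional ℝ E]

namespace BdxL

theorem norm_iV (w : E) : ‖(iV w : PP E)‖ = ‖w‖ := by
  simp [Prod.norm_def]

theorem red {F : Type} (f : PP E → F)
    (hf : ∀ (z v : E) (t : ℝ) (k : ℤ), f (z, v, t + k) = f (z, v, t)) (p : PP E) :
    f p = f (p.1, p.2.1, Int.fract p.2.2) := by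
  rw [← hf p.1 p.2.1 (Int.fract p.2.2) ⌊p.2.2⌋, Int.fract_add_floor]

end BdxL

theorem bdx (hB : Bas E) : BdxStmt E := by
  intro G Λ hL R hR
  have : ProperSpace E := FiniteDimensional.proper_real E
  let S : Set (PP E) := G.U1 ×ˢ (closedBall 0 (R + 1) ×ˢ Icc 0 1)
  have hS : IsCompact S := G.isCompact_U1.prod ((isCompact_closedBall _ _).prod isCompact_Icc)
  have hO : S ⊆ G.Om := fun p hp => G.U1_sub_U hp.1
  have hm : ∀ p : PP E, p.1 ∈ G.U1 → ‖p.2.1‖ ≤ R + 1 → (p.1, p.2.1, Int.fract p.2.2) ∈ S :=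
    fun p h1 h2 => ⟨h1, mem_closedBall_zero_iff.2 h2, Int.fract_nonneg _, (Int.fract_lt_one _).le⟩
  have h1 : ContDiffOn ℝ 1 (fderiv ℝ Λ) G.Om := hL.smooth.fderiv_of_isOpen G.isOpen_Om le_rfl
  have h2 : ContinuousOn (D2 Λ) G.Om := h1.continuousOn_fderiv_of_isOpen G.isOpen_Om le_rfl
  obtain ⟨C0, c0⟩ := hS.exists_bound_of_continuousOn (hL.smooth.continuousOn.mono hO)
  obtain ⟨C1, c1⟩ := hS.exists_bound_of_continuousOn (h1.continuousOn.mono hO)
  obtain ⟨C2, c2⟩ := hS.exists_bound_of_continuousOn (h2.mono hO)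
  have h3 : ContinuousOn (fun q : PP E × E => D2 Λ q.1 (iV q.2) (iV q.2)) (S ×ˢ sphere 0 1) :=
    ((h2.comp continuousOn_fst fun q hq => hO hq.1).clm_apply
      (iV.continuous.comp continuous_snd).continuousOn).clm_apply
      (iV.continuous.comp continuous_snd).continuousOn
  obtain ⟨κ, k0, hk⟩ := (hS.prod (isCompact_sphere (0 : E) 1)).exists_forall_le' h3
    fun q hq => hL.pos q.1 (hO hq.1) q.2 (ne_zero_of_mem_unit_sphere ⟨q.2, hq.2⟩)
  refine ⟨κ, max 1 (max C0 (max C1 C2)), hR, k0, le_max_left _ _, fun p a b => ?_,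
    fun p a b => ?_, fun p a b => ?_, fun p a b w => ?_⟩
  · rw [BdxL.red Λ (hB.shf.per0 hL)]
    exact (c0 _ (hm p a b)).trans (le_max_of_le_right (le_max_left _ _))
  · rw [BdxL.red (fderiv ℝ Λ) (hB.shf.per1 hL)]
    exact (c1 _ (hm p a b)).trans (le_max_of_le_right (le_max_of_le_right (le_max_left _ _)))
  · rw [BdxL.red (D2 Λ) (hB.shf.per2 hL)]
    exact (c2 _ (hm p a b)).trans (le_max_of_le_right (le_max_of_le_right (le_max_right _ _)))
  · rw [BdxL.red (D2 Λ) (hB.shf.per2 hL)]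
    rcases eq_or_ne w 0 with rfl | hw
    · simp only [norm_zero, map_zero]
      norm_num
    · have h4 : ‖w‖ ≠ 0 := norm_ne_zero_iff.2 hw
      have h5 := hk (_, ‖w‖⁻¹ • w) ⟨hm p a b, by simp [norm_smul, h4]⟩
      simp only [map_smul, smul_apply, smul_eq_mul] at h5
      rw [← mul_assoc, ← sq, inv_pow, le_inv_mul_iff₀ (by positivity)] at h5
      linarith

theorem bdp : BdpStmt E := by
  intro G Λ Λ₀ R κ K σ hb hc h0 h1 h2
  have k : ∀ p : PP E, ‖p.2.1‖ ≤ R + 1 → σ * (1 + ‖p.2.1‖) ≤ σ * (R + 2) := fun p h =>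
    mul_le_mul_of_nonneg_left (by linarith) h0
  refine ⟨hb.R0, half_pos hb.k0, by linarith [hb.K1], fun p a b => ?_, fun p a b => ?_,
    fun p a b => ?_, fun p a b w => ?_⟩
  · linarith [abs_sub_abs_le_abs_sub (Λ p) (Λ₀ p), hb.b0 p a b, hc.c0 p a, k p b]
  · linarith [norm_sub_norm_le (fderiv ℝ Λ p) (fderiv ℝ Λ₀ p), hb.b1 p a b, hc.c1 p a, k p b]
  · linarith [norm_sub_norm_le (D2 Λ p) (D2 Λ₀ p), hb.b2 p a b, hc.c2 p a, k p b]
  · have h3 := (D2 Λ p - D2 Λ₀ p).le_opNorm₂ (iV w) (iV w)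
    rw [BdxL.norm_iV, sub_apply, sub_apply,
      Real.norm_eq_abs, mul_assoc, ← sq] at h3
    have h4 := mul_le_mul_of_nonneg_right (((hc.c2 p a).trans (k p b)).trans h1) (sq_nonneg ‖w‖)
    linarith [hb.cvx p a b w, (abs_le.1 h3).1]

end Pool.Agent.MP_7bf9b2_an

end

section

namespace Pool.Agent.MP_7bf9b2_an

open scoped Topology
open Set Filter MeasureTheory Metric

set_option maxSynthPendingDepth 3
set_option linter.unusedSectionVars false

variable {E : Type} [NormedAddCommGroup E] [InnerProductSpace ℝ E] [FiniteDimensional ℝ E]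

namespace CrossL

theorem exch (hB : Bas E) (hV : VlStmt E) {G : Geo E} {Λ : PP E → ℝ} {y Γ : ℝ → E}
    {R κ K α : ℝ} {n : ℕ} (hL : Lag G Λ) (hb : Bd G Λ R κ K) (hy : Static G Λ α y)
    (sy : Spd R y) (hΓ : ELc G Λ Γ) (sΓ : Spd R Γ) (hn : 0 < n)
    (hp : Function.Periodic Γ (n : ℝ)) (t : ℝ) (u : E) (hu : ‖u‖ ≤ G.r0)
    (hv : ‖y t - Γ t‖ ≤ G.r0) :
    0 ≤ act Λ Γ 0 n + α * n + (mom Λ y t - mom Λ Γ t) u +
      3 * K * (‖u‖ ^ 2 + ‖y t - Γ t‖ ^ 2) := by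
  have hr := G.r0_pos
  have hn1 : (1 : ℝ) ≤ n := by exact_mod_cast hn
  have h0 : ∀ p : PP E, p.1 ∈ G.U1 → ‖p.2.1‖ ≤ R + 1 → Λ p ≤ Λ p + 0 := fun p _ _ => by
    rw [add_zero]
  have hw := norm_add_le (y t - Γ t) u
  have P1 := (hV hL hL hb hy.el sy h0 t u (by linarith)).1
  have P2 := (hV hL hL hb hΓ sΓ h0 t (y t - Γ t + u) (by linarith)).2
  have P3 := hB.el.arc hL hΓ.cu (t + 1 / 2) (t + n - 1 / 2) (by linarith)
  have P4 := (hV hL hL hb hΓ sΓ h0 (t + n) (y t - Γ t) (by linarith)).1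
  have P5 := hB.pth.shift (n : ℤ) hL (hB.el.arc hL hy.el.cu t (t + 1 / 2) (by linarith))
  rw [show Γ t + (y t - Γ t + u) = y t + u by abel] at P2
  rw [hp t, show Γ t + (y t - Γ t) = y t by abel, hB.shf.pmom hL hp t] at P4
  have P6 := hB.pth.concat hL (hB.pth.concat hL (hB.pth.concat hL P1 P2) P3) P4
  rw [← Int.cast_natCast (R := ℝ) n] at P6
  have h1 := hy.st _ _ _ _ (hB.pth.concat hL P6 P5)
  rw [Int.cast_natCast] at h1
  have a1 := hB.el.add hL hy.el.cu (t - 1 / 2) t (t + 1 / 2)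
  have a2 := hB.el.add hL hΓ.cu t (t + 1 / 2) (t + n - 1 / 2)
  have a3 := hB.el.add hL hΓ.cu t (t + n - 1 / 2) (t + n)
  have a4 := hB.shf.pact hL hΓ.cu hp t 1
  rw [Nat.cast_one, one_mul, one_mul] at a4
  have a5 : ‖y t - Γ t + u‖ ^ 2 ≤ 2 * ‖u‖ ^ 2 + 2 * ‖y t - Γ t‖ ^ 2 := by
    have := pow_le_pow_left₀ (norm_nonneg _) hw 2
    nlinarith [sq_nonneg (‖y t - Γ t‖ - ‖u‖)]
  have a6 := mul_le_mul_of_nonneg_left a5 (zero_le_one.trans hb.K1)
  rw [map_add] at h1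
  rw [sub_apply]
  linarith

theorem pv_le (Λ : PP E → ℝ) (p q : PP E) :
    ‖pv Λ p - pv Λ q‖ ≤ ‖fderiv ℝ Λ p - fderiv ℝ Λ q‖ := by
  refine ContinuousLinearMap.opNorm_le_bound _ (norm_nonneg _) fun w => ?_
  have h := (fderiv ℝ Λ p - fderiv ℝ Λ q).le_opNorm (iV w)
  have e : ‖(iV w : PP E)‖ = ‖w‖ := by simp [Prod.norm_def]
  rw [e] at h
  exact h

theorem core (hB : Bas E) (hV : VlStmt E) {G : Geo E} {Λ : PP E → ℝ} {y Γ : ℝ → E}
    {R κ K α ρ θ : ℝ} {n : ℕ} (hL : Lag G Λ) (hb : Bd G Λ R κ K) (hy : Static G Λ α y)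
    (sy : Spd R y) (hΓ : ELc G Λ Γ) (sΓ : Spd R Γ) (hn : 0 < n)
    (hp : Function.Periodic Γ (n : ℝ)) (hρ : 0 < ρ) (hρr : ρ ≤ G.r0)
    (hE : act Λ Γ 0 n + α * n ≤ 64 * K * ρ ^ 2) (hθ : 0 < θ) (hθ1 : θ * (6 * K) ≤ 1)
    (hθ2 : θ * (2 * K) ≤ G.r0) (t : ℝ) (hv : ‖y t - Γ t‖ ≤ ρ) :
    κ * ‖deriv y t - deriv Γ t‖ ≤ (√(134 * K / θ) + K) * ρ := by
  have : CompleteSpace E := FiniteDimensional.complete ℝ E
  have hK := hb.K1
  have hr := G.r0_pos
  have hyU := G.M_sub_U1 (hy.el.cu.mem t)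
  have hΓU := G.M_sub_U1 (hΓ.cu.mem t)
  have s1 : ‖deriv y t‖ ≤ R + 1 := by linarith [sy t]
  have s2 : ‖deriv Γ t‖ ≤ R + 1 := by linarith [sΓ t]
  obtain ⟨q, hq⟩ := (InnerProductSpace.toDual ℝ E).surjective (mom Λ y t - mom Λ Γ t)
  have hqn : ‖q‖ = ‖mom Λ y t - mom Λ Γ t‖ := by
    rw [← hq, LinearIsometryEquiv.norm_map]
  have hq2 : ‖q‖ ≤ 2 * K := by
    rw [hqn]
    linarith [norm_sub_le (mom Λ y t) (mom Λ Γ t), hB.el.mb hb hyU s1, hB.el.mb hb hΓU s2]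
  have hun : ‖(-θ) • q‖ = θ * ‖q‖ := by rw [norm_smul, norm_neg, Real.norm_of_nonneg hθ.le]
  have h1 := exch hB hV hL hb hy sy hΓ sΓ hn hp t ((-θ) • q)
    (by rw [hun]; nlinarith) (hv.trans hρr)
  rw [← hq, InnerProductSpace.toDual_apply_apply, real_inner_smul_right,
    real_inner_self_eq_norm_sq, hun] at h1
  have h2 : ‖y t - Γ t‖ ^ 2 ≤ ρ ^ 2 := pow_le_pow_left₀ (norm_nonneg _) hv 2
  have h3 : θ * ‖q‖ ^ 2 ≤ 134 * K * ρ ^ 2 := by
    have b1 := mul_le_mul_of_nonneg_right hθ1 (mul_nonneg hθ.le (sq_nonneg ‖q‖))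
    have b2 := mul_le_mul_of_nonneg_left h2 (zero_le_one.trans hK)
    nlinarith
  have h4 : ‖q‖ ≤ √(134 * K / θ) * ρ := by
    rw [← Real.sqrt_sq hρ.le, ← Real.sqrt_mul (by positivity)]
    refine Real.le_sqrt_of_sq_le ?_
    rw [div_mul_eq_mul_div, le_div_iff₀ hθ]
    linarith
  have h5 := hB.tay.mono hL hb (y t) (deriv y t) (deriv Γ t) t hyU s1 s2
  have h6 := hB.tay.lipd hL hb (Γ t, deriv Γ t, t) (y t, deriv Γ t, t) (hΓ.cu.mem t)
    (by show ‖y t - Γ t‖ ≤ _; linarith) s2 s2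
  have e : ‖((y t, deriv Γ t, t) : PP E) - (Γ t, deriv Γ t, t)‖ = ‖y t - Γ t‖ := by
    simp [Prod.norm_def]
  rw [e, norm_sub_rev] at h6
  have h7 := pv_le Λ (Γ t, deriv Γ t, t) (y t, deriv Γ t, t)
  have h8 := norm_sub_le_norm_sub_add_norm_sub (pv Λ (y t, deriv y t, t))
    (pv Λ (Γ t, deriv Γ t, t)) (pv Λ (y t, deriv Γ t, t))
  have h9 : ‖pv Λ (y t, deriv y t, t) - pv Λ (Γ t, deriv Γ t, t)‖ = ‖q‖ := hqn.symm
  have h10 := mul_le_mul_of_nonneg_left hv (zero_le_one.trans hK)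
  linarith

end CrossL

theorem cross (hB : Bas E) (hV : VlStmt E) : CrossStmt E := by
  intro G κ K
  refine ⟨|(√(134 * K / min (1 / (6 * K)) (G.r0 / (2 * K))) + K) / κ|, abs_nonneg _,
    fun Λ y Γ R α ρ n hL hb hy sy hΓ sΓ hn hp hρ hρr hE t i hv => ?_⟩
  have hK := hb.K1
  have hr := G.r0_pos
  have hp' : Function.Periodic (sh Γ i) (n : ℝ) := fun s => by
    show Γ (s + n + i) = Γ (s + i)
    rw [add_right_comm, hp]
  have ha : act Λ (sh Γ i) 0 n = act Λ Γ 0 n := by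
    have a4 := hB.shf.pact hL hΓ.cu hp (0 + i) 1
    rw [Nat.cast_one, one_mul, one_mul] at a4
    rw [hB.shf.sact hL, ← a4]
    congr 1
    ring
  have h1 := CrossL.core hB hV (θ := min (1 / (6 * K)) (G.r0 / (2 * K))) hL hb hy sy
    (hB.shf.el i hL hΓ) (hB.shf.spd i sΓ) hn hp' hρ hρr (by rwa [ha]) (by positivity)
    ((le_div_iff₀ (by positivity)).1 (min_le_left _ _))
    ((le_div_iff₀ (by positivity)).1 (min_le_right _ _)) t hv
  rw [hB.shf.dv] at h1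
  refine le_trans ?_ (mul_le_mul_of_nonneg_right (le_abs_self _) hρ.le)
  rw [div_mul_eq_mul_div, le_div_iff₀ hb.k0, mul_comm]
  exact h1

end Pool.Agent.MP_7bf9b2_an

end

section

/-! Lipschitz curves on compact intervals. -/

namespace Pool.Agent.MP_7bf9b2_an

open scoped Topology
open Set Filter MeasureTheory Metric

set_option maxSynthPendingDepth 3

namespace CurL

theorem ae_Ioo (s t : ℝ) : ∀ᵐ τ : ℝ, τ ∈ Icc s t → τ ∈ Ioo s t := by
  have h₁ : ∀ᵐ x : ℝ, x ≠ s := by simp [ae_iff, measure_singleton]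
  have h₂ : ∀ᵐ x : ℝ, x ≠ t := by simp [ae_iff, measure_singleton]
  filter_upwards [h₁, h₂] with x h1 h2 hx
  exact ⟨lt_of_le_of_ne hx.1 h1.symm, lt_of_le_of_ne hx.2 h2⟩

section
variable {F : Type} [NormedAddCommGroup F] [NormedSpace ℝ F]

theorem ae [FiniteDimensional ℝ F] {γ : ℝ → F} {s t : ℝ} {C : NNReal}
    (h : LipschitzOnWith C γ (Icc s t)) :
    ∀ᵐ τ, τ ∈ Icc s t → DifferentiableAt ℝ γ τ ∧ ‖deriv γ τ‖ ≤ C := by
  filter_upwards [h.ae_differentiableWithinAt_of_mem_real, ae_Ioo s t] with x h1 h2 hx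
  have hn : Icc s t ∈ 𝓝 x := Icc_mem_nhds (h2 hx).1 (h2 hx).2
  exact ⟨(h1 hx).differentiableAt hn, norm_deriv_le_of_lipschitzOn hn h⟩

theorem bdd {G : Type} [NormedAddCommGroup G] {f : ℝ → G} {s t B : ℝ} (hst : s ≤ t)
    (hm : AEStronglyMeasurable f (volume.restrict (Ioc s t)))
    (hb : ∀ᵐ τ, τ ∈ Icc s t → ‖f τ‖ ≤ B) : IntervalIntegrable f volume s t := by
  rw [intervalIntegrable_iff_integrableOn_Ioc_of_le hst]
  refine Integrable.of_bound hm B ?_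
  rw [ae_restrict_iff' measurableSet_Ioc]
  filter_upwards [hb] with x h hx
  exact h (Ioc_subset_Icc_self hx)

theorem ftc [FiniteDimensional ℝ F] {γ : ℝ → F} {s t : ℝ} (hst : s ≤ t) (h : Cv γ s t) :
    IntervalIntegrable (deriv γ) volume s t ∧ ∫ τ in s..t, deriv γ τ = γ t - γ s := by
  obtain ⟨C, hC⟩ := h
  have : CompleteSpace F := FiniteDimensional.complete ℝ F
  have hi : IntervalIntegrable (deriv γ) volume s t :=
    bdd (B := C) hst (aestronglyMeasurable_deriv γ _)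
      (by filter_upwards [ae hC] with x h hx using (h hx).2)
  refine ⟨hi, ?_⟩
  rw [SeparatingDual.eq_iff_forall_dual_eq (R := ℝ)]
  intro g
  have hl : LipschitzOnWith (‖g‖₊ * C) (g ∘ γ) (uIcc s t) := by
    rw [uIcc_of_le hst]
    exact g.lipschitz.comp_lipschitzOnWith hC
  have h1 := hl.absolutelyContinuousOnInterval.integral_deriv_eq_sub
  rw [← g.intervalIntegral_comp_comm hi, map_sub]
  refine Eq.trans (intervalIntegral.integral_congr_ae ?_) h1
  filter_upwards [ae hC] with x hx hx2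
  rw [uIoc_of_le hst] at hx2
  exact (g.hasFDerivAt.comp_hasDerivAt x (hx (Ioc_subset_Icc_self hx2)).1.hasDerivAt).deriv.symm

theorem c1 {γ : ℝ → F} (s t : ℝ) (h : ContDiff ℝ 1 γ) : Cv γ s t :=
  h.contDiffOn.exists_lipschitzOnWith (by decide) (convex_Icc _ _) isCompact_Icc

omit [NormedSpace ℝ F] in
theorem glue {γ₁ γ₂ : ℝ → F} {s t u : ℝ} (hst : s ≤ t) (htu : t ≤ u) (h1 : Cv γ₁ s t)
    (h2 : Cv γ₂ t u) (h : γ₁ t = γ₂ t) :
    ∃ γ : ℝ → F, Cv γ s u ∧ EqOn γ γ₁ (Icc s t) ∧ EqOn γ γ₂ (Icc t u) := by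
  obtain ⟨C₁, h1⟩ := h1
  obtain ⟨C₂, h2⟩ := h2
  refine ⟨fun τ => γ₁ (min τ t) + γ₂ (max τ t) - γ₁ t, ⟨C₁ + C₂, ?_⟩, fun τ hτ => ?_,
    fun τ hτ => ?_⟩
  · have a1 : LipschitzOnWith (C₁ * 1) (γ₁ ∘ fun τ => min τ t) (Icc s u) :=
      h1.comp (LipschitzWith.id.min_const t).lipschitzOnWith
        fun τ hτ => ⟨le_min hτ.1 hst, min_le_right _ _⟩
    have a2 : LipschitzOnWith (C₂ * 1) (γ₂ ∘ fun τ => max τ t) (Icc s u) :=
      h2.comp (LipschitzWith.id.max_const t).lipschitzOnWith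
        fun τ hτ => ⟨le_max_right _ _, max_le hτ.2 htu⟩
    rw [mul_one] at a1 a2
    have a3 := a1.add a2
    intro x hx y hy
    rw [edist_sub_right]
    exact a3 hx hy
  · show γ₁ (min τ t) + γ₂ (max τ t) - γ₁ t = γ₁ τ
    rw [min_eq_left hτ.2, max_eq_right hτ.2, ← h, add_sub_cancel_right]
  · show γ₁ (min τ t) + γ₂ (max τ t) - γ₁ t = γ₂ τ
    rw [min_eq_right hτ.1, max_eq_left hτ.1, add_sub_cancel_left]

omit [NormedSpace ℝ F] in
theorem ext {γ : ℝ → F} {s t : ℝ} (hst : s ≤ t) (h : Cv γ s t) : ∃ (γ' : ℝ → F) (C : NNReal),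
    LipschitzWith C γ' ∧ EqOn γ' γ (Icc s t) ∧ ∀ τ, ∃ τ' ∈ Icc s t, γ' τ = γ τ' := by
  obtain ⟨C, h⟩ := h
  have hm : ∀ τ, max (min τ t) s ∈ Icc s t := fun τ =>
    ⟨le_max_right _ _, max_le (min_le_right _ _) hst⟩
  refine ⟨γ ∘ fun τ => max (min τ t) s, C * 1, ?_, fun τ hτ => ?_, fun τ => ⟨_, hm τ, rfl⟩⟩
  · rw [← lipschitzOnWith_univ]
    exact h.comp ((LipschitzWith.id.min_const t).max_const s).lipschitzOnWith fun τ _ => hm τ
  · show γ (max (min τ t) s) = γ τ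
    rw [min_eq_left hτ.2, max_eq_left hτ.1]

end

variable {E : Type} [NormedAddCommGroup E] [InnerProductSpace ℝ E] [FiniteDimensional ℝ E]

theorem intF {γ : ℝ → E} {s t : ℝ} {F : PP E → ℝ} {S : Set E} (hst : s ≤ t) (h : Cv γ s t)
    (hF : ContinuousOn F {p | p.1 ∈ S}) (hS : ∀ τ ∈ Icc s t, γ τ ∈ S) :
    IntervalIntegrable (fun τ => F (ph γ τ)) volume s t := by
  classical
  obtain ⟨C, hC⟩ := h
  have : ProperSpace E := FiniteDimensional.proper_real E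
  borelize E
  have hT : IsCompact ((γ '' Icc s t) ×ˢ closedBall (0 : E) C ×ˢ Icc s t) :=
    (isCompact_Icc.image_of_continuousOn hC.continuousOn).prod
      ((isCompact_closedBall _ _).prod isCompact_Icc)
  generalize hTe : (γ '' Icc s t) ×ˢ closedBall (0 : E) C ×ˢ Icc s t = T at hT
  have hFT : ContinuousOn F T := hF.mono fun p hp => by
    rw [← hTe] at hp
    obtain ⟨τ, hτ, e⟩ := hp.1
    show p.1 ∈ S
    rw [← e]
    exact hS τ hτ
  have hmem : ∀ᵐ τ, τ ∈ Icc s t → ph γ τ ∈ T := by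
    filter_upwards [ae hC] with x hx hx2
    rw [← hTe]
    exact ⟨⟨x, hx2, rfl⟩, mem_closedBall_zero_iff.2 (hx hx2).2, hx2⟩
  obtain ⟨B, hB⟩ := hT.exists_bound_of_continuousOn hFT
  refine bdd (B := B) hst ?_ (by filter_upwards [hmem] with x hx hx2 using hB _ (hx hx2))
  have hp : Measurable (T.piecewise F fun _ => 0) :=
    hFT.measurable_piecewise continuousOn_const hT.measurableSet
  have hph : AEMeasurable (ph γ) (volume.restrict (Ioc s t)) :=
    ((hC.continuousOn.mono Ioc_subset_Icc_self).aemeasurable measurableSet_Ioc).prodMk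
      ((measurable_deriv γ).prodMk measurable_id).aemeasurable
  refine (hp.comp_aemeasurable hph).aestronglyMeasurable.congr ?_
  rw [EventuallyEq, ae_restrict_iff' measurableSet_Ioc]
  filter_upwards [hmem] with x hx hx2
  exact piecewise_eq_of_mem _ _ _ (hx (Ioc_subset_Icc_self hx2))

omit [FiniteDimensional ℝ E] in
theorem congr {γ γ' : ℝ → E} {s t : ℝ} (F : PP E → ℝ) (hst : s ≤ t) (h : EqOn γ γ' (Icc s t)) :
    act F γ s t = act F γ' s t := by
  refine intervalIntegral.integral_congr_ae ?_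
  filter_upwards [ae_Ioo s t] with x hx hx2
  rw [uIoc_of_le hst] at hx2
  have h2 := hx (Ioc_subset_Icc_self hx2)
  have he : γ =ᶠ[𝓝 x] γ' := h.eventuallyEq_of_mem (Icc_mem_nhds h2.1 h2.2)
  unfold ph
  rw [he.deriv_eq, he.eq_of_nhds]

end CurL

variable {E : Type} [NormedAddCommGroup E] [InnerProductSpace ℝ E] [FiniteDimensional ℝ E]

theorem cur : CurStmt E where
  ae := CurL.ae
  ftc := CurL.ftc
  c1 := CurL.c1
  intF := CurL.intF
  glue := CurL.glue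
  congr := CurL.congr
  ext := CurL.ext

end Pool.Agent.MP_7bf9b2_an

end

section

/-!
Quadratic growth of the action in the channel.
-/

set_option maxSynthPendingDepth 3

namespace Pool.Agent.MP_7bf9b2_an

open scoped Topology
open Set Filter MeasureTheory Metric

variable {E : Type} [NormedAddCommGroup E] [InnerProductSpace ℝ E] [FiniteDimensional ℝ E]

namespace Cvx1L

theorem rad (G : Geo E) {ρ : ℝ} (hρ : 0 < ρ) : ∃ r₁ > 0, r₁ ≤ 2 * G.r0 ∧
    ∀ x ∈ G.M₀, ∀ z : E, ‖z - x‖ ≤ r₁ → ‖G.r z - x‖ ≤ ρ := by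
  have hu := G.isCompact_U1.uniformContinuousOn_of_continuous
    (G.smoothU.continuousOn.mono G.U1_sub_U)
  obtain ⟨δ, hδ, h⟩ := Metric.uniformContinuousOn_iff_le.mp hu ρ hρ
  refine ⟨min δ (2 * G.r0), lt_min hδ (by linarith [G.r0_pos]), min_le_right _ _, ?_⟩
  intro x hx z hz
  have h1 := h z (G.mem_U1 hx (hz.trans (min_le_right _ _))) x (G.M_sub_U1 hx)
    (by rw [dist_eq_norm]; exact hz.trans (min_le_left _ _))
  rwa [dist_eq_norm, G.fix x hx] at h1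

theorem sq_le (a b c : E) : ‖a - c‖ ^ 2 ≤ 2 * ‖a - b‖ ^ 2 + 2 * ‖b - c‖ ^ 2 := by
  have h1 := norm_sub_le_norm_sub_add_norm_sub a b c
  have h2 := pow_le_pow_left₀ (norm_nonneg _) h1 2
  nlinarith [sq_nonneg (‖a - b‖ - ‖b - c‖)]

end Cvx1L

theorem cvx1 (hB : Bas E) : Cvx1Stmt E := by
  intro G Λ₀ σ₀ β ε n N ρ a Γ₀ φ hL hC
  obtain ⟨r₁, hr, hr2, hrad⟩ := Cvx1L.rad G hC.rpos
  refine ⟨r₁, hr, fun s η hη hper hcl => ?_⟩
  have hcu := hC.pm.el.cu
  have hsN : s ≤ s + N := le_add_of_nonneg_right (Nat.cast_nonneg N)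
  have hU1 : ∀ τ ∈ Icc s (s + N), η τ ∈ G.U1 := fun τ hτ =>
    G.mem_U1 (hcu.mem τ) ((hcl τ hτ).trans hr2)
  have hU : ∀ τ ∈ Icc s (s + N), η τ ∈ G.U := fun τ hτ => G.U1_sub_U (hU1 τ hτ)
  have hηc : ContinuousOn η (Icc s (s + N)) := by
    obtain ⟨C, hC'⟩ := hη
    exact hC'.continuousOn
  have hrc : ContinuousOn (fun τ => G.r (η τ)) (Icc s (s + N)) :=
    G.smoothU.continuousOn.comp hηc hU
  have hΓc : ContinuousOn Γ₀ (Icc s (s + N)) := hcu.c2.continuous.continuousOn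
  have i0 : IntervalIntegrable (fun τ => Λ₀ (ph η τ)) volume s (s + N) :=
    hB.cur.intF (S := G.U) hsN hη hL.smooth.continuousOn hU
  have i1 : IntervalIntegrable (fun τ => φ (G.r (η τ), τ)) volume s (s + N) :=
    (hC.cphi.comp_continuousOn (hrc.prodMk continuousOn_id)).intervalIntegrable_of_Icc hsN
  have i2 : IntervalIntegrable (fun τ => ‖η τ - G.r (η τ)‖ ^ 2) volume s (s + N) :=
    ((hηc.sub hrc).norm.pow 2).intervalIntegrable_of_Icc hsN
  have i3 : IntervalIntegrable (fun τ => ‖η τ - Γ₀ τ‖ ^ 2) volume s (s + N) :=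
    ((hηc.sub hΓc).norm.pow 2).intervalIntegrable_of_Icc hsN
  have e1 : act (addP G Λ₀ φ) η s (s + N)
      = act Λ₀ η s (s + N) + ∫ τ in s..(s + N), φ (G.r (η τ), τ) :=
    intervalIntegral.integral_add i0 i1
  have e2 : act (addP G Λ₀ φ) Γ₀ s (s + N) = act Λ₀ Γ₀ s (s + N) := by
    refine intervalIntegral.integral_congr fun τ _ => ?_
    change Λ₀ (ph Γ₀ τ) + φ (G.r (Γ₀ τ), τ) = Λ₀ (ph Γ₀ τ)
    rw [G.fix _ (hcu.mem τ), hC.zero, add_zero]
  have hpN : Function.Periodic Γ₀ (N : ℝ) := by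
    obtain ⟨m, hm⟩ := hC.dvd
    have h1 := hC.pm.per.nat_mul m
    rwa [← Nat.cast_mul, mul_comm, ← hm] at h1
  have e3 := hB.shf.pact hL hcu hpN s 1
  rw [Nat.cast_one, one_mul, one_mul] at e3
  obtain ⟨hcv, hret⟩ := hB.pth.retc hL hsN hη hU1
  have hmin := hC.minN (G.r (η s)) s _ ⟨hsN, _, hcv,
    fun τ hτ => G.M_sub_U1 (G.mapsU (hU τ hτ)), rfl, by rw [hper], le_rfl⟩
  have hpt : ∀ τ ∈ Icc s (s + N), min (1 / 2) ε / 2 * ‖η τ - Γ₀ τ‖ ^ 2
      ≤ ‖η τ - G.r (η τ)‖ ^ 2 / 2 + φ (G.r (η τ), τ) := by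
    intro τ hτ
    have h1 := hrad _ (hcu.mem τ) _ (hcl τ hτ)
    have h2 := hB.dd.uniq hC.pm.per hC.gap (G.r (η τ)) τ 0
      (by rw [Int.cast_zero, add_zero]; linarith [hC.rpos])
    rw [Int.cast_zero, add_zero] at h2
    have h3 := hC.low (G.r (η τ)) τ
    rw [h2, min_eq_left h1] at h3
    have h4 := Cvx1L.sq_le (η τ) (G.r (η τ)) (Γ₀ τ)
    have h5 : 0 ≤ min (1 / 2) ε := le_min (by norm_num) hC.epos.le
    have h6 := mul_le_mul_of_nonneg_left h4 h5
    have h7 := mul_le_mul_of_nonneg_right (min_le_left (1 / 2) ε)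
      (sq_nonneg ‖η τ - G.r (η τ)‖)
    have h8 := mul_le_mul_of_nonneg_right (min_le_right (1 / 2) ε)
      (sq_nonneg ‖G.r (η τ) - Γ₀ τ‖)
    linarith
  have h9 := intervalIntegral.integral_mono_on hsN (i3.const_mul _) ((i2.div_const 2).add i1) hpt
  rw [intervalIntegral.integral_const_mul, intervalIntegral.integral_add (i2.div_const 2) i1,
    intervalIntegral.integral_div] at h9
  linarith

end Pool.Agent.MP_7bf9b2_an

end

section

/-!
Quadratic growth of the action gives positivity of the second variation.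
-/

set_option maxSynthPendingDepth 3

namespace Pool.Agent.MP_7bf9b2_an

open scoped Topology
open Set Filter MeasureTheory Metric

variable {E : Type} [NormedAddCommGroup E] [InnerProductSpace ℝ E] [FiniteDimensional ℝ E]

namespace Cvx2L

/-- uniform continuity of the second derivative along the curve -/
lemma unif (hB : Bas E) {G : Geo E} {Λ : PP E → ℝ} {Γ : ℝ → E} (hΛ : Lag G Λ) (hΓ : Cu G Γ)
    (a b : ℝ) {o : ℝ} (ho : 0 < o) : ∃ δ > 0, ∀ τ ∈ Icc a b, ∀ w : PP E, ‖w‖ ≤ δ →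
      ph Γ τ + w ∈ G.Om ∧ ‖D2 Λ (ph Γ τ + w) - D2 Λ (ph Γ τ)‖ ≤ o := by
  have h1 : ContinuousOn (D2 Λ) G.Om :=
    (hΛ.smooth.fderiv_of_isOpen (m := 1) G.isOpen_Om (by norm_num)).continuousOn_fderiv_of_isOpen
      G.isOpen_Om le_rfl
  have h2 : IsCompact (ph Γ '' Icc a b) := isCompact_Icc.image (hB.el.cph hΓ).continuous
  have h3 := h2.uniformContinuousAt_of_continuousAt (D2 Λ) (by
    rintro _ ⟨τ, -, rfl⟩
    exact h1.continuousAt (G.isOpen_Om.mem_nhds (G.M_sub_U (hΓ.mem τ)))) (dist_mem_uniformity ho)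
  obtain ⟨δ, hδ, h4⟩ := mem_uniformity_dist.1 h3
  refine ⟨min (δ / 2) (2 * G.r0), lt_min (by positivity) (by linarith [G.r0_pos]),
    fun τ hτ w hw => ⟨?_, ?_⟩⟩
  · exact G.U1_sub_U (G.add_mem_U1 (hΓ.mem τ)
      ((norm_fst_le w).trans (hw.trans (min_le_right _ _))))
  · have h5 : dist (ph Γ τ) (ph Γ τ + w) < δ := by
      rw [dist_self_add_right]
      linarith [hw.trans (min_le_left _ _)]
    have h6 : dist (D2 Λ (ph Γ τ)) (D2 Λ (ph Γ τ + w)) < o := h4 h5 ⟨τ, hτ, rfl⟩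
    rw [dist_comm, dist_eq_norm] at h6
    exact h6.le

lemma cv_add (hB : Bas E) {G : Geo E} {Γ ξ : ℝ → E} (hΓ : Cu G Γ) {a b : ℝ} (hξ : Cv ξ a b)
    (h : ℝ) : Cv (fun τ => Γ τ + h • ξ τ) a b := by
  obtain ⟨C, hC⟩ := hB.cur.c1 a b (hΓ.c2.of_le (by norm_num))
  obtain ⟨C', hC'⟩ := hξ
  exact ⟨_, hC.add ((lipschitzWith_smul h).comp_lipschitzOnWith hC')⟩

/-- second order expansion of the action -/
lemma expand (hB : Bas E) {G : Geo E} {Λ : PP E → ℝ} {Γ ξ : ℝ → E} (hΛ : Lag G Λ) (hΓ : Cu G Γ)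
    {a b o δ M h : ℝ} (hab : a ≤ b) (hξ : Cv ξ a b) (ho : 0 ≤ o)
    (hδ : ∀ τ ∈ Icc a b, ∀ w : PP E, ‖w‖ ≤ δ →
      ph Γ τ + w ∈ G.Om ∧ ‖D2 Λ (ph Γ τ + w) - D2 Λ (ph Γ τ)‖ ≤ o)
    (h0 : ∀ τ ∈ Icc a b, ‖ξ τ‖ ≤ M)
    (h1 : ∀ᵐ τ, τ ∈ Icc a b → DifferentiableAt ℝ ξ τ ∧ ‖deriv ξ τ‖ ≤ M) (hh : |h| * M ≤ δ) :
    act Λ (fun τ => Γ τ + h • ξ τ) a b ≤ act Λ Γ a b +
      h * (∫ τ in a..b, fderiv ℝ Λ (ph Γ τ) (ξ τ, deriv ξ τ, 0)) +
      h ^ 2 / 2 * (∫ τ in a..b, D2 Λ (ph Γ τ) (ξ τ, deriv ξ τ, 0) (ξ τ, deriv ξ τ, 0)) +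
      (b - a) * (o * (h ^ 2 * M ^ 2) / 2) := by
  have i0 : IntervalIntegrable (fun τ => Λ (ph (fun τ => Γ τ + h • ξ τ) τ)) volume a b := by
    refine hB.cur.intF (S := G.U) hab (cv_add hB hΓ hξ h) hΛ.smooth.continuousOn fun τ hτ => ?_
    refine (hδ τ hτ (h • ξ τ, 0, 0) ?_).1
    simp only [Prod.norm_mk, norm_zero, max_self, norm_smul, Real.norm_eq_abs]
    have := mul_le_mul_of_nonneg_left (h0 τ hτ) (abs_nonneg h)
    exact max_le (this.trans hh) ((by positivity : 0 ≤ |h| * ‖ξ τ‖).trans (this.trans hh))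
  have i1 : IntervalIntegrable (fun τ => Λ (ph Γ τ)) volume a b :=
    (hB.el.cL hΛ hΓ).intervalIntegrable a b
  have c0 : Continuous fun p : PP E => ((p.1, p.2.1, 0) : PP E) := by fun_prop
  have c1 : Continuous fun p : PP E => p.2.2 := by fun_prop
  have i2 : IntervalIntegrable (fun τ => fderiv ℝ Λ (ph Γ τ) (ξ τ, deriv ξ τ, 0)) volume a b :=
    hB.cur.intF (F := fun p => fderiv ℝ Λ (ph Γ p.2.2) (p.1, p.2.1, 0)) (S := univ) hab hξ
      (((hB.el.cD1 hΛ hΓ).continuous.comp c1).clm_apply c0).continuousOn fun _ _ => mem_univ _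
  have i3 : IntervalIntegrable
      (fun τ => D2 Λ (ph Γ τ) (ξ τ, deriv ξ τ, 0) (ξ τ, deriv ξ τ, 0)) volume a b :=
    hB.cur.intF (F := fun p => D2 Λ (ph Γ p.2.2) (p.1, p.2.1, 0) (p.1, p.2.1, 0)) (S := univ)
      hab hξ ((((hB.el.cD2 hΛ hΓ).comp c1).clm_apply c0).clm_apply c0).continuousOn
      fun _ _ => mem_univ _
  have i4 : IntervalIntegrable (fun _ : ℝ => o * (h ^ 2 * M ^ 2) / 2) volume a b :=
    intervalIntegrable_const
  have j2 := i2.const_mul h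
  have j3 := i3.const_mul (h ^ 2 / 2)
  have e := intervalIntegral.integral_mono_ae_restrict hab i0 (((i1.add j2).add j3).add i4) ?_
  · rw [intervalIntegral.integral_add ((i1.add j2).add j3) i4,
      intervalIntegral.integral_add (i1.add j2) j3, intervalIntegral.integral_add i1 j2,
      intervalIntegral.integral_const_mul, intervalIntegral.integral_const_mul,
      intervalIntegral.integral_const, smul_eq_mul] at e
    exact e
  refine (ae_restrict_iff' measurableSet_Icc).2 ?_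
  filter_upwards [h1] with τ h2 hτ
  obtain ⟨h3, h4⟩ := h2 hτ
  have M0 : 0 ≤ M := (norm_nonneg _).trans h4
  obtain ⟨v, hv⟩ : ∃ v : PP E, v = (ξ τ, deriv ξ τ, 0) := ⟨_, rfl⟩
  have n1 : ‖v‖ ≤ M := by
    rw [hv]
    simp only [Prod.norm_mk, norm_zero]
    exact max_le (h0 τ hτ) (max_le h4 M0)
  have n2 : ‖h • v‖ ≤ |h| * M := by
    rw [norm_smul, Real.norm_eq_abs]
    exact mul_le_mul_of_nonneg_left n1 (abs_nonneg h)
  have e1 : ph (fun τ => Γ τ + h • ξ τ) τ = ph Γ τ + h • v := by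
    have d1 : HasDerivAt (fun τ => Γ τ + h • ξ τ) (deriv Γ τ + h • deriv ξ τ) τ :=
      (hΓ.c2.differentiable (by norm_num) τ).hasDerivAt.add (h3.hasDerivAt.const_smul h)
    rw [ph, ph, d1.deriv, hv]
    simp
  have t := hB.tay.tay G.isOpen_Om hΛ.smooth (ph Γ τ) (h • v) (D2 Λ (ph Γ τ)) o fun u hu => by
    refine hδ τ hτ _ ?_
    rw [norm_smul, Real.norm_of_nonneg hu.1]
    exact (mul_le_of_le_one_left (norm_nonneg _) hu.2).trans (n2.trans hh)
  have n3 : o * ‖h • v‖ ^ 2 / 2 ≤ o * (h ^ 2 * M ^ 2) / 2 := by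
    rw [← sq_abs h, ← mul_pow]
    gcongr
  have t1 := (abs_le.1 t).2
  simp only [map_smul, ContinuousLinearMap.smul_apply, smul_eq_mul] at t1
  change Λ (ph (fun τ => Γ τ + h • ξ τ) τ) ≤ Λ (ph Γ τ) +
    h * fderiv ℝ Λ (ph Γ τ) (ξ τ, deriv ξ τ, 0) +
    h ^ 2 / 2 * D2 Λ (ph Γ τ) (ξ τ, deriv ξ τ, 0) (ξ τ, deriv ξ τ, 0) + o * (h ^ 2 * M ^ 2) / 2
  rw [e1, ← hv]
  linarith

end Cvx2L

theorem cvx2 (hB : Bas E) : Cvx2Stmt E := by
  intro G Λ Γ N r₁ c hΛ hΓ hp hr hQ s ξ hξ he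
  have hN : (0 : ℝ) ≤ N := Nat.cast_nonneg N
  have hab : s ≤ s + N := by linarith
  obtain ⟨C, hC⟩ := hξ
  obtain ⟨M₀, hM₀⟩ := isCompact_Icc.exists_bound_of_continuousOn hC.continuousOn
  obtain ⟨M, hM⟩ : ∃ M : ℝ, M = max M₀ C + 1 := ⟨_, rfl⟩
  have m1 : M₀ ≤ M := by linarith [le_max_left M₀ C]
  have m2 : (C : ℝ) ≤ M := by linarith [le_max_right M₀ C]
  have M0 : 0 < M := by linarith [le_max_right M₀ C, C.coe_nonneg]
  have h0 : ∀ τ ∈ Icc s (s + N), ‖ξ τ‖ ≤ M := fun τ hτ => (hM₀ τ hτ).trans m1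
  have h1 : ∀ᵐ τ, τ ∈ Icc s (s + N) → DifferentiableAt ℝ ξ τ ∧ ‖deriv ξ τ‖ ≤ M := by
    filter_upwards [hB.cur.ae hC] with τ h hτ
    exact ⟨(h hτ).1, (h hτ).2.trans m2⟩
  refine le_of_forall_pos_le_add fun ε hε => ?_
  have ho : 0 < ε / (M ^ 2 * (N + 1)) := by positivity
  obtain ⟨δ, hδ, hd⟩ := Cvx2L.unif hB hΛ hΓ s (s + N) ho
  have key : ∀ h : ℝ, |h| * M ≤ min δ r₁ → c * (h ^ 2 * ∫ τ in s..(s + N), ‖ξ τ‖ ^ 2) ≤
      h * (∫ τ in s..(s + N), fderiv ℝ Λ (ph Γ τ) (ξ τ, deriv ξ τ, 0)) +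
      h ^ 2 / 2 * (∫ τ in s..(s + N), D2 Λ (ph Γ τ) (ξ τ, deriv ξ τ, 0) (ξ τ, deriv ξ τ, 0)) +
      h ^ 2 * (ε / 2) := by
    intro h hh
    have e1 := Cvx2L.expand hB hΛ hΓ hab ⟨C, hC⟩ ho.le hd h0 h1 (hh.trans (min_le_left _ _))
    have e2 := hQ s (fun τ => Γ τ + h • ξ τ) (Cvx2L.cv_add hB hΓ ⟨C, hC⟩ h)
      (by simp only [hp s, he]) fun τ hτ => by
        rw [add_sub_cancel_left, norm_smul, Real.norm_eq_abs]
        exact (mul_le_mul_of_nonneg_left (h0 τ hτ) (abs_nonneg h)).trans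
          (hh.trans (min_le_right _ _))
    simp only [add_sub_cancel_left, norm_smul, Real.norm_eq_abs, mul_pow, sq_abs,
      intervalIntegral.integral_const_mul] at e1 e2
    have e3 : N * (ε / (M ^ 2 * (N + 1)) * (h ^ 2 * M ^ 2) / 2) ≤ h ^ 2 * (ε / 2) := by
      have e4 : N * (ε / (M ^ 2 * (N + 1)) * (h ^ 2 * M ^ 2) / 2) =
          h ^ 2 * (ε / 2) * (N / (N + 1)) := by field_simp
      rw [e4]
      exact mul_le_of_le_one_right (by positivity) ((div_le_one (by positivity)).2 (by linarith))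
    linarith
  have hm : 0 < min δ r₁ := lt_min hδ hr
  have hh : 0 < min δ r₁ / M := by positivity
  have k1 := key (min δ r₁ / M) (by rw [abs_of_pos hh, div_mul_cancel₀ _ M0.ne'])
  have k2 := key (-(min δ r₁ / M)) (by rw [abs_neg, abs_of_pos hh, div_mul_cancel₀ _ M0.ne'])
  rw [neg_sq] at k2
  refine le_of_mul_le_mul_left ?_ (pow_pos hh 2)
  linarith

end Pool.Agent.MP_7bf9b2_an

end

section

/-! Basic facts on `C²` curves and Euler-Lagrange curves. -/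

namespace Pool.Agent.MP_7bf9b2_an

open scoped Topology
open Set Filter MeasureTheory Metric

set_option linter.unusedSectionVars false
set_option maxSynthPendingDepth 3

variable {E : Type} [NormedAddCommGroup E] [InnerProductSpace ℝ E] [FiniteDimensional ℝ E]

namespace ElL

variable {G : Geo E} {Λ : PP E → ℝ} {y : ℝ → E}

theorem tm (hy : Cu G y) (t : ℝ) : ph y t ∈ G.TM := by
  refine ⟨hy.mem t, ?_⟩
  have h1 : DifferentiableAt ℝ G.r (y t) :=
    (G.smoothU.contDiffAt (G.isOpen_U.mem_nhds (G.M_sub_U (hy.mem t)))).differentiableAt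
      (by norm_num)
  have h2 : HasDerivAt y (deriv y t) t := (hy.c2.differentiable (by norm_num) t).hasDerivAt
  have h3 := h1.hasFDerivAt.comp_hasDerivAt t h2
  have e : G.r ∘ y = y := funext fun τ => G.fix _ (hy.mem τ)
  rw [e] at h3
  exact h3.unique h2

theorem cph (hy : Cu G y) : ContDiff ℝ 1 (ph y) := by
  have h1 : ContDiff ℝ 1 y := hy.c2.of_le (by norm_num)
  have h2 : ContDiff ℝ 1 (deriv y) := by
    have : ContDiff ℝ (1 + 1) y := by rw [one_add_one_eq_two]; exact hy.c2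
    exact (contDiff_succ_iff_deriv.1 this).2.2
  exact h1.prodMk (h2.prodMk contDiff_id)

theorem mem (hy : Cu G y) (t : ℝ) : ph y t ∈ G.Om := G.M_sub_U (hy.mem t)

theorem cL (hL : Lag G Λ) (hy : Cu G y) : Continuous fun τ => Λ (ph y τ) :=
  hL.smooth.continuousOn.comp_continuous (cph hy).continuous (mem hy)

theorem d1 (hL : Lag G Λ) : ContDiffOn ℝ 1 (fderiv ℝ Λ) G.Om :=
  hL.smooth.fderiv_of_isOpen G.isOpen_Om (by norm_num)

theorem cD1 (hL : Lag G Λ) (hy : Cu G y) : ContDiff ℝ 1 fun τ => fderiv ℝ Λ (ph y τ) :=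
  (d1 hL).comp_contDiff (cph hy) (mem hy)

theorem cD2 (hL : Lag G Λ) (hy : Cu G y) : Continuous fun τ => D2 Λ (ph y τ) :=
  ((d1 hL).continuousOn_fderiv_of_isOpen G.isOpen_Om le_rfl).comp_continuous
    (cph hy).continuous (mem hy)

theorem cmom (hL : Lag G Λ) (hy : Cu G y) : ContDiff ℝ 1 (mom Λ y) :=
  (cD1 hL hy).clm_comp contDiff_const

theorem cv_app {m : ℝ → E →L[ℝ] ℝ} {ξ : ℝ → E} {a b : ℝ} (hm : Cv m a b) (hξ : Cv ξ a b) :
    Cv (fun τ => m τ (ξ τ)) a b := by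
  obtain ⟨C, hC⟩ := hm
  obtain ⟨D, hD⟩ := hξ
  obtain ⟨M, hM⟩ := isCompact_Icc.exists_bound_of_continuousOn hC.continuousOn
  obtain ⟨N, hN⟩ := isCompact_Icc.exists_bound_of_continuousOn hD.continuousOn
  refine ⟨(M * D + C * N).toNNReal, LipschitzOnWith.of_dist_le_mul fun s hs t ht => ?_⟩
  have h1 := hC.dist_le_mul s hs t ht
  have h2 := hD.dist_le_mul s hs t ht
  have e : m s (ξ s) - m t (ξ t) = m s (ξ s - ξ t) + (m s - m t) (ξ t) := by simp
  rw [dist_eq_norm] at h1 h2 ⊢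
  have h3 : ‖m s (ξ s - ξ t)‖ ≤ M * (D * dist s t) :=
    ((m s).le_opNorm _).trans
      (mul_le_mul (hM s hs) h2 (norm_nonneg _) ((norm_nonneg _).trans (hM s hs)))
  have h4 : ‖(m s - m t) (ξ t)‖ ≤ C * dist s t * N :=
    ((m s - m t).le_opNorm _).trans
      (mul_le_mul h1 (hN t ht) (norm_nonneg _) (by positivity))
  calc ‖m s (ξ s) - m t (ξ t)‖ ≤ M * (D * dist s t) + C * dist s t * N := by
        rw [e]; exact (norm_add_le _ _).trans (add_le_add h3 h4)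
    _ = (M * D + C * N) * dist s t := by ring
    _ ≤ _ := mul_le_mul_of_nonneg_right (Real.le_coe_toNNReal _) dist_nonneg

theorem fv (hc : CurStmt E) {ξ : ℝ → E} {a b : ℝ} (hL : Lag G Λ) (hy : ELc G Λ y) (hab : a ≤ b)
    (hξ : Cv ξ a b) : ∫ τ in a..b, fderiv ℝ Λ (ph y τ) (ξ τ, deriv ξ τ, 0) =
      mom Λ y b (ξ b) - mom Λ y a (ξ a) := by
  have hv := cv_app (hc.c1 a b (cmom hL hy.cu)) hξ
  rw [← (hc.ftc hab hv).2]
  obtain ⟨D, hD⟩ := hξ
  refine intervalIntegral.integral_congr_ae ?_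
  filter_upwards [hc.ae hD] with τ hτ hmem
  rw [uIoc_of_le hab] at hmem
  have h1 := (hτ (Ioc_subset_Icc_self hmem)).1.hasDerivAt
  rw [((hy.el τ).clm_apply h1).deriv]
  have e : ((ξ τ, deriv ξ τ, 0) : PP E) = iX (ξ τ) + iV (deriv ξ τ) := by simp
  rw [e, map_add]
  rfl

theorem mb {R κ K t : ℝ} (hB : Bd G Λ R κ K) (h1 : y t ∈ G.U1) (h2 : ‖deriv y t‖ ≤ R + 1) :
    ‖mom Λ y t‖ ≤ K := by
  have hK : 0 ≤ K := by linarith [hB.K1]
  refine ContinuousLinearMap.opNorm_le_bound _ hK fun w => ?_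
  have e : ‖(iV w : PP E)‖ = ‖w‖ := by simp [Prod.norm_def]
  calc ‖mom Λ y t w‖ = ‖fderiv ℝ Λ (ph y t) (iV w)‖ := rfl
    _ ≤ ‖fderiv ℝ Λ (ph y t)‖ * ‖(iV w : PP E)‖ := ContinuousLinearMap.le_opNorm _ _
    _ ≤ K * ‖w‖ := by
      rw [e]; exact mul_le_mul_of_nonneg_right (hB.b1 _ h1 h2) (norm_nonneg _)

end ElL

theorem el (hc : CurStmt E) : ElStmt E where
  tm := ElL.tm
  cph := ElL.cph
  cL := ElL.cL
  cD1 := ElL.cD1
  cD2 := ElL.cD2
  add := fun hL hy a b c => intervalIntegral.integral_add_adjacent_intervals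
    ((ElL.cL hL hy).intervalIntegrable a b) ((ElL.cL hL hy).intervalIntegrable b c)
  arc := fun {G} _ y _ hy s t hst => ⟨hst, y, hc.c1 s t (hy.c2.of_le (by norm_num)),
    fun τ _ => G.M_sub_U1 (hy.mem τ), rfl, rfl, le_rfl⟩
  fv := ElL.fv hc
  orb := fun hF ho => by
    obtain ⟨p, hp, rfl⟩ := ho
    exact ⟨hF.el p hp, hF.grp p hp⟩
  mb := ElL.mb

end Pool.Agent.MP_7bf9b2_an

end

section

/-! End of the locking argument, and calibrated curves. -/

namespace Pool.Agent.MP_7bf9b2_an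

open scoped Topology
open Set Filter MeasureTheory Metric

set_option linter.unusedSectionVars false
set_option maxSynthPendingDepth 3

variable {E : Type} [NormedAddCommGroup E] [InnerProductSpace ℝ E] [FiniteDimensional ℝ E]

namespace EndL

theorem zero {Γ y : ℝ → E} {ρ : ℝ} (hρ : 0 < ρ) (hc : Continuous (gg Γ ρ y))
    (h : ∀ r, DD Γ ρ y r = 0) (t : ℝ) : dd Γ (y t) t = 0 := by
  by_contra h0
  have h1 : 0 < gg Γ ρ y t := lt_min (lt_of_le_of_ne infDist_nonneg (Ne.symm h0)) hρ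
  have := intervalIntegral.integral_pos (f := fun t => gg Γ ρ y t ^ 2) (a := (⌊t⌋ : ℝ))
    (b := ⌊t⌋ + 1) (by linarith) (hc.pow 2).continuousOn (fun _ _ => sq_nonneg _)
    ⟨t, ⟨Int.floor_le t, (Int.lt_floor_add_one t).le⟩, pow_pos h1 2⟩
  exact this.ne' (h ⌊t⌋)

theorem strand (hB : Bas E) {Γ y : ℝ → E} {ρ : ℝ} {n : ℕ} (hn : 0 < n) (hρ : 0 < ρ)
    (hp : Function.Periodic Γ (n : ℝ)) (hg : Gap Γ n (3 * ρ)) (cΓ : Continuous Γ)
    (cy : Continuous y) (h : ∀ t, dd Γ (y t) t = 0) : ∃ j : ℤ, ∀ t, y t = Γ (t + j) := by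
  obtain ⟨j, -, -, hj⟩ := hB.dd.att hn hp (y 0) 0
  have hc : Continuous fun t => ‖y t - Γ (t + j)‖ := by fun_prop
  have e : {t | ‖y t - Γ (t + j)‖ = 0} = {t | ‖y t - Γ (t + j)‖ < ρ} := by
    ext t
    refine ⟨fun ht => (le_of_eq ht).trans_lt hρ, fun ht => ?_⟩
    have ht' : ‖y t - Γ (t + j)‖ < ρ := ht
    exact (hB.dd.uniq hp hg (y t) t j (by linarith)).symm.trans (h t)
  have hcl : IsClopen {t | ‖y t - Γ (t + j)‖ = 0} :=
    ⟨isClosed_eq hc continuous_const, e ▸ isOpen_lt hc continuous_const⟩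
  have hu := hcl.eq_univ ⟨0, hj.symm.trans (h 0)⟩
  refine ⟨j, fun t => ?_⟩
  have : t ∈ {t | ‖y t - Γ (t + j)‖ = 0} := hu ▸ mem_univ t
  exact sub_eq_zero.1 (norm_eq_zero.1 this)

end EndL

theorem endS (hB : Bas E) : EndStmt E := by
  intro G Λ Y Γ α ρ n hL hn hρ hlow ho hm hg ⟨y, hy⟩ h
  have key : ∀ y, Static G Λ α y → ∃ j : ℤ, ∀ t, y t = Γ (t + j) := fun y hy =>
    EndL.strand hB hn hρ hm.per hg hm.el.cu.c2.continuous hy.el.cu.c2.continuous
      (EndL.zero hρ (h y hy).1 (h y hy).2)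
  refine ⟨α, Γ, n, hn, hlow, ho, hm.per, le_antisymm ?_ ?_, key⟩
  · obtain ⟨j, hj⟩ := key y hy
    have e : y = sh Γ j := funext hj
    have e1 : y 0 = y n := by
      rw [hj, hj, zero_add, add_comm, hm.per]
    have hP : Path G Λ (y 0) 0 (y n) ((n : ℝ) + ((-n : ℤ) : ℝ)) 0 := by
      have : (n : ℝ) + ((-n : ℤ) : ℝ) = 0 := by push_cast; ring
      rw [this]
      exact hB.pth.refl.2 ⟨e1, G.M_sub_U1 (hy.el.cu.mem 0), le_rfl⟩
    have h1 := hy.st 0 n (-n) 0 hP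
    have h2 := hB.shf.pact hL hm.el.cu hm.per j 1
    rw [e, hB.shf.sact hL, zero_add, add_comm] at h1
    push_cast at h1 h2
    rw [one_mul, one_mul] at h2
    linarith
  · have h1 := hB.el.arc hL hm.el.cu 0 n (Nat.cast_nonneg n)
    rw [hm.per.eq] at h1
    exact hlow n (Γ 0) 0 _ (by rwa [zero_add])

theorem cal (hB : Bas E) : CalStmt E := by
  intro G Λ α u y hL hs hy h
  refine ⟨hy, fun s t k A hP => ?_⟩
  have hsum : ∀ i j : ℤ, i ≤ j → act Λ y i j + α * (j - i) ≤ u (y j) - u (y i) := by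
    intro i j hij
    induction j, hij using Int.le_induction with
    | base => simp [act]
    | succ j _ ih =>
      have h1 := hB.el.add hL hy.cu i j (j + 1)
      have h2 := h j
      push_cast
      linarith
  have a1 := Int.floor_le (min s t)
  have a2 := Int.le_ceil (max s t)
  have a3 : ⌊min s t⌋ ≤ ⌈max s t⌉ := by
    have : (⌊min s t⌋ : ℝ) ≤ ⌈max s t⌉ := a1.trans (min_le_max.trans a2)
    exact_mod_cast this
  have h1 := hsum _ _ a3
  generalize ⌊min s t⌋ = i at *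
  generalize ⌈max s t⌉ = j at *
  have p1 := hB.el.arc hL hy.cu i s (a1.trans (min_le_left _ _))
  have p2 := hB.pth.shift k hL (hB.el.arc hL hy.cu t j ((le_max_right _ _).trans a2))
  have p3 := hB.pth.concat hL (hB.pth.concat hL p1 hP) p2
  have h2 := hs _ (hy.cu.mem _) _ (hy.cu.mem _) i (j + k) _ (by push_cast; exact p3)
  have h3 := hB.el.add hL hy.cu i s t
  have h4 := hB.el.add hL hy.cu i t j
  push_cast at h2
  linarith

end Pool.Agent.MP_7bf9b2_an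

end

section

/-!
The a priori bound on the total time a static curve spends away from the strands.
-/

set_option maxSynthPendingDepth 3
set_option linter.unusedSectionVars false

namespace Pool.Agent.MP_7bf9b2_an

open scoped Topology
open Set Filter MeasureTheory Metric

variable {E : Type} [NormedAddCommGroup E] [InnerProductSpace ℝ E] [FiniteDimensional ℝ E]

namespace FiveL

theorem cmpI (hB : Bas E) {G : Geo E} {Λ₀ Λ : PP E → ℝ} {y Γ : ℝ → E} {α β : ℝ} {as : ℕ → ℝ}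
    {R κ K ρ ε₁ σ' e : ℝ} (h : LCtx G Λ₀ Λ y Γ α β as R κ K ρ ε₁ σ' e) {s t : ℝ} (hst : s ≤ t) :
    act Λ₀ y s t + ε₁ * ∫ τ in s..t, gg Γ ρ y τ ^ 2 ≤ act Λ y s t + σ' * (t - s) := by
  have c0 := hB.el.cL h.lag0 h.st.el.cu
  have c1 := hB.el.cL h.lag h.st.el.cu
  have c2 : Continuous fun τ => gg Γ ρ y τ ^ 2 := h.cont.pow 2
  have c3 : Continuous fun τ => ε₁ * gg Γ ρ y τ ^ 2 := continuous_const.mul c2
  have e1 : act Λ₀ y s t + ε₁ * ∫ τ in s..t, gg Γ ρ y τ ^ 2 =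
      ∫ τ in s..t, (Λ₀ (ph y τ) + ε₁ * gg Γ ρ y τ ^ 2) := by
    rw [intervalIntegral.integral_add (c0.intervalIntegrable _ _)
      (c3.intervalIntegrable _ _), intervalIntegral.integral_const_mul]
    rfl
  have e2 : act Λ y s t + σ' * (t - s) = ∫ τ in s..t, (Λ (ph y τ) + σ') := by
    rw [intervalIntegral.integral_add (c1.intervalIntegrable _ _)
      (continuous_const.intervalIntegrable _ _), intervalIntegral.integral_const, smul_eq_mul,
      mul_comm]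
    rfl
  rw [e1, e2]
  refine intervalIntegral.integral_mono_on hst
    ((c0.add c3).intervalIntegrable _ _)
    ((c1.add continuous_const).intervalIntegrable _ _) fun τ _ => ?_
  exact h.cmp2 (ph y τ) (h.st.el.cu.mem τ) ((h.spd τ).trans (by linarith))

end FiveL

theorem five (hB : Bas E) (hC : ConnStmt E) : FiveStmt E := by
  intro G Λ₀ Λ y Γ α β as R κ K ρ ε₁ σ' e h
  obtain ⟨T₀, -, hT⟩ := hC G
  have hR := h.bd.R0
  have hK : ∀ p : PP E, p.1 ∈ G.U1 → ‖p.2.1‖ ≤ 1 → Λ p ≤ K := fun p hp hv =>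
    (le_abs_self _).trans (h.bd.b0 p hp (by linarith))
  have hK0 : ∀ p : PP E, p.1 ∈ G.U1 → ‖p.2.1‖ ≤ 1 → Λ₀ p ≤ K + σ' := fun p hp hv => by
    have h1 := h.cmp p hp (by linarith)
    have h2 := hK p hp hv
    linarith
  have hm := h.st.el.cu.mem
  refine ⟨K * T₀ + α * T₀ + (K + σ') * T₀ + β * T₀, fun s t hst => ?_⟩
  have hst' : (s : ℝ) ≤ t := by exact_mod_cast hst
  -- the static inequality
  have h1 : act Λ y s t ≤ K * T₀ + α * ((s + T₀ - t : ℤ) : ℝ) := by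
    refine h.st.st s t (s + T₀ - t) _ ?_
    have := hT Λ K h.lag hK (y s) (hm s) (y t) (hm t) s
    have e1 : (t : ℝ) + ((s + T₀ - t : ℤ) : ℝ) = s + T₀ := by push_cast; ring
    rwa [e1]
  -- the loop for the unperturbed Lagrangian
  obtain ⟨m, hm'⟩ : ∃ m : ℕ, (m : ℤ) = t - s := ⟨(t - s).toNat, Int.toNat_of_nonneg (by omega)⟩
  have hmR : (m : ℝ) = t - s := by exact_mod_cast hm'
  have h2 : as (m + T₀) ≤ act Λ₀ y s t + (K + σ') * T₀ + β * ((m + T₀ : ℕ) : ℝ) := by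
    refine h.lb (m + T₀) (y s) s _ ?_
    have p1 := hB.el.arc h.lag0 h.st.el.cu s t hst'
    have p2 := hT Λ₀ (K + σ') h.lag0 hK0 (y t) (hm t) (y s) (hm s) t
    have := hB.pth.concat h.lag0 p1 p2
    have e1 : (s : ℝ) + ((m + T₀ : ℕ) : ℝ) = t + T₀ := by push_cast; rw [hmR]; ring
    rwa [e1]
  have h3 := FiveL.cmpI hB h hst'
  have h4 := h.nn (m + T₀)
  rw [hB.dd.sum h.cont s t hst]
  have h5 : ((t : ℝ) - s) * (β - α + σ') ≤ ((t : ℝ) - s) * e :=
    mul_le_mul_of_nonneg_left h.ab (by linarith)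
  push_cast at h1 h2 ⊢
  rw [hmR] at h2
  nlinarith

end Pool.Agent.MP_7bf9b2_an

end

section

/-!
The fourth inequality of the locking argument: a static curve inside the tube.
-/

set_option maxSynthPendingDepth 3

namespace Pool.Agent.MP_7bf9b2_an

open scoped Topology
open Set Filter MeasureTheory Metric

variable {E : Type} [NormedAddCommGroup E] [InnerProductSpace ℝ E] [FiniteDimensional ℝ E]

namespace FourL

omit [FiniteDimensional ℝ E] in
/-- quadratic growth around a shifted strand -/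
theorem cv_shift (hB : Bas E) {G : Geo E} {Λ : PP E → ℝ} {Γ η : ℝ → E} {N : ℕ} {rc c a : ℝ}
    (hL : Lag G Λ) (h : CV Λ Γ N rc c) (j : ℤ) (h1 : Cv η a (a + N)) (h2 : η a = η (a + N))
    (h3 : ∀ τ ∈ Icc a (a + N), ‖η τ - Γ (τ + j)‖ ≤ rc)
    (h4 : ∀ᵐ τ, τ ∈ Icc a (a + N) → ‖deriv η τ - deriv Γ (τ + j)‖ ≤ rc) :
    act Λ Γ (a + j) (a + j + N) + c * ∫ τ in a..(a + N), ‖η τ - Γ (τ + j)‖ ^ 2 ≤
      act Λ η a (a + N) := by
  have hm : ∀ τ ∈ Icc (a + j) (a + j + N), τ + ((-j : ℤ) : ℝ) ∈ Icc a (a + N) := by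
    intro τ hτ
    rw [Int.cast_neg]
    exact ⟨by linarith [hτ.1], by linarith [hτ.2]⟩
  have e0 : ∀ τ : ℝ, τ + ((-j : ℤ) : ℝ) + j = τ := fun τ => by
    rw [Int.cast_neg]
    ring
  have e1 : a + j + ((-j : ℤ) : ℝ) = a := by
    rw [Int.cast_neg]
    ring
  have e2 : a + j + N + ((-j : ℤ) : ℝ) = a + N := by
    rw [Int.cast_neg]
    ring
  obtain ⟨C, hC⟩ := h1
  have key := h (a + j) (sh η (-j))
    ⟨C * 1, hC.comp (isometry_add_right ((-j : ℤ) : ℝ)).lipschitz.lipschitzOnWith hm⟩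
    (by rw [sh, sh, e1, e2, h2])
    (fun τ hτ => by
      have := h3 _ (hm τ hτ)
      rwa [e0] at this)
    (by
      filter_upwards [(measurePreserving_add_right volume
        ((-j : ℤ) : ℝ)).quasiMeasurePreserving.ae h4] with τ hτ hI
      have := hτ (hm τ hI)
      rwa [e0, ← hB.shf.dv] at this)
  rw [hB.shf.sact hL, e1, e2] at key
  have e3 : ∫ τ in (a + j)..(a + j + N), ‖sh η (-j) τ - Γ τ‖ ^ 2 =
      ∫ τ in a..(a + N), ‖η τ - Γ (τ + j)‖ ^ 2 := by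
    rw [show a + j + N = a + N + j by ring,
      ← intervalIntegral.integral_comp_add_right (fun τ => ‖sh η (-j) τ - Γ τ‖ ^ 2)]
    refine intervalIntegral.integral_congr fun τ _ => ?_
    simp only [sh, Int.cast_neg, add_neg_cancel_right]
  rwa [e3] at key

end FourL

theorem four (hB : Bas E) (hV : VlcStmt E) (hC : CutStmt E) : FourStmt E := by
  intro G Λ y Γ α R κ K ρ rc c η₀ N hL hBd hLow hst hspd hΓ hN hper hCV hc hρ hg hrc hη s j ht
  obtain ⟨θ, hθ, hmv⟩ := hB.dd.mv hg s (s + N)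
  have hN1 : (1 : ℝ) ≤ N := by exact_mod_cast hN
  have eb : ((s + N : ℤ) : ℝ) + θ = s + θ + N := by
    push_cast
    ring
  rw [eb] at hmv
  obtain ⟨a, ha⟩ : ∃ a : ℝ, a = s + θ := ⟨_, rfl⟩
  rw [← ha] at hmv
  have hsub : ∀ τ ∈ Icc a (a + N), τ ∈ Icc (s : ℝ) (s + N + 1) := fun τ hτ =>
    ⟨by linarith [hτ.1, hθ.1], by linarith [hτ.2, hθ.2]⟩
  have hab : a ≤ a + N := by linarith
  obtain ⟨a1, -, a3⟩ := ht a (hsub a (left_mem_Icc.2 hab))
  obtain ⟨b1, -, b3⟩ := ht (a + N) (hsub _ (right_mem_Icc.2 hab))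
  have hΓp : Γ (a + j + N) = Γ (a + j) := hper _
  rw [show a + N + j = a + j + N by ring, hΓp] at b1 b3
  have htri : ‖y a - y (a + N)‖ ≤ ‖y a - Γ (a + j)‖ + ‖y (a + N) - Γ (a + j)‖ := by
    rw [norm_sub_rev (y (a + N))]
    exact norm_sub_le_norm_sub_add_norm_sub _ _ _
  have hw1 : ‖y a - y (a + N)‖ ≤ 2 * η₀ := by linarith
  have hη0 : 0 ≤ η₀ := (norm_nonneg _).trans a1
  have hw2 : ‖y a - y (a + N)‖ ^ 2 ≤ 4 * (DD Γ ρ y s + DD Γ ρ y (s + N)) := by
    have h1 : ‖y a - y (a + N)‖ ≤ gg Γ ρ y a + gg Γ ρ y (a + N) := by linarith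
    have h2 := pow_le_pow_left₀ (norm_nonneg _) h1 2
    nlinarith [sq_nonneg (gg Γ ρ y a - gg Γ ρ y (a + N))]
  obtain ⟨η, e1, e2, e3, e4, e5, e6⟩ := hV hL hBd hst.el hspd a (a + N) (y a - y (a + N))
    (by linarith) (by linarith)
  have hcut := hC hL hBd hst hspd a (a + N) (-(N : ℤ)) (by push_cast; ring) (by linarith)
  have hsym : act Λ y (a + N) a = -act Λ y a (a + N) := intervalIntegral.integral_symm _ _
  rw [hsym, Int.cast_neg, Int.cast_natCast] at hcut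
  have hloop : η a = η (a + N) := by
    rw [e3 a ⟨le_rfl, by linarith⟩, e4, add_sub_cancel]
  have hcv := FourL.cv_shift hB hL hCV j e1 hloop
    (fun τ hτ => by
      have := norm_sub_le_norm_sub_add_norm_sub (η τ) (y τ) (Γ (τ + j))
      linarith [e2 τ hτ, (ht τ (hsub τ hτ)).1])
    (by
      filter_upwards [e5] with τ hτ hI
      have := norm_sub_le_norm_sub_add_norm_sub (deriv η τ) (deriv y τ) (deriv Γ (τ + j))
      linarith [hτ hI, (ht τ (hsub τ hI)).2.1])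
  have hlow : 0 ≤ act Λ Γ (a + j) (a + j + N) + α * N := by
    have := hB.el.arc hL hΓ (a + j) (a + j + N) (by linarith)
    rw [hΓp] at this
    exact hLow N _ _ _ this
  have hcont : ContinuousOn (fun τ => ‖η τ - Γ (τ + j)‖ ^ 2) (Icc a (a + N)) := by
    obtain ⟨C, hC'⟩ := e1
    exact ((hC'.continuousOn.sub (hΓ.c2.continuous.comp
      (continuous_id.add continuous_const)).continuousOn).norm).pow 2
  have hint : IntervalIntegrable (fun τ => ‖η τ - Γ (τ + j)‖ ^ 2) volume a (a + N) :=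
    hcont.intervalIntegrable_of_Icc hab
  have hs1 : a ≤ (s : ℝ) + 1 := by linarith [hθ.2]
  have hs2 : (s : ℝ) + 1 ≤ s + N := by linarith
  have hs3 : (s : ℝ) + N ≤ a + N - 1 / 2 := by linarith [hθ.1]
  have hsum : ∑ r ∈ Finset.Ioo s (s + N), DD Γ ρ y r ≤
      ∫ τ in a..(a + N), ‖η τ - Γ (τ + j)‖ ^ 2 := by
    have e : Finset.Ioo s (s + N) = Finset.Ico (s + 1) (s + N) := by
      ext r
      simp only [Finset.mem_Ioo, Finset.mem_Ico]
      omega
    rw [e, hB.dd.sum hg (s + 1) (s + N) (by omega)]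
    push_cast
    refine le_trans (intervalIntegral.integral_mono_on hs2 ((hg.pow 2).intervalIntegrable _ _)
      ((hcont.mono (Icc_subset_Icc hs1 (by linarith))).intervalIntegrable_of_Icc hs2)
      fun τ hτ => ?_) (intervalIntegral.integral_mono_interval hs1 hs2 (by linarith)
        (Eventually.of_forall fun τ => sq_nonneg _) hint)
    rw [e3 τ ⟨hs1.trans hτ.1, hτ.2.trans hs3⟩]
    exact pow_le_pow_left₀ (le_min (hB.dd.nn _ _ _) hρ.le)
      ((min_le_left _ _).trans (hB.dd.le _ _ _ j)) 2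
  have hK : 0 ≤ K := zero_le_one.trans hBd.K1
  have h1 := mul_le_mul_of_nonneg_left hsum hc
  have h2 := mul_le_mul_of_nonneg_left hw2 hK
  linarith

end Pool.Agent.MP_7bf9b2_an

end

section

/-!
Cuts of static curves and gaps between the strands of a periodic minimizer.
-/

set_option maxSynthPendingDepth 3

namespace Pool.Agent.MP_7bf9b2_an

open scoped Topology
open Set Filter MeasureTheory Metric

variable {E : Type} [NormedAddCommGroup E] [InnerProductSpace ℝ E] [FiniteDimensional ℝ E]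

namespace GapL

theorem pcongr {G : Geo E} {Λ : PP E → ℝ} {x z x' z' : E} {s t s' t' A : ℝ}
    (h : Path G Λ x s z t A) (hx : x = x') (hs : s = s') (hz : z = z') (ht : t = t') :
    Path G Λ x' s' z' t' A := by
  rw [← hx, ← hs, ← hz, ← ht]
  exact h

end GapL

theorem cut (hB : Bas E) (hV : VlStmt E) : CutStmt E := by
  intro G Λ y R κ K α hL hBd hst hsp s t k hs hw
  have h1 := (hV (σ' := 0) hL hL hBd hst.el hsp (fun p _ _ => by rw [add_zero]) t _ hw).2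
  have h2 := GapL.pcongr (hB.pth.shift k hL h1) (add_sub_cancel _ _) hs.symm rfl rfl
  have h3 := hst.st s (t + 1 / 2) k _ h2
  have h4 := hB.el.add hL hst.el.cu t s (t + 1 / 2)
  linarith

theorem gap (hB : Bas E) (hV : VlStmt E) : GapStmt E := by
  intro G Λ Γ R κ K β n as hL hBd hpm hsp hlb k t hk hkn hw
  have hk1 : (1 : ℝ) ≤ k := by exact_mod_cast hk
  have hk2 : (k : ℝ) + 1 ≤ n := by exact_mod_cast hkn
  have hcast : ((n - k : ℕ) : ℝ) = n - k := Nat.cast_sub hkn.le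
  rw [norm_sub_rev] at hw ⊢
  obtain ⟨h1, h2⟩ := hV (σ' := 0) hL hL hBd hpm.el hsp (fun p _ _ => by rw [add_zero])
    (t + k) _ hw
  have a1 := hB.el.arc hL hpm.el.cu t (t + k - 1 / 2) (by linarith)
  have a2 := hB.el.arc hL hpm.el.cu (t + k + 1 / 2) (t + n) (by linarith)
  have l1 := hlb k _ t _
    (GapL.pcongr (hB.pth.concat hL a1 h1) rfl rfl (add_sub_cancel _ _) rfl)
  have l2 := hlb (n - k) _ (t + k) _
    (GapL.pcongr (hB.pth.concat hL h2 a2) (add_sub_cancel _ _) rfl (hpm.per t)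
      (by rw [hcast]; ring))
  have e1 := hB.el.add hL hpm.el.cu t (t + k - 1 / 2) (t + k)
  have e2 := hB.el.add hL hpm.el.cu (t + k) (t + k + 1 / 2) (t + n)
  have e3 := hB.el.add hL hpm.el.cu t (t + k) (t + n)
  have e4 := hB.shf.pact hL hpm.el.cu hpm.per t 1
  rw [Nat.cast_one, one_mul, one_mul] at e4
  rw [hcast, mul_sub] at l2
  linarith

theorem gap2 (hG : GapStmt E) : Gap2Stmt E := by
  intro G Λ Γ R κ K β ρ n as hL hBd hn hpm hsp hlb hρ hρr has t i hi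
  have hn' : (0 : ℤ) < n := by exact_mod_cast hn
  have h0 := Int.emod_nonneg i hn'.ne'
  have h1 := Int.emod_lt_of_pos i hn'
  have h2 : i % n ≠ 0 := fun h => hi (Int.dvd_of_emod_eq_zero h)
  obtain ⟨k, hk⟩ := Int.eq_ofNat_of_zero_le h0
  have h3 : (i : ℝ) = k + ((i / n : ℤ) : ℝ) * n := by
    have h4 : i = k + (i / n) * n := by rw [← hk, mul_comm, Int.emod_add_mul_ediv]
    exact_mod_cast h4
  have h5 : Γ (t + i) = Γ (t + k) := by
    rw [h3, ← add_assoc]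
    exact hpm.per.int_mul (i / n) _
  rw [h5]
  by_contra hlt
  have hlt' := not_le.mp hlt
  have h6 := hG hL hBd hpm hsp hlb k t (by omega) (by omega) (by linarith)
  have h7 := has k (by omega) (by omega)
  have h8 : ‖Γ (t + k) - Γ t‖ ^ 2 < (4 * ρ) ^ 2 :=
    pow_lt_pow_left₀ hlt' (norm_nonneg _) two_ne_zero
  have h9 := mul_lt_mul_of_pos_left h8 (by linarith [hBd.K1] : 0 < 2 * K)
  linarith

end Pool.Agent.MP_7bf9b2_an

end

section

/-! Speed bounds for nearby Lagrangians. -/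

set_option maxSynthPendingDepth 3
set_option linter.unusedSectionVars false

namespace Pool.Agent.MP_7bf9b2_an

open scoped Topology
open Set Filter MeasureTheory Metric

variable {E : Type} [NormedAddCommGroup E] [InnerProductSpace ℝ E] [FiniteDimensional ℝ E]

namespace GronL

theorem pv_le (A B : PP E → ℝ) (p q : PP E) :
    ‖pv A p - pv B q‖ ≤ ‖fderiv ℝ A p - fderiv ℝ B q‖ := by
  refine ContinuousLinearMap.opNorm_le_bound _ (norm_nonneg _) fun w => ?_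
  have h := (fderiv ℝ A p - fderiv ℝ B q).le_opNorm (iV w)
  have e : ‖(iV w : PP E)‖ = ‖w‖ := by simp [Prod.norm_def]
  rw [e] at h
  exact h

theorem px_le (A B : PP E → ℝ) (p q : PP E) :
    ‖px A p - px B q‖ ≤ ‖fderiv ℝ A p - fderiv ℝ B q‖ := by
  refine ContinuousLinearMap.opNorm_le_bound _ (norm_nonneg _) fun w => ?_
  have h := (fderiv ℝ A p - fderiv ℝ B q).le_opNorm (iX w)
  have e : ‖(iX w : PP E)‖ = ‖w‖ := by simp [Prod.norm_def]
  rw [e] at h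
  exact h

variable {G : Geo E} {Λ Λ₀ : PP E → ℝ} {R κ K σ : ℝ}

theorem est (hB : Bas E) (hL : Lag G Λ₀) (hb : Bd G Λ₀ R κ K) (hc : Close G σ Λ Λ₀) (hσ : 0 ≤ σ)
    {x x₀ v v₀ : E} {t N : ℝ} (hx : x ∈ G.M₀) (hx₀ : x₀ ∈ G.M₀) (hv : ‖v‖ ≤ R + 1)
    (hv₀ : ‖v₀‖ ≤ R + 1) (hd : ‖x - x₀‖ ≤ 2 * G.r0) (h1 : ‖x - x₀‖ ≤ N)
    (h2 : ‖pv Λ (x, v, t) - pv Λ₀ (x₀, v₀, t)‖ ≤ N) :
    ‖v - v₀‖ ≤ (K + 1) / κ * (N + σ * (R + 2)) ∧
      ‖px Λ (x, v, t) - px Λ₀ (x₀, v₀, t)‖ ≤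
        (1 + K + K * ((K + 1) / κ)) * (N + σ * (R + 2)) := by
  have hκ := hb.k0
  have hK := hb.K1
  have hR := hb.R0
  have hN : 0 ≤ N := (norm_nonneg _).trans h1
  have he : 0 ≤ σ * (R + 2) := by positivity
  have c1 : ‖fderiv ℝ Λ (x, v, t) - fderiv ℝ Λ₀ (x, v, t)‖ ≤ σ * (R + 2) :=
    (hc.c1 _ (G.M_sub_U1 hx)).trans (mul_le_mul_of_nonneg_left (by simpa using by linarith) hσ)
  have a1 := hB.tay.mono hL hb x₀ v v₀ t (G.M_sub_U1 hx₀) hv hv₀
  have a2 := hB.tay.lipd hL hb (x₀, v, t) (x, v, t) hx₀ hd hv hv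
  have a3 := hB.tay.lipd hL hb (x₀, v₀, t) (x, v, t) hx₀ hd hv₀ hv
  have n2 : ‖((x, v, t) : PP E) - (x₀, v, t)‖ ≤ N := by simpa [Prod.norm_def] using h1
  have n3 : ‖((x, v, t) : PP E) - (x₀, v₀, t)‖ ≤ N + ‖v - v₀‖ := by
    have := norm_nonneg (v - v₀)
    simp only [Prod.mk_sub_mk, sub_self, norm_prod_le_iff, norm_zero]
    exact ⟨by linarith, by linarith, by linarith⟩
  have b1 := norm_sub_le_norm_sub_add_norm_sub (pv Λ₀ (x₀, v, t)) (pv Λ₀ (x, v, t))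
    (pv Λ₀ (x₀, v₀, t))
  have b2 := norm_sub_le_norm_sub_add_norm_sub (pv Λ₀ (x, v, t)) (pv Λ (x, v, t))
    (pv Λ₀ (x₀, v₀, t))
  have b3 := pv_le Λ₀ Λ₀ (x, v, t) (x₀, v, t)
  have b4 := pv_le Λ Λ₀ (x, v, t) (x, v, t)
  rw [norm_sub_rev] at b3 b4
  have b5 := mul_le_mul_of_nonneg_left n2 (zero_le_one.trans hK)
  have r1 : ‖v - v₀‖ ≤ (K + 1) / κ * (N + σ * (R + 2)) := by
    rw [div_mul_eq_mul_div, le_div_iff₀ hκ]
    nlinarith [mul_nonneg (zero_le_one.trans hK) he]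
  refine ⟨r1, (px_le _ _ _ _).trans ?_⟩
  have b6 := norm_sub_le_norm_sub_add_norm_sub (fderiv ℝ Λ (x, v, t)) (fderiv ℝ Λ₀ (x, v, t))
    (fderiv ℝ Λ₀ (x₀, v₀, t))
  have b7 := mul_le_mul_of_nonneg_left (n3.trans (add_le_add_right r1 N)) (zero_le_one.trans hK)
  nlinarith [mul_nonneg (zero_le_one.trans hK) he]

theorem gb {e C x T : ℝ} (he : 0 ≤ e) (hC : 0 < C) (hx : x ≤ T) :
    gronwallBound e C (C * e) x ≤ 2 * Real.exp (C * T) * e := by
  rw [gronwallBound_of_K_ne_0 hC.ne', mul_div_cancel_left₀ _ hC.ne']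
  have := mul_le_mul_of_nonneg_left
    (Real.exp_le_exp.2 (mul_le_mul_of_nonneg_left hx hC.le)) he
  linarith

end GronL

theorem gron (hB : Bas E) (hF : FlbStmt E) (hX : BdxStmt E) : GronStmt E := by
  intro G Λ₀ Y₀ hL hY R₀ T₀
  obtain ⟨R, hR, hs⟩ := (hF hY R₀).1 T₀
  obtain ⟨κ, K, hb⟩ := hX hL R hR
  have hκ := hb.k0
  have hK := hb.K1
  have hr := G.r0_pos
  obtain ⟨D, hD⟩ : ∃ D, D = (K + 1) / κ := ⟨_, rfl⟩
  have hD0 : 0 < D := by rw [hD]; positivity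
  obtain ⟨C, hC⟩ : ∃ C, C = 1 + K + K * D := ⟨_, rfl⟩
  have hC0 : 0 < C := by rw [hC]; positivity
  have hDC : D ≤ C := by nlinarith
  obtain ⟨M, hM⟩ : ∃ M, M = 2 * Real.exp (C * T₀) := ⟨_, rfl⟩
  have hM0 : 0 < M := by rw [hM]; positivity
  obtain ⟨e, he, e1, e2⟩ : ∃ e : ℝ, 0 < e ∧ M * e ≤ G.r0 ∧ D * (M * e + e) ≤ 1 / 2 := by
    refine ⟨min (G.r0 / M) (1 / (2 * (D * (M + 1)))), by positivity, ?_, ?_⟩
    · rw [mul_comm, ← le_div_iff₀ hM0]
      exact min_le_left _ _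
    · have := (le_div_iff₀ (by positivity)).1 (min_le_right (G.r0 / M) (1 / (2 * (D * (M + 1)))))
      linarith
  refine ⟨e / (R + 2), by positivity, R + 1, by positivity, fun Λ y s _ hc hy hv => ?_⟩
  have hσ : e / (R + 2) * (R + 2) = e := div_mul_cancel₀ _ (by positivity)
  have hp := hB.el.tm hy.cu s
  have hy₀ := hY.el _ hp
  have hi : ph (Y₀ (ph y s)) s = ph y s := hY.init _ hp
  have hs₀ : ∀ t ∈ Icc s (s + T₀), ‖deriv (Y₀ (ph y s)) t‖ ≤ R := fun t ht =>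
    hs _ hp hv t (abs_le.2 ⟨by change -T₀ ≤ t - s; linarith [ht.1, ht.2],
      by change t - s ≤ T₀; linarith [ht.2]⟩)
  generalize Y₀ (ph y s) = z at hy₀ hi hs₀
  have i1 : z s = y s := congrArg (·.1) hi
  have i2 : deriv z s = deriv y s := congrArg (·.2.1) hi
  have dy : ∀ t, HasDerivAt y (deriv y t) t := fun t =>
    (hy.cu.c2.differentiable two_ne_zero t).hasDerivAt
  have dz : ∀ t, HasDerivAt z (deriv z t) t := fun t =>
    (hy₀.cu.c2.differentiable two_ne_zero t).hasDerivAt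
  have c1 : Continuous fun t => ‖deriv y t - deriv z t‖ :=
    ((hy.cu.c2.continuous_deriv one_le_two).sub (hy₀.cu.c2.continuous_deriv one_le_two)).norm
  have c2 : Continuous fun t => ‖y t - z t‖ := (hy.cu.c2.continuous.sub hy₀.cu.c2.continuous).norm
  have sp : ∀ t ∈ Icc s (s + T₀), ‖deriv y t - deriv z t‖ ≤ 1 → ‖deriv y t‖ ≤ R + 1 :=
    fun t ht h => by linarith [norm_le_norm_add_norm_sub' (deriv y t) (deriv z t), hs₀ t ht]
  have du : ∀ t, HasDerivAt (fun t => (y t - z t, mom Λ y t - mom Λ₀ z t))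
      (deriv y t - deriv z t, px Λ (ph y t) - px Λ₀ (ph z t)) t := fun t =>
    ((dy t).sub (dz t)).prodMk ((hy.el t).sub (hy₀.el t))
  have pt : ∀ t ∈ Icc s (s + T₀), ‖deriv y t - deriv z t‖ ≤ 1 → ‖y t - z t‖ ≤ 2 * G.r0 →
      ‖deriv y t - deriv z t‖ ≤ D * (‖(y t - z t, mom Λ y t - mom Λ₀ z t)‖ + e) ∧
      ‖px Λ (ph y t) - px Λ₀ (ph z t)‖ ≤ C * (‖(y t - z t, mom Λ y t - mom Λ₀ z t)‖ + e) :=
    fun t ht h1 h2 => by
      have := GronL.est hB hL hb hc (by positivity) (t := t) (hy.cu.mem t) (hy₀.cu.mem t)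
        (sp t ht h1) ((hs₀ t ht).trans (by linarith)) h2
        (norm_fst_le (y t - z t, mom Λ y t - mom Λ₀ z t))
        (norm_snd_le (y t - z t, mom Λ y t - mom Λ₀ z t))
      rwa [hσ, ← hD, ← hC] at this
  have key : Icc s (s + T₀) ⊆ {t | ‖deriv y t - deriv z t‖ ≤ 1 ∧ ‖y t - z t‖ ≤ 2 * G.r0} := by
    refine IsClosed.Icc_subset_of_forall_mem_nhdsGT_of_Icc_subset
      (((isClosed_le c1 continuous_const).inter (isClosed_le c2 continuous_const)).inter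
        isClosed_Icc) ⟨by simp [i2], by simp [i1, hr.le]⟩ fun t ht hS => ?_
    have g0 : ‖(y s - z s, mom Λ y s - mom Λ₀ z s)‖ ≤ e := by
      rw [norm_prod_le_iff]
      refine ⟨by simp [i1, he.le], (GronL.pv_le Λ Λ₀ (ph y s) (ph z s)).trans ?_⟩
      rw [hi, ← hσ]
      refine (hc.c1 _ (G.M_sub_U1 (hy.cu.mem s))).trans
        (mul_le_mul_of_nonneg_left ?_ (by positivity))
      have := sp s ⟨le_rfl, ht.1.trans ht.2.le⟩ (by simp [i2])
      change 1 + ‖deriv y s‖ ≤ R + 2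
      linarith
    have g1 := norm_le_gronwallBound_of_norm_deriv_right_le (K := C) (ε := C * e) (b := t)
      (fun r _ => (du r).continuousAt.continuousWithinAt) (fun r _ => (du r).hasDerivWithinAt) g0
      (fun r hr => by
        obtain ⟨h1, h2⟩ := hS ⟨hr.1, hr.2.le⟩
        obtain ⟨h3, h4⟩ := pt r ⟨hr.1, hr.2.le.trans ht.2.le⟩ h1 h2
        rw [norm_prod_le_iff, ← mul_add]
        exact ⟨h3.trans (mul_le_mul_of_nonneg_right hDC (by positivity)), h4⟩)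
      t ⟨ht.1, le_rfl⟩
    have g2 := g1.trans (GronL.gb he.le hC0 (T := T₀) (by linarith [ht.2]))
    rw [← hM] at g2
    obtain ⟨h1, h2⟩ := hS ⟨ht.1, le_rfl⟩
    have g3 : ‖deriv y t - deriv z t‖ < 1 := by
      have := (pt t ⟨ht.1, ht.2.le⟩ h1 h2).1.trans
        (mul_le_mul_of_nonneg_left (add_le_add_left g2 e) hD0.le)
      linarith
    have g4 : ‖y t - z t‖ < 2 * G.r0 := by
      have := (norm_fst_le (y t - z t, mom Λ y t - mom Λ₀ z t)).trans g2
      linarith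
    refine mem_nhdsWithin_of_mem_nhds ?_
    filter_upwards [(c1.tendsto t).eventually_lt_const g3, (c2.tendsto t).eventually_lt_const g4]
      with r a b using ⟨a.le, b.le⟩
  exact fun t ht => sp t ht (key ht).1

end Pool.Agent.MP_7bf9b2_an

end

section

/-!
A limit of near minimizers agrees with a short extremal that has the same end points.
-/

set_option maxSynthPendingDepth 3

namespace Pool.Agent.MP_7bf9b2_an

open scoped Topology
open Set Filter MeasureTheory Metric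

variable {E : Type} [NormedAddCommGroup E] [InnerProductSpace ℝ E] [FiniteDimensional ℝ E]

namespace Lim2L

theorem num {κ K m τ : ℝ} (hκ : 0 < κ) (hK : 0 < K) (hτ : τ ≤ 1 / (2 * (2 * K / κ + 1 / 2))) :
    (κ * (2 * K * m / κ) ^ 2 / 2 + K * m ^ 2 / 2) * τ ≤ K * m ^ 2 / 2 := by
  refine (mul_le_mul_of_nonneg_left hτ (by positivity)).trans_eq ?_
  field_simp

theorem fin {K m s u v : ℝ} (hK : 0 < K) (hm : 0 < m) (hm1 : m ≤ 1 / 4) (hs0 : 0 ≤ s)
    (hs : s ≤ m ^ 2 / 32) (hu : m - s ≤ u) (hv : v ≤ s)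
    (h : K * (3 / 2 * m) * (u - v) - K * (3 / 2 * m) ^ 2 / 2 ≤
      K * m ^ 2 / 16 + K * m ^ 2 / 16 + 2 * (K * s)) : False := by
  have h1 : K * (3 / 2 * m) * (m - 2 * s) ≤ K * (3 / 2 * m) * (u - v) :=
    mul_le_mul_of_nonneg_left (by linarith) (by positivity)
  have h2 := mul_le_mul_of_nonneg_left hs hK.le
  have h3 : K * s * m ≤ K * s * (1 / 4) := mul_le_mul_of_nonneg_left hm1 (by positivity)
  have h4 : 0 < K * m ^ 2 := by positivity
  nlinarith

end Lim2L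

theorem lim2 (hB : Bas E) (hX : BdxStmt E) (hW : WeiStmt E) (hM : ModStmt E) : Lim2Stmt E := by
  intro G Λ hΛ R hR
  obtain ⟨κ, K, hb⟩ := hX hΛ R hR
  have hκ := hb.k0
  have hK : 0 < K := one_pos.trans_le hb.K1
  have r0 := G.r0_pos
  refine ⟨min G.r0 (κ / (4 * K)), by positivity, min 1 (1 / (2 * (2 * K / κ + 1 / 2))),
    by positivity, fun γ ε B l g y a b hN hC hg hy hab hτ ha hb' hR' hm₀ => ?_⟩
  have cy : Continuous y := hy.cu.c2.continuous
  obtain ⟨t, ht, hmax⟩ := isCompact_Icc.exists_isMaxOn (nonempty_Icc.2 hab.le)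
    (hg.sub cy).norm.continuousOn
  obtain ⟨m, hm⟩ : ∃ m, m = ‖g t - y t‖ := ⟨_, rfl⟩
  have hle : ∀ τ ∈ Icc a b, ‖g τ - y τ‖ ≤ m := fun τ h => hm ▸ hmax h
  by_contra hne
  have m0 : 0 < m := by
    refine not_le.1 fun h => hne fun τ hτ => sub_eq_zero.1 (norm_le_zero_iff.1 ?_)
    exact (hle τ hτ).trans h
  have m1 : m ≤ G.r0 := hm ▸ (hm₀ t ht).trans (min_le_left _ _)
  have m2 : m ≤ κ / (4 * K) := hm ▸ (hm₀ t ht).trans (min_le_right _ _)
  have m3 : m ≤ 1 / 4 := m1.trans G.r0_le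
  rw [le_div_iff₀ (by positivity)] at m2
  obtain ⟨δ', hδ', hP⟩ := hM hΛ hab (hB.cur.c1 a b (hy.cu.c2.of_le (by norm_num)))
    (fun τ _ => hy.cu.mem τ) (K * m ^ 2 / 16) (by positivity)
  obtain ⟨s, s0, s1, s2⟩ : ∃ s : ℝ, 0 < s ∧ s ≤ δ' ∧ s ≤ m ^ 2 / 32 :=
    ⟨min δ' (m ^ 2 / 32), by positivity, min_le_left _ _, min_le_right _ _⟩
  have := hC.ne
  obtain ⟨j, j1, j2⟩ := ((hC.cv a b s s0).and ((hN.eps.mono_left hC.le).eventually
    (ge_mem_nhds (show 0 < K * m ^ 2 / 16 by positivity)))).exists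
  obtain ⟨C, hL⟩ := hN.lip j
  have ia : a ∈ Icc a b := left_mem_Icc.2 hab.le
  have ib : b ∈ Icc a b := right_mem_Icc.2 hab.le
  have ea : ‖γ j a - y a‖ ≤ s := ha ▸ j1 a ia
  have eb : ‖γ j b - y b‖ ≤ s := hb' ▸ j1 b ib
  have h1 := hP _ _ (ea.trans s1) (eb.trans s1)
  rw [add_sub_cancel, add_sub_cancel] at h1
  have h2 := hN.near j a b _ (hτ.trans (add_le_add_right (min_le_left _ _) a)) h1
  have h3 := hW (η := γ j) (m := 3 / 2 * m) (θ := 2 * K * (3 / 2 * m) / κ) hΛ hb hy hab.le hR'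
    ⟨C, hL.lipschitzOnWith⟩ (fun τ h => by
      have := norm_sub_le_norm_sub_add_norm_sub (γ j τ) (g τ) (y τ)
      nlinarith [j1 τ h, hle τ h]) (by linarith) (by positivity)
    ((div_le_one hκ).2 (by nlinarith)) (by rw [mul_div_cancel₀ _ hκ.ne']; nlinarith) t ht
  have h4 := Lim2L.num (m := 3 / 2 * m) (τ := b - a) hκ hK
    (by linarith [min_le_right 1 (1 / (2 * (2 * K / κ + 1 / 2)))])
  have h5 : ∀ τ ∈ Icc a b, ∀ w : E, ‖w‖ ≤ s → |mom Λ y τ w| ≤ K * s := fun τ h w hw =>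
    ((mom Λ y τ).le_opNorm w).trans (mul_le_mul (hB.el.mb hb (G.M_sub_U1 (hy.cu.mem τ))
      ((hR' τ h).trans (by linarith))) hw (norm_nonneg _) hK.le)
  have h6 := abs_le.1 (h5 a ia _ ea)
  have h7 := abs_le.1 (h5 b ib _ eb)
  rw [mul_div_cancel₀ _ hκ.ne',
    show 2 * K * (3 / 2 * m) - K * (3 / 2 * m) = K * (3 / 2 * m) by ring] at h3
  refine Lim2L.fin hK m0 m3 s0.le s2 (u := ‖γ j t - y t‖) ?_ ea (by linarith [h6.2, h7.1])
  have h8 := norm_sub_le_norm_sub_add_norm_sub (g t) (γ j t) (y t)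
  rw [norm_sub_rev (g t) (γ j t)] at h8
  linarith [j1 t ht]

end Pool.Agent.MP_7bf9b2_an

end

section

/-!
A limit of near minimizers is an orbit.
-/

namespace Pool.Agent.MP_7bf9b2_an

open scoped Topology
open Set Filter MeasureTheory Metric

set_option linter.unusedSectionVars false
set_option maxSynthPendingDepth 3

variable {E : Type} [NormedAddCommGroup E] [InnerProductSpace ℝ E] [FiniteDimensional ℝ E]

namespace Lim3L

theorem right {s : Set ℝ} (hs : IsClosed s) (h : ∀ a c, a < c → Icc a c ⊆ s → s ∈ 𝓝 c) {a b : ℝ}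
    (hab : a < b) (h0 : Icc a b ⊆ s) {t : ℝ} (ht : b ≤ t) : t ∈ s := by
  refine (hs.inter isClosed_Icc).Icc_subset_of_forall_mem_nhdsGT_of_Icc_subset (a := b) (b := t)
    (h0 ⟨hab.le, le_rfl⟩) (fun c hc h1 => nhdsWithin_le_nhds (h a c (hab.trans_le hc.1) ?_))
    ⟨ht, le_rfl⟩
  intro x hx
  rcases le_total x b with h2 | h2
  · exact h0 ⟨hx.1, h2⟩
  · exact h1 ⟨h2, hx.2⟩

theorem all {s : Set ℝ} (hs : IsClosed s) (h : ∀ a c, a < c → Icc a c ⊆ s → s ∈ 𝓝 c)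
    (h' : ∀ c b, c < b → Icc c b ⊆ s → s ∈ 𝓝 c) {a b : ℝ} (hab : a < b) (h0 : Icc a b ⊆ s)
    (t : ℝ) : t ∈ s := by
  rcases le_total b t with h1 | h1
  · exact right hs h hab h0 h1
  rcases le_total a t with h2 | h2
  · exact h0 ⟨h2, h1⟩
  have h3 := right (s := Neg.neg ⁻¹' s) (hs.preimage continuous_neg) (fun u c huc h4 =>
    continuous_neg.continuousAt.preimage_mem_nhds (h' (-c) (-u) (neg_lt_neg huc) fun x hx => by
      have h5 := h4 (show -x ∈ Icc u c from ⟨by linarith [hx.2], by linarith [hx.1]⟩)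
      rwa [mem_preimage, neg_neg] at h5)) (neg_lt_neg hab)
    (fun x hx => h0 ⟨by linarith [hx.2], by linarith [hx.1]⟩) (neg_le_neg h2)
  rwa [mem_preimage, neg_neg] at h3

theorem orb_eq (hB : Bas E) {G : Geo E} {Λ : PP E → ℝ} {Y : PP E → ℝ → E} (hF : Fl G Λ Y)
    {y z : ℝ → E} (hy : Orb G Y y) (hz : Orb G Y z) {u v : ℝ} (huv : u < v)
    (h : EqOn y z (Icc u v)) : y = z := by
  have h1 : y =ᶠ[𝓝 ((u + v) / 2)] z :=
    h.eventuallyEq_of_mem (Icc_mem_nhds (by linarith) (by linarith))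
  rw [← (hB.el.orb hF hy).2 ((u + v) / 2), ← (hB.el.orb hF hz).2 ((u + v) / 2), ph, ph,
    h1.eq_of_nhds, h1.deriv_eq]

theorem small {g : ℝ → E} (hg : Continuous g) (c : ℝ) {τ e : ℝ} (hτ : 0 < τ) (he : 0 < e) :
    ∃ d, 0 < d ∧ d ≤ τ ∧ ‖g (c + d) - g c‖ ≤ e ∧ ‖g c - g (c - d)‖ ≤ e := by
  obtain ⟨δ, hδ, h⟩ := Metric.continuous_iff.1 hg c e he
  have h1 : 0 < min τ (δ / 2) := lt_min hτ (half_pos hδ)
  have h2 : min τ (δ / 2) < δ := (min_le_right _ _).trans_lt (half_lt_self hδ)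
  refine ⟨_, h1, min_le_left _ _, ?_, ?_⟩
  · rw [← dist_eq_norm]
    exact (h _ (by rwa [Real.dist_eq, add_sub_cancel_left, abs_of_pos h1])).le
  · rw [← dist_eq_norm, dist_comm]
    exact (h _ (by rwa [Real.dist_eq, sub_sub_cancel_left, abs_neg, abs_of_pos h1])).le

theorem lip (hB : Bas E) {G : Geo E} {y : ℝ → E} (hy : Cu G y) (c : ℝ) : ∃ C : ℝ, 0 ≤ C ∧
    ∀ d, 0 ≤ d → d ≤ 1 → ‖y (c + d) - y c‖ ≤ C * d ∧ ‖y c - y (c - d)‖ ≤ C * d := by
  obtain ⟨C, hC⟩ := hB.cur.c1 (c - 1) (c + 1) (hy.c2.of_le one_le_two)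
  refine ⟨C, C.2, fun d h0 h1 => ⟨?_, ?_⟩⟩
  · have h := hC.dist_le_mul (c + d) ⟨by linarith, by linarith⟩ c ⟨by linarith, by linarith⟩
    rwa [dist_eq_norm, Real.dist_eq, add_sub_cancel_left, abs_of_nonneg h0] at h
  · have h := hC.dist_le_mul c ⟨by linarith, by linarith⟩ (c - d) ⟨by linarith, by linarith⟩
    rwa [dist_eq_norm, Real.dist_eq, sub_sub_cancel, abs_of_nonneg h0] at h

end Lim3L

theorem lim3 (hB : Bas E) : Lim3Stmt E := by
  intro G Λ Y g hF hg h ⟨R₀, hR⟩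
  obtain ⟨τ, hτ, h0⟩ := h R₀
  obtain ⟨k, hk⟩ := exists_nat_one_div_lt hτ
  obtain ⟨a, ha⟩ := hR (k + 1) k.succ_pos
  rw [Nat.cast_succ] at ha
  have hk0 : (0 : ℝ) < 1 / (k + 1) := Nat.one_div_pos_of_nat
  obtain ⟨y, hy, he⟩ := h0 a _ hk0 hk.le ha
  have hc := (hB.el.orb hF hy).1.cu
  have h1 : g = y := funext fun t => Lim3L.all (isClosed_eq hg hc.c2.continuous)
    (fun u c huc hu => ?_) (fun c u hcu hu => ?_) (lt_add_of_pos_right a hk0) he t
  · rwa [h1]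
  · obtain ⟨C, hC, hl⟩ := Lim3L.lip hB hc c
    obtain ⟨τ₀, hτ₀, h2⟩ := h (C + 1)
    obtain ⟨e, e0, e1, e2, e3⟩ : ∃ e, 0 < e ∧ e ≤ τ₀ / 2 ∧ e ≤ c - u ∧ e ≤ 1 :=
      ⟨min (τ₀ / 2) (min (c - u) 1), lt_min (half_pos hτ₀) (lt_min (sub_pos.2 huc) one_pos),
        min_le_left _ _, (min_le_right _ _).trans (min_le_left _ _),
        (min_le_right _ _).trans (min_le_right _ _)⟩
    obtain ⟨d, d0, d1, d2, -⟩ := Lim3L.small hg c (half_pos hτ₀) e0
    have k1 : g c = y c := hu ⟨huc.le, le_rfl⟩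
    have k2 : g (c - e) = y (c - e) := hu ⟨by linarith, by linarith⟩
    obtain ⟨z, hz, hz2⟩ := h2 (c - e) (e + d) (by linarith) (by linarith) (by
      have k3 := (hl e e0.le e3).2
      have k4 := norm_sub_le_norm_sub_add_norm_sub (g (c + d)) (g c) (g (c - e))
      rw [← k1, ← k2] at k3
      rw [show c - e + (e + d) = c + d by ring]
      nlinarith)
    have k5 : y = z := Lim3L.orb_eq hB hF hy hz (u := c - e) (v := c) (by linarith) fun x hx =>
      (show g x = y x from hu ⟨by linarith [hx.1], hx.2⟩).symm.trans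
        (hz2 ⟨hx.1, by linarith [hx.2]⟩)
    rw [k5]
    exact mem_of_superset (Icc_mem_nhds (by linarith) (by linarith)) hz2
  · obtain ⟨C, hC, hl⟩ := Lim3L.lip hB hc c
    obtain ⟨τ₀, hτ₀, h2⟩ := h (C + 1)
    obtain ⟨e, e0, e1, e2, e3⟩ : ∃ e, 0 < e ∧ e ≤ τ₀ / 2 ∧ e ≤ u - c ∧ e ≤ 1 :=
      ⟨min (τ₀ / 2) (min (u - c) 1), lt_min (half_pos hτ₀) (lt_min (sub_pos.2 hcu) one_pos),
        min_le_left _ _, (min_le_right _ _).trans (min_le_left _ _),
        (min_le_right _ _).trans (min_le_right _ _)⟩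
    obtain ⟨d, d0, d1, -, d2⟩ := Lim3L.small hg c (half_pos hτ₀) e0
    have k1 : g c = y c := hu ⟨le_rfl, hcu.le⟩
    have k2 : g (c + e) = y (c + e) := hu ⟨by linarith, by linarith⟩
    obtain ⟨z, hz, hz2⟩ := h2 (c - d) (e + d) (by linarith) (by linarith) (by
      have k3 := (hl e e0.le e3).1
      have k4 := norm_sub_le_norm_sub_add_norm_sub (g (c + e)) (g c) (g (c - d))
      rw [← k1, ← k2] at k3
      rw [show c - d + (e + d) = c + e by ring]
      nlinarith)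
    have k5 : y = z := Lim3L.orb_eq hB hF hy hz (u := c) (v := c + e) (by linarith) fun x hx =>
      (show g x = y x from hu ⟨hx.1, by linarith [hx.2]⟩).symm.trans
        (hz2 ⟨by linarith [hx.1], by linarith [hx.2]⟩)
    rw [k5]
    exact mem_of_superset (Icc_mem_nhds (by linarith) (by linarith)) hz2

theorem lim (hB : Bas E) (h1 : Lim1Stmt E) (h2 : Lim2Stmt E) (h3 : Lim3Stmt E)
    (hS : ShootStmt E) : LimStmt E := by
  intro G Λ Y γ ε B hL hF hN
  obtain ⟨l, g, hc, hu, hM, hR⟩ := h1 hL hN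
  refine ⟨l, g, hc, h3 hF hu.continuous (fun R' => ?_) hR⟩
  obtain ⟨R, τ₀, hR0, hτ₀, hs⟩ := hS hF R'
  obtain ⟨m, hm, τ₁, hτ₁, h4⟩ := h2 hL R hR0
  obtain ⟨δ, hδ, h5⟩ := Metric.uniformContinuous_iff_le.1 hu (m / 2) (half_pos hm)
  refine ⟨min (min τ₀ τ₁) (min δ (m / 2 / (R + 1))),
    lt_min (lt_min hτ₀ hτ₁) (lt_min hδ (by positivity)), fun a τ t0 t1 ha => ?_⟩
  simp only [le_min_iff] at t1
  obtain ⟨⟨t1, t2⟩, t3, t4⟩ := t1
  obtain ⟨y, hy, y1, y2, y3⟩ := hs a τ _ _ t0 t1 (hM a) (hM (a + τ)) ha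
  have he := (hB.el.orb hF hy).1
  refine ⟨y, hy, h4 γ ε B l g y a (a + τ) hN hc hu.continuous he (by linarith) (by linarith) y1 y2
    y3 fun s hs' => ?_⟩
  have k0 : |s - a| ≤ τ := abs_le.2 ⟨by linarith [hs'.1], by linarith [hs'.2]⟩
  have k1 := h5 (a := s) (b := a) (k0.trans t3)
  have k2 := (convex_Icc a (a + τ)).norm_image_sub_le_of_norm_deriv_le
    (fun x _ => he.cu.c2.differentiable two_ne_zero x) y3 (left_mem_Icc.2 (by linarith)) hs'
  have k3 := norm_sub_le_norm_sub_add_norm_sub (g s) (g a) (y s)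
  rw [le_div_iff₀ (by positivity)] at t4
  rw [dist_eq_norm] at k1
  rw [y1, norm_sub_rev, Real.norm_eq_abs] at k2
  nlinarith [mul_le_mul_of_nonneg_left k0 hR0]

end Pool.Agent.MP_7bf9b2_an

end

section

/-! Locking in the case of zero excess. -/

namespace Pool.Agent.MP_7bf9b2_an

open scoped Topology
open Set Filter MeasureTheory Metric

set_option linter.unusedSectionVars false
set_option maxSynthPendingDepth 3

variable {E : Type} [NormedAddCommGroup E] [InnerProductSpace ℝ E] [FiniteDimensional ℝ E]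

namespace Lk0L

theorem width (K r : ℝ) (hr : 0 < r) (as : ℕ → ℝ) (n : ℕ) (h : ∀ k, 0 < k → k < n → 0 < as k) :
    ∃ ρ : ℝ, 0 < ρ ∧ 2 * ρ ≤ r ∧ ∀ k, 0 < k → k < n → 32 * K * ρ ^ 2 ≤ as k := by
  have e1 : ∀ᶠ ρ : ℝ in 𝓝 0, 2 * ρ < r :=
    ContinuousAt.eventually_lt (f := fun ρ : ℝ => 2 * ρ) (by fun_prop) continuousAt_const
      (by simpa using hr)
  have e2 : ∀ᶠ ρ : ℝ in 𝓝 0, ∀ k ∈ Finset.Ioo 0 n, 32 * K * ρ ^ 2 < as k := by
    refine (Filter.eventually_all_finset _).2 fun k hk => ?_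
    rw [Finset.mem_Ioo] at hk
    exact ContinuousAt.eventually_lt (f := fun ρ : ℝ => 32 * K * ρ ^ 2) (by fun_prop)
      continuousAt_const (by simpa using h k hk.1 hk.2)
  have e3 : ∀ᶠ ρ : ℝ in 𝓝[>] 0, 0 < ρ := self_mem_nhdsWithin
  obtain ⟨ρ, h1, h2, h3⟩ := (e3.and ((e1.and e2).filter_mono nhdsWithin_le_nhds)).exists
  exact ⟨ρ, h1, h2.le, fun k hk hk' => (h3 k (Finset.mem_Ioo.2 ⟨hk, hk'⟩)).le⟩

theorem mult (K c : ℝ) (hK : 0 < K) (hc : 0 < c) (n : ℕ) (hn : 0 < n) :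
    ∃ N : ℕ, 0 < N ∧ n ∣ N ∧ 32 * K ≤ c * ((N : ℝ) - 1) := by
  obtain ⟨j, hj⟩ := exists_nat_ge (32 * K / c + 1)
  have h0 : 0 < 32 * K / c := by positivity
  have h1 : (0 : ℝ) < j := by linarith
  have h2 : (1 : ℝ) ≤ n := by exact_mod_cast hn
  refine ⟨n * j, Nat.mul_pos hn (by exact_mod_cast h1), dvd_mul_right _ _, ?_⟩
  have h3 : 32 * K / c ≤ ((n * j : ℕ) : ℝ) - 1 := by
    push_cast
    nlinarith
  rwa [div_le_iff₀' hc] at h3

end Lk0L

theorem lk0 (hB : Bas E) (hc : Cb0Stmt) (hp : PrepStmt E) (h1 : OneStmt E) (h5 : FiveStmt E)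
    (he : EndStmt E) : Lk0Stmt E := by
  intro G Λ₀ σ₀ R κ K A β ε as hB0 hε hex
  classical
  obtain ⟨hn, hn0⟩ := Nat.find_spec hex
  have hmin := fun k => Nat.find_min hex (m := k)
  set n := Nat.find hex
  have hK : 0 < K :=
    one_pos.trans_le (hB0.uni Λ₀ hB0.lag (Close.refl hB0.s0.le)).bd.K1
  obtain ⟨ρ, hρ, hρr, hρa⟩ := Lk0L.width K G.r0 G.r0_pos as n fun k hk hk' =>
    (hB0.nn k).lt_of_ne' fun e => hmin k hk' ⟨hk, e⟩
  have hc0 : 0 < min (1 / 2) ε / 4 := by positivity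
  obtain ⟨N, hN, hnN, hKN⟩ := Lk0L.mult K _ hK hc0 n hn
  refine ⟨n, N, ρ, hn, hN, hnN, Or.inr hn0, hρ, hρr, fun k hk hk' => ?_, fun Γ₀ φ hCh => ?_⟩
  · linarith [hρa k hk hk', hB0.nn (n - k)]
  obtain ⟨μ, hμ, h⟩ := hp hB0 hCh
  obtain ⟨τ, hτ, hcb⟩ := hc K (ε / 2) _ μ n N hK (half_pos hε) hc0 hμ hn hKN
  obtain ⟨σ, hσ, hG⟩ := h τ hτ
  refine ⟨σ, hσ, fun Λ Y hL hF hC => ?_⟩
  obtain ⟨α, Γ, hlow, horb, hpm, -, hgap, -, hst, hy⟩ := hG Λ Y hL hF hC
  refine he hL hn hρ hlow horb hpm hgap hst fun y hy' => ?_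
  obtain ⟨⟨σ', hctx⟩, h4, hOn⟩ := hy y hy'
  refine ⟨hctx.cont, ?_⟩
  obtain ⟨C, hC5⟩ := h5 hctx
  refine hcb (ρ ^ 2) (as n / n + τ) C (DD Γ ρ y) (by rw [hn0, zero_div, zero_add])
    (hB.dd.DDb hρ.le hctx.cont) (fun s t₀ hs hDs hDt => ?_) h4 hC5
  obtain ⟨j₁, hj₁⟩ := hOn s s le_rfl fun r hr => by
    rw [Finset.Icc_self, Finset.mem_singleton] at hr
    rwa [hr]
  have hnz : (0 : ℤ) < n := by exact_mod_cast hn
  obtain ⟨j₂, hj₂⟩ := hOn t₀ (t₀ + n) (by omega) hDt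
  have a1 := Int.emod_nonneg (s + j₁ - (t₀ + j₂)) hnz.ne'
  have a2 := Int.emod_lt_of_pos (s + j₁ - (t₀ + j₂)) hnz
  have a3 : (n : ℤ) ∣ t₀ + (s + j₁ - (t₀ + j₂)) % n + j₂ - (s + j₁) :=
    ⟨-((s + j₁ - (t₀ + j₂)) / n), by rw [Int.emod_def]; ring⟩
  refine ⟨t₀ + (s + j₁ - (t₀ + j₂)) % n, Finset.mem_Ico.2 ⟨by omega, by omega⟩, ?_⟩
  have b1 := hj₁ s (Finset.mem_Icc.2 ⟨le_rfl, le_rfl⟩)
  have b2 := hB.dd.onp hpm.per a3 (hj₂ _ (Finset.mem_Icc.2 ⟨by omega, by omega⟩))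
  have b3 := h1 hctx s _ _ (by omega) b1 b2
  linarith [hB0.nn (t₀ + (s + j₁ - (t₀ + j₂)) % n - s).toNat]

end Pool.Agent.MP_7bf9b2_an

end

section

namespace Pool.Agent.MP_7bf9b2_an

open scoped Topology
open Set Filter MeasureTheory Metric

set_option maxSynthPendingDepth 3

namespace Ms1L

variable {X : Type} [TopologicalSpace X] [MeasurableSpace X] [BorelSpace X] {Φ : Flow ℝ X}
  {μ : Measure X}

lemma mp (h : IsInv Φ μ) (t : ℝ) : MeasurePreserving (Φ t) μ μ :=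
  ⟨(Φ.continuous continuous_const continuous_id).measurable, h.2.2 t⟩

lemma int_comp (h : IsInv Φ μ) (t : ℝ) {f : X → ℝ} (hf : Measurable f) :
    ∫ z, f (Φ t z) ∂μ = ∫ z, f z ∂μ := by
  rw [← integral_map (mp h t).measurable.aemeasurable hf.aestronglyMeasurable, (mp h t).map_eq]

omit [BorelSpace X] in
lemma intg (h : IsInv Φ μ) {f : X → ℝ} (hf : Measurable f)
    (hb : ∀ K : Set X, IsCompact K → ∃ C, ∀ z ∈ K, |f z| ≤ C) : Integrable f μ := by
  have := h.1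
  obtain ⟨K, hK, h0⟩ := h.2.1
  obtain ⟨C, hC⟩ := hb K hK
  exact Integrable.of_bound hf.aestronglyMeasurable C (measure_mono_null
    (fun z hz k => hz (hC z k)) h0)

lemma intg2 (h : IsInv Φ μ) {f : X → ℝ} (hf : Continuous f) :
    Integrable (Function.uncurry fun (s : ℝ) (z : X) => f (Φ s z))
      ((volume.restrict (Ioc (0 : ℝ) 1)).prod μ) := by
  have := h.1
  obtain ⟨K, hK, h0⟩ := h.2.1
  have hc : Continuous (Function.uncurry fun (s : ℝ) (z : X) => f (Φ s z)) :=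
    hf.comp (Φ.continuous continuous_fst continuous_snd)
  obtain ⟨C, hC⟩ := ((isCompact_Icc (a := (0 : ℝ)) (b := 1)).prod hK).exists_bound_of_continuousOn
    hc.continuousOn
  refine Integrable.of_bound hc.measurable.aestronglyMeasurable C ?_
  have h1 : ∀ᵐ p ∂((volume.restrict (Ioc (0 : ℝ) 1)).prod μ), p.1 ∈ Ioc (0 : ℝ) 1 :=
    Measure.quasiMeasurePreserving_fst.ae (ae_restrict_mem measurableSet_Ioc)
  have h2 : ∀ᵐ p ∂((volume.restrict (Ioc (0 : ℝ) 1)).prod μ), p.2 ∈ K :=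
    Measure.quasiMeasurePreserving_snd.ae (p := fun z => z ∈ K) h0
  filter_upwards [h1, h2] with p k1 k2 using hC p ⟨Ioc_subset_Icc_self k1, k2⟩

end Ms1L

open Ms1L in
theorem ms1 : Ms1Stmt := by
  intro X _ _ _ Φ ℓ u α hl hu hb h0 μ h
  have := h.1
  have h2 := intg2 h hl
  have h3 : Integrable (fun z => ∫ s in (0 : ℝ)..1, ℓ (Φ s z)) μ := by
    simp only [intervalIntegral.integral_of_le zero_le_one]
    exact h2.integral_prod_right
  have h4 : ∫ z, (∫ s in (0 : ℝ)..1, ℓ (Φ s z)) ∂μ = ∫ z, ℓ z ∂μ := by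
    simp only [intervalIntegral.integral_of_le zero_le_one]
    rw [← integral_integral_swap h2]
    simp [int_comp h _ hl.measurable]
  have h5 := intg h hu hb
  have h6 : Integrable (fun z => u (Φ 1 z)) μ := (mp h 1).integrable_comp_of_integrable h5
  have h7 : Integrable (fun z => (∫ s in (0 : ℝ)..1, ℓ (Φ s z)) + α) μ :=
    h3.add (integrable_const α)
  have h8 : Integrable (fun z => (∫ s in (0 : ℝ)..1, ℓ (Φ s z)) + α - u (Φ 1 z)) μ := h7.sub h6
  have h9 : ∫ z, ((∫ s in (0 : ℝ)..1, ℓ (Φ s z)) + α - u (Φ 1 z) + u z) ∂μ = ∫ z, ℓ z ∂μ + α := by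
    rw [integral_add h8 h5, integral_sub h7 h6, integral_add h3 (integrable_const α), h4,
      int_comp h 1 hu]
    simp
  refine ⟨?_, fun e => ?_⟩
  · have := (integral_nonneg h0).trans_eq h9
    linarith
  · rw [e, neg_add_cancel, integral_eq_zero_iff_of_nonneg h0 (h8.add h5)] at h9
    exact ae_all_iff.2 fun k => (mp h k).quasiMeasurePreserving.ae h9

end Pool.Agent.MP_7bf9b2_an

end

section

/-!
The invariant probability measure of a periodic orbit.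
-/

set_option maxSynthPendingDepth 3

namespace Pool.Agent.MP_7bf9b2_an

open scoped Topology
open Set Filter MeasureTheory Metric

namespace Ms2L

/-- the time spent in a set during one period does not depend on the starting point -/
lemma shift {X : Type} [MeasurableSpace X] {c : ℝ → X} {T : ℝ} (hT : 0 < T) (hc : Measurable c)
    (hp : Function.Periodic c T) {A : Set X} (hA : MeasurableSet A) (r : ℝ) :
    volume.restrict (Ioc 0 T) ((fun s => c (s + r)) ⁻¹' A) =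
      volume.restrict (Ioc 0 T) (c ⁻¹' A) := by
  have h1 := (isAddFundamentalDomain_Ioc hT r).measure_set_eq (isAddFundamentalDomain_Ioc hT 0)
    (hc hA) fun g => by
      ext x
      simp only [mem_preimage, hp.map_vadd_zmultiples g x]
  have h2 : (fun s => c (s + r)) ⁻¹' A ∩ Ioc 0 T =
      (fun s => s + r) ⁻¹' (c ⁻¹' A ∩ Ioc r (r + T)) := by
    ext s
    simp only [mem_inter_iff, mem_preimage, mem_Ioc]
    refine and_congr_right fun _ => ⟨fun h => ⟨?_, ?_⟩, fun h => ⟨?_, ?_⟩⟩ <;> linarith [h.1, h.2]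
  rw [Measure.restrict_apply' measurableSet_Ioc, Measure.restrict_apply' measurableSet_Ioc, h2,
    measure_preimage_add_right, h1, zero_add]

end Ms2L

theorem ms2 : Ms2Stmt := by
  intro X _ _ _ _ Φ p T hT hp
  have hc : Continuous fun s : ℝ => Φ s p := Φ.continuous continuous_id continuous_const
  have hper : Function.Periodic (fun s : ℝ => Φ s p) T := fun s => by
    simp only [Φ.map_add, hp]
  have hK : IsCompact (range fun s : ℝ => Φ s p) := by
    rw [← hper.image_Icc hT 0]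
    exact isCompact_Icc.image hc
  have T0 : ENNReal.ofReal T ≠ 0 := (ENNReal.ofReal_pos.2 hT).ne'
  have T1 : ENNReal.ofReal T ≠ ⊤ := ENNReal.ofReal_ne_top
  have hv : volume.restrict (Ioc 0 T) univ = ENNReal.ofReal T := by simp
  obtain ⟨μ, hμ⟩ : ∃ μ : Measure X, μ = (ENNReal.ofReal T)⁻¹ •
    (volume.restrict (Ioc 0 T)).map fun s : ℝ => Φ s p := ⟨_, rfl⟩
  have e1 : ∀ A, MeasurableSet A → μ A =
      (ENNReal.ofReal T)⁻¹ * volume.restrict (Ioc 0 T) ((fun s : ℝ => Φ s p) ⁻¹' A) := by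
    intro A hA
    rw [hμ, Measure.smul_apply, Measure.map_apply hc.measurable hA, smul_eq_mul]
  have e2 : μ (range fun s : ℝ => Φ s p)ᶜ = 0 := by
    rw [e1 _ hK.measurableSet.compl, preimage_compl, preimage_range, compl_univ, measure_empty,
      mul_zero]
  refine ⟨μ, ⟨⟨?_⟩, ⟨_, hK, e2⟩, fun r => ?_⟩, e2, fun ℓ hℓ => ?_, fun ν hν h0 => ?_⟩
  · rw [e1 _ MeasurableSet.univ, preimage_univ, hv, ENNReal.inv_mul_cancel T0 T1]
  · ext A hA
    have hm := (Φ.continuous_toFun r).measurable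
    rw [Measure.map_apply hm hA, e1 _ (hm hA), e1 _ hA,
      ← Ms2L.shift hT hc.measurable hper hA r]
    congr 2
    ext s
    rw [mem_preimage, mem_preimage, mem_preimage, add_comm s r, Φ.map_add]
  · rw [hμ, integral_smul_measure, integral_map hc.aemeasurable hℓ.aestronglyMeasurable,
      intervalIntegral.integral_of_le hT.le, ENNReal.toReal_inv, ENNReal.toReal_ofReal hT.le,
      smul_eq_mul, div_eq_inv_mul]
  · obtain ⟨h1, -, h2⟩ := hν
    ext A hA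
    have hm : Measurable fun q : ℝ × X => Φ q.1 q.2 :=
      (Φ.continuous continuous_fst continuous_snd).measurable
    have h3 := lintegral_lintegral_swap (μ := volume.restrict (Ioc 0 T)) (ν := ν)
      (f := fun s z => A.indicator 1 (Φ s z))
      ((measurable_one.indicator hA).comp hm).aemeasurable
    have h4 : ∀ s : ℝ, ∫⁻ z, A.indicator 1 (Φ s z) ∂ν = ν A := by
      intro s
      have hm' := (Φ.continuous_toFun s).measurable
      rw [← lintegral_map (measurable_one.indicator hA) hm', h2 s, lintegral_indicator_one hA]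
    have h5 : ∀ᵐ z ∂ν, ∫⁻ s, A.indicator 1 (Φ s z) ∂volume.restrict (Ioc 0 T) =
        volume.restrict (Ioc 0 T) ((fun s : ℝ => Φ s p) ⁻¹' A) := by
      filter_upwards [(mem_ae_iff.2 h0 : (range fun s : ℝ => Φ s p) ∈ ae ν)] with z hz
      obtain ⟨r, rfl⟩ := hz
      have hm' : Measurable fun s : ℝ => Φ (s + r) p :=
        hc.measurable.comp (measurable_add_const r)
      rw [← Ms2L.shift hT hc.measurable hper hA r, ← lintegral_indicator_one (hm' hA)]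
      refine lintegral_congr fun s => ?_
      rw [← Φ.map_add]
      rfl
    simp only [h4] at h3
    rw [lintegral_congr_ae h5, lintegral_const, lintegral_const, hv, measure_univ, mul_one] at h3
    rw [e1 A hA, ← h3, mul_comm (ν A), ← mul_assoc, ENNReal.inv_mul_cancel T0 T1, one_mul]

end Pool.Agent.MP_7bf9b2_an

end

section

/-!
From locking to the unique minimizing measure.
-/

set_option maxSynthPendingDepth 3

namespace Pool.Agent.MP_7bf9b2_an

open scoped Topology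
open Set Filter MeasureTheory Metric

variable {E : Type} [NormedAddCommGroup E] [InnerProductSpace ℝ E] [FiniteDimensional ℝ E]

namespace Ms3L

theorem exists_th : ∃ θ : Ci → ℝ, Measurable θ ∧ (∀ c, θ c ∈ Icc (0 : ℝ) 1) ∧
    ∀ c, cl (θ c) = c := by
  refine ⟨fun c => (AddCircle.measurableEquivIco 1 0 c : ℝ),
    measurable_subtype_coe.comp (AddCircle.measurableEquivIco 1 0).measurable, fun c => ?_,
    fun c => (AddCircle.equivIco 1 0).symm_apply_apply c⟩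
  have := (AddCircle.measurableEquivIco 1 0 c).2
  exact ⟨this.1, by linarith [this.2]⟩

theorem cl_int (k : ℤ) : cl k = 0 := by
  unfold cl
  rw [AddCircle.coe_eq_zero_iff]
  exact ⟨k, by simp⟩

theorem cl_neg (t : ℝ) : cl t + cl (-t) = 0 := by
  unfold cl
  rw [← AddCircle.coe_add, add_neg_cancel, AddCircle.coe_zero]

variable {G : Geo E} {Λ : PP E → ℝ} {Y : PP E → ℝ → E} {X : Type} [TopologicalSpace X]
  {Φ : Flow ℝ X} {ℓ : X → ℝ} {tm : X → Ci} {pos vel : X → E}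

theorem act_eq (h : Rep G Λ Y Φ ℓ tm pos vel) {w : X} (hw : tm w = 0) (a b : ℝ) :
    act Λ (fun t => pos (Φ t w)) a b = ∫ t in a..b, ℓ (Φ t w) := by
  unfold act
  congr 1
  ext t
  rw [h.val _ t (by rw [h.time, hw, zero_add]), ph, h.dv w hw]

theorem shift (ℓ : X → ℝ) (w : X) (r c : ℝ) :
    ∫ s in (0 : ℝ)..c, ℓ (Φ s (Φ r w)) = ∫ t in r..(c + r), ℓ (Φ t w) := by
  have := intervalIntegral.integral_comp_add_right (a := 0) (b := c) (fun t => ℓ (Φ t w)) r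
  rw [zero_add] at this
  rw [← this]
  simp only [Φ.map_add]

theorem eq_of (h : Rep G Λ Y Φ ℓ tm pos vel) {w p : X} (hw : tm w = 0) (hp : tm p = 0) (j : ℤ)
    (e : ∀ t, pos (Φ t w) = pos (Φ (t + j) p)) : w = Φ j p := by
  refine h.inj _ _ (by simpa using e 0) ?_ (by rw [h.time, hw, hp, cl_int, add_zero])
  have h1 := h.dv w hw 0
  rw [funext e, deriv_comp_add_const (fun t => pos (Φ t p)), h.dv p hp] at h1
  simpa using h1.symm

end Ms3L

open Ms3L in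
theorem ms3 (hB : Bas E) (m1 : Ms1Stmt) (m2 : Ms2Stmt) (hu : UsubStmt E) (hc : CalStmt E) :
    Ms3Stmt E := by
  intro G Λ Y X _ _ _ _ Φ ℓ tm pos vel hL h ⟨α, Γ, n, hn, hlow, horb, hper, hact, hst⟩
  obtain ⟨u, husc, ⟨C, hC⟩, hsub⟩ := hu hL hlow
  obtain ⟨θ, θm, θb, θc⟩ := exists_th
  have hb : ∀ z, tm (Φ (-θ (tm z)) z) = 0 := fun z => by
    rw [h.time]
    nth_rewrite 1 [← θc (tm z)]
    exact cl_neg _
  have hz : ∀ z (r : ℝ), Φ r z = Φ (θ (tm z) + r) (Φ (-θ (tm z)) z) := fun z r => by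
    rw [← Φ.map_add]
    congr 1
    ring
  have hM : ∀ z, pos z ∈ G.M₀ := fun z => by
    have := (h.el _ (hb z)).cu.mem (θ (tm z) + 0)
    rwa [← hz, Φ.map_zero_apply] at this
  have hΦ : Continuous fun q : X × ℝ => Φ q.2 q.1 := Φ.continuous continuous_snd continuous_fst
  have hg : Continuous fun q : X × ℝ => ∫ t in (0 : ℝ)..q.2, ℓ (Φ t q.1) :=
    intervalIntegral.continuous_parametric_primitive_of_continuous (f := fun z t => ℓ (Φ t z))
      (h.cL.comp hΦ)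
  have hm : Measurable fun z => (z, -θ (tm z)) :=
    measurable_id.prodMk (θm.comp h.ctm.measurable).neg
  have hup : UpperSemicontinuous fun z => u (pos z) := fun z c hc =>
    (tendsto_nhdsWithin_iff.2 ⟨h.cpos.continuousAt, Eventually.of_forall hM⟩).eventually
      (husc (pos z) (hM z) c hc)
  set U : X → ℝ := fun z => u (pos (Φ (-θ (tm z)) z)) - ∫ t in (0 : ℝ)..(-θ (tm z)), ℓ (Φ t z)
    with hU
  have Um : Measurable U :=
    ((hup.measurable.comp hΦ.measurable).comp hm).sub (hg.measurable.comp hm)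
  have Ub : ∀ K : Set X, IsCompact K → ∃ C, ∀ z ∈ K, |U z| ≤ C := fun K hK => by
    obtain ⟨D, hD⟩ := (hK.prod (isCompact_Icc (a := (-1 : ℝ)) (b := 0))).exists_bound_of_continuousOn
      hg.continuousOn
    refine ⟨C + D, fun z hz => (abs_sub _ _).trans (add_le_add (hC _ (hM _)) ?_)⟩
    exact hD (z, -θ (tm z)) ⟨hz, by linarith [(θb (tm z)).2], by linarith [(θb (tm z)).1]⟩
  have Uk : ∀ z (k : ℤ), U (Φ k z) = u (pos (Φ k (Φ (-θ (tm z)) z))) -
      ∫ t in (θ (tm z) + k)..k, ℓ (Φ t (Φ (-θ (tm z)) z)) := fun z k => by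
    have e : tm (Φ k z) = tm z := by rw [h.time, cl_int, add_zero]
    simp only [hU, e]
    rw [← Φ.map_add, ← Φ.map_add, add_comm (k : ℝ), hz z k, shift]
    congr 2
    ring
  have W : ∀ z (k : ℤ), (∫ s in (0 : ℝ)..1, ℓ (Φ s (Φ k z))) + α - U (Φ 1 (Φ k z)) + U (Φ k z) =
      act Λ (fun t => pos (Φ t (Φ (-θ (tm z)) z))) k (k + 1) + α -
        u (pos (Φ (k + 1) (Φ (-θ (tm z)) z))) + u (pos (Φ k (Φ (-θ (tm z)) z))) := fun z k => by
    have e : Φ 1 (Φ k z) = Φ ((k + 1 : ℤ) : ℝ) z := by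
      rw [← Φ.map_add, add_comm]
      norm_cast
    have hi : ∀ a b, IntervalIntegrable (fun t => ℓ (Φ t (Φ (-θ (tm z)) z))) volume a b :=
      fun a b => (h.cL.comp (Φ.continuous continuous_id continuous_const)).intervalIntegrable a b
    rw [e, Uk, Uk, act_eq h (hb z), hz z k, shift]
    push_cast
    have a1 := intervalIntegral.integral_add_adjacent_intervals (hi (θ (tm z) + k) k)
      (hi k (k + 1))
    have a2 := intervalIntegral.integral_add_adjacent_intervals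
      (hi (θ (tm z) + k) (θ (tm z) + (k + 1))) (hi (θ (tm z) + (k + 1)) (k + 1))
    rw [show 1 + (θ (tm z) + k) = θ (tm z) + (k + 1) by ring]
    linarith
  have W0 : ∀ z, 0 ≤ (∫ s in (0 : ℝ)..1, ℓ (Φ s z)) + α - U (Φ 1 z) + U z := fun z => by
    have h1 := W z 0
    have h2 := hsub _ (hM _) _ (hM _) 0 1 _
      (hB.el.arc hL (h.el _ (hb z)).cu ((0 : ℤ) : ℝ) ((1 : ℤ) : ℝ) (by norm_num))
    simp only [Int.cast_zero, Int.cast_one, Φ.map_zero_apply, zero_add, sub_zero, mul_one] at h1 h2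
    linarith
  have M1 := m1 Φ ℓ U α h.cL Um Ub W0
  obtain ⟨p, hp, hΓ⟩ := h.orb Γ horb
  obtain rfl : Γ = fun t => pos (Φ t p) := funext hΓ
  have n0 : (0 : ℝ) < n := by exact_mod_cast hn
  have hpp : Φ n p = p := (eq_of h hp hp n fun t => (hper t).symm).symm
  obtain ⟨μ, μi, μ0, μe, μu⟩ := m2 Φ p n n0 hpp
  have hμ : ∫ z, ℓ z ∂μ = -α := by
    rw [μe ℓ h.cL, ← act_eq h hp, div_eq_iff n0.ne']
    linarith
  refine ⟨μ, ⟨μi, fun ν hν => hμ ▸ (M1 ν hν).1⟩, fun ν hν => μu ν hν.1 ?_, p, n, n0, hpp, μ0⟩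
  have h1 := (M1 ν hν.1).2 (le_antisymm (hμ ▸ hν.2 μ μi) (M1 ν hν.1).1)
  refine mem_ae_iff.1 (h1.mono fun z k => ?_)
  obtain ⟨j, hj⟩ := hst _ (hc hL hsub (h.el _ (hb z)) fun i => by linarith [W z i, k i])
  refine ⟨θ (tm z) + 0 + j, ?_⟩
  show Φ _ p = z
  rw [Φ.map_add, ← eq_of h (hb z) hp j hj, ← hz, Φ.map_zero_apply]

end Pool.Agent.MP_7bf9b2_an

end

section

/-!
Periodic minimizers of a perturbed Lagrangian are close to the centre of the channel.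
-/

set_option maxSynthPendingDepth 3

namespace Pool.Agent.MP_7bf9b2_an

open scoped Topology
open Set Filter MeasureTheory Metric

variable {E : Type} [NormedAddCommGroup E] [InnerProductSpace ℝ E] [FiniteDimensional ℝ E]

namespace NearL

variable {G : Geo E} {Λ Λ' : PP E → ℝ} {Γ Γ' : ℝ → E} {n : ℕ} {σ R : ℝ}

theorem cmp (hB : Bas E) (h : Lag G Λ) (h' : Lag G Λ') (hc : Close G σ Λ' Λ) (hσ : 0 ≤ σ)
    (hΓ : Cu G Γ) (hR : Spd R Γ) (n : ℕ) : act Λ' Γ 0 n ≤ act Λ Γ 0 n + σ * (1 + R) * n := by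
  have := hB.pth.cmp (σ' := σ * (1 + R)) h h' (Nat.cast_nonneg n)
    (hB.cur.c1 0 n (hΓ.c2.of_le (by norm_num))) (fun τ _ => G.M_sub_U1 (hΓ.mem τ))
    (Eventually.of_forall fun τ _ => hR τ) fun p hp hv => by
      have h1 := (abs_le.1 (hc.c0 p hp)).2
      have h2 := mul_le_mul_of_nonneg_left (add_le_add_right hv 1) hσ
      linarith
  rwa [sub_zero] at this

theorem mn (hB : Bas E) (h : Lag G Λ) (hΓ : PMin G Λ Γ n) (hΓ' : Cu G Γ')
    (hp : Function.Periodic Γ' (n : ℝ)) : act Λ Γ 0 n ≤ act Λ Γ' 0 n := by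
  have h1 := hB.el.arc h hΓ' 0 (0 + n) (le_add_of_nonneg_right (Nat.cast_nonneg n))
  rw [hp 0] at h1
  simpa only [zero_add] using hΓ.min _ _ _ h1

end NearL

theorem near (hB : Bas E) (hT : TubeStmt E) : NearStmt E := by
  intro G Λ₀ σ₀ β ε n N ρ a R A Γ₀ φ h0 hC hR₀ hA₀ η hη
  obtain ⟨μ, hμ, hT'⟩ := hT R A ρ η hC.rpos hη
  have R0 : 0 ≤ R := (norm_nonneg _).trans (hR₀ 0)
  have n0 : (0 : ℝ) < n := Nat.cast_pos.2 hC.npos
  have e0 := hC.epos
  refine ⟨ε * μ / (2 * (1 + R) * n), by positivity, fun Λ Γ hΛ hcl hΓ hR hA => ?_⟩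
  have s0 : 0 ≤ ε * μ / (2 * (1 + R) * n) := by positivity
  have c0 := hC.pm.el.cu
  have c1 := hΓ.el.cu
  have h1 := NearL.cmp hB hΛ hC.lag1 hcl.symm s0 c1 hR n
  have h2 := NearL.mn hB hΛ hΓ c0 hC.pm.per
  have h3 := NearL.cmp hB hC.lag1 hΛ hcl s0 c0 hR₀ n
  have h4 : act (addP G Λ₀ φ) Γ₀ 0 n = act Λ₀ Γ₀ 0 n :=
    intervalIntegral.integral_congr fun τ _ => by
      simp only [addP, ph, G.fix _ (c0.mem τ), hC.zero, add_zero]
  have h5 := NearL.mn hB h0 hC.pm c1 hΓ.per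
  have cg : Continuous (gg Γ₀ ρ Γ) := hB.dd.cont (c1.c2.differentiable (by norm_num))
    (c0.c2.differentiable (by norm_num)) hC.rpos.le hR hR₀
  have h6 : act Λ₀ Γ 0 n + ε * ∫ τ in (0 : ℝ)..n, gg Γ₀ ρ Γ τ ^ 2 ≤ act (addP G Λ₀ φ) Γ 0 n := by
    have i1 := (hB.el.cL h0 c1).intervalIntegrable (μ := volume) 0 n
    have i2 : IntervalIntegrable (fun τ => ε * gg Γ₀ ρ Γ τ ^ 2) volume 0 n :=
      ((cg.pow 2).intervalIntegrable _ _).const_mul ε
    rw [act, ← intervalIntegral.integral_const_mul, ← intervalIntegral.integral_add i1 i2]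
    refine intervalIntegral.integral_mono_on n0.le (i1.add i2)
      ((hB.el.cL hC.lag1 c1).intervalIntegrable _ _) fun τ _ => ?_
    simp only [addP, ph, G.fix _ (c1.mem τ)]
    exact add_le_add_right (hC.low _ _) _
  have h7 : ∫ τ in (0 : ℝ)..n, gg Γ₀ ρ Γ τ ^ 2 ≤ μ := by
    have e : ε * μ / (2 * (1 + R) * n) * (1 + R) * n = ε * μ / 2 := by field_simp
    rw [e] at h1 h3
    exact le_of_mul_le_mul_left (by linarith) e0
  have h8 := hB.dd.sum cg 0 n (Int.natCast_nonneg n)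
  rw [Int.cast_zero, Int.cast_natCast] at h8
  have n1 := hC.npos
  obtain ⟨j, hj⟩ := hT' Γ Γ₀ n c1.c2 c0.c2 hR hR₀ hA hA₀ n1 hC.pm.per
    (fun t i hi => le_trans (by linarith [hC.rpos]) (hC.gap t i hi)) 0 (n - 1) (by omega)
    fun r hr => (Finset.single_le_sum (fun r _ => (hB.dd.DDb hC.rpos.le cg r).1)
      (Finset.mem_Ico.2 ⟨(Finset.mem_Icc.1 hr).1, by linarith [(Finset.mem_Icc.1 hr).2]⟩)).trans
        (h8.trans_le h7)
  refine ⟨-j, fun τ => ?_⟩
  have hp : Function.Periodic (fun u : ℝ =>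
      (Γ u - Γ₀ (u + j), deriv Γ u - deriv Γ₀ (u + j))) (n : ℝ) := fun u => by
    beta_reduce
    rw [add_right_comm, hΓ.per, hC.pm.per, hB.shf.pdv hΓ.per, hB.shf.pdv hC.pm.per]
  obtain ⟨u, hu, e⟩ := hp.exists_mem_Ico₀ n0 (τ + (-j : ℤ))
  have h9 := hj u ⟨by simpa using hu.1, by simpa using hu.2.le⟩
  rw [show τ + ((-j : ℤ) : ℝ) + j = τ by simp, Prod.mk.injEq] at e
  rw [hB.shf.dv, e.2, sh, e.1]
  exact ⟨h9.1, h9.2.1⟩

end Pool.Agent.MP_7bf9b2_an

end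

section

/-! The inequality for one return to the same strand. -/

namespace Pool.Agent.MP_7bf9b2_an

open scoped Topology
open Set Filter MeasureTheory Metric

set_option maxSynthPendingDepth 3

variable {E : Type} [NormedAddCommGroup E] [InnerProductSpace ℝ E] [FiniteDimensional ℝ E]

namespace OneL

theorem arc (hB : Bas E) {G : Geo E} {Λ₀ Λ : PP E → ℝ} {y Γ : ℝ → E} {α β : ℝ} {as : ℕ → ℝ}
    {R κ K ρ ε₁ σ' e : ℝ} (h : LCtx G Λ₀ Λ y Γ α β as R κ K ρ ε₁ σ' e) {a b : ℝ} (hab : a ≤ b) :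
    act Λ₀ y a b + ε₁ * ∫ τ in a..b, gg Γ ρ y τ ^ 2 ≤ act Λ y a b + σ' * (b - a) := by
  have c0 := hB.el.cL h.lag0 h.st.el.cu
  have c1 := hB.el.cL h.lag h.st.el.cu
  have c2 : Continuous fun τ => gg Γ ρ y τ ^ 2 := h.cont.pow 2
  have c3 : Continuous fun τ => ε₁ * gg Γ ρ y τ ^ 2 := continuous_const.mul c2
  have h1 : ∫ τ in a..b, (Λ₀ (ph y τ) + ε₁ * gg Γ ρ y τ ^ 2) ≤ ∫ τ in a..b, (Λ (ph y τ) + σ') := by
    refine intervalIntegral.integral_mono_on hab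
      ((c0.add (continuous_const.mul c2)).intervalIntegrable _ _)
      ((c1.add continuous_const).intervalIntegrable _ _) fun τ _ => ?_
    exact h.cmp2 (ph y τ) (h.st.el.cu.mem τ) ((h.spd τ).trans (by linarith))
  rw [intervalIntegral.integral_add (c0.intervalIntegrable _ _)
      (c3.intervalIntegrable _ _),
    intervalIntegral.integral_add (c1.intervalIntegrable _ _)
      (continuous_const.intervalIntegrable _ _),
    intervalIntegral.integral_const_mul, intervalIntegral.integral_const, smul_eq_mul] at h1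
  unfold act
  linarith

end OneL

theorem one (hB : Bas E) (hV : VlStmt E) (hC : CutStmt E) : OneStmt E := by
  intro G Λ₀ Λ y Γ α β as R κ K ρ ε₁ σ' e h s t j hst hs ht
  obtain ⟨θ, hθ, hm⟩ := hB.dd.mv h.cont s t
  have hθ' : θ ∈ Icc (0 : ℝ) 1 := ⟨by linarith [hθ.1], hθ.2⟩
  have hst' : (s : ℝ) + 1 ≤ t := by exact_mod_cast hst
  have g1 := hs θ hθ'
  have g2 := ht θ hθ'
  have g3 : gg Γ ρ y (s + θ) ≤ ρ := min_le_right _ _
  have g4 : gg Γ ρ y (t + θ) ≤ ρ := min_le_right _ _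
  have w1 : ‖y (s + θ) - y (t + θ)‖ ≤ gg Γ ρ y (s + θ) + gg Γ ρ y (t + θ) := by
    have := norm_sub_le_norm_sub_add_norm_sub (y (s + θ)) (Γ (j + θ)) (y (t + θ))
    rw [norm_sub_rev (Γ (j + θ))] at this
    linarith
  have w2 : ‖y (s + θ) - y (t + θ)‖ ≤ 2 * G.r0 := by linarith [h.rle]
  have w3 : ‖y (s + θ) - y (t + θ)‖ ^ 2 ≤ 4 * (DD Γ ρ y s + DD Γ ρ y t) := by
    have := pow_le_pow_left₀ (norm_nonneg _) w1 2
    nlinarith [sq_nonneg (gg Γ ρ y (s + θ) - gg Γ ρ y (t + θ))]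
  have hab : (s : ℝ) + θ ≤ t + θ - 1 / 2 := by linarith
  have p1 := hB.el.arc h.lag0 h.st.el.cu _ _ hab
  have p2 := (hV h.lag h.lag0 h.bd h.st.el h.spd h.cmp (t + θ) _ w2).1
  have p3 := hB.pth.concat h.lag0 p1 p2
  rw [add_sub_cancel] at p3
  have hl : (((t - s).toNat : ℕ) : ℝ) = ((t - s : ℤ) : ℝ) := by
    have : (((t - s).toNat : ℕ) : ℤ) = t - s := Int.toNat_of_nonneg (by omega)
    exact_mod_cast congrArg (fun x : ℤ => (x : ℝ)) this
  have hb : (t : ℝ) + θ = s + θ + ((t - s).toNat : ℕ) := by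
    rw [hl]; push_cast; ring
  have p4 := h.lb (t - s).toNat _ _ _ (hb ▸ p3)
  rw [← hb, hl] at p4
  have q1 := OneL.arc hB h hab
  have q2 := hC h.lag h.bd h.st h.spd (s + θ) (t + θ) (s - t) (by push_cast; ring) w2
  have q3 := hB.el.add h.lag h.st.el.cu (s + θ) (t + θ - 1 / 2) (t + θ)
  have q4 : act Λ y (t + θ) (s + θ) = -act Λ y (s + θ) (t + θ) :=
    intervalIntegral.integral_symm _ _
  have q5 : ∑ r ∈ Finset.Ioo s t, DD Γ ρ y r ≤
      ∫ τ in ((s : ℝ) + θ)..(t + θ - 1 / 2), gg Γ ρ y τ ^ 2 := by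
    have e1 : Finset.Ioo s t = Finset.Ico (s + 1) t := by
      ext r
      simp only [Finset.mem_Ioo, Finset.mem_Ico]
      omega
    rw [e1, hB.dd.sum h.cont (s + 1) t (by omega)]
    push_cast
    refine intervalIntegral.integral_mono_interval (by linarith [hθ.2]) hst'
      (by linarith [hθ.1]) (Eventually.of_forall fun τ => sq_nonneg _) ?_
    exact (h.cont.pow 2).intervalIntegrable _ _
  have q6 := mul_le_mul_of_nonneg_left q5 h.e0
  have q7 := mul_le_mul_of_nonneg_left w3 (le_trans zero_le_one h.bd.K1)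
  have q8 : (β - α + σ') * ((t : ℝ) - s) ≤ e * ((t : ℝ) - s) :=
    mul_le_mul_of_nonneg_right h.ab (by linarith)
  push_cast at p4 q2 ⊢
  nlinarith

end Pool.Agent.MP_7bf9b2_an

end

section

/-! Periodic extension of a loop. -/

namespace Pool.Agent.MP_7bf9b2_an

open scoped Topology
open Set Filter MeasureTheory Metric

set_option linter.unusedSectionVars false
set_option maxSynthPendingDepth 3

variable {E : Type} [NormedAddCommGroup E] [InnerProductSpace ℝ E] [FiniteDimensional ℝ E]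

namespace PextL

theorem lip {g : ℝ → E} {C : NNReal} {p s : ℝ} (hp : 0 < p) (hg : LipschitzWith C g)
    (he : g s = g (s + p)) : LipschitzWith C (g ∘ toIcoMod hp s) := by
  have key : ∀ x y, toIcoDiv hp s x ≤ toIcoDiv hp s y →
      dist (g (toIcoMod hp s x)) (g (toIcoMod hp s y)) ≤ C * dist x y := by
    intro x y h
    have hx := toIcoMod_mem_Ico hp s x
    have hy := toIcoMod_mem_Ico hp s y
    have ex := self_sub_toIcoDiv_zsmul hp s x
    have ey := self_sub_toIcoDiv_zsmul hp s y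
    rw [zsmul_eq_mul] at ex ey
    rcases h.eq_or_lt with h | h
    · refine (hg.dist_le_mul _ _).trans (le_of_eq ?_)
      rw [← ex, ← ey, h, dist_sub_right]
    · have h1 : (toIcoDiv hp s x : ℝ) + 1 ≤ toIcoDiv hp s y := by exact_mod_cast h
      have h2 := hg.dist_le_mul (toIcoMod hp s x) (s + p)
      have h3 := hg.dist_le_mul s (toIcoMod hp s y)
      have h4 := dist_triangle (g (toIcoMod hp s x)) (g s) (g (toIcoMod hp s y))
      rw [← he, Real.dist_eq, abs_of_nonpos (by linarith [hx.2])] at h2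
      rw [Real.dist_eq, abs_of_nonpos (by linarith [hy.1])] at h3
      have h5 : -(toIcoMod hp s x - (s + p)) + -(s - toIcoMod hp s y) ≤ dist x y := by
        rw [Real.dist_eq, abs_sub_comm]
        have := mul_le_mul_of_nonneg_right h1 hp.le
        linarith [le_abs_self (y - x)]
      have h6 := mul_le_mul_of_nonneg_left h5 C.2
      change (C : ℝ) * _ ≤ (C : ℝ) * _ at h6
      linarith
  refine LipschitzWith.of_dist_le_mul fun x y => ?_
  rcases le_total (toIcoDiv hp s x) (toIcoDiv hp s y) with h | h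
  · exact key x y h
  · rw [dist_comm, dist_comm x]
    exact key y x h

end PextL

theorem pext (hB : Bas E) : PextStmt E := by
  intro G Λ x s A n hL hn hP
  have hp : (0 : ℝ) < n := by exact_mod_cast hn
  obtain ⟨g, C, h1, h2, h3, h4, h5⟩ := hB.pth.proj hL hP
  have he : g s = g (s + n) := h3.trans h4.symm
  have hper : Function.Periodic (g ∘ toIcoMod hp s) (n : ℝ) := (toIcoMod_periodic hp s).comp g
  refine ⟨g ∘ toIcoMod hp s, C, PextL.lip hp h1 he, fun t => h2 _, hper, fun a => ?_⟩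
  have e : EqOn (g ∘ toIcoMod hp s) g (Icc s (s + n)) := by
    intro t ht
    rcases ht.2.eq_or_lt with h | h
    · rw [h, hper, ← he, Function.comp_apply, toIcoMod_apply_left]
    · rw [Function.comp_apply, (toIcoMod_eq_self hp).2 ⟨ht.1, h⟩]
  have hq : Function.Periodic (fun t => Λ (ph (g ∘ toIcoMod hp s) t)) (n : ℝ) := by
    intro t
    have := hB.shf.per0 hL ((g ∘ toIcoMod hp s) t) (deriv (g ∘ toIcoMod hp s) t) t n
    simp only [ph]
    rw [hper t, hB.shf.pdv hper t]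
    exact_mod_cast this
  rw [← hB.cur.congr Λ (by linarith) e] at h5
  exact (hq.intervalIntegral_add_eq a s).trans_le h5

end Pool.Agent.MP_7bf9b2_an

end

section

/-!
Preparation of the combinatorial step: the inequality near the periodic orbit and the tubes.
-/

namespace Pool.Agent.MP_7bf9b2_an

open scoped Topology
open Set Filter MeasureTheory Metric

set_option linter.unusedSectionVars false
set_option maxSynthPendingDepth 3

variable {E : Type} [NormedAddCommGroup E] [InnerProductSpace ℝ E] [FiniteDimensional ℝ E]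

namespace PrepL

theorem per_dvd {Γ : ℝ → E} {n N : ℕ} (h : Function.Periodic Γ (n : ℝ)) (hd : n ∣ N) :
    Function.Periodic Γ (N : ℝ) := by
  obtain ⟨k, rfl⟩ := hd
  have := h.nat_mul k
  rwa [← Nat.cast_mul, mul_comm] at this

theorem on_of_tube {y Γ : ℝ → E} {ρ : ℝ} {s t j : ℤ}
    (h : ∀ τ ∈ Icc (s : ℝ) (t + 1), ‖y τ - Γ (τ + j)‖ ≤ gg Γ ρ y τ) :
    ∀ r ∈ Finset.Icc s t, On y Γ ρ r (r + j) := by
  intro r hr θ hθ
  obtain ⟨h1, h2⟩ := Finset.mem_Icc.1 hr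
  have h1' : (s : ℝ) ≤ r := by exact_mod_cast h1
  have h2' : (r : ℝ) ≤ t := by exact_mod_cast h2
  have := h (r + θ) ⟨by linarith [hθ.1], by linarith [hθ.2]⟩
  rwa [add_right_comm, ← Int.cast_add] at this

end PrepL

theorem prep (hB : Bas E) (h1 : Prep1Stmt E) (c1 : Cvx1Stmt E) (c2 : Cvx2Stmt E)
    (c3 : Cvx3Stmt E) (hT : TubeStmt E) (hF : FourStmt E) : PrepStmt E := by
  have _hB := hB
  intro G Λ₀ σ₀ R κ K A β ε as n N ρ a Γ₀ φ hb hc
  have hs0 := hb.s0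
  have hU1 := hb.uni _ hc.lag1 (hc.cl.mono (by linarith))
  have hU0 := hb.uni _ hb.lag (Close.refl hs0.le)
  have hc0 : 0 < min (1 / 2) ε / 2 := half_pos (lt_min (by norm_num) hc.epos)
  obtain ⟨r₁, hr₁, hQ⟩ := c1 hb.lag hc
  have hS := c2 hc.lag1 hc.pm.el.cu (PrepL.per_dvd hc.pm.per hc.dvd) hr₁ hQ
  obtain ⟨rc, hrc, σc, hσc, hC⟩ :=
    c3 hc.lag1 hU1.bd hc.pm.el.cu (hU0.pm _ _ hc.npos hc.pm).1 hc0 hS
  have hη : 0 < min (rc / 5) G.r0 := lt_min (by linarith) G.r0_pos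
  obtain ⟨μ, hμ, hTu⟩ := hT R A ρ _ hc.rpos hη
  refine ⟨μ, hμ, fun τ hτ => ?_⟩
  obtain ⟨σ, hσ, hσ0, hP⟩ := h1 hb hc rc hrc τ hτ
  refine ⟨min σ σc, lt_min hσ hσc, fun Λ Y hL hY hcl => ?_⟩
  have hcl1 := hcl.mono (min_le_left _ _)
  obtain ⟨α, Γ, hlow, horb, hpm, hgap, hnear, hact, hex, hall⟩ := hP Λ Y hL hY hcl1
  have hU := hb.uni _ hL ((hcl1.trans hc.cl).mono (by linarith))
  have hΓ := hU.pm _ _ hc.npos hpm
  have hperN := PrepL.per_dvd hpm.per hc.dvd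
  have hCV := hC Λ Γ hL (hcl.mono (min_le_right _ _)) hpm.el hperN hnear
  refine ⟨α, Γ, hlow, horb, hpm, hΓ.1, hgap, hact, hex, fun y hy => ?_⟩
  obtain ⟨σ', hctx⟩ := hall y hy
  have hy' := hU.st α y hy
  have htube := hTu y Γ n hy.el.cu.c2 hpm.el.cu.c2 hy'.1 hΓ.1 hy'.2 hΓ.2 hc.npos hpm.per hgap
  refine ⟨⟨σ', hctx⟩, fun s hs => ?_, fun s t hst hs => ?_⟩
  · obtain ⟨j, hj⟩ := htube s (s + N) (by omega) hs
    have := hF hL hU.bd hlow hy hy'.1 hpm.el.cu hc.Npos hperN hCV (half_pos hc0).le hc.rpos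
      hctx.cont (η₀ := min (rc / 5) G.r0) (by linarith [min_le_left (rc / 5) G.r0])
      (min_le_right _ _) s j (fun t ht => hj t (by simpa using ht))
    rwa [div_div, show (2 : ℝ) * 2 = 4 by norm_num] at this
  · obtain ⟨j, hj⟩ := htube s t hst hs
    exact ⟨j, PrepL.on_of_tube fun t ht => (hj t ht).2.2⟩

end Pool.Agent.MP_7bf9b2_an

end

section

set_option maxSynthPendingDepth 3

namespace Pool.Agent.MP_7bf9b2_an

open scoped Topology
open Set Filter MeasureTheory Metric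

variable {E : Type} [NormedAddCommGroup E] [InnerProductSpace ℝ E] [FiniteDimensional ℝ E]

namespace PthL

variable {G : Geo E} {Λ : PP E → ℝ} {γ : ℝ → E} {s t u : ℝ}

omit [InnerProductSpace ℝ E] [FiniteDimensional ℝ E] in
theorem sub (h : Cv γ s t) {a b : ℝ} (ha : s ≤ a) (hb : b ≤ t) : Cv γ a b :=
  h.imp fun _ k => k.mono (Icc_subset_Icc ha hb)

theorem int (hc : CurStmt E) (hL : Lag G Λ) (hst : s ≤ t) (h : Cv γ s t)
    (hm : ∀ τ ∈ Icc s t, γ τ ∈ G.U1) : IntervalIntegrable (fun τ => Λ (ph γ τ)) volume s t :=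
  hc.intF (S := G.U) hst h hL.smooth.continuousOn fun τ hτ => G.U1_sub_U (hm τ hτ)

theorem mono {f g : ℝ → ℝ} (hst : s ≤ t) (hf : IntervalIntegrable f volume s t)
    (hg : IntervalIntegrable g volume s t) (h : ∀ᵐ τ, τ ∈ Icc s t → f τ ≤ g τ) :
    ∫ τ in s..t, f τ ≤ ∫ τ in s..t, g τ :=
  intervalIntegral.integral_mono_ae_restrict hst hf hg ((ae_restrict_iff' measurableSet_Icc).2 h)

theorem add (hc : CurStmt E) (hL : Lag G Λ) (hst : s ≤ t) (htu : t ≤ u) (h : Cv γ s u)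
    (hm : ∀ τ ∈ Icc s u, γ τ ∈ G.U1) : act Λ γ s t + act Λ γ t u = act Λ γ s u :=
  intervalIntegral.integral_add_adjacent_intervals
    (int hc hL hst (sub h le_rfl htu) fun τ hτ => hm τ ⟨hτ.1, hτ.2.trans htu⟩)
    (int hc hL htu (sub h hst le_rfl) fun τ hτ => hm τ ⟨hst.trans hτ.1, hτ.2⟩)

theorem smoothAt {z : E} (hz : z ∈ G.U1) : ContDiffAt ℝ 1 G.r z :=
  (G.smoothU.contDiffAt (G.isOpen_U.mem_nhds (G.U1_sub_U hz))).of_le (by norm_num)

theorem retc (hc : CurStmt E) (hL : Lag G Λ) (hst : s ≤ t) (h : Cv γ s t)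
    (hm : ∀ τ ∈ Icc s t, γ τ ∈ G.U1) : Cv (fun τ => G.r (γ τ)) s t ∧
      act Λ (fun τ => G.r (γ τ)) s t + (∫ τ in s..t, ‖γ τ - G.r (γ τ)‖ ^ 2) / 2 ≤ act Λ γ s t := by
  obtain ⟨K, hK⟩ := LocallyLipschitzOn.exists_lipschitzOnWith_of_compact (f := G.r) G.isCompact_U1
    fun z hz => by
      obtain ⟨K, V, h1, h2⟩ := (smoothAt hz).exists_lipschitzOnWith
      exact ⟨K, V, mem_nhdsWithin_of_mem_nhds h1, h2⟩
  have k0 := int hc hL hst h hm
  obtain ⟨C, hC⟩ := h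
  have k1 : Cv (fun τ => G.r (γ τ)) s t := ⟨K * C, hK.comp hC hm⟩
  have k2 := int hc hL hst k1 fun τ hτ => G.M_sub_U1 (G.mapsU (G.U1_sub_U (hm τ hτ)))
  have k3 : IntervalIntegrable (fun τ => ‖γ τ - G.r (γ τ)‖ ^ 2 / 2) volume s t :=
    (((hC.continuousOn.sub (hK.comp hC hm).continuousOn).norm.pow 2).div_const
      2).intervalIntegrable_of_Icc hst
  refine ⟨k1, ?_⟩
  rw [act, ← intervalIntegral.integral_div, ← intervalIntegral.integral_add k2 k3]
  refine mono hst (k2.add k3) k0 ((hc.ae hC).mono fun τ h1 hτ => ?_)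
  have k4 := (((smoothAt (hm τ hτ)).differentiableAt one_ne_zero).hasFDerivAt.comp_hasDerivAt τ
    (h1 hτ).1.hasDerivAt).deriv
  have k5 := hL.ret _ (G.U1_sub_U (hm τ hτ)) (deriv γ τ) τ
  rw [← k4] at k5
  exact k5

end PthL

open PthL in
theorem pth (hc : CurStmt E) : PthStmt E where
  add := add hc
  concat := by
    rintro G Λ x z w s t u A B hL ⟨h1, γ₁, a1, a2, a3, a4, a5⟩ ⟨h2, γ₂, b1, b2, b3, b4, b5⟩
    obtain ⟨γ, k1, k2, k3⟩ := hc.glue h1 h2 a1 b1 (a4.trans b3.symm)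
    have k4 : ∀ τ ∈ Icc s u, γ τ ∈ G.U1 := fun τ hτ => by
      rcases le_total τ t with h | h
      · exact k2 ⟨hτ.1, h⟩ ▸ a2 τ ⟨hτ.1, h⟩
      · exact k3 ⟨h, hτ.2⟩ ▸ b2 τ ⟨h, hτ.2⟩
    refine ⟨h1.trans h2, γ, k1, k4, (k2 ⟨le_rfl, h1⟩).trans a3, (k3 ⟨h2, le_rfl⟩).trans b4, ?_⟩
    rw [← add hc hL h1 h2 k1 k4, hc.congr Λ h1 k2, hc.congr Λ h2 k3]
    exact add_le_add a5 b5
  shift := by
    rintro G Λ x z s t A k hL ⟨h1, γ, ⟨C, a1⟩, a2, a3, a4, a5⟩
    have k1 : ∀ τ ∈ Icc (s + k) (t + k), τ - k ∈ Icc s t := fun τ hτ =>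
      ⟨le_sub_iff_add_le.2 hτ.1, sub_le_iff_le_add.2 hτ.2⟩
    refine ⟨by linarith, fun τ => γ (τ - k), ⟨C, LipschitzOnWith.of_dist_le_mul fun a ha b hb => ?_⟩,
      fun τ hτ => a2 _ (k1 τ hτ), by simpa using a3, by simpa using a4, le_of_eq_of_le ?_ a5⟩
    · simpa using a1.dist_le_mul _ (k1 a ha) _ (k1 b hb)
    · have k2 := intervalIntegral.integral_comp_sub_right (a := s + k) (b := t + k)
        (fun τ => Λ (ph γ τ)) k
      rw [add_sub_cancel_right, add_sub_cancel_right] at k2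
      refine Eq.trans (intervalIntegral.integral_congr fun τ _ => ?_) k2
      have k3 : Function.Periodic (fun θ => Λ (γ (τ - k), deriv γ (τ - k), θ)) 1 := hL.per _ _
      simpa [ph, deriv_comp_sub_const] using (k3.sub_int_mul_eq (x := τ) k).symm
  retc := retc hc
  proj := by
    rintro G Λ x z s t A hL ⟨h1, γ, a1, a2, a3, a4, a5⟩
    obtain ⟨k1, k2⟩ := retc hc hL h1 a1 a2
    obtain ⟨γ', C, b1, b2, b3⟩ := hc.ext h1 k1
    refine ⟨γ', C, b1, fun τ => ?_, a3 ▸ b2 ⟨le_rfl, h1⟩, a4 ▸ b2 ⟨h1, le_rfl⟩, ?_⟩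
    · obtain ⟨θ, c1, c2⟩ := b3 τ
      exact c2 ▸ G.mapsU (G.U1_sub_U (a2 θ c1))
    · have : 0 ≤ ∫ τ in s..t, ‖γ τ - G.r (γ τ)‖ ^ 2 :=
        intervalIntegral.integral_nonneg h1 fun _ _ => sq_nonneg _
      rw [hc.congr Λ h1 b2]
      linarith
  cmp := by
    intro G Λ Λ' η s t R' σ' hL hL' hst h hm h1 h2
    have k := int hc hL hst h hm
    refine (mono hst (int hc hL' hst h hm) (k.add (intervalIntegrable_const (c := σ')))
      (h1.mono fun τ a hτ => h2 _ (hm τ hτ) (a hτ))).trans_eq ?_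
    rw [intervalIntegral.integral_add k intervalIntegrable_const, intervalIntegral.integral_const,
      smul_eq_mul, mul_comm, act]
  const := by
    intro G Λ x s t C hL hst hx h
    have k : Cv (fun _ => x) s t := hc.c1 s t contDiff_const
    refine ⟨hst, fun _ => x, k, fun _ _ => hx, rfl, rfl, (mono hst (int hc hL hst k fun _ _ => hx)
      (intervalIntegrable_const (c := C))
      (Eventually.of_forall fun τ _ => by simpa [ph] using h τ)).trans_eq ?_⟩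
    rw [intervalIntegral.integral_const, smul_eq_mul, mul_comm]
  refl := by
    intro G Λ x z s A
    constructor
    · rintro ⟨-, γ, -, a2, rfl, rfl, a5⟩
      exact ⟨rfl, a2 s ⟨le_rfl, le_rfl⟩, by simpa [act] using a5⟩
    · rintro ⟨rfl, h1, h2⟩
      exact ⟨le_rfl, fun _ => x, hc.c1 s s contDiff_const, fun _ _ => h1, rfl, rfl,
        by simpa [act] using h2⟩
  low := by
    intro G Λ γ s t a C hL hst h hm h1
    have k := (hc.ftc hst h).1.norm.const_mul a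
    refine le_of_eq_of_le ?_ (mono hst (k.sub (intervalIntegrable_const (c := C)))
      (int hc hL hst h hm) (Eventually.of_forall fun τ hτ => h1 (ph γ τ) (hm τ hτ)))
    rw [intervalIntegral.integral_sub k intervalIntegrable_const, intervalIntegral.integral_const,
      smul_eq_mul, mul_comm C, intervalIntegral.integral_const_mul]

end Pool.Agent.MP_7bf9b2_an

end

section

/-! Short orbits between nearby points, by a fixed point argument. -/

set_option maxSynthPendingDepth 3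

namespace Pool.Agent.MP_7bf9b2_an

open scoped Topology
open Set Filter MeasureTheory Metric

variable {E : Type} [NormedAddCommGroup E] [InnerProductSpace ℝ E] [FiniteDimensional ℝ E]

namespace ShootL

theorem diffAt (G : Geo E) {x : E} (hx : x ∈ G.U) : DifferentiableAt ℝ G.r x :=
  (G.smoothU.contDiffAt (G.isOpen_U.mem_nhds hx)).differentiableAt (by norm_num)

theorem contD (G : Geo E) : ContinuousOn (fderiv ℝ G.r) G.U1 :=
  (G.smoothU.continuousOn_fderiv_of_isOpen G.isOpen_U (by norm_num)).mono G.U1_sub_U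

theorem idem (G : Geo E) {x : E} (hx : x ∈ G.M₀) (w : E) :
    fderiv ℝ G.r x (fderiv ℝ G.r x w) = fderiv ℝ G.r x w := by
  have hU := G.M_sub_U hx
  have h1 : G.r ∘ G.r =ᶠ[𝓝 x] G.r := by
    filter_upwards [G.isOpen_U.mem_nhds hU] with z hz
    exact G.fix _ (G.mapsU hz)
  have h2 : DifferentiableAt ℝ G.r (G.r x) := by
    rw [G.fix x hx]
    exact diffAt G hU
  have h3 := fderiv_comp x h2 (diffAt G hU)
  rw [h1.fderiv_eq, G.fix x hx] at h3
  exact (congrArg (fun T : E →L[ℝ] E => T w) h3).symm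

theorem bound (G : Geo E) : ∃ C : ℝ, 0 < C ∧ ∀ x ∈ G.M₀, ∀ w, ‖fderiv ℝ G.r x w‖ ≤ C * ‖w‖ := by
  obtain ⟨C, hC⟩ := G.isCompact_U1.exists_bound_of_continuousOn (contD G)
  refine ⟨max C 1, lt_max_of_lt_right one_pos, fun x hx w => ?_⟩
  exact (fderiv ℝ G.r x).le_of_opNorm_le ((hC x (G.M_sub_U1 hx)).trans (le_max_left _ _)) w

theorem inj (G : Geo E) : ∃ δ : ℝ, 0 < δ ∧ ∀ x ∈ G.M₀, ∀ y ∈ G.M₀, ∀ z ∈ G.M₀, ‖y - x‖ ≤ δ →
    ‖z - x‖ ≤ δ → fderiv ℝ G.r x (z - y) = 0 → z = y := by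
  obtain ⟨δ, hδ, h⟩ := Metric.uniformContinuousOn_iff_le.1
    (G.isCompact_U1.uniformContinuousOn_of_continuous (contD G)) (1 / 2) (by norm_num)
  refine ⟨min δ (2 * G.r0), lt_min hδ (by linarith [G.r0_pos]), fun x hx y hy z hz h1 h2 h3 => ?_⟩
  have hs : ∀ w ∈ closedBall x (min δ (2 * G.r0)), w ∈ G.U1 := fun w hw =>
    G.mem_U1 hx ((mem_closedBall_iff_norm.1 hw).trans (min_le_right _ _))
  have h4 := (convex_closedBall x (min δ (2 * G.r0))).norm_image_sub_le_of_norm_fderiv_le'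
    (𝕜 := ℝ) (f := G.r) (φ := fderiv ℝ G.r x) (C := 1 / 2)
    (fun w hw => diffAt G (G.U1_sub_U (hs w hw)))
    (fun w hw => by
      rw [← dist_eq_norm]
      exact h w (hs w hw) x (G.M_sub_U1 hx) ((mem_closedBall.1 hw).trans (min_le_left _ _)))
    (mem_closedBall_iff_norm.2 h1) (mem_closedBall_iff_norm.2 h2)
  rw [h3, sub_zero, G.fix z hz, G.fix y hy] at h4
  have h5 := norm_nonneg (z - y)
  exact sub_eq_zero.1 (norm_eq_zero.1 (by linarith))

omit [FiniteDimensional ℝ E] in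
theorem clamp {ρ : ℝ} (hρ : 0 < ρ) : ∃ c : E → E, Continuous c ∧ (∀ v, ‖c v‖ ≤ ρ) ∧
    ∀ v, ‖v‖ ≤ ρ → c v = v := by
  have hm : ∀ v : E, 0 < max ρ ‖v‖ := fun v => lt_max_of_lt_left hρ
  refine ⟨fun v => (ρ / max ρ ‖v‖) • v, ?_, fun v => ?_, fun v hv => ?_⟩
  · exact (continuous_const.div (continuous_const.max continuous_norm)
      fun v => (hm v).ne').smul continuous_id
  · rw [norm_smul, Real.norm_of_nonneg (div_pos hρ (hm v)).le, div_mul_eq_mul_div,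
      div_le_iff₀ (hm v)]
    exact mul_le_mul_of_nonneg_left (le_max_right _ _) hρ.le
  · simp only [max_eq_left hv, div_self hρ.ne', one_smul]

omit [FiniteDimensional ℝ E] in
theorem mv {y : ℝ → E} (hy : Differentiable ℝ y) (u : E) {a τ o : ℝ} (hτ : 0 ≤ τ)
    (h : ∀ t ∈ Icc a (a + τ), ‖deriv y t - u‖ ≤ o) : ‖y (a + τ) - y a - τ • u‖ ≤ o * τ := by
  have h1 := (convex_Icc a (a + τ)).norm_image_sub_le_of_norm_hasDerivWithin_le
    (f := fun t => y t - t • u) (f' := fun t => deriv y t - u) (C := o)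
    (fun t _ => by
      have h2 := (hy t).hasDerivAt.sub ((hasDerivAt_id t).smul_const u)
      rw [one_smul] at h2
      exact h2.hasDerivWithinAt) h
    (left_mem_Icc.2 (by linarith)) (right_mem_Icc.2 (by linarith))
  rw [add_sub_cancel_left, Real.norm_of_nonneg hτ] at h1
  have h3 : y (a + τ) - y a - τ • u = y (a + τ) - (a + τ) • u - (y a - a • u) := by
    rw [add_smul]
    abel
  rw [h3]
  exact h1

end ShootL

open ShootL in
theorem shoot (hB : Bas E) (hF : FlbStmt E) : ShootStmt E := by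
  intro G Λ Y hY R'
  obtain ⟨C, hC, hCb⟩ := bound G
  obtain ⟨δ, hδ, hinj⟩ := inj G
  have hR' := abs_nonneg R'
  have hρ : 0 < C * (|R'| + 1) := by positivity
  obtain ⟨c, hc, hc1, hc2⟩ := clamp (E := E) hρ
  obtain ⟨h1, h2⟩ := hF hY (C * (C * (|R'| + 1)))
  obtain ⟨R₁, hR₁, h1⟩ := h1 1
  obtain ⟨τ₁, hτ₁, h2⟩ := h2 1 one_pos
  refine ⟨R₁, min (min 1 τ₁) (δ / (|R'| + R₁ + 1)), hR₁,
    lt_min (lt_min one_pos hτ₁) (by positivity), fun a τ x₀ x₁ hτ hτ0 hx₀ hx₁ hd => ?_⟩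
  have t1 : τ ≤ 1 := hτ0.trans ((min_le_left _ _).trans (min_le_left _ _))
  have t2 : τ ≤ τ₁ := hτ0.trans ((min_le_left _ _).trans (min_le_right _ _))
  have t3 : τ * (|R'| + R₁ + 1) ≤ δ :=
    (le_div_iff₀ (by positivity)).1 (hτ0.trans (min_le_right _ _))
  have hd' : ‖x₁ - x₀‖ ≤ |R'| * τ := hd.trans (mul_le_mul_of_nonneg_right (le_abs_self _) hτ.le)
  set P : E →L[ℝ] E := fderiv ℝ G.r x₀ with hP
  have hTM : ∀ v, ((x₀, P (c v), a) : PP E) ∈ G.TM := fun v => ⟨hx₀, idem G hx₀ _⟩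
  have hu : ∀ v, ‖P (c v)‖ ≤ C * (C * (|R'| + 1)) := fun v =>
    (hCb x₀ hx₀ _).trans (mul_le_mul_of_nonneg_left (hc1 v) hC.le)
  have hab : ∀ t ∈ Icc a (a + τ), |t - a| ≤ τ := fun t ht =>
    abs_le.2 ⟨by linarith [ht.1], by linarith [ht.2]⟩
  have hini : ∀ v, Y (x₀, P (c v), a) a = x₀ := fun v => congrArg Prod.fst (hY.init _ (hTM v))
  have hdf : ∀ v, Differentiable ℝ (Y (x₀, P (c v), a)) := fun v =>
    (hY.el _ (hTM v)).cu.c2.differentiable (by norm_num)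
  have hcont : Continuous fun v => Y (x₀, P (c v), a) (a + τ) := by
    have h3 : Continuous fun v => (((x₀, P (c v), a), a + τ) : PP E × ℝ) := by fun_prop
    exact (hY.cont.comp_continuous h3 fun v => ⟨hTM v, mem_univ _⟩).fst
  have hbd : ∀ v, ‖P (τ⁻¹ • (x₁ - x₀)) -
      P (τ⁻¹ • (Y (x₀, P (c v), a) (a + τ) - x₀ - τ • P (c v)))‖ ≤ C * (|R'| + 1) := fun v => by
    have h3 := mv (hdf v) (P (c v)) hτ.le fun t ht =>
      h2 _ (hTM v) (hu v) t ((hab t ht).trans t2)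
    rw [hini] at h3
    have h4 : ∀ (w : E) (b : ℝ), ‖w‖ ≤ b * τ → ‖P (τ⁻¹ • w)‖ ≤ C * b := fun w b hw => by
      refine (hCb x₀ hx₀ _).trans (mul_le_mul_of_nonneg_left ?_ hC.le)
      rw [norm_smul, Real.norm_of_nonneg (inv_pos.2 hτ).le, inv_mul_le_iff₀ hτ, mul_comm]
      exact hw
    refine (norm_sub_le _ _).trans ?_
    rw [mul_add]
    exact add_le_add (h4 _ _ hd') (h4 _ _ h3)
  obtain ⟨v, hv⟩ := MP_92c74b_an.fixed_of_bounded (fun v => P (τ⁻¹ • (x₁ - x₀)) -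
      P (τ⁻¹ • (Y (x₀, P (c v), a) (a + τ) - x₀ - τ • P (c v))))
    (continuous_const.sub (P.continuous.comp (((hcont.sub continuous_const).sub
      ((P.continuous.comp hc).const_smul τ)).const_smul τ⁻¹))) hbd
  have hv1 : c v = v := hc2 v (hv ▸ hbd v)
  have hv2 : P v = v := by
    rw [← hv, ← map_sub]
    exact idem G hx₀ _
  have hsp : ∀ s ∈ Icc a (a + τ), ‖deriv (Y (x₀, P (c v), a)) s‖ ≤ R₁ := fun s hs =>
    h1 _ (hTM v) (hu v) s ((hab s hs).trans t1)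
  refine ⟨Y (x₀, P (c v), a), ⟨_, hTM v, rfl⟩, hini v, ?_, hsp⟩
  have h5 := mv (hdf v) 0 hτ.le (o := R₁) fun t ht => by
    rw [sub_zero]
    exact hsp t ht
  rw [hini, smul_zero, sub_zero] at h5
  refine hinj x₀ hx₀ x₁ hx₁ _ ((hY.el _ (hTM v)).cu.mem _) (by nlinarith) (by nlinarith) ?_
  generalize Y (x₀, P (c v), a) (a + τ) = z at hv ⊢
  rw [hv1, hv2] at hv
  simp only [map_smul, map_sub, hv2, smul_sub, smul_smul, inv_mul_cancel₀ hτ.ne', one_smul] at hv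
  have h6 : τ⁻¹ • (P z - P x₁) = 0 := by
    linear_combination (norm := module) -hv
  rw [map_sub]
  exact (smul_eq_zero.1 h6).resolve_left (inv_pos.2 hτ).ne'

end Pool.Agent.MP_7bf9b2_an

end

section

set_option maxSynthPendingDepth 3

namespace Pool.Agent.MP_7bf9b2_an

open scoped Topology
open Set Filter MeasureTheory Metric

variable {E : Type} [NormedAddCommGroup E] [InnerProductSpace ℝ E] [FiniteDimensional ℝ E]

namespace SlowL

/-- a window with small action contains a time of small speed -/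
theorem win (hB : Bas E) {G : Geo E} {Λ : PP E → ℝ} {y : ℝ → E} {a b C K : ℝ} (hL : Lag G Λ)
    (hy : Cu G y) (hab : a < b) (hC : ∀ p : PP E, p.1 ∈ G.U1 → 1 * ‖p.2.1‖ - C ≤ Λ p)
    (h : act Λ y a b ≤ K * (b - a)) : ∃ s ∈ Icc a b, ‖deriv y s‖ ≤ K + C := by
  have h1 := hB.pth.low hL hab.le (hB.cur.c1 a b (hy.c2.of_le (by norm_num)))
    (fun τ _ => G.M_sub_U1 (hy.mem τ)) hC
  have hc : Continuous fun τ => ‖deriv y τ‖ := (hy.c2.continuous_deriv (by norm_num)).norm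
  obtain ⟨s, hs, hm⟩ := isCompact_Icc.exists_isMinOn (nonempty_Icc.2 hab.le) hc.continuousOn
  refine ⟨s, hs, ?_⟩
  have h2 : ∫ _ in a..b, ‖deriv y s‖ ≤ ∫ τ in a..b, ‖deriv y τ‖ :=
    intervalIntegral.integral_mono_on hab.le (continuous_const.intervalIntegrable a b)
      (hc.intervalIntegrable a b) (fun τ hτ => hm hτ)
  rw [intervalIntegral.integral_const, smul_eq_mul] at h2
  refine le_of_mul_le_mul_left (a := b - a) ?_ (by linarith)
  linarith

end SlowL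

open SlowL

theorem slow (hB : Bas E) (hC : ConnStmt E) (hX : BdxStmt E) : SlowStmt E := by
  intro G Λ₀ hL0
  obtain ⟨C, hC0⟩ := hL0.sup 2
  obtain ⟨κ, K, hb⟩ := hX hL0 0 le_rfl
  obtain ⟨T₀, hT, hcon⟩ := hC G
  have hT' : (0 : ℝ) < T₀ := by exact_mod_cast hT
  refine ⟨K + 2 + (C + 1), T₀, fun Λ hL hcl => ?_⟩
  have hlow : ∀ p : PP E, p.1 ∈ G.U1 → 1 * ‖p.2.1‖ - (C + 1) ≤ Λ p := fun p hp => by
    have h1 := hC0 p hp
    have h2 := (abs_le.1 (hcl.c0 p hp)).1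
    linarith
  have hup : ∀ p : PP E, p.1 ∈ G.U1 → ‖p.2.1‖ ≤ 1 → Λ p ≤ K + 2 := fun p hp hv => by
    have h1 := (abs_le.1 (hb.b0 p hp (by linarith))).2
    have h2 := (abs_le.1 (hcl.c0 p hp)).2
    linarith
  have hpath : ∀ y : ℝ → E, Cu G y → ∀ t : ℝ,
      Path G Λ (y (t - T₀)) (t - T₀) (y t) t ((K + 2) * (t - (t - T₀))) := fun y hy t => by
    have h1 := hcon Λ (K + 2) hL hup _ (hy.mem (t - T₀)) _ (hy.mem t) (t - T₀)
    rwa [sub_add_cancel, ← sub_sub_cancel t (T₀ : ℝ), sub_sub_cancel t (t - T₀)] at h1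
  refine ⟨fun α y hy t => ?_, fun Γ n hn hΓ t => ?_⟩
  · refine win hB hL hy.el.cu (by linarith) hlow ?_
    have h1 := hy.st (t - T₀) t 0 _ (by
      rw [Int.cast_zero, add_zero]; exact hpath y hy.el.cu t)
    rwa [Int.cast_zero, mul_zero, add_zero] at h1
  · have hn' : (0 : ℝ) < n := by exact_mod_cast hn
    have hp : ∀ a : ℝ, act Λ Γ a (a + n) = act Λ Γ 0 n := fun a => by
      have h1 := hB.shf.pact hL hΓ.el.cu hΓ.per a 1
      rwa [Nat.cast_one, one_mul, one_mul] at h1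
    rcases le_total (T₀ : ℝ) n with h | h
    · refine win hB hL hΓ.el.cu (by linarith) hlow ?_
      have h1 := hB.pth.concat hL (hpath Γ hΓ.el.cu t)
        (hB.el.arc hL hΓ.el.cu t (t - T₀ + n) (by linarith))
      rw [hΓ.per] at h1
      have h2 := hΓ.min _ _ _ h1
      have h3 := hB.el.add hL hΓ.el.cu (t - T₀) t (t - T₀ + n)
      rw [hp] at h3
      linarith
    · have h1 := hB.pth.const (s := t - n) (t := t - n + n) (C := K + 2) hL (by linarith)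
        (G.M_sub_U1 (hΓ.el.cu.mem 0))
        (fun τ => hup (Γ 0, 0, τ) (G.M_sub_U1 (hΓ.el.cu.mem 0)) (by simp))
      have h2 := hΓ.min _ _ _ h1
      rw [← hp (t - n), sub_add_cancel] at h2
      obtain ⟨s, hs, h3⟩ := win hB hL hΓ.el.cu (by linarith) hlow h2
      exact ⟨s, ⟨by linarith [hs.1], hs.2⟩, h3⟩

theorem uni (hS : SlowStmt E) (hG : GronStmt E) (hX : BdxStmt E) (hP : BdpStmt E)
    (hA : AccStmt E) : UniStmt E := by
  intro G Λ₀ Y₀ hL0 hF
  obtain ⟨R₀, T₀, hs⟩ := hS hL0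
  obtain ⟨σ₁, hσ₁, R, hR, hg⟩ := hG hL0 hF R₀ T₀
  obtain ⟨κ, K, hb⟩ := hX hL0 R hR
  have hκ := hb.k0
  have hR2 : 0 < R + 2 := by linarith
  have hpos : 0 < min (min 1 σ₁) (min (κ / 2 / (R + 2)) (1 / (R + 2))) := by positivity
  refine ⟨_, hpos, R, κ / 2, K + 1, (K + 1) * (R + 2) / (κ / 2), fun Λ hL hcl => ?_⟩
  have hbd : Bd G Λ R (κ / 2) (K + 1) := hP hb hcl hpos.le
    ((le_div_iff₀ hR2).1 ((min_le_right _ _).trans (min_le_left _ _)))
    ((le_div_iff₀ hR2).1 ((min_le_right _ _).trans (min_le_right _ _)))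
  obtain ⟨h1, h2⟩ := hs Λ hL (hcl.mono ((min_le_left _ _).trans (min_le_left _ _)))
  have key : ∀ y, ELc G Λ y → Slow R₀ T₀ y →
      Spd R y ∧ Acc ((K + 1) * (R + 2) / (κ / 2)) y := fun y hy hsl => by
    have h3 : Spd R y := fun t => by
      obtain ⟨s, hs1, hs2⟩ := hsl t
      exact hg Λ y s hL (hcl.mono ((min_le_left _ _).trans (min_le_right _ _))) hy hs2 t
        ⟨hs1.2, by linarith [hs1.1]⟩
    exact ⟨h3, hA hL hbd hy h3⟩
  exact ⟨hbd, fun α y hy => key y hy.el (h1 α y hy), fun Γ n hn hΓ => key Γ hΓ.el (h2 Γ n hn hΓ)⟩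

end Pool.Agent.MP_7bf9b2_an

end

section

set_option maxSynthPendingDepth 3

namespace Pool.Agent.MP_7bf9b2_an

open scoped Topology
open Set Filter MeasureTheory Metric

variable {E : Type} [NormedAddCommGroup E] [InnerProductSpace ℝ E] [FiniteDimensional ℝ E]

namespace StatL

theorem mom_le (hB : Bas E) {G : Geo E} {Λ : PP E → ℝ} {Γ : ℝ → E} {R κ K : ℝ}
    (hb : Bd G Λ R κ K) (hc : Cu G Γ) (hs : Spd R Γ) (t : ℝ) (w : E) :
    |mom Λ Γ t w| ≤ K * ‖w‖ :=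
  ((mom Λ Γ t).le_opNorm w).trans (mul_le_mul_of_nonneg_right
    (hB.el.mb hb (G.M_sub_U1 (hc.mem t)) (by linarith [hs t])) (norm_nonneg w))

theorem key (hB : Bas E) (hV : VlStmt E) {G : Geo E} {Λ : PP E → ℝ} {Γ : ℝ → E}
    {R κ K α δ : ℝ} {l : ℕ} (hL : Lag G Λ) (hb : Bd G Λ R κ K) (hlow : Low G Λ α) (hl : 0 < l)
    (hp : PMin G Λ Γ l) (hs : Spd R Γ) (hδ : act Λ Γ 0 l + α * l ≤ δ) {x z : E} {s t A : ℝ}
    {k : ℤ} (hP : Path G Λ x s z (t + k) A) {m : ℕ} (hm : t - s + 1 ≤ m)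
    (h1 : ‖z - Γ t‖ ≤ 2 * G.r0) (h2 : ‖x - Γ s‖ ≤ 2 * G.r0) :
    act Λ Γ s t ≤ A + α * k + m * δ + K * ‖z - Γ t‖ + K * ‖z - Γ t‖ ^ 2 + K * ‖x - Γ s‖ +
      K * ‖x - Γ s‖ ^ 2 := by
  have hc := hp.el.cu
  have l1 : (1 : ℝ) ≤ l := by exact_mod_cast hl
  have m0 : (0 : ℝ) ≤ m := Nat.cast_nonneg m
  have hM : (m : ℝ) ≤ m * l := le_mul_of_one_le_right m0 l1
  have hv := hV hL hL hb hp.el hs (σ' := 0) fun p _ _ => (add_zero _).ge
  have P1 := (hv t _ h1).2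
  have P2 := hB.el.arc hL hc (t + 1 / 2) (s + m * l - 1 / 2) (by linarith)
  have P3 := (hv (s + m * l) _ h2).1
  have e1 : Γ (s + m * l) = Γ s := hp.per.nat_mul m s
  rw [e1, add_sub_cancel] at P3
  rw [add_sub_cancel] at P1
  have P4 := hB.pth.concat hL hP
    (hB.pth.shift k hL (hB.pth.concat hL (hB.pth.concat hL P1 P2) P3))
  have k0 : (0 : ℤ) ≤ m * l + k := by
    have : (0 : ℝ) ≤ m * l + k := by linarith [hP.1]
    exact_mod_cast this
  have e2 : (((m * l + k : ℤ).toNat : ℕ) : ℝ) = m * l + k := by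
    have : (((m * l + k : ℤ).toNat : ℕ) : ℤ) = m * l + k := Int.toNat_of_nonneg k0
    exact_mod_cast this
  rw [add_assoc s, ← e2] at P4
  have h3 := hlow _ _ _ _ P4
  rw [e2] at h3
  have a1 := hB.el.add hL hc t (t + 1 / 2) (s + m * l - 1 / 2)
  have a2 := hB.el.add hL hc t (s + m * l - 1 / 2) (s + m * l)
  have a3 := hB.el.add hL hc s t (s + m * l)
  have a4 := hB.shf.pact hL hc hp.per s m
  have a5 := mul_le_mul_of_nonneg_left hδ m0
  have b1 := (abs_le.1 (mom_le hB hb hc hs t (z - Γ t))).1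
  have b2 := (abs_le.1 (mom_le hB hb hc hs (s + m * l) (x - Γ s))).2
  linarith

theorem subseq {G : Geo E} {R : ℝ} {p : ℕ → PP E} (h1 : ∀ j, p j ∈ G.TM)
    (h2 : ∀ j, ‖(p j).2.1‖ ≤ R) (h3 : ∀ j, (p j).2.2 = 0) :
    ∃ q ∈ G.TM, ∃ φ : ℕ → ℕ, StrictMono φ ∧ Tendsto (p ∘ φ) atTop (𝓝 q) := by
  have : ProperSpace E := FiniteDimensional.proper_real E
  obtain ⟨q, hq, φ, k1, k2⟩ := (G.cpt.prod ((isCompact_closedBall (0 : E) R).prod
    (isCompact_singleton (x := (0 : ℝ))))).tendsto_subseq (x := p)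
    fun j => ⟨(h1 j).1, mem_closedBall_zero_iff.2 (h2 j), h3 j⟩
  refine ⟨q, ⟨hq.1, ?_⟩, φ, k1, k2⟩
  have c1 : ContinuousAt (fderiv ℝ G.r) q.1 :=
    (G.smoothU.continuousOn_fderiv_of_isOpen G.isOpen_U (by norm_num)).continuousAt
      (G.isOpen_U.mem_nhds (G.M_sub_U hq.1))
  have c2 : ContinuousAt (fun u : PP E => fderiv ℝ G.r u.1 u.2.1) q :=
    (c1.comp continuousAt_fst).clm_apply (continuousAt_fst.comp continuousAt_snd)
  have c3 : ContinuousAt (fun u : PP E => u.2.1) q := continuousAt_fst.comp continuousAt_snd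
  refine tendsto_nhds_unique (c2.tendsto.comp k2) ((c3.tendsto.comp k2).congr fun j => ?_)
  exact (h1 (φ j)).2.symm

end StatL

open StatL

theorem stat (hB : Bas E) (hV : VlStmt E) : StatStmt E := by
  intro G Λ Y R κ K α hL hF hb hlow h
  choose l Γ h1 h2 h3 h4 h5 using fun j : ℕ => h (1 / ((j : ℝ) + 1)) Nat.one_div_pos_of_nat
  obtain ⟨q, hq, φ, k1, k2⟩ := subseq (p := fun j => ph (Γ j) 0)
    (fun j => hB.el.tm (h3 j).el.cu 0) (fun j => h4 j 0) fun _ => rfl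
  have c1 : ∀ τ, Tendsto (fun j => ph (Γ (φ j)) τ) atTop (𝓝 (ph (Y q) τ)) := fun τ => by
    have := (hF.cont (q, τ) ⟨hq, trivial⟩).tendsto.comp (tendsto_nhdsWithin_iff.2
      ⟨k2.prodMk_nhds tendsto_const_nhds,
        Eventually.of_forall fun j => ⟨hB.el.tm (h3 (φ j)).el.cu 0, trivial⟩⟩)
    refine this.congr fun j => ?_
    exact congrArg (ph · τ) ((hB.el.orb hF (h2 (φ j))).2 0)
  have hy := hF.el q hq
  have c2 : ∀ τ, Tendsto (fun j => ‖Y q τ - Γ (φ j) τ‖) atTop (𝓝 0) := fun τ => by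
    have := (tendsto_const_nhds (x := Y q τ)).sub (continuousAt_fst.tendsto.comp (c1 τ))
    simpa [ph] using this.norm
  have c3 : ∀ s t, Tendsto (fun j => act Λ (Γ (φ j)) s t) atTop (𝓝 (act Λ (Y q) s t)) :=
    fun s t => by
    refine intervalIntegral.tendsto_integral_filter_of_dominated_convergence (fun _ => K)
      (Eventually.of_forall fun j => (hB.el.cL hL (h3 (φ j)).el.cu).aestronglyMeasurable)
      (Eventually.of_forall fun j => Eventually.of_forall fun τ _ => ?_) intervalIntegrable_const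
      (Eventually.of_forall fun τ _ => ?_)
    · exact hb.b0 _ (G.M_sub_U1 ((h3 (φ j)).el.cu.mem τ)) ((h4 (φ j) τ).trans (by linarith))
    · exact (hL.smooth.continuousOn.continuousAt
        (G.isOpen_Om.mem_nhds (G.M_sub_U (hy.cu.mem τ)))).tendsto.comp (c1 τ)
  refine ⟨Y q, hy, fun s t k A hP => ?_⟩
  obtain ⟨m, hm⟩ := exists_nat_ge (t - s + 1)
  have c4 : Tendsto (fun j => 1 / ((φ j : ℝ) + 1)) atTop (𝓝 0) :=
    tendsto_one_div_add_atTop_nhds_zero_nat.comp k1.tendsto_atTop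
  have c5 := (((((tendsto_const_nhds (x := A + α * k)).add (c4.const_mul (m : ℝ))).add
    ((c2 t).const_mul K)).add (((c2 t).pow 2).const_mul K)).add ((c2 s).const_mul K)).add
    (((c2 s).pow 2).const_mul K)
  have r0 : (0 : ℝ) < 2 * G.r0 := by linarith [G.r0_pos]
  refine (le_of_tendsto_of_tendsto (c3 s t) c5 ?_).trans_eq (by ring)
  filter_upwards [(c2 t).eventually_le_const r0, (c2 s).eventually_le_const r0] with j a1 a2
  exact key hB hV hL hb hlow (h1 _) (h3 _) (h4 _) (h5 _) hP hm a1 a2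

end Pool.Agent.MP_7bf9b2_an

end

section

/-! The rising sun lemma and the summation over pairs. -/

namespace Pool.Agent.MP_7bf9b2_an

open scoped Topology
open Set Filter MeasureTheory Metric

set_option maxSynthPendingDepth 3

namespace SunL

theorem exMax {g : ℕ → ℝ} {C δ : ℝ} (hδ : 0 < δ) (h0 : g 0 = 0) (h : ∀ n, g n ≤ C - δ * n) :
    ∃ m, ∀ n, g n ≤ g m := by
  obtain ⟨N, hN⟩ := exists_nat_ge (C / δ)
  obtain ⟨m, -, hm⟩ := (Finset.range (N + 1)).exists_max_image g Finset.nonempty_range_add_one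
  refine ⟨m, fun n => ?_⟩
  rcases le_or_gt n N with hn | hn
  · exact hm n (Finset.mem_range.2 (by omega))
  · have h1 := hm 0 (Finset.mem_range.2 (by omega))
    have h2 : (N : ℝ) ≤ n := by exact_mod_cast hn.le
    rw [div_le_iff₀ hδ] at hN
    nlinarith [h n]

theorem cons (x : ℤ → ℝ) {a b c : ℤ} (h1 : a ≤ b) (h2 : b ≤ c) :
    ∑ r ∈ Finset.Ico a c, x r = ∑ r ∈ Finset.Ico a b, x r + ∑ r ∈ Finset.Ico b c, x r := by
  rw [← Finset.sum_union (Finset.Ico_disjoint_Ico_consecutive a b c),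
    Finset.Ico_union_Ico_eq_Ico h1 h2]

theorem inj {D : ℤ → ℝ} (hD : ∀ r, 0 ≤ D r) {P : Finset (ℤ × ℤ)} {f : ℤ × ℤ → ℤ} {A : Finset ℤ}
    (hf : InjOn f P) (hA : ∀ p ∈ P, f p ∈ A) : ∑ p ∈ P, D (f p) ≤ ∑ r ∈ A, D r := by
  rw [← Finset.sum_image hf]
  exact Finset.sum_le_sum_of_subset_of_nonneg (Finset.image_subset_iff.2 hA) fun r _ _ => hD r

end SunL

theorem sun : SunStmt := by
  intro x C δ hδ h j₀ j₁
  constructor
  · obtain ⟨m, hm⟩ := SunL.exMax (g := fun n => ∑ r ∈ Finset.Ico (j₀ - n) j₀, x r) (C := C) hδ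
      (by simp) fun n => (h _ _ (by omega)).trans_eq (by push_cast; ring)
    refine ⟨j₀ - m, by omega, fun s hs => ?_, by simpa using hm 0⟩
    have h1 := hm (j₀ - s).toNat
    rw [show j₀ - ((j₀ - s).toNat : ℤ) = s by omega, SunL.cons x hs (by omega)] at h1
    linarith
  · obtain ⟨m, hm⟩ := SunL.exMax (g := fun n => ∑ r ∈ Finset.Ico j₁ (j₁ + n), x r) (C := C) hδ
      (by simp) fun n => (h _ _ (by omega)).trans_eq (by push_cast; ring)
    refine ⟨j₁ + m, by omega, fun t ht => ?_, by simpa using hm 0⟩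
    have h1 := hm (t - j₁).toNat
    rw [show j₁ + ((t - j₁).toNat : ℤ) = t by omega, SunL.cons x (by omega) ht] at h1
    linarith

theorem sumS : SumStmt := by
  classical
  intro K c ρ2 L q D Pr hK hc hq hD hP h1 h2 hS
  have hD0 : ∀ r, 0 ≤ D r := fun r => (hD r).1
  obtain ⟨F, hF⟩ : ∃ F : ℕ → ℝ, ∀ T, F T = ∑ r ∈ Finset.Icc (-(T : ℤ)) T, D r := ⟨_, fun _ => rfl⟩
  have hF0 : ∀ T, 0 ≤ F T := fun T => by rw [hF]; exact Finset.sum_nonneg fun r _ => hD0 r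
  have hF1 : ∀ T, F T ≤ (2 * T + 1) * ρ2 := fun T => by
    rw [hF]
    refine (Finset.sum_le_card_nsmul _ _ ρ2 fun r _ => (hD r).2).trans_eq ?_
    rw [Int.card_Icc, show ((T : ℤ) + 1 - -T).toNat = 2 * T + 1 by omega, nsmul_eq_mul]
    push_cast
    ring
  have hF2 : ∀ T, F T ≤ F (T + L) / 2 := fun T => by
    obtain ⟨A, hA⟩ : ∃ A, A = Finset.Icc (-((T + L : ℕ) : ℤ)) ((T + L : ℕ) : ℤ) := ⟨_, rfl⟩
    obtain ⟨P, hPe⟩ : ∃ P, P = (A ×ˢ A).filter fun p => p ∈ Pr := ⟨_, rfl⟩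
    have hm : ∀ p, p ∈ P ↔ (p.1 ∈ A ∧ p.2 ∈ A) ∧ p ∈ Pr := fun p => by
      rw [hPe, Finset.mem_filter, Finset.mem_product]
    have k1 : q * F T ≤ ∑ p ∈ P, ∑ r ∈ Finset.Ioo p.1 p.2, D r := by
      calc q * F T ≤ ∑ r ∈ Finset.Icc (-(T : ℤ)) T, ∑ p ∈ P,
            if r ∈ Finset.Ioo p.1 p.2 then D r else 0 := by
            rw [hF, Finset.mul_sum]
            refine Finset.sum_le_sum fun r hr => ?_
            obtain ⟨S, hS1, hS2, hS3⟩ := hS r
            rw [← Finset.sum_filter, Finset.sum_const, nsmul_eq_mul]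
            refine mul_le_mul_of_nonneg_right (Nat.cast_le.2 (hS2.trans (Finset.card_le_card
              fun p hp => ?_))) (hD0 r)
            obtain ⟨a1, a2⟩ := hS3 p hp
            obtain ⟨-, a3, -⟩ := hP p (hS1 hp)
            rw [Finset.mem_Icc] at hr
            rw [Finset.mem_filter, hm, hA, Finset.mem_Icc, Finset.mem_Icc, Finset.mem_Ioo]
            exact ⟨⟨by omega, hS1 hp⟩, a1, a2⟩
        _ ≤ _ := by
            rw [Finset.sum_comm]
            refine Finset.sum_le_sum fun p _ => ?_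
            rw [← Finset.sum_filter]
            exact Finset.sum_le_sum_of_subset_of_nonneg (fun r hr => (Finset.mem_filter.1 hr).2)
              fun r _ _ => hD0 r
    have k2 : c * ∑ p ∈ P, ∑ r ∈ Finset.Ioo p.1 p.2, D r ≤
        8 * K * (∑ p ∈ P, D p.1 + ∑ p ∈ P, D p.2) := by
      rw [← Finset.sum_add_distrib, Finset.mul_sum, Finset.mul_sum]
      exact Finset.sum_le_sum fun p hp => (hP p ((hm p).1 hp).2).2.2
    have k3 := SunL.inj hD0 (h1.mono fun p hp => ((hm p).1 hp).2) fun p hp => ((hm p).1 hp).1.1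
    have k4 := SunL.inj hD0 (h2.mono fun p hp => ((hm p).1 hp).2) fun p hp => ((hm p).1 hp).1.2
    rw [hA, ← hF] at k3 k4
    have k5 := mul_le_mul_of_nonneg_left k1 hc.le
    have k6 := mul_le_mul_of_nonneg_right hq (hF0 T)
    have k7 := mul_le_mul_of_nonneg_left (add_le_add k3 k4) (by positivity : 0 ≤ 8 * K)
    refine le_of_mul_le_mul_left ?_ (by positivity : 0 < 32 * K)
    linarith
  have hF3 : ∀ k T : ℕ, F T ≤ F (T + k * L) * (1 / 2) ^ k := fun k => by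
    induction k with
    | zero => simp
    | succ k ih =>
      intro T
      have := ih (T + L)
      rw [show T + L + k * L = T + (k + 1) * L by ring] at this
      rw [pow_succ]
      linarith [hF2 T]
  have hF4 : ∀ T : ℕ, F T ≤ 0 := fun T => by
    have t1 := (tendsto_pow_atTop_nhds_zero_of_lt_one (r := (1 / 2 : ℝ)) (by norm_num)
      (by norm_num)).const_mul ((2 * T + 1) * ρ2)
    have t2 := (tendsto_self_mul_const_pow_of_lt_one (r := (1 / 2 : ℝ)) (by norm_num)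
      (by norm_num)).const_mul (2 * L * ρ2)
    have t3 := t1.add t2
    rw [mul_zero, mul_zero, add_zero] at t3
    refine ge_of_tendsto' t3 fun k => (hF3 k T).trans
      ((mul_le_mul_of_nonneg_right (hF1 _) (by positivity)).trans_eq ?_)
    push_cast
    ring
  intro r
  refine le_antisymm (le_trans ?_ (hF4 r.natAbs)) (hD0 r)
  rw [hF]
  exact Finset.single_le_sum (fun r _ => hD0 r) (Finset.mem_Icc.2 (by omega))

end Pool.Agent.MP_7bf9b2_an

end

section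

namespace Pool.Agent.MP_7bf9b2_an

open scoped Topology
open Set Filter MeasureTheory Metric

set_option maxSynthPendingDepth 3

variable {E : Type} [NormedAddCommGroup E] [InnerProductSpace ℝ E] [FiniteDimensional ℝ E]

namespace UsubL

/-- values of paths ending at `z` at an integer time -/
def SS (G : Geo E) (Λ : PP E → ℝ) (α : ℝ) (z : E) : Set ℝ :=
  {a | ∃ (l : ℕ) (x : E) (A : ℝ), x ∈ G.M₀ ∧ Path G Λ x 0 z l A ∧ a = A + α * l}

theorem zero_mem (hB : Bas E) {G : Geo E} {Λ : PP E → ℝ} (α : ℝ) {z : E} (hz : z ∈ G.M₀) :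
    (0 : ℝ) ∈ SS G Λ α z := by
  refine ⟨0, z, 0, hz, ?_, by simp⟩
  rw [Nat.cast_zero]
  exact hB.pth.refl.2 ⟨rfl, G.M_sub_U1 hz, le_rfl⟩

theorem lower (hB : Bas E) (hC : ConnStmt E) (hX : BdxStmt E) {G : Geo E} {Λ : PP E → ℝ}
    {α : ℝ} (hL : Lag G Λ) (hlow : Low G Λ α) :
    ∃ C : ℝ, ∀ z ∈ G.M₀, ∀ a ∈ SS G Λ α z, -C ≤ a := by
  obtain ⟨T₀, -, hT⟩ := hC G
  obtain ⟨κ, K, hBd⟩ := hX hL 0 le_rfl
  refine ⟨(K + α) * T₀, fun z hz a ha => ?_⟩
  obtain ⟨l, x, A, hx, hP, rfl⟩ := ha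
  have h1 := hT Λ K hL (fun p hp hv => (le_abs_self _).trans (hBd.b0 p hp (by linarith))) z hz x hx
    (l : ℝ)
  have h2 := hB.pth.concat hL hP h1
  have h3 := hlow (l + T₀) x 0 (A + K * T₀) (by
    rw [zero_add, Nat.cast_add]; exact h2)
  rw [Nat.cast_add] at h3
  linarith

end UsubL

open UsubL in
theorem usub (hB : Bas E) (hC : ConnStmt E) (hM : ModStmt E) (hX : BdxStmt E) : UsubStmt E := by
  intro G Λ α hL hlow
  obtain ⟨C, hCl⟩ := lower hB hC hX hL hlow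
  have hbdd : ∀ z ∈ G.M₀, BddBelow (SS G Λ α z) := fun z hz => ⟨-C, fun a ha => hCl z hz a ha⟩
  have hne : ∀ z ∈ G.M₀, (SS G Λ α z).Nonempty := fun z hz => ⟨0, zero_mem hB α hz⟩
  have hle0 : ∀ z ∈ G.M₀, sInf (SS G Λ α z) ≤ 0 := fun z hz =>
    csInf_le (hbdd z hz) (zero_mem hB α hz)
  refine ⟨fun z => sInf (SS G Λ α z), ?_, ⟨|C|, fun x hx => ?_⟩, ?_⟩
  · intro z hz c hc
    obtain ⟨a, ha, hac⟩ := exists_lt_of_csInf_lt (hne z hz) hc
    obtain ⟨l, x, A, hx, hP, rfl⟩ := ha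
    rcases Nat.eq_zero_or_pos l with rfl | hl
    · rw [Nat.cast_zero] at hP hac
      have hA := (hB.pth.refl.1 hP).2.2
      filter_upwards [self_mem_nhdsWithin] with z' hz'
      have := hle0 z' hz'
      show sInf (SS G Λ α z') < c
      linarith
    · obtain ⟨γ, K, hγ, hmem, h0, h1, hact⟩ := hB.pth.proj hL hP
      rw [G.fix x hx] at h0
      rw [G.fix z hz] at h1
      have hl' : (0 : ℝ) < l := by exact_mod_cast hl
      obtain ⟨δ', hδ', hmod⟩ := hM hL hl' ⟨K, hγ.lipschitzOnWith⟩ (fun τ _ => hmem τ)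
        ((c - (A + α * l)) / 2) (by linarith)
      have hb : closedBall z δ' ∈ 𝓝[G.M₀] z :=
        mem_nhdsWithin_of_mem_nhds (closedBall_mem_nhds z hδ')
      filter_upwards [self_mem_nhdsWithin, hb] with z' hz' hzb
      have h2 := hmod 0 (z' - z) (by simpa using hδ'.le) (by rwa [mem_closedBall, dist_eq_norm] at hzb)
      rw [h0, h1, add_zero, add_sub_cancel] at h2
      have h3 : sInf (SS G Λ α z') ≤ act Λ γ 0 l + (c - (A + α * l)) / 2 + α * l :=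
        csInf_le (hbdd z' hz') ⟨l, x, _, hx, h2, rfl⟩
      show sInf (SS G Λ α z') < c
      linarith
  · have h1 := hle0 x hx
    have h2 : -C ≤ sInf (SS G Λ α x) := le_csInf (hne x hx) (hCl x hx)
    rw [abs_le]
    constructor
    · linarith [le_abs_self C]
    · linarith [abs_nonneg C]
  · intro x hx z hz i k A hP
    have hik : i ≤ k := by exact_mod_cast hP.1
    obtain ⟨m, hm⟩ : ∃ m : ℕ, (m : ℤ) = k - i := ⟨(k - i).toNat, Int.toNat_of_nonneg (by omega)⟩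
    have hm' : (m : ℝ) = k - i := by exact_mod_cast hm
    have key : sInf (SS G Λ α z) - A - α * (k - i) ≤ sInf (SS G Λ α x) := by
      refine le_csInf (hne x hx) fun a ha => ?_
      obtain ⟨l, x', A', hx', hP', rfl⟩ := ha
      have h1 := hB.pth.shift ((l : ℤ) - i) hL hP
      have e1 : (i : ℝ) + (((l : ℤ) - i : ℤ) : ℝ) = l := by push_cast; ring
      have e2 : (k : ℝ) + (((l : ℤ) - i : ℤ) : ℝ) = ((l + m : ℕ) : ℝ) := by
        push_cast; rw [hm']; ring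
      rw [e1, e2] at h1
      have h2 := hB.pth.concat hL hP' h1
      have h3 : sInf (SS G Λ α z) ≤ A' + A + α * ((l + m : ℕ) : ℝ) :=
        csInf_le (hbdd z hz) ⟨l + m, x', _, hx', h2, rfl⟩
      rw [Nat.cast_add, hm'] at h3
      linarith
    show sInf (SS G Λ α z) ≤ sInf (SS G Λ α x) + A + α * (k - i)
    linarith

end Pool.Agent.MP_7bf9b2_an

end

section

/-! The Weierstrass lower bound for the action near an Euler-Lagrange curve. -/

set_option maxSynthPendingDepth 3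

namespace Pool.Agent.MP_7bf9b2_an

open scoped Topology
open Set Filter MeasureTheory Metric

variable {E : Type} [NormedAddCommGroup E] [InnerProductSpace ℝ E] [FiniteDimensional ℝ E]

namespace WeiL

omit [InnerProductSpace ℝ E] [FiniteDimensional ℝ E] in
theorem cv_sub {f g : ℝ → E} {a b : ℝ} (hf : Cv f a b) (hg : Cv g a b) :
    Cv (fun τ => f τ - g τ) a b := by
  obtain ⟨C, hC⟩ := hf
  obtain ⟨D, hD⟩ := hg
  rw [lipschitzOnWith_iff_restrict] at hC hD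
  exact ⟨C + D, lipschitzOnWith_iff_restrict.2 (hC.sub hD)⟩

theorem len (hB : Bas E) {ξ : ℝ → E} {a b t : ℝ} (hξ : Cv ξ a b) (ht : t ∈ Icc a b) :
    ‖ξ t‖ - ‖ξ a‖ ≤ ∫ τ in a..b, ‖deriv ξ τ‖ := by
  have hab : a ≤ b := ht.1.trans ht.2
  have hξ' : Cv ξ a t := by
    obtain ⟨C, hC⟩ := hξ
    exact ⟨C, hC.mono (Icc_subset_Icc_right ht.2)⟩
  calc ‖ξ t‖ - ‖ξ a‖ ≤ ‖ξ t - ξ a‖ := norm_sub_norm_le _ _
    _ = ‖∫ τ in a..t, deriv ξ τ‖ := by rw [(hB.cur.ftc ht.1 hξ').2]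
    _ ≤ ∫ τ in a..t, ‖deriv ξ τ‖ := intervalIntegral.norm_integral_le_integral_norm ht.1
    _ ≤ ∫ τ in a..b, ‖deriv ξ τ‖ :=
      intervalIntegral.integral_mono_interval le_rfl ht.1 ht.2
        (Eventually.of_forall fun τ => norm_nonneg _) (hB.cur.ftc hab hξ).1.norm

end WeiL

theorem wei (hB : Bas E) : WeiStmt E := by
  intro G Λ y η R κ K a b m θ hL hBd hy hab hR hη hm hm2 h0 h1 hK t ht
  have hy1 : ContDiff ℝ 1 y := hy.cu.c2.of_le (by norm_num)
  have hyd : Differentiable ℝ y := hy1.differentiable one_ne_zero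
  obtain ⟨ξ, hξd⟩ : ∃ ξ : ℝ → E, ξ = fun τ => η τ - y τ := ⟨_, rfl⟩
  have hξ : Cv ξ a b := hξd ▸ WeiL.cv_sub hη (hB.cur.c1 a b hy1)
  have hξa : ∀ τ, ξ τ = η τ - y τ := fun τ => by rw [hξd]
  have I1 : IntervalIntegrable (fun τ => Λ (ph η τ)) volume a b :=
    hB.cur.intF (S := G.U) hab hη hL.smooth.continuousOn fun τ hτ =>
      G.U1_sub_U (G.mem_U1 (hy.cu.mem τ) ((hm τ hτ).trans hm2))
  have I2 : IntervalIntegrable (fun τ => Λ (ph y τ)) volume a b :=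
    (hB.el.cL hL hy.cu).intervalIntegrable a b
  have I3 : IntervalIntegrable (fun τ => fderiv ℝ Λ (ph y τ) (ξ τ, deriv ξ τ, 0)) volume a b := by
    have hc : Continuous fun p : PP E => fderiv ℝ Λ (ph y p.2.2) (p.1, p.2.1, 0) :=
      ((hB.el.cD1 hL hy.cu).continuous.comp (continuous_snd.comp continuous_snd)).clm_apply
        (by fun_prop)
    exact hB.cur.intF (S := univ) hab hξ hc.continuousOn fun _ _ => mem_univ _
  have I4 : IntervalIntegrable (fun τ => ‖deriv ξ τ‖) volume a b := (hB.cur.ftc hab hξ).1.norm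
  have hae : ∀ᵐ τ ∂(volume.restrict (Icc a b)),
      (κ * θ - K * m) * ‖deriv ξ τ‖ - (κ * θ ^ 2 / 2 + K * m ^ 2 / 2) ≤
        Λ (ph η τ) - Λ (ph y τ) - fderiv ℝ Λ (ph y τ) (ξ τ, deriv ξ τ, 0) := by
    obtain ⟨C, hC⟩ := hη
    rw [ae_restrict_iff' measurableSet_Icc]
    filter_upwards [hB.cur.ae hC] with τ hτ hmem
    have hd : deriv ξ τ = deriv η τ - deriv y τ := by
      rw [hξd]
      exact deriv_fun_sub (hτ hmem).1 (hyd τ)
    have h := hB.tay.hub hL hBd (y τ) (deriv y τ) (ξ τ) (deriv ξ τ) τ m θ (hy.cu.mem τ)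
      (hR τ hmem) (by rw [hξa]; exact hm τ hmem) hm2 h0 h1
    have e : (y τ + ξ τ, deriv y τ + deriv ξ τ, τ) = ph η τ := by
      rw [hd, hξa, add_sub_cancel, add_sub_cancel]
      rfl
    rw [e] at h
    have e' : (y τ, deriv y τ, τ) = ph y τ := rfl
    rw [e'] at h
    linarith
  have hint := intervalIntegral.integral_mono_ae_restrict hab
    ((I4.const_mul (κ * θ - K * m)).sub intervalIntegrable_const) ((I1.sub I2).sub I3) hae
  rw [intervalIntegral.integral_sub (I4.const_mul _) intervalIntegrable_const,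
    intervalIntegral.integral_sub (I1.sub I2) I3, intervalIntegral.integral_sub I1 I2,
    intervalIntegral.integral_const_mul, intervalIntegral.integral_const,
    hB.el.fv hL hy hab hξ, smul_eq_mul] at hint
  have hlen := mul_le_mul_of_nonneg_left (WeiL.len hB hξ ht) (sub_nonneg.2 hK)
  simp only [hξa] at hint hlen
  unfold act
  linarith

end Pool.Agent.MP_7bf9b2_an

end

section

namespace Pool.Agent.MP_7bf9b2_an

variable {E : Type} [NormedAddCommGroup E] [InnerProductSpace ℝ E] [FiniteDimensional ℝ E]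

theorem bas : Bas E :=
  ⟨cur, pth cur, el cur, shf (pth cur) (el cur), tay, ddS⟩

theorem tonAll : TonStmt E :=
  ton bas (lim bas (lim1 bas) (lim2 bas (bdx bas) (wei bas) (modS bas)) (lim3 bas)
    (shoot bas (flb bas))) (pext bas) (wei bas) (bdx bas)

theorem uniAll : UniStmt E :=
  uni (slow bas (conn bas) (bdx bas)) (gron bas (flb bas) (bdx bas)) (bdx bas) bdp (acc bas)

theorem critAll : CritStmt E := crit bas (gap bas (vl bas))

theorem cutAll : CutStmt E := cut bas (vl bas)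

theorem prepAll : PrepStmt E :=
  prep bas (prep1 bas tonAll critAll (stat bas (vl bas)) (near bas (tube bas))) (cvx1 bas)
    (cvx2 bas) (cvx3 bas) (tube bas) (four bas (vlc bas) cutAll)

theorem amAll : AmStmt E :=
  am bas uniAll tonAll critAll (gap2 (gap bas (vl bas))) (psi bas) addp
    (lk bas (cb sun sumS) dich prepAll (one bas (vl bas) cutAll) (two bas (vl bas) cutAll)
      (five bas (conn bas)) (cross bas (vl bas)) (gon bas) (endS bas))
    (lk0 bas (cb0 sun sumS) prepAll (one bas (vl bas) cutAll) (five bas (conn bas)) (endS bas))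

theorem msAll : Ms3Stmt E :=
  ms3 bas ms1 ms2 (usub bas (conn bas) (modS bas) (bdx bas)) (cal bas)

end Pool.Agent.MP_7bf9b2_an

end
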