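import Pool.Agent.Mg.F7bf9b2.G21a10a
import Pool.Agent.Mg.F7bf9b2.Gcdaad4
import Pool.Agent.Mg.F7bf9b2.G4483eb

section

/-!
Orbits of the Euler-Lagrange flow on `M` give Euler-Lagrange curves of the ambient Lagrangian.
-/

set_option maxSynthPendingDepth 3
set_option linter.unusedSectionVars false

namespace Pool.Agent.MP_7bf9b2_an

open scoped Topology Manifold ContDiff
open Set Filter MeasureTheory Metric

variable {V : Type} [NormedAddCommGroup V] [NormedSpace ℝ V] [FiniteDimensional ℝ V]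
  {M : Type} [TopologicalSpace M] [ChartedSpace V M] [IsManifold 𝓘(ℝ, V) ∞ M]
  {E : Type} [NormedAddCommGroup E] [InnerProductSpace ℝ E] [FiniteDimensional ℝ E]

namespace AElL

theorem he2 (a : Amb V M E) : ContMDiff 𝓘(ℝ, V) 𝓘(ℝ, E) 2 a.e :=
  a.he.of_le (WithTop.coe_le_coe.2 (le_top : (2 : ℕ∞) ≤ ⊤))

theorem cd (a : Amb V M E) {c : ℝ → M} (hc : IsC2Curve V c) :
    ContDiff ℝ 2 fun s => a.e (c s) :=
  contMDiff_iff_contDiff.1 ((he2 a).comp hc)

theorem vel_eq (a : Amb V M E) (w : TT V M) (x : M) (v : V) (h : w.1 = tv x v) :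
    a.vel w = mfderiv 𝓘(ℝ, V) 𝓘(ℝ, E) a.e x v := by
  obtain ⟨w1, w2⟩ := w
  obtain rfl : w1 = tv x v := h
  rfl

theorem dv (a : Amb V M E) {c : ℝ → M} (hc : IsC2Curve V c) (s : ℝ) :
    deriv (fun s => a.e (c s)) s =
      mfderiv 𝓘(ℝ, V) 𝓘(ℝ, E) a.e (c s) (mfderiv 𝓘(ℝ, ℝ) 𝓘(ℝ, V) c s (1 : ℝ)) := by
  have h1 : MDifferentiableAt 𝓘(ℝ, V) 𝓘(ℝ, E) a.e (c s) :=
    (he2 a).mdifferentiableAt (by norm_num)
  have h2 : MDifferentiableAt 𝓘(ℝ, ℝ) 𝓘(ℝ, V) c s :=
    ContMDiff.mdifferentiableAt hc (by norm_num)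
  have h3 := mfderiv_comp s h1 h2
  rw [mfderiv_eq_fderiv] at h3
  have h4 : deriv (fun s => a.e (c s)) s = fderiv ℝ (a.e ∘ c) s 1 := rfl
  rw [h4, h3]
  rfl

theorem cl_add (s t : ℝ) : cl (s + t) = cl s + cl t := rfl

end AElL

theorem ael (h1 : Ch1Stmt V M) (h2 : Ch2Stmt V M E) (hc : ElCoreStmt V E) : AElStmt V M E := by
  intro a ℒ Φ hℒ hΦ z t₀ hz
  have hs := hΦ.smooth z
  have hy0 : ContDiff ℝ 2 fun s => a.e (Φ s z).1.proj := AElL.cd a hs
  have hy : ContDiff ℝ 2 fun t => a.pos (Φ (t - t₀) z) :=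
    hy0.comp (contDiff_id.sub contDiff_const)
  have hmem : ∀ w : TT V M, a.pos w ∈ a.G.M₀ := fun w => by
    rw [a.rng]; exact ⟨_, rfl⟩
  refine ⟨⟨⟨hy, fun t => hmem _⟩, fun t => ?_⟩, fun t => ?_⟩
  · have ht : (Φ (t - t₀) z).2 = cl t := by
      rw [hΦ.time, hz, ← AElL.cl_add]; congr 1; ring
    have hel := hΦ.el (Φ (t - t₀) z) t ht
    refine hc (W := a.W (Φ (t - t₀) z).1.proj) (T := (chartAt V (Φ (t - t₀) z).1.proj).target)
      (h := a.hc (Φ (t - t₀) z).1.proj) (r := a.G.r)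
      (ℓ := fun p => ℒ (coord (Φ (t - t₀) z).1.proj p.1 p.2.1, cl p.2.2))
      (h2.oW a _) (chartAt V _).open_target (h2.cW a _) (a.G.smoothU.mono inter_subset_left)
      (fun w hw => (chartAt V _).map_source hw.2) (h1.loc hℒ _) (fun p hp => ?_) hy ?_
      (fun t => a.G.fix _ (hmem _)) ?_
    · unfold Amb.amb Amb.lift
      rw [h2.lt_eq a _ p.1 hp]
    · refine ⟨a.G.M_sub_U (hmem _), ?_⟩
      show a.pr (a.e (Φ (t - t₀) z).1.proj) ∈ (chartAt V (Φ (t - t₀) z).1.proj).source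
      rw [a.inv]
      exact mem_chart_source V _
    · have e1 : (fun s => a.hc (Φ (t - t₀) z).1.proj (a.pos (Φ (t + s - t₀) z))) =
          fun s : ℝ => chartAt V (Φ (t - t₀) z).1.proj (Φ s (Φ (t - t₀) z)).1.proj := by
        funext s
        unfold Amb.hc Amb.pos
        rw [a.inv, ← Φ.map_add, show s + (t - t₀) = t + s - t₀ by ring]
      rw [e1]
      exact hel
  · have e1 : deriv (fun t => a.pos (Φ (t - t₀) z)) t =
        deriv (fun s => a.e (Φ s z).1.proj) (t - t₀) :=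
      deriv_comp_sub_const (fun s => a.e (Φ s z).1.proj) t₀ t
    rw [e1, AElL.dv a hs, AElL.vel_eq a _ _ _ (hΦ.vel (t - t₀) z)]

end Pool.Agent.MP_7bf9b2_an

end

section

/-! The Euler-Lagrange flow read in the ambient model. -/

set_option maxSynthPendingDepth 3
set_option linter.unusedSectionVars false

namespace Pool.Agent.MP_7bf9b2_an

open scoped Topology Manifold ContDiff
open Set Filter MeasureTheory Metric

variable {V : Type} [NormedAddCommGroup V] [NormedSpace ℝ V] [FiniteDimensional ℝ V]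
  {M : Type} [TopologicalSpace M] [ChartedSpace V M] [IsManifold 𝓘(ℝ, V) ∞ M]
  {E : Type} [NormedAddCommGroup E] [InnerProductSpace ℝ E] [FiniteDimensional ℝ E]

namespace AFlL

theorem cl_add (s t : ℝ) : cl (s + t) = cl s + cl t := rfl

theorem cl_zero : cl 0 = 0 := rfl

theorem cl_one (s : ℝ) : cl (s + 1) = cl s := AddCircle.coe_add_period 1 s

theorem cl_surj (c : Ci) : ∃ t, c = cl t := by
  obtain ⟨t, rfl⟩ := QuotientAddGroup.mk_surjective c
  exact ⟨t, rfl⟩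

end AFlL

theorem afl (h1 : Ch1Stmt V M) (h2 : Ch2Stmt V M E) (he : AElStmt V M E) : AFlStmt V M E := by
  intro a ℒ Φ hC hE
  have hph : ∀ (p : PP E) (t : ℝ), ph (fun t => a.pos (Φ (t - p.2.2) (a.lift p))) t =
      (a.pos (Φ (t - p.2.2) (a.lift p)), a.vel (Φ (t - p.2.2) (a.lift p)), t) := fun p t => by
    rw [ph, (he a hC hE (a.lift p) p.2.2 rfl).2 t]
  have htm : ∀ (p : PP E) (t : ℝ), (Φ (t - p.2.2) (a.lift p)).2 = cl t := fun p t => by
    rw [hE.time]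
    change cl p.2.2 + cl (t - p.2.2) = cl t
    rw [← AFlL.cl_add, add_sub_cancel]
  refine ⟨fun p t => a.pos (Φ (t - p.2.2) (a.lift p)),
    ⟨fun p _ => (he a hC hE (a.lift p) p.2.2 rfl).1, fun p hp => ?_, ?_, fun p _ t => ?_,
      fun x v s _ t => ?_⟩,
    ⟨continuous_snd, h2.cpos a, h1.cont hC, hE.time, fun z z' e1 e2 e3 => ?_, fun z t hz => ?_,
      fun z hz => ?_, fun z hz t => ?_, ?_⟩⟩
  · have h := h2.dr a p (a.G.M_sub_U hp.1)
    rw [hph, sub_self, Flow.map_zero_apply, h.1, h.2, a.G.fix _ hp.1, hp.2]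
  · have hc : ContinuousOn (fun q : PP E × ℝ => Φ (q.2 - q.1.2.2) (a.lift q.1))
        (a.G.TM ×ˢ univ) := by
      refine Φ.cont'.comp_continuousOn (f := fun q : PP E × ℝ => (q.2 - q.1.2.2, a.lift q.1))
        (ContinuousOn.prodMk (by fun_prop) ?_)
      exact (h2.clift a).comp continuousOn_fst fun q hq => a.G.M_sub_U hq.1.1
    refine ContinuousOn.congr ?_ fun q _ => hph q.1 q.2
    exact ((h2.cpos a).comp_continuousOn hc).prodMk
      (((h2.cvel a).comp_continuousOn hc).prodMk continuousOn_snd)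
  · funext s
    rw [hph, h2.lift_pv a _ t (htm p t), ← Flow.map_add]
    congr 2
    ring
  · have e : a.lift (x, v, s + 1) = a.lift (x, v, s) := Prod.ext rfl (AFlL.cl_one s)
    rw [e]
    congr 2
    ring
  · obtain ⟨t, ht⟩ := AFlL.cl_surj z.2
    rw [← h2.lift_pv a z t ht, e1, e2, h2.lift_pv a z' t (e3.symm.trans ht)]
  · have h := h2.tm a z t
    rw [Amb.amb, h2.lift_pv a z t hz, h.2, a.G.fix _ h.1]
    simp
  · simpa only [sub_zero] using (he a hC hE z 0 hz).1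
  · simpa only [sub_zero] using (he a hC hE z 0 hz).2 t
  · rintro Γ ⟨p, -, rfl⟩
    refine ⟨Φ (0 - p.2.2) (a.lift p), htm p 0, fun t => ?_⟩
    rw [← Flow.map_add, zero_sub, ← sub_eq_add_neg]

end Pool.Agent.MP_7bf9b2_an

end

section

/-!
The ambient Lagrangian: smoothness, periodicity, retraction and pointwise superlinearity.
-/

namespace Pool.Agent.MP_7bf9b2_an

open scoped Topology Manifold ContDiff
open Set Filter MeasureTheory Metric

set_option linter.unusedSectionVars false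
set_option maxSynthPendingDepth 3

variable {V : Type} [NormedAddCommGroup V] [NormedSpace ℝ V] [FiniteDimensional ℝ V]
  {M : Type} [TopologicalSpace M] [ChartedSpace V M] [IsManifold 𝓘(ℝ, V) ∞ M]
  {E : Type} [NormedAddCommGroup E] [InnerProductSpace ℝ E] [FiniteDimensional ℝ E]

namespace ALag1L

theorem cl_add_one (t : ℝ) : cl (t + 1) = cl t := AddCircle.coe_add_period 1 t

theorem low {f : V → ℝ} (hc : Continuous f)
    (h : Tendsto (fun v : V => f v / ‖v‖) (cocompact V) atTop) (A : ℝ) :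
    ∃ C : ℝ, ∀ v : V, A * ‖v‖ - C ≤ f v := by
  obtain ⟨K, hK, hKA⟩ := mem_cocompact.1 (h.eventually_ge_atTop A)
  have hcont : Continuous fun v : V => A * ‖v‖ - f v :=
    (continuous_const.mul continuous_norm).sub hc
  obtain ⟨C, hC⟩ := (hK.insert 0).bddAbove_image hcont.continuousOn
  refine ⟨max C 0, fun v => ?_⟩
  by_cases hv : v ∈ insert (0 : V) K
  · have : A * ‖v‖ - f v ≤ C := hC (mem_image_of_mem _ hv)
    linarith [le_max_left C 0]
  · have h0 : 0 < ‖v‖ := norm_pos_iff.2 fun h0 => hv (h0 ▸ mem_insert _ _)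
    have h1 : A ≤ f v / ‖v‖ := hKA fun h1 => hv (mem_insert_of_mem _ h1)
    rw [le_div_iff₀ h0] at h1
    linarith [le_max_right C 0]

theorem smooth2 (G : Geo E) :
    ContDiffOn ℝ 2 (fun p : PP E => ‖p.2.1 - fderiv ℝ G.r p.1 p.2.1‖ ^ 2 / 2) G.Om := by
  have h1 : ContDiffOn ℝ 2 (fderiv ℝ G.r) G.U :=
    G.smoothU.fderiv_of_isOpen G.isOpen_U (by norm_num)
  have h2 : ContDiffOn ℝ 2 (fun p : PP E => fderiv ℝ G.r p.1) G.Om :=
    h1.comp contDiffOn_fst fun _ hp => hp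
  have h3 : ContDiffOn ℝ 2 (fun p : PP E => p.2.1) G.Om := contDiffOn_snd.fst
  exact ((h3.sub (h2.clm_apply h3)).norm_sq ℝ).div_const 2

theorem smooth3 (G : Geo E) :
    ContDiffOn ℝ 2 (fun p : PP E => ‖p.1 - G.r p.1‖ ^ 2 / 2) G.Om := by
  have h1 : ContDiffOn ℝ 2 G.r G.U := G.smoothU.of_le (by norm_num)
  have h2 : ContDiffOn ℝ 2 (fun p : PP E => G.r p.1) G.Om := h1.comp contDiffOn_fst fun _ hp => hp
  exact ((contDiffOn_fst.sub h2).norm_sq ℝ).div_const 2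

/-- the differential of the embedding -/
noncomputable def dE (a : Amb V M E) (x : M) : V →L[ℝ] E := mfderiv 𝓘(ℝ, V) 𝓘(ℝ, E) a.e x

/-- the differential of the retraction -/
noncomputable def dP (a : Amb V M E) (z v : E) : V := mfderiv 𝓘(ℝ, E) 𝓘(ℝ, V) a.pr z v

end ALag1L

theorem alag1 (h1 : Ch1Stmt V M) (h2 : Ch2Stmt V M E) : ALag1Stmt V M E := by
  intro a ℒ hT
  refine ⟨?_, fun z v t => ?_, fun z hz v t => ?_, fun z hz t A => ?_⟩
  · exact ((h2.c2 a hT.smooth).add (ALag1L.smooth2 a.G)).add (ALag1L.smooth3 a.G)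
  · simp only [Amb.amb, Amb.lift, ALag1L.cl_add_one]
  · obtain ⟨e1, e2⟩ := h2.dr a (z, v, t) hz
    have e3 := h2.lift_pv a (a.lift (z, v, t)) t rfl
    have e4 := h2.tm a (a.lift (z, v, t)) t
    rw [e1, e2] at e3 e4
    have e5 : fderiv ℝ a.G.r (a.G.r z) (fderiv ℝ a.G.r z v) = fderiv ℝ a.G.r z v := e4.2
    have e6 : a.G.r (a.G.r z) = a.G.r z := a.G.fix _ e4.1
    have e7 : a.lift (a.G.r z, fderiv ℝ a.G.r z v, t) = a.lift (z, v, t) := e3
    simp only [Amb.amb, e5, e6, e7, sub_self, norm_zero]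
    have := sq_nonneg ‖v - fderiv ℝ a.G.r z v‖
    linarith
  · obtain ⟨C, hC⟩ := ALag1L.low (f := fun u : V => ℒ (tv (a.pr z) u, cl t))
      (h1.fib hT.smooth (a.pr z) t).continuous (hT.superlinear (a.pr z) (cl t))
      (|A| * ‖ALag1L.dE a (a.pr z)‖)
    refine ⟨C + A ^ 2 / 2, fun v => ?_⟩
    have e1 : ALag1L.dE a (a.pr z) (ALag1L.dP a z v) = fderiv ℝ a.G.r z v :=
      (h2.dr a (z, v, t) (a.G.U1_sub_U hz)).2
    have e2 : a.amb ℒ (z, v, t) = ℒ (tv (a.pr z) (ALag1L.dP a z v), cl t) +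
      ‖v - fderiv ℝ a.G.r z v‖ ^ 2 / 2 + ‖z - a.G.r z‖ ^ 2 / 2 := rfl
    have i1 := hC (ALag1L.dP a z v)
    have i2 := (ALag1L.dE a (a.pr z)).le_opNorm (ALag1L.dP a z v)
    rw [e1] at i2
    have i3 : ‖v‖ ≤ ‖v - fderiv ℝ a.G.r z v‖ + ‖fderiv ℝ a.G.r z v‖ := norm_le_norm_sub_add _ _
    have i4 : A * ‖v‖ ≤ |A| * ‖v‖ := mul_le_mul_of_nonneg_right (le_abs_self A) (norm_nonneg _)
    have i5 := mul_le_mul_of_nonneg_left (i3.trans (add_le_add_right i2 _)) (abs_nonneg A)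
    have i6 := sq_nonneg (‖v - fderiv ℝ a.G.r z v‖ - |A|)
    have i7 := sq_nonneg ‖z - a.G.r z‖
    have i8 := sq_abs A
    rw [e2]
    nlinarith

end Pool.Agent.MP_7bf9b2_an

end

section

/-! Functions on the tangent bundle read in charts. -/

set_option maxSynthPendingDepth 3

namespace Pool.Agent.MP_7bf9b2_an

open scoped Topology Manifold ContDiff
open Set Filter MeasureTheory Metric

set_option linter.unusedSectionVars false

variable {V : Type} [NormedAddCommGroup V] [NormedSpace ℝ V] [FiniteDimensional ℝ V]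
  {M : Type} [TopologicalSpace M] [ChartedSpace V M] [IsManifold 𝓘(ℝ, V) ∞ M]
  {E : Type} [NormedAddCommGroup E] [InnerProductSpace ℝ E] [FiniteDimensional ℝ E]

namespace Ch1L

theorem mk_model : ContMDiff 𝓘(ℝ, V × V × ℝ) 𝓘(ℝ, V).tangent 2
    fun p : V × V × ℝ => (tv p.1 p.2.1 : TB V V) := by
  intro p
  refine Bundle.contMDiffAt_totalSpace.2 ⟨contDiff_fst.contMDiff p, ?_⟩
  simp only [trivializationAt_model_space_apply]
  exact (contDiff_fst.comp contDiff_snd).contMDiff p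

theorem mk_fib (x : M) : ContMDiff 𝓘(ℝ, V) 𝓘(ℝ, V).tangent 2 fun v : V => (tv x v : TB V M) := by
  intro v
  refine Bundle.contMDiffAt_totalSpace.2 ⟨contMDiffAt_const, ?_⟩
  simp only [TangentBundle.trivializationAt_apply]
  exact (ContinuousLinearMap.contDiff (𝕜 := ℝ) (E := V) (F := V) (fderivWithin ℝ
    ((chartAt V x).extend 𝓘(ℝ, V) ∘ ((chartAt V x).extend 𝓘(ℝ, V)).symm) (range 𝓘(ℝ, V))
    ((chartAt V x).extend 𝓘(ℝ, V) x))).contMDiff v

theorem mk_coord (x₀ : M) : ContMDiffOn 𝓘(ℝ, V × V × ℝ) 𝓘(ℝ, V).tangent 2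
    (fun p : V × V × ℝ => coord x₀ p.1 p.2.1) {p | p.1 ∈ (chartAt V x₀).target} := by
  have h1 : ContMDiffOn 𝓘(ℝ, V) 𝓘(ℝ, V) ∞ (chartAt V x₀).symm (chartAt V x₀).target :=
    contMDiffOn_chart_symm
  have h2 := h1.contMDiffOn_tangentMapWithin (m := 2) (by norm_cast)
    (chartAt V x₀).open_target.uniqueMDiffOn
  refine (h2.comp mk_model.contMDiffOn fun p hp => hp).congr fun p hp => ?_
  have h3 : mfderivWithin 𝓘(ℝ, V) 𝓘(ℝ, V) (chartAt V x₀).symm (chartAt V x₀).target p.1 =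
      mfderiv 𝓘(ℝ, V) 𝓘(ℝ, V) (chartAt V x₀).symm p.1 :=
    mfderivWithin_of_isOpen (chartAt V x₀).open_target hp
  exact congrArg (fun A : V →L[ℝ] V => (tv ((chartAt V x₀).symm p.1) (A p.2.1) : TB V M)) h3.symm

end Ch1L

theorem ch1 : Ch1Stmt V M where
  loc := fun hF x₀ => contMDiffOn_iff_contDiffOn.1 (hF.comp_contMDiffOn
    ((Ch1L.mk_coord x₀).prodMk (contDiff_snd.comp contDiff_snd).contMDiff.contMDiffOn))
  fib := fun hF x _ => contMDiff_iff_contDiff.1 (hF.comp ((Ch1L.mk_fib x).prodMk contMDiff_const))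
  cont := fun hF => by
    have h : IsOpenQuotientMap (Prod.map (id : TB V M → TB V M) cl) :=
      IsOpenQuotientMap.id.prodMap QuotientAddGroup.isOpenQuotientMap_mk
    exact h.isQuotientMap.continuous_iff.2 hF.continuous
  pot := fun f x₀ => by
    have h1 : ContMDiffOn 𝓘(ℝ, V) 𝓘(ℝ, V) 2 (chartAt V x₀).symm (chartAt V x₀).target :=
      (contMDiffOn_chart_symm (n := ∞)).of_le (by norm_cast)
    have h2 : ContMDiffOn 𝓘(ℝ, V × ℝ) 𝓘(ℝ, V) 2 (fun p : V × ℝ => (chartAt V x₀).symm p.1)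
        ((chartAt V x₀).target ×ˢ univ) :=
      h1.comp contDiff_fst.contMDiff.contMDiffOn fun p hp => hp.1
    exact contMDiffOn_iff_contDiffOn.1 (f.smooth.comp_contMDiffOn
      (h2.prodMk contDiff_snd.contMDiff.contMDiffOn))

end Pool.Agent.MP_7bf9b2_an

end

section

namespace Pool.Agent.MP_7bf9b2_an

open scoped Topology Manifold ContDiff
open Set Filter MeasureTheory Metric

set_option maxSynthPendingDepth 3
set_option linter.unusedSectionVars false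

variable {V : Type} [NormedAddCommGroup V] [NormedSpace ℝ V] [FiniteDimensional ℝ V]
  {M : Type} [TopologicalSpace M] [ChartedSpace V M] [IsManifold 𝓘(ℝ, V) ∞ M]
  {E : Type} [NormedAddCommGroup E] [InnerProductSpace ℝ E] [FiniteDimensional ℝ E]

namespace Ch2L

variable (a : Amb V M E)

theorem oW (x₀ : M) : IsOpen (a.W x₀) :=
  a.hpr.continuousOn.isOpen_inter_preimage a.G.isOpen_U (chartAt V x₀).open_source

theorem cW (x₀ : M) : ContDiffOn ℝ 3 (a.hc x₀) (a.W x₀) := by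
  have h : ContMDiffOn 𝓘(ℝ, V) 𝓘(ℝ, V) 3 (chartAt V x₀) (chartAt V x₀).source :=
    (contMDiffOn_chart (n := ∞)).of_le (WithTop.coe_le_coe.2 (le_top (a := (3 : ℕ∞))))
  exact contMDiffOn_iff_contDiffOn.1 (h.comp (a.hpr.mono inter_subset_left) fun z hz => hz.2)

theorem dpr {z : E} (hz : z ∈ a.G.U) : MDifferentiableAt 𝓘(ℝ, E) 𝓘(ℝ, V) a.pr z :=
  (a.hpr.contMDiffAt (a.G.isOpen_U.mem_nhds hz)).mdifferentiableAt (by norm_num)

theorem de (x : M) : MDifferentiableAt 𝓘(ℝ, V) 𝓘(ℝ, E) a.e x :=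
  a.he.mdifferentiableAt (by simp)

theorem eM (x : M) : a.e x ∈ a.G.M₀ := by
  rw [a.rng]
  exact mem_range_self x

theorem lt_eq (x₀ : M) {z : E} (hz : z ∈ a.W x₀) (v : E) :
    a.lt z v = coord x₀ (a.hc x₀ z) (fderiv ℝ (a.hc x₀) z v) := by
  have h1 : a.pr =ᶠ[𝓝 z] (chartAt V x₀).symm ∘ a.hc x₀ := by
    filter_upwards [(oW a x₀).mem_nhds hz] with w hw
    exact ((chartAt V x₀).left_inv hw.2).symm
  have h2 : MDifferentiableAt 𝓘(ℝ, E) 𝓘(ℝ, V) (a.hc x₀) z :=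
    mdifferentiableAt_iff_differentiableAt.2
      (((cW a x₀).contDiffAt ((oW a x₀).mem_nhds hz)).differentiableAt (by norm_num))
  have h3 : MDifferentiableAt 𝓘(ℝ, V) 𝓘(ℝ, V) (chartAt V x₀).symm (a.hc x₀ z) :=
    mdifferentiableAt_atlas_symm (chart_mem_atlas V x₀) ((chartAt V x₀).map_source hz.2)
  have h4 := mfderiv_comp_apply z h3 h2 v
  rw [mfderiv_eq_fderiv] at h4
  refine congrArg₂ tv h1.eq_of_nhds (Eq.trans ?_ h4)
  exact DFunLike.congr_fun h1.mfderiv_eq v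

theorem lt_pv (z : TB V M) : a.lt (a.e z.proj) (mfderiv 𝓘(ℝ, V) 𝓘(ℝ, E) a.e z.proj z.snd) = z := by
  have h1 := mfderiv_comp_apply z.proj (dpr a (a.G.M_sub_U (eM a z.proj))) (de a z.proj) z.snd
  have h2 : a.pr ∘ a.e =ᶠ[𝓝 z.proj] id := Eventually.of_forall a.inv
  have h3 := (DFunLike.congr_fun h2.mfderiv_eq z.snd).trans
    (DFunLike.congr_fun (mfderiv_id (I := 𝓘(ℝ, V)) (x := z.proj)) z.snd)
  exact congrArg₂ tv (a.inv z.proj) (h1.symm.trans h3)

theorem lift_pv (z : TT V M) (t : ℝ) (h : z.2 = cl t) : a.lift (a.pos z, a.vel z, t) = z :=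
  Prod.ext (lt_pv a z.1) h.symm

theorem dr (p : PP E) (hp : p.1 ∈ a.G.U) :
    a.pos (a.lift p) = a.G.r p.1 ∧ a.vel (a.lift p) = fderiv ℝ a.G.r p.1 p.2.1 := by
  refine ⟨(a.hr p.1).symm, ?_⟩
  have h1 := mfderiv_comp_apply p.1 (de a (a.pr p.1)) (dpr a hp) p.2.1
  rw [mfderiv_eq_fderiv, show a.e ∘ a.pr = a.G.r from funext fun z => (a.hr z).symm] at h1
  exact h1.symm

theorem tm (z : TT V M) (t : ℝ) : (a.pos z, a.vel z, t) ∈ a.G.TM := by
  refine ⟨eM a _, ?_⟩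
  have h1 := (dr a (a.pos z, a.vel z, t) (a.G.M_sub_U (eM a _))).2
  have h2 : a.lift (a.pos z, a.vel z, t) = (z.1, cl t) := lift_pv a (z.1, cl t) t rfl
  rw [h2] at h1
  exact h1.symm

theorem cpos : Continuous a.pos :=
  a.he.continuous.comp ((FiberBundle.continuous_proj V (TangentSpace 𝓘(ℝ, V))).comp continuous_fst)

theorem cvel : Continuous a.vel :=
  (continuous_snd (X := E) (Y := E)).comp
    ((tangentBundleModelSpaceHomeomorph 𝓘(ℝ, E)).continuous.comp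
      ((a.he.continuous_tangentMap (by simp)).comp continuous_fst))

theorem ccl : Continuous cl := continuous_quotient_mk'

theorem clift : ContinuousOn a.lift a.G.Om := by
  have h1 := a.hpr.continuousOn_tangentMapWithin (by norm_num) a.G.isOpen_U.uniqueMDiffOn
  have h2 : Continuous fun p : PP E =>
      (tangentBundleModelSpaceHomeomorph 𝓘(ℝ, E)).symm ((p.1, p.2.1) : E × E) :=
    (tangentBundleModelSpaceHomeomorph 𝓘(ℝ, E)).symm.continuous.comp
      (show Continuous fun p : PP E => ((p.1, p.2.1) : E × E) by fun_prop)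
  refine ContinuousOn.prodMk ((h1.comp h2.continuousOn fun p hp => hp).congr fun p hp => ?_)
    (ccl.comp (continuous_snd.comp continuous_snd)).continuousOn
  exact congrArg (tv (a.pr p.1)) (DFunLike.congr_fun (mfderivWithin_of_isOpen
    (I := 𝓘(ℝ, E)) (I' := 𝓘(ℝ, V)) (f := a.pr) a.G.isOpen_U hp).symm p.2.1)

include a in
theorem t2 : T2Space (TT V M) := by
  refine T2Space.of_injective_continuous (f := fun z : TT V M => (a.pos z, a.vel z, z.2))
    (fun z z' h => ?_) ((cpos a).prodMk ((cvel a).prodMk continuous_snd))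
  obtain ⟨t, ht⟩ : ∃ t, cl t = z.2 := QuotientAddGroup.mk_surjective z.2
  simp only [Prod.mk.injEq] at h
  rw [← lift_pv a z t ht.symm, h.1, h.2.1, lift_pv a z' t (ht.trans h.2.2).symm]

theorem c2 (h1 : Ch1Stmt V M) {F : TB V M × ℝ → ℝ} (hF : IsC2 F) :
    ContDiffOn ℝ 2 (fun p : PP E => F (a.lt p.1 p.2.1, p.2.2)) a.G.Om := by
  intro p hp
  have hW : p.1 ∈ a.W (a.pr p.1) := ⟨hp, mem_chart_source V _⟩
  have hn := (oW a (a.pr p.1)).mem_nhds hW
  have h2 : ContDiffAt ℝ 2 (a.hc (a.pr p.1)) p.1 :=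
    ((cW a _).contDiffAt hn).of_le (by norm_num)
  have h3 : ContDiffAt ℝ 2 (fderiv ℝ (a.hc (a.pr p.1))) p.1 :=
    ((cW a _).fderiv_of_isOpen (oW a _) (by norm_num)).contDiffAt hn
  have h4 : ContDiffAt ℝ 2 (fun q : PP E =>
      ((a.hc (a.pr p.1) q.1, fderiv ℝ (a.hc (a.pr p.1)) q.1 q.2.1, q.2.2) : V × V × ℝ)) p :=
    (h2.comp p contDiffAt_fst).prodMk (((h3.comp p contDiffAt_fst).clm_apply
      contDiffAt_snd.fst).prodMk contDiffAt_snd.snd)
  have h5 := (h1.loc hF (a.pr p.1)).contDiffAt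
    (x := (a.hc (a.pr p.1) p.1, fderiv ℝ (a.hc (a.pr p.1)) p.1 p.2.1, p.2.2))
    (((chartAt V (a.pr p.1)).open_target.preimage continuous_fst).mem_nhds
      ((chartAt V (a.pr p.1)).map_source hW.2))
  refine ((h5.comp p h4).congr_of_eventuallyEq ?_).contDiffWithinAt
  filter_upwards [continuous_fst.continuousAt.preimage_mem_nhds hn] with q hq
  rw [lt_eq a _ hq]
  rfl

end Ch2L

theorem ch2 (h1 : Ch1Stmt V M) : Ch2Stmt V M E where
  oW := Ch2L.oW
  cW := Ch2L.cW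
  lt_eq a x₀ _ hz v := Ch2L.lt_eq a x₀ hz v
  lift_pv := Ch2L.lift_pv
  tm := Ch2L.tm
  cpos := Ch2L.cpos
  cvel := Ch2L.cvel
  clift := Ch2L.clift
  dr := Ch2L.dr
  t2 := Ch2L.t2
  c2 a _ hF := Ch2L.c2 a h1 hF

end Pool.Agent.MP_7bf9b2_an

end

section

set_option maxSynthPendingDepth 3

namespace Pool.Agent.MP_7bf9b2_an

open scoped Topology Manifold ContDiff
open Set Filter MeasureTheory Metric

variable {V : Type} [NormedAddCommGroup V] [NormedSpace ℝ V] [FiniteDimensional ℝ V]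
  {M : Type} [TopologicalSpace M] [ChartedSpace V M] [IsManifold 𝓘(ℝ, V) ∞ M]
  {E : Type} [NormedAddCommGroup E] [InnerProductSpace ℝ E] [FiniteDimensional ℝ E]

namespace ElCoreL

omit [FiniteDimensional ℝ V] [FiniteDimensional ℝ E]

/-- position slot -/
noncomputable def jX (V : Type) [NormedAddCommGroup V] [NormedSpace ℝ V] : V →L[ℝ] V × V × ℝ :=
  ContinuousLinearMap.inl ℝ V (V × ℝ)

/-- velocity slot -/
noncomputable def jV (V : Type) [NormedAddCommGroup V] [NormedSpace ℝ V] : V →L[ℝ] V × V × ℝ :=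
  (ContinuousLinearMap.inr ℝ V (V × ℝ)).comp (ContinuousLinearMap.inl ℝ V ℝ)

theorem fd_x {ℓ : V × V × ℝ → ℝ} {q v : V} {t : ℝ} (h : DifferentiableAt ℝ ℓ (q, v, t)) :
    fderiv ℝ (fun x => ℓ (x, v, t)) q = (fderiv ℝ ℓ (q, v, t)).comp (jX V) :=
  (h.hasFDerivAt.comp q (hasFDerivAt_prodMk_left q (v, t))).fderiv

theorem fd_v {ℓ : V × V × ℝ → ℝ} {q v : V} {t : ℝ} (h : DifferentiableAt ℝ ℓ (q, v, t)) :
    fderiv ℝ (fun x => ℓ (q, x, t)) v = (fderiv ℝ ℓ (q, v, t)).comp (jV V) :=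
  (h.hasFDerivAt.comp v
    ((hasFDerivAt_prodMk_right q (v, t)).comp v (hasFDerivAt_prodMk_left v t))).fderiv

/-- a squared norm vanishes to first order at a zero -/
theorem pen {g : PP E → E} {p : PP E} (hg : DifferentiableAt ℝ g p) (h0 : g p = 0) :
    HasFDerivAt (fun x => ‖g x‖ ^ 2 / 2) (0 : PP E →L[ℝ] ℝ) p := by
  have h := hg.hasFDerivAt.norm_sq.mul_const (2⁻¹ : ℝ)
  rw [h0, map_zero, ContinuousLinearMap.zero_comp, smul_zero, smul_zero] at h
  simpa only [div_eq_mul_inv] using h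

theorem app {F : Type} [NormedAddCommGroup F] [NormedSpace ℝ F] {H : E → E →L[ℝ] F} {p : PP E}
    (hH : DifferentiableAt ℝ H p.1) :
    ∃ D : PP E →L[ℝ] F, HasFDerivAt (fun x : PP E => H x.1 x.2.1) D p ∧
      ∀ a b : E, D (a, b, 0) = H p.1 b + fderiv ℝ H p.1 a p.2.1 :=
  ⟨_, (hH.hasFDerivAt.comp p hasFDerivAt_fst).clm_apply
    (hasFDerivAt_fst.comp p hasFDerivAt_snd), fun a b => by simp⟩

/-- the derivative of the ambient function at a tangent vector -/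
theorem fd_amb {W : Set E} {h : E → V} {r : E → E} {ℓ : V × V × ℝ → ℝ} {Λ : PP E → ℝ}
    (hW : IsOpen W)
    (hΛ : ∀ p : PP E, p.1 ∈ W → Λ p = ℓ (h p.1, fderiv ℝ h p.1 p.2.1, p.2.2) +
      ‖p.2.1 - fderiv ℝ r p.1 p.2.1‖ ^ 2 / 2 + ‖p.1 - r p.1‖ ^ 2 / 2)
    {p : PP E} (hp : p.1 ∈ W) (h1 : DifferentiableAt ℝ h p.1)
    (h2 : DifferentiableAt ℝ (fderiv ℝ h) p.1) (r1 : DifferentiableAt ℝ r p.1)
    (r2 : DifferentiableAt ℝ (fderiv ℝ r) p.1)
    (hℓ : DifferentiableAt ℝ ℓ (h p.1, fderiv ℝ h p.1 p.2.1, p.2.2)) (e1 : r p.1 = p.1)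
    (e2 : fderiv ℝ r p.1 p.2.1 = p.2.1) (a b : E) :
    fderiv ℝ Λ p (a, b, 0) = fderiv ℝ ℓ (h p.1, fderiv ℝ h p.1 p.2.1, p.2.2)
      (fderiv ℝ h p.1 a, fderiv ℝ h p.1 b + fderiv ℝ (fderiv ℝ h) p.1 a p.2.1, 0) := by
  obtain ⟨D, hD, hD'⟩ := app h2
  obtain ⟨D', hD2, -⟩ := app r2
  have a1 := hℓ.hasFDerivAt.comp p ((h1.hasFDerivAt.comp p hasFDerivAt_fst).prodMk
    (hD.prodMk (hasFDerivAt_snd.comp p hasFDerivAt_snd)))
  have a2 := pen (g := fun x : PP E => x.2.1 - fderiv ℝ r x.1 x.2.1) (p := p)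
    (differentiableAt_snd.fst.sub hD2.differentiableAt) (by rw [e2, sub_self])
  have a3 := pen (g := fun x : PP E => x.1 - r x.1) (p := p)
    (differentiableAt_fst.sub (r1.comp p differentiableAt_fst)) (by rw [e1, sub_self])
  have a4 := ((a1.add a2).add a3).congr_of_eventuallyEq (f₁ := Λ)
    (((hW.preimage continuous_fst).eventually_mem hp).mono fun x hx => hΛ x hx)
  rw [a4.fderiv, ← hD']
  simp

end ElCoreL

open ElCoreL

theorem elcore : ElCoreStmt V E := by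
  intro W T h r ℓ Λ y t₀ hW hT hh hr hm hℓ hΛ hy hy0 hry hel
  have dy : Differentiable ℝ y := hy.differentiable (by norm_num)
  have c3 : ∀ {F : Type} [NormedAddCommGroup F] [NormedSpace ℝ F] {f : E → F},
      ContDiffOn ℝ 3 f W → ∀ z ∈ W,
      DifferentiableAt ℝ f z ∧ DifferentiableAt ℝ (fderiv ℝ f) z := fun hf z hz => by
    have h1 := hf.contDiffAt (hW.mem_nhds hz)
    exact ⟨h1.differentiableAt (by norm_num),
      (h1.fderiv_right (m := 1) (by norm_num)).differentiableAt (by norm_num)⟩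
  have dℓ : ∀ z ∈ W, ∀ (v : V) (t : ℝ), DifferentiableAt ℝ ℓ (h z, v, t) := fun z hz v t =>
    (hℓ.contDiffAt ((hT.preimage continuous_fst).mem_nhds (hm hz))).differentiableAt (by norm_num)
  have hdr : ∀ t, y t ∈ W → fderiv ℝ r (y t) (deriv y t) = deriv y t := fun t ht => by
    have h1 := ((c3 hr _ ht).1.hasFDerivAt.comp_hasDerivAt t (dy t).hasDerivAt).deriv
    rw [← h1]
    congr 1
    exact funext hry
  have hfd : ∀ t, y t ∈ W → ∀ a b : E, fderiv ℝ Λ (ph y t) (a, b, 0) =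
      fderiv ℝ ℓ (h (y t), fderiv ℝ h (y t) (deriv y t), t) (fderiv ℝ h (y t) a,
        fderiv ℝ h (y t) b + fderiv ℝ (fderiv ℝ h) (y t) a (deriv y t), 0) := fun t ht a b =>
    fd_amb hW hΛ (p := ph y t) ht (c3 hh _ ht).1 (c3 hh _ ht).2 (c3 hr _ ht).1 (c3 hr _ ht).2
      (dℓ _ ht _ _) (hry t) (hdr t ht) a b
  have hq : ∀ s, y (t₀ + s) ∈ W → deriv (fun s => h (y (t₀ + s))) s
      = fderiv ℝ h (y (t₀ + s)) (deriv y (t₀ + s)) := fun s hs =>
    (((c3 hh _ hs).1.hasFDerivAt.comp_hasDerivAt _ (dy _).hasDerivAt).comp_const_add t₀ s).deriv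
  have hev : ∀ᶠ t in 𝓝 t₀, y t ∈ W := hy.continuous.continuousAt.eventually (hW.mem_nhds hy0)
  have hy0' : y (t₀ + 0) ∈ W := by rwa [add_zero]
  have h1 : HasDerivAt (fun t =>
      (fderiv ℝ ℓ (h (y t), fderiv ℝ h (y t) (deriv y t), t)).comp (jV V))
      ((fderiv ℝ ℓ (h (y t₀), fderiv ℝ h (y t₀) (deriv y t₀), t₀)).comp (jX V)) t₀ := by
    unfold ELAt at hel
    simp only [hq 0 hy0', add_zero] at hel
    rw [fd_x (dℓ _ hy0 _ _), ← sub_self t₀] at hel
    refine (hel.comp_sub_const t₀ t₀).congr_of_eventuallyEq (hev.mono fun t ht => ?_)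
    have ht' : y (t₀ + (t - t₀)) ∈ W := by rwa [add_sub_cancel]
    simp only [hq _ ht', add_sub_cancel]
    rw [fd_v (dℓ _ ht _ _)]
  have h2 := h1.clm_comp
    ((c3 hh _ hy0).2.hasFDerivAt.comp_hasDerivAt t₀ (dy t₀).hasDerivAt)
  have hsym : IsSymmSndFDerivAt ℝ h (y t₀) :=
    (hh.contDiffAt (hW.mem_nhds hy0)).isSymmSndFDerivAt (by
      simp only [minSmoothness_of_isRCLikeNormedField]; norm_num)
  refine (h2.congr_of_eventuallyEq (hev.mono fun t ht => ?_)).congr_deriv ?_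
  · ext b
    simp [mom, pv, hfd t ht, jV]
  · ext a
    simp only [px, ContinuousLinearMap.comp_apply, iX_apply, hfd t₀ hy0, map_zero, zero_add,
      ContinuousLinearMap.add_apply, Function.comp_apply]
    rw [← map_add, hsym.eq a]
    simp [jX, jV]

end Pool.Agent.MP_7bf9b2_an

end

section

/-! The ambient model exists. -/

set_option maxSynthPendingDepth 3

namespace Pool.Agent.MP_7bf9b2_an

open scoped Topology Manifold ContDiff
open Set Filter MeasureTheory Metric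

variable {V : Type} [NormedAddCommGroup V] [NormedSpace ℝ V] [FiniteDimensional ℝ V]
  {M : Type} [TopologicalSpace M] [ChartedSpace V M] [IsManifold 𝓘(ℝ, V) ∞ M]
  {E : Type} [NormedAddCommGroup E] [InnerProductSpace ℝ E] [FiniteDimensional ℝ E]

theorem retr (h : ∀ N : ℕ, Retr1Stmt V M (EuclideanSpace ℝ (Fin N))) : RetrStmt V M := by
  intro _ _ _
  obtain ⟨N, e, he, hemb, hd⟩ := exists_embedding_euclidean_of_compact (I := 𝓘(ℝ, V)) (M := M)
  obtain ⟨pr, h1, h2⟩ := h N e he hemb.injective hd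
  choose W hW hc using h2
  have hO : IsOpen (⋃ x, interior (W x)) := isOpen_iUnion fun _ => isOpen_interior
  have hK : IsCompact (range e) := isCompact_range he.continuous
  have hsub : range e ⊆ ⋃ x, interior (W x) := by
    rintro _ ⟨x, rfl⟩
    exact mem_iUnion.2 ⟨x, mem_interior_iff_mem_nhds.2 (hW x)⟩
  obtain ⟨δ, hδ, hth⟩ := hK.exists_thickening_subset_open hO hsub
  have hpr : ContMDiffOn 𝓘(ℝ, EuclideanSpace ℝ (Fin N)) 𝓘(ℝ, V) 3 pr
      (thickening (3 * min (δ / 3) (1 / 4)) (range e)) := fun z hz => by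
    have h3 : 3 * min (δ / 3) (1 / 4) ≤ δ := by
      have := min_le_left (δ / 3) (1 / 4)
      linarith
    obtain ⟨x, hx⟩ := mem_iUnion.1 (hth (thickening_mono h3 _ hz))
    exact ((hc x).contMDiffAt (mem_interior_iff_mem_nhds.1 hx)).contMDiffWithinAt
  have he3 : ContMDiff 𝓘(ℝ, V) 𝓘(ℝ, EuclideanSpace ℝ (Fin N)) 3 e :=
    he.of_le (WithTop.coe_le_coe.2 (le_top : (3 : ℕ∞) ≤ ⊤))
  refine ⟨N, ⟨⟨⟨range e, fun z => e (pr z), min (δ / 3) (1 / 4), lt_min (by linarith) (by norm_num),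
    min_le_right _ _, hK, isConnected_range he.continuous, ?_, fun z _ => mem_range_self _, ?_⟩,
    e, pr, he, rfl, hpr, h1, fun _ => rfl⟩⟩⟩
  · exact contMDiffOn_iff_contDiffOn.1 (he3.comp_contMDiffOn hpr)
  · rintro _ ⟨x, rfl⟩
    rw [h1]

end Pool.Agent.MP_7bf9b2_an

end

section

/-! The nearest point retraction is smooth near the manifold. -/

namespace Pool.Agent.MP_7bf9b2_an

open scoped Topology Manifold ContDiff
open Set Filter MeasureTheory Metric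

set_option linter.unusedSectionVars false
set_option maxSynthPendingDepth 3

variable {V : Type} [NormedAddCommGroup V] [NormedSpace ℝ V] [FiniteDimensional ℝ V]
  {M : Type} [TopologicalSpace M] [ChartedSpace V M] [IsManifold 𝓘(ℝ, V) ∞ M]
  {E : Type} [NormedAddCommGroup E] [InnerProductSpace ℝ E] [FiniteDimensional ℝ E]

namespace Retr1L

theorem core {g : V → E} {q₀ : V} (hg : ContDiffAt ℝ 4 g q₀)
    (hi : Function.Injective (fderiv ℝ g q₀)) :
    ∃ h : E → V, ContDiffAt ℝ 3 h (g q₀) ∧ ∀ᶠ p : E × V in 𝓝 (g q₀, q₀),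
      IsLocalMin (fun q => ‖p.1 - g q‖ ^ 2) p.2 → h p.1 = p.2 := by
  have : CompleteSpace V := FiniteDimensional.complete ℝ V
  have : CompleteSpace E := FiniteDimensional.complete ℝ E
  have hd : ContDiffAt ℝ 3 (fderiv ℝ g) q₀ := hg.fderiv_right (by norm_num)
  have hg3 : ContDiffAt ℝ 3 g q₀ := hg.of_le (by norm_num)
  let F : E × V → V →L[ℝ] ℝ := fun p => (innerSL ℝ (p.1 - g p.2)).comp (fderiv ℝ g p.2)
  have hF : ContDiffAt ℝ 3 F (g q₀, q₀) :=
    ((innerSL ℝ (E := E)).contDiff.contDiffAt.comp _ (contDiffAt_fst.sub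
      (ContDiffAt.comp (g q₀, q₀) hg3 contDiffAt_snd))).clm_comp
      (ContDiffAt.comp (g q₀, q₀) hd contDiffAt_snd)
  have h1 : HasFDerivAt (fun q => F (g q₀, q))
      (fderiv ℝ F (g q₀, q₀) ∘L ContinuousLinearMap.inr ℝ E V) q₀ :=
    HasFDerivAt.comp q₀ (hF.differentiableAt (by norm_num)).hasFDerivAt
      (hasFDerivAt_prodMk_right (g q₀) q₀)
  have h2 := ((innerSL ℝ (E := E)).hasFDerivAt.comp q₀
    ((hg.differentiableAt (by norm_num)).hasFDerivAt.const_sub (g q₀))).clm_comp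
    (hd.differentiableAt (by norm_num)).hasFDerivAt
  have h3 : Function.Injective (fderiv ℝ F (g q₀, q₀) ∘L ContinuousLinearMap.inr ℝ E V) := by
    rw [h1.unique h2, injective_iff_map_eq_zero]
    intro w hw
    have k := congrArg (fun L : V →L[ℝ] ℝ => L w) hw
    simp at k
    exact hi (((inner_self_eq_zero (𝕜 := ℝ)).1 k).trans (map_zero _).symm)
  have h4 : Module.finrank ℝ V = Module.finrank ℝ (V →L[ℝ] ℝ) :=
    Subspace.dual_finrank_eq.symm.trans LinearMap.toContinuousLinearMap.finrank_eq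
  have h5 : (fderiv ℝ F (g q₀, q₀) ∘L ContinuousLinearMap.inr ℝ E V).IsInvertible :=
    ⟨(LinearMap.linearEquivOfInjective
      (fderiv ℝ F (g q₀, q₀) ∘L ContinuousLinearMap.inr ℝ E V).toLinearMap h3
      h4).toContinuousLinearEquiv, ContinuousLinearMap.ext fun _ => rfl⟩
  refine ⟨_, hF.contDiffAt_implicitFunction (by norm_num) h5, ?_⟩
  filter_upwards [hF.eventually_apply_eq_iff_implicitFunction (by norm_num) h5,
    (continuous_snd.tendsto (g q₀, q₀)).eventually (hg.eventually (by simp))] with p p1 p2 p3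
  refine p1.1 ?_
  have k := p3.hasFDerivAt_eq_zero
    ((p2.differentiableAt (by norm_num)).hasFDerivAt.const_sub p.1).norm_sq
  ext w
  have k2 := congrArg (fun L : V →L[ℝ] ℝ => L w) k
  simp [F] at k2 ⊢
  linarith

end Retr1L

theorem retr1 : Retr1Stmt V M E := by
  intro _ _ e he hi hd
  have hm : ∀ z : E, ∃ x, ∀ y, ‖z - e x‖ ≤ ‖z - e y‖ := fun z => by
    obtain ⟨x, -, h⟩ := isCompact_univ.exists_isMinOn univ_nonempty
      (continuous_const.sub he.continuous).norm.continuousOn (f := fun x => ‖z - e x‖)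
    exact ⟨x, fun y => h (mem_univ y)⟩
  choose pr hp using hm
  refine ⟨pr, fun x => hi ?_, fun x => ?_⟩
  · have := hp (e x) x
    rw [sub_self, norm_zero, norm_le_zero_iff, sub_eq_zero] at this
    exact this.symm
  have ht : Tendsto pr (𝓝 (e x)) (𝓝 x) := by
    rw [(he.continuous.isClosedEmbedding hi).isEmbedding.tendsto_nhds_iff,
      tendsto_iff_norm_sub_tendsto_zero]
    refine squeeze_zero (g := fun z => 2 * ‖z - e x‖) (fun _ => norm_nonneg _) (fun z => ?_) ?_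
    · have a := norm_sub_le_norm_sub_add_norm_sub (e (pr z)) z (e x)
      rw [norm_sub_rev _ z] at a
      exact a.trans (by linarith [hp z x])
    · simpa using (tendsto_norm_sub_self (e x)).const_mul 2
  have hs : ContMDiffAt 𝓘(ℝ, V) 𝓘(ℝ, V) ∞ (chartAt V x).symm (chartAt V x x) :=
    contMDiffOn_chart_symm.contMDiffAt ((chartAt V x).open_target.mem_nhds (mem_chart_target V x))
  have e0 : (e ∘ (chartAt V x).symm) (chartAt V x x) = e x :=
    congrArg e ((chartAt V x).left_inv (mem_chart_source V x))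
  obtain ⟨h, h1, h2⟩ := Retr1L.core (g := e ∘ (chartAt V x).symm) (q₀ := chartAt V x x)
    ((contMDiffAt_iff_contDiffAt.1 (he.contMDiffAt.comp _ hs)).of_le (by norm_cast)) (by
      have k := hd x
      rw [(he.mdifferentiableAt (by simp)).mfderiv] at k
      simp only [writtenInExtChartAt, extChartAt, mfld_simps, fderivWithin_univ] at k
      exact k)
  rw [e0] at h1 h2
  have ev : ∀ᶠ z in 𝓝 (e x), pr z ∈ (chartAt V x).source ∧ h z = chartAt V x (pr z) := by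
    filter_upwards [ht.eventually (chart_source_mem_nhds V x), (tendsto_id.prodMk_nhds
      (((chartAt V x).continuousAt (mem_chart_source V x)).tendsto.comp ht)).eventually h2]
      with z z1 z2
    refine ⟨z1, z2 (Eventually.of_forall fun q => ?_)⟩
    simp only [Function.comp, id, (chartAt V x).left_inv z1]
    exact pow_le_pow_left₀ (norm_nonneg _) (hp z _) 2
  refine (contMDiffAt_iff_contMDiffOn_nhds (by simp)).1 ?_
  have e1 : h (e x) = chartAt V x x := tendsto_nhds_unique h1.continuousAt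
    ((((chartAt V x).continuousAt (mem_chart_source V x)).tendsto.comp ht).congr'
      (ev.mono fun _ a => a.2.symm))
  rw [← e1] at hs
  refine ((hs.of_le (by norm_cast)).comp _ h1.contMDiffAt).congr_of_eventuallyEq
    (ev.mono fun z a => ?_)
  rw [Function.comp, a.2, (chartAt V x).left_inv a.1]

end Pool.Agent.MP_7bf9b2_an

end

section

/-! Small ambient potentials give small potentials on the manifold. -/

namespace Pool.Agent.MP_7bf9b2_an

open scoped Topology Manifold ContDiff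
open Set Filter MeasureTheory Metric

set_option linter.unusedSectionVars false
set_option maxSynthPendingDepth 3

variable {V : Type} [NormedAddCommGroup V] [NormedSpace ℝ V] [FiniteDimensional ℝ V]
  {M : Type} [TopologicalSpace M] [ChartedSpace V M] [IsManifold 𝓘(ℝ, V) ∞ M]
  {E : Type} [NormedAddCommGroup E] [InnerProductSpace ℝ E] [FiniteDimensional ℝ E]

namespace T1L

theorem two_le : (2 : WithTop ℕ∞) ≤ ∞ :=
  WithTop.coe_le_coe.2 (le_top : ((2 : ℕ∞)) ≤ ⊤)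

theorem ex (a : Amb V M E) (f : Pot V M) {ε : ℝ} {φ : E × ℝ → ℝ} (hφ : C2Bd ε φ) :
    ∃ f₁ : Pot V M, ∀ (x : M) (t : ℝ),
      f₁.toFun (x, cl t) = f.toFun (x, cl t) + φ (a.e x, t) := by
  have hp : ∀ x : M, Function.Periodic (fun t : ℝ => φ (a.e x, t)) 1 := fun x t => hφ.per _ t
  refine ⟨⟨fun p => f.toFun p + (hp p.1).lift p.2, ?_⟩, fun x t => rfl⟩
  have h2 : ContMDiff (𝓘(ℝ, V).prod 𝓘(ℝ, ℝ)) 𝓘(ℝ, E × ℝ) 2 fun p : M × ℝ => (a.e p.1, p.2) :=
    ((a.he.of_le two_le).comp contMDiff_fst).prodMk_space contMDiff_snd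
  exact f.smooth.add (hφ.c2.comp_contMDiff h2)

/-- Small ambient perturbations of `f` lie in `N`. -/
def Q (a : Amb V M E) (f : Pot V M) (N : Set (Pot V M)) : Prop :=
  ∃ ε' > 0, ∀ φ : E × ℝ → ℝ, C2Bd ε' φ → ∀ f₁ : Pot V M, (∀ (x : M) (t : ℝ),
    f₁.toFun (x, cl t) = f.toFun (x, cl t) + φ (a.e x, t)) → f₁ ∈ N

theorem bd_mono {ε ε' : ℝ} {φ : E × ℝ → ℝ} (h : C2Bd ε φ) (he : ε ≤ ε') : C2Bd ε' φ :=
  ⟨h.c2, h.per, fun k hk q => (h.bd k hk q).trans he⟩

theorem cont {W F : Type} [NormedAddCommGroup W] [NormedSpace ℝ W] [NormedAddCommGroup F]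
    [NormedSpace ℝ F] {S : Set W} (hS : IsOpen S) {g : W → F} (hg : ContDiffOn ℝ 2 g S) {k : ℕ}
    (hk : k ≤ 2) : ContinuousOn (iteratedFDeriv ℝ k g) S := by
  have h1 := hg.continuousOn_iteratedFDerivWithin (m := k) (by exact_mod_cast hk) hS.uniqueDiffOn
  exact h1.congr fun p hp => (iteratedFDerivWithin_of_isOpen k hS hp).symm

theorem margin {W : Type} [NormedAddCommGroup W] [NormedSpace ℝ W] {S K : Set W} (hS : IsOpen S)
    (hK : IsCompact K) (hKS : K ⊆ S) {F G : W → ℝ} (hF : ContDiffOn ℝ 2 F S)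
    (hG : ContDiffOn ℝ 2 G S) {ε : ℝ} (h : C2Close K ε F G) :
    ∃ m > 0, ∀ p ∈ K, ∀ k : ℕ, k ≤ 2 →
      ‖iteratedFDeriv ℝ k F p - iteratedFDeriv ℝ k G p‖ + m ≤ ε := by
  have h1 : ∀ k : ℕ, k ≤ 2 → ∃ m > 0, ∀ p ∈ K,
      m ≤ ε - ‖iteratedFDeriv ℝ k F p - iteratedFDeriv ℝ k G p‖ := fun k hk =>
    hK.exists_forall_le'
      (f := fun p => ε - ‖iteratedFDeriv ℝ k F p - iteratedFDeriv ℝ k G p‖)
      (continuousOn_const.sub (((cont hS hF hk).sub (cont hS hG hk)).mono hKS).norm)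
      fun p hp => sub_pos.2 (h p hp k hk)
  obtain ⟨m0, a0, b0⟩ := h1 0 (by norm_num)
  obtain ⟨m1, a1, b1⟩ := h1 1 (by norm_num)
  obtain ⟨m2, a2, b2⟩ := h1 2 (by norm_num)
  refine ⟨min m0 (min m1 m2), by positivity, fun p hp k hk => ?_⟩
  have c0 : min m0 (min m1 m2) ≤ m0 := min_le_left _ _
  have c1 : min m0 (min m1 m2) ≤ m1 := (min_le_right _ _).trans (min_le_left _ _)
  have c2 : min m0 (min m1 m2) ≤ m2 := (min_le_right _ _).trans (min_le_right _ _)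
  interval_cases k
  · linarith [b0 p hp]
  · linarith [b1 p hp]
  · linarith [b2 p hp]

theorem comp_bd {W F : Type} [NormedAddCommGroup W] [NormedSpace ℝ W] [NormedAddCommGroup F]
    [NormedSpace ℝ F] {S K : Set W} (hS : IsOpen S) (hK : IsCompact K) (hKS : K ⊆ S) {g : W → F}
    (hg : ContDiffOn ℝ 2 g S) : ∃ C > 0, ∀ (φ : F → ℝ) (ε : ℝ), ContDiff ℝ 2 φ →
      (∀ k : ℕ, k ≤ 2 → ∀ q, ‖iteratedFDeriv ℝ k φ q‖ ≤ ε) → ∀ p ∈ K, ∀ k : ℕ, k ≤ 2 →
      ‖iteratedFDeriv ℝ k (φ ∘ g) p‖ ≤ C * ε := by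
  obtain ⟨D1, h1⟩ := hK.exists_bound_of_continuousOn ((cont hS hg (k := 1) (by norm_num)).mono hKS)
  obtain ⟨D2, h2⟩ := hK.exists_bound_of_continuousOn ((cont hS hg (k := 2) le_rfl).mono hKS)
  set D : ℝ := max 1 (max D1 D2) with hD
  have d0 : 1 ≤ D := le_max_left _ _
  have d1 : D1 ≤ D := (le_max_left _ _).trans (le_max_right _ _)
  have d2 : D2 ≤ D := (le_max_right _ _).trans (le_max_right _ _)
  refine ⟨2 * D ^ 2, by positivity, fun φ ε hφ hb p hp k hk => ?_⟩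
  have he : 0 ≤ ε := (norm_nonneg _).trans (hb 0 (by norm_num) 0)
  have h3 := norm_iteratedFDerivWithin_comp_le (𝕜 := ℝ) (g := φ) (f := g) (n := k) (s := S)
    (t := univ) (x := p) (N := 2) hφ.contDiffOn hg (by exact_mod_cast hk) uniqueDiffOn_univ
    hS.uniqueDiffOn (mapsTo_univ _ _) (hKS hp) (C := ε) (D := D)
    (fun i hi => by
      rw [iteratedFDerivWithin_univ]
      exact hb i (hi.trans hk) _)
    (fun i hi hi' => by
      rw [iteratedFDerivWithin_of_isOpen i hS (hKS hp)]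
      have hi2 : i ≤ 2 := hi'.trans hk
      interval_cases i
      · rw [pow_one]
        exact (h1 p hp).trans d1
      · exact ((h2 p hp).trans d2).trans (by nlinarith))
  rw [iteratedFDerivWithin_of_isOpen k hS (hKS hp)] at h3
  refine h3.trans ?_
  have h4 : ((k.factorial : ℕ) : ℝ) ≤ 2 := by exact_mod_cast Nat.factorial_le hk
  have h5 : D ^ k ≤ D ^ 2 := pow_le_pow_right₀ d0 hk
  calc ((k.factorial : ℕ) : ℝ) * ε * D ^ k ≤ 2 * ε * D ^ 2 := by gcongr
    _ = 2 * D ^ 2 * ε := by ring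

theorem basic (h1 : Ch1Stmt V M) (a : Amb V M E) (f g₀ : Pot V M) (x₀ : M) {K : Set (V × ℝ)}
    {ε : ℝ} (hK : IsCompact K) (hKS : K ⊆ (chartAt V x₀).target ×ˢ univ)
    (h : C2Close K ε (f.loc x₀) (g₀.loc x₀)) :
    Q a f {g | C2Close K ε (g.loc x₀) (g₀.loc x₀)} := by
  have hS : IsOpen ((chartAt V x₀).target ×ˢ (univ : Set ℝ)) :=
    (chartAt V x₀).open_target.prod isOpen_univ
  obtain ⟨m, hm, hm'⟩ := margin hS hK hKS (h1.pot f x₀) (h1.pot g₀ x₀) h
  have e1 : ContDiffOn ℝ 2 (fun q : V => a.e ((chartAt V x₀).symm q)) (chartAt V x₀).target := by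
    have := a.he.comp_contMDiffOn (contMDiffOn_chart_symm (I := 𝓘(ℝ, V)) (n := ∞) (x := x₀))
    exact (contMDiffOn_iff_contDiffOn.1 this).of_le two_le
  have e2 : ContDiffOn ℝ 2 (fun p : V × ℝ => (a.e ((chartAt V x₀).symm p.1), p.2))
      ((chartAt V x₀).target ×ˢ (univ : Set ℝ)) :=
    (e1.comp contDiffOn_fst fun p hp => hp.1).prodMk contDiffOn_snd
  obtain ⟨C, hC, hC'⟩ := comp_bd hS hK hKS e2
  refine ⟨m / (2 * C), by positivity, fun φ hφ f₁ hf₁ p hp k hk => ?_⟩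
  have e3 : f₁.loc x₀ = f.loc x₀ + φ ∘ fun p : V × ℝ => (a.e ((chartAt V x₀).symm p.1), p.2) := by
    funext q
    exact hf₁ _ _
  have hn := hS.mem_nhds (hKS hp)
  have hk' : (k : WithTop ℕ∞) ≤ 2 := by exact_mod_cast hk
  rw [e3, iteratedFDeriv_add_apply (((h1.pot f x₀).contDiffAt hn).of_le hk')
    (((hφ.c2.comp_contDiffOn e2).contDiffAt hn).of_le hk'), add_sub_right_comm]
  refine (norm_add_le _ _).trans_lt ?_
  have e4 := hC' φ _ hφ.c2 hφ.bd p hp k hk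
  have e5 : C * (m / (2 * C)) = m / 2 := by field_simp
  have e6 := hm' p hp k hk
  linarith

end T1L

theorem t1 (h1 : Ch1Stmt V M) : T1Stmt V M E := by
  intro a f N hN
  obtain ⟨t, htN, ht, hf⟩ := mem_nhds_iff.1 hN
  have key : T1L.Q a f t := by
    clear htN
    induction ht with
    | basic s hs =>
      obtain ⟨g₀, x₀, K, ε, hK, hKS, -, rfl⟩ := hs
      exact T1L.basic h1 a f g₀ x₀ hK hKS hf
    | univ => exact ⟨1, one_pos, fun _ _ _ _ => mem_univ _⟩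
    | inter s t _ _ ihs iht =>
      obtain ⟨e1, p1, q1⟩ := ihs hf.1
      obtain ⟨e2, p2, q2⟩ := iht hf.2
      exact ⟨min e1 e2, lt_min p1 p2, fun φ hφ f₁ h =>
        ⟨q1 φ (T1L.bd_mono hφ (min_le_left _ _)) f₁ h,
          q2 φ (T1L.bd_mono hφ (min_le_right _ _)) f₁ h⟩⟩
    | sUnion S _ ih =>
      obtain ⟨s, hs, hfs⟩ := hf
      obtain ⟨e1, p1, q1⟩ := ih s hs hfs
      exact ⟨e1, p1, fun φ hφ f₁ h => ⟨s, hs, q1 φ hφ f₁ h⟩⟩
  obtain ⟨ε', h0, hq⟩ := key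
  refine ⟨ε', h0, fun φ hφ => ?_⟩
  obtain ⟨f₁, hf₁⟩ := T1L.ex a f hφ
  exact ⟨f₁, htN (hq φ hφ f₁ hf₁), hf₁⟩

end Pool.Agent.MP_7bf9b2_an

end

section

/-!
Potentials read in the ambient space depend continuously on the potential.
-/

set_option maxSynthPendingDepth 3
set_option linter.unusedSectionVars false

namespace Pool.Agent.MP_7bf9b2_an

open scoped Topology Manifold ContDiff
open Set Filter MeasureTheory Metric

variable {V : Type} [NormedAddCommGroup V] [NormedSpace ℝ V] [FiniteDimensional ℝ V]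
  {M : Type} [TopologicalSpace M] [ChartedSpace V M] [IsManifold 𝓘(ℝ, V) ∞ M]
  {E : Type} [NormedAddCommGroup E] [InnerProductSpace ℝ E] [FiniteDimensional ℝ E]

namespace T2L

/-- the chart map on position and time -/
noncomputable def jj (a : Amb V M E) (x₀ : M) (p : PP E) : V × ℝ := (a.hc x₀ p.1, p.2.2)

theorem pot_eq (a : Amb V M E) (f : Pot V M) (x₀ : M) {p : PP E} (hp : p.1 ∈ a.W x₀) :
    a.potL f p = f.loc x₀ (jj a x₀ p) := by
  simp only [Amb.potL, Pot.loc, jj, Amb.hc]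
  rw [(chartAt V x₀).left_inv hp.2]

theorem jj_maps (a : Amb V M E) (x₀ : M) :
    MapsTo (jj a x₀) {p : PP E | p.1 ∈ a.W x₀} ((chartAt V x₀).target ×ˢ univ) :=
  fun _ hp => ⟨(chartAt V x₀).map_source hp.2, mem_univ _⟩

theorem jj_c2 (h2 : Ch2Stmt V M E) (a : Amb V M E) (x₀ : M) :
    ContDiffOn ℝ 2 (jj a x₀) {p : PP E | p.1 ∈ a.W x₀} := by
  refine ContDiffOn.prodMk ?_ (contDiff_snd.comp contDiff_snd).contDiffOn
  exact ((h2.cW a x₀).of_le (by norm_num)).comp contDiff_fst.contDiffOn fun _ hp => hp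

theorem mem_W (a : Amb V M E) {x : E} (hx : x ∈ a.G.U) : x ∈ a.W (a.pr x) :=
  ⟨hx, mem_chart_source V _⟩

theorem pot_c2W (h1 : Ch1Stmt V M) (h2 : Ch2Stmt V M E) (a : Amb V M E) (f : Pot V M) (x₀ : M) :
    ContDiffOn ℝ 2 (a.potL f) {p : PP E | p.1 ∈ a.W x₀} :=
  ((h1.pot f x₀).comp (jj_c2 h2 a x₀) (jj_maps a x₀)).congr fun _ hp => pot_eq a f x₀ hp

theorem pot_c2 (h1 : Ch1Stmt V M) (h2 : Ch2Stmt V M E) (a : Amb V M E) (f : Pot V M) :
    ContDiffOn ℝ 2 (a.potL f) a.G.Om := by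
  intro p hp
  have ho : IsOpen {q : PP E | q.1 ∈ a.W (a.pr p.1)} := (h2.oW a _).preimage continuous_fst
  exact ((pot_c2W h1 h2 a f (a.pr p.1)).contDiffAt (ho.mem_nhds (mem_W a hp))).contDiffWithinAt

theorem cl_add (t : ℝ) (k : ℤ) : cl (t + k) = cl t := by
  have : ((k : ℝ) : AddCircle (1 : ℝ)) = 0 := by
    rw [AddCircle.coe_eq_zero_iff]; exact ⟨k, by simp⟩
  simp only [cl, AddCircle.coe_add, this, add_zero]

theorem shift (a : Amb V M E) (f g : Pot V M) (k : ℕ) (x v : E) (t : ℝ) :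
    iteratedFDeriv ℝ k (a.potL f - a.potL g) (x, v, t) =
      iteratedFDeriv ℝ k (a.potL f - a.potL g) (x, 0, Int.fract t) := by
  have h : (fun z : PP E => (a.potL f - a.potL g) (z + (0, v, (⌊t⌋ : ℝ)))) =
      a.potL f - a.potL g := by
    funext z
    simp only [Pi.sub_apply, Amb.potL, Prod.fst_add, Prod.snd_add, add_zero, cl_add]
  have h' := iteratedFDeriv_comp_add_right (𝕜 := ℝ) (f := a.potL f - a.potL g) k
    ((0, v, (⌊t⌋ : ℝ)) : PP E) (x, 0, Int.fract t)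
  rw [h] at h'
  rw [h']
  congr 1
  simp

theorem loc_bd (h1 : Ch1Stmt V M) (h2 : Ch2Stmt V M E) (a : Amb V M E) (f₁ : Pot V M)
    {σ : ℝ} (hσ : 0 < σ) {x : E} (hx : x ∈ a.G.U) :
    ∀ᶠ z : Pot V M × E in 𝓝 (f₁, x), ∀ t ∈ Icc (0 : ℝ) 1, ∀ k : ℕ, k ≤ 2 →
      ‖iteratedFDeriv ℝ k (a.potL z.1 - a.potL f₁) (z.2, 0, t)‖ ≤ σ := by
  have : ProperSpace E := FiniteDimensional.proper_real E
  set x₀ := a.pr x
  obtain ⟨Q, hQ, hxQ, hQW⟩ := exists_compact_subset (h2.oW a x₀) (mem_W a hx)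
  set s : Set (PP E) := {p | p.1 ∈ a.W x₀} with hs
  have hso : IsOpen s := (h2.oW a _).preimage continuous_fst
  set T : Set (V × ℝ) := (chartAt V x₀).target ×ˢ univ with hT
  have hTo : IsOpen T := (chartAt V x₀).open_target.prod isOpen_univ
  set P : Set (PP E) := Q ×ˢ ({0} ×ˢ Icc (0 : ℝ) 1) with hP
  have hPc : IsCompact P := hQ.prod (isCompact_singleton.prod isCompact_Icc)
  have hPs : P ⊆ s := fun p hp => hQW hp.1
  have hj := jj_c2 h2 a x₀
  obtain ⟨D1, hD1⟩ := hPc.exists_bound_of_continuousOn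
    ((hj.continuousOn_iteratedFDerivWithin (m := 1) (by norm_num) hso.uniqueDiffOn).mono hPs)
  obtain ⟨D2, hD2⟩ := hPc.exists_bound_of_continuousOn
    ((hj.continuousOn_iteratedFDerivWithin (m := 2) (by norm_num) hso.uniqueDiffOn).mono hPs)
  set D : ℝ := max 1 (max D1 D2) with hD
  have hD1' : 1 ≤ D := le_max_left _ _
  have hDa : D1 ≤ D := (le_max_left _ _).trans (le_max_right _ _)
  have hDb : D2 ≤ D := (le_max_right _ _).trans (le_max_right _ _)
  have hDD : D ≤ D ^ 2 := by nlinarith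
  set ε : ℝ := σ / (2 * D ^ 2) with hε
  have hε0 : 0 < ε := by positivity
  set K : Set (V × ℝ) := jj a x₀ '' P with hK
  have hKc : IsCompact K := hPc.image_of_continuousOn (hj.continuousOn.mono hPs)
  have hKT : K ⊆ T := by
    rintro _ ⟨p, hp, rfl⟩
    exact jj_maps a x₀ (hPs hp)
  have hN : {g : Pot V M | C2Close K ε (g.loc x₀) (f₁.loc x₀)} ∈ 𝓝 f₁ := by
    refine IsOpen.mem_nhds (TopologicalSpace.isOpen_generateFrom_of_mem
      ⟨f₁, x₀, K, ε, hKc, hKT, hε0, rfl⟩) ?_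
    intro p _ k _
    simpa using hε0
  rw [nhds_prod_eq]
  filter_upwards [prod_mem_prod hN (mem_interior_iff_mem_nhds.1 hxQ)] with z hz t ht k hk
  have hp : ((z.2, 0, t) : PP E) ∈ P := ⟨hz.2, rfl, ht⟩
  have hH : ContDiffOn ℝ 2 (z.1.loc x₀ - f₁.loc x₀) T := (h1.pot z.1 x₀).sub (h1.pot f₁ x₀)
  have hb := norm_iteratedFDerivWithin_comp_le (n := k) (C := ε) (D := D) hH hj
    (by exact_mod_cast hk) hTo.uniqueDiffOn hso.uniqueDiffOn (jj_maps a x₀) (hPs hp) ?_ ?_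
  · have e1 : iteratedFDerivWithin ℝ k ((z.1.loc x₀ - f₁.loc x₀) ∘ jj a x₀) s (z.2, 0, t) =
        iteratedFDeriv ℝ k (a.potL z.1 - a.potL f₁) (z.2, 0, t) := by
      rw [← iteratedFDerivWithin_of_isOpen k hso (hPs hp)]
      refine iteratedFDerivWithin_congr (fun q hq => ?_) (hPs hp) k
      simp only [Function.comp_apply, Pi.sub_apply, pot_eq a _ x₀ hq]
    rw [e1] at hb
    refine hb.trans ?_
    have f1 : ((k.factorial : ℕ) : ℝ) ≤ 2 := by
      have : k.factorial ≤ 2 := by interval_cases k <;> decide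
      exact_mod_cast this
    have f2 : D ^ k ≤ D ^ 2 := pow_le_pow_right₀ hD1' hk
    calc (k.factorial : ℝ) * ε * D ^ k ≤ 2 * ε * D ^ 2 := by gcongr
      _ = σ := by rw [hε]; field_simp
  · intro i hi
    have hq : jj a x₀ (z.2, 0, t) ∈ T := jj_maps a x₀ (hPs hp)
    have hi2 : i ≤ 2 := hi.trans hk
    rw [iteratedFDerivWithin_of_isOpen i hTo hq, iteratedFDeriv_sub_apply
      (((h1.pot z.1 x₀).contDiffAt (hTo.mem_nhds hq)).of_le (by exact_mod_cast hi2))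
      (((h1.pot f₁ x₀).contDiffAt (hTo.mem_nhds hq)).of_le (by exact_mod_cast hi2))]
    exact (hz.1 _ (mem_image_of_mem _ hp) i hi2).le
  · intro i hi1 hi
    have hi2 : i ≤ 2 := hi.trans hk
    interval_cases i
    · exact (hD1 _ hp).trans (by simpa using hDa)
    · exact (hD2 _ hp).trans (hDb.trans hDD)

theorem close_of {G : Geo E} {A B : PP E → ℝ} {σ : ℝ} (hσ : 0 ≤ σ)
    (hA : ContDiffOn ℝ 2 A G.Om) (hB : ContDiffOn ℝ 2 B G.Om)
    (h : ∀ p : PP E, p.1 ∈ G.U1 → ∀ k : ℕ, k ≤ 2 → ‖iteratedFDeriv ℝ k (A - B) p‖ ≤ σ) :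
    Close G σ A B := by
  have hw : ∀ p : PP E, σ ≤ σ * (1 + ‖p.2.1‖) := fun p => by
    nlinarith [norm_nonneg p.2.1]
  have hd : ∀ p ∈ G.Om, fderiv ℝ (A - B) p = fderiv ℝ A p - fderiv ℝ B p := fun p hp =>
    fderiv_sub ((hA.contDiffAt (G.isOpen_Om.mem_nhds hp)).differentiableAt (by norm_num))
      ((hB.contDiffAt (G.isOpen_Om.mem_nhds hp)).differentiableAt (by norm_num))
  refine ⟨fun p hp => ?_, fun p hp => ?_, fun p hp => ?_⟩
  · have := h p hp 0 (by norm_num)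
    rw [norm_iteratedFDeriv_zero] at this
    exact this.trans (hw p)
  · have := h p hp 1 (by norm_num)
    rw [norm_iteratedFDeriv_one, hd p (G.U1_sub_U hp)] at this
    exact this.trans (hw p)
  · have hp' : p ∈ G.Om := G.U1_sub_U hp
    have := h p hp 2 le_rfl
    rw [← norm_iteratedFDeriv_fderiv (n := 1), norm_iteratedFDeriv_one] at this
    have e : fderiv ℝ (A - B) =ᶠ[𝓝 p] fderiv ℝ A - fderiv ℝ B := by
      filter_upwards [G.isOpen_Om.mem_nhds hp'] with q hq using hd q hq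
    have dA : DifferentiableAt ℝ (fderiv ℝ A) p :=
      ((hA.contDiffAt (G.isOpen_Om.mem_nhds hp')).fderiv_right (m := 1)
        (by norm_num)).differentiableAt (by norm_num)
    have dB : DifferentiableAt ℝ (fderiv ℝ B) p :=
      ((hB.contDiffAt (G.isOpen_Om.mem_nhds hp')).fderiv_right (m := 1)
        (by norm_num)).differentiableAt (by norm_num)
    rw [e.fderiv_eq, fderiv_sub dA dB] at this
    exact this.trans (hw p)

end T2L

theorem t2S (h1 : Ch1Stmt V M) (h2 : Ch2Stmt V M E) : T2Stmt V M E := by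
  intro a f₁
  refine ⟨T2L.pot_c2 h1 h2 a f₁, fun σ hσ => ?_⟩
  have h := a.G.isCompact_U1.eventually_forall_of_forall_eventually (x₀ := f₁)
    (P := fun (g : Pot V M) (x : E) => ∀ t ∈ Icc (0 : ℝ) 1, ∀ k : ℕ, k ≤ 2 →
      ‖iteratedFDeriv ℝ k (a.potL g - a.potL f₁) (x, 0, t)‖ ≤ σ)
    fun x hx => T2L.loc_bd h1 h2 a f₁ hσ (a.G.U1_sub_U hx)
  refine ⟨_, h, fun g hg => T2L.close_of hσ.le (T2L.pot_c2 h1 h2 a g) (T2L.pot_c2 h1 h2 a f₁) ?_⟩
  rintro ⟨x, v, t⟩ hp k hk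
  rw [T2L.shift]
  exact hg x hp _ ⟨Int.fract_nonneg t, (Int.fract_lt_one t).le⟩ k hk

end Pool.Agent.MP_7bf9b2_an

end

section

/-! Bounds on a one-form read in the ambient space. -/

namespace Pool.Agent.MP_7bf9b2_an

open scoped Topology Manifold ContDiff
open Set Filter MeasureTheory Metric

set_option linter.unusedSectionVars false
set_option maxSynthPendingDepth 3

variable {V : Type} [NormedAddCommGroup V] [NormedSpace ℝ V] [FiniteDimensional ℝ V]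
  {M : Type} [TopologicalSpace M] [ChartedSpace V M] [IsManifold 𝓘(ℝ, V) ∞ M]
  {E : Type} [NormedAddCommGroup E] [InnerProductSpace ℝ E] [FiniteDimensional ℝ E]

namespace T3L

/-- rescaling of the velocity -/
noncomputable def sc (E : Type) [NormedAddCommGroup E] [InnerProductSpace ℝ E] (s : ℝ) :
    PP E →L[ℝ] PP E :=
  (ContinuousLinearMap.fst ℝ E (E × ℝ)).prod
    ((s⁻¹ • (ContinuousLinearMap.fst ℝ E ℝ).comp (ContinuousLinearMap.snd ℝ E (E × ℝ))).prod 0)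

theorem sc_apply (s : ℝ) (p : PP E) : sc E s p = (p.1, s⁻¹ • p.2.1, 0) := rfl

theorem norm_sc {s : ℝ} (hs : 1 ≤ s) (p : PP E) : ‖sc E s p‖ ≤ ‖p‖ := by
  rw [sc_apply, Prod.norm_def, Prod.norm_def]
  refine max_le (norm_fst_le p) (max_le ?_ (by simp))
  have h1 : ‖p.2.1‖ ≤ ‖p‖ := (norm_fst_le p.2).trans (norm_snd_le p)
  have h2 : s⁻¹ ≤ 1 := inv_le_one_of_one_le₀ hs
  have h3 : 0 ≤ s⁻¹ := by positivity
  change ‖s⁻¹ • p.2.1‖ ≤ ‖p‖
  rw [norm_smul, Real.norm_of_nonneg h3]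
  nlinarith [norm_nonneg p.2.1]

theorem bound {F : PP E → ℝ} {U K : Set E} (hU : IsOpen U) (hK : IsCompact K) (hKU : K ⊆ U)
    (hF : ContDiffOn ℝ 2 F {p | p.1 ∈ U})
    (hh : ∀ (z v : E) (t s : ℝ), F (z, s • v, t) = s * F (z, v, 0)) :
    ∃ C : ℝ, 0 ≤ C ∧ ∀ p : PP E, p.1 ∈ K → |F p| ≤ C * (1 + ‖p.2.1‖) ∧
      ‖fderiv ℝ F p‖ ≤ C * (1 + ‖p.2.1‖) ∧ ‖D2 F p‖ ≤ C * (1 + ‖p.2.1‖) := by
  have : ProperSpace E := FiniteDimensional.proper_real E
  have hO : IsOpen {p : PP E | p.1 ∈ U} := hU.preimage continuous_fst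
  have hF1 : ContDiffOn ℝ 1 (fderiv ℝ F) {p | p.1 ∈ U} :=
    hF.fderiv_of_isOpen hO (by norm_num)
  have hQ : IsCompact (K ×ˢ (closedBall (0 : E) 1 ×ˢ ({0} : Set ℝ))) :=
    hK.prod ((isCompact_closedBall _ _).prod isCompact_singleton)
  have hQO : K ×ˢ (closedBall (0 : E) 1 ×ˢ ({0} : Set ℝ)) ⊆ {p : PP E | p.1 ∈ U} :=
    fun p hp => hKU hp.1
  obtain ⟨C0, h0⟩ := hQ.exists_bound_of_continuousOn (hF.continuousOn.mono hQO)
  obtain ⟨C1, h1⟩ := hQ.exists_bound_of_continuousOn (hF1.continuousOn.mono hQO)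
  obtain ⟨C2, h2⟩ := hQ.exists_bound_of_continuousOn
    ((hF1.continuousOn_fderiv_of_isOpen hO le_rfl).mono hQO)
  refine ⟨|C0| + |C1| + |C2|, by positivity, fun p hp => ?_⟩
  set s : ℝ := 1 + ‖p.2.1‖ with hs
  have hs1 : 1 ≤ s := by rw [hs]; linarith [norm_nonneg p.2.1]
  have hs0 : 0 < s := by linarith
  have hA : sc E s p ∈ K ×ˢ (closedBall (0 : E) 1 ×ˢ ({0} : Set ℝ)) := by
    refine ⟨hp, ?_, rfl⟩
    change s⁻¹ • p.2.1 ∈ closedBall (0 : E) 1
    rw [mem_closedBall_zero_iff, norm_smul, Real.norm_of_nonneg (by positivity),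
      inv_mul_le_iff₀ hs0]
    linarith
  have hFe : ∀ q : PP E, F q = s * F (sc E s q) := fun q => by
    rw [sc_apply, ← hh q.1 (s⁻¹ • q.2.1) q.2.2 s, smul_smul, mul_inv_cancel₀ hs0.ne', one_smul]
  have hD1 : ∀ q : PP E, q.1 ∈ U →
      fderiv ℝ F q = s • (fderiv ℝ F (sc E s q)).comp (sc E s) := fun q hq => by
    have hd : HasFDerivAt F (fderiv ℝ F (sc E s q)) (sc E s q) :=
      ((hF.contDiffAt (hO.mem_nhds (show sc E s q ∈ {p : PP E | p.1 ∈ U} from hq))).differentiableAt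
        (by norm_num)).hasFDerivAt
    have := (hd.comp q (sc E s).hasFDerivAt).const_mul s
    have e : (fun y => s * (F ∘ sc E s) y) = F := funext fun y => (hFe y).symm
    rw [e] at this
    exact this.fderiv
  have hpU : p.1 ∈ U := hKU hp
  have hD2 : ∀ a b : PP E, D2 F p a b = s * D2 F (sc E s p) (sc E s a) (sc E s b) := by
    intro a b
    have hd : HasFDerivAt (fderiv ℝ F) (D2 F (sc E s p)) (sc E s p) :=
      ((hF1.contDiffAt (hO.mem_nhds (show sc E s p ∈ {p : PP E | p.1 ∈ U} from hpU))).differentiableAt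
        (by norm_num)).hasFDerivAt
    let Ψ : (PP E →L[ℝ] ℝ) →L[ℝ] (PP E →L[ℝ] ℝ) :=
      s • (ContinuousLinearMap.compL ℝ (PP E) (PP E) ℝ).flip (sc E s)
    have h3 := Ψ.hasFDerivAt.comp p (hd.comp p (sc E s).hasFDerivAt)
    have e : fderiv ℝ F =ᶠ[𝓝 p] Ψ ∘ fderiv ℝ F ∘ sc E s := by
      filter_upwards [hO.mem_nhds (show p ∈ {p : PP E | p.1 ∈ U} from hpU)] with q hq
      exact hD1 q hq
    have h4 : D2 F p = Ψ.comp ((D2 F (sc E s p)).comp (sc E s)) := (h3.congr_of_eventuallyEq e).fderiv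
    rw [h4]
    rfl
  have a0 := abs_nonneg C0
  have a1 := abs_nonneg C1
  have a2 := abs_nonneg C2
  refine ⟨?_, ?_, ?_⟩
  · have := (h0 _ hA).trans (le_abs_self C0)
    rw [hFe p, abs_mul, abs_of_pos hs0, mul_comm]
    rw [Real.norm_eq_abs] at this
    exact mul_le_mul_of_nonneg_right (by linarith) hs0.le
  · have h5 := (h1 _ hA).trans (le_abs_self C1)
    refine ContinuousLinearMap.opNorm_le_bound _ (by positivity) fun a => ?_
    rw [hD1 p hpU]
    change ‖s • fderiv ℝ F (sc E s p) (sc E s a)‖ ≤ _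
    rw [norm_smul, Real.norm_of_nonneg hs0.le]
    have h6 : ‖fderiv ℝ F (sc E s p) (sc E s a)‖ ≤ (|C0| + |C1| + |C2|) * ‖a‖ :=
      ((fderiv ℝ F (sc E s p)).le_opNorm _).trans
        (mul_le_mul (by linarith) (norm_sc hs1 a) (norm_nonneg _) (by positivity))
    calc s * ‖fderiv ℝ F (sc E s p) (sc E s a)‖ ≤ s * ((|C0| + |C1| + |C2|) * ‖a‖) :=
          mul_le_mul_of_nonneg_left h6 hs0.le
      _ = _ := by ring
  · have h5 : ‖D2 F (sc E s p)‖ ≤ |C2| := (h2 _ hA).trans (le_abs_self C2)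
    refine ContinuousLinearMap.opNorm_le_bound₂ _ (by positivity) fun a b => ?_
    rw [hD2, norm_mul, Real.norm_of_nonneg hs0.le]
    have h6 : ‖D2 F (sc E s p) (sc E s a) (sc E s b)‖ ≤ (|C0| + |C1| + |C2|) * ‖a‖ * ‖b‖ :=
      ((D2 F (sc E s p)).le_opNorm₂ _ _).trans
        (mul_le_mul (mul_le_mul (by linarith) (norm_sc hs1 a) (norm_nonneg _) (by positivity))
          (norm_sc hs1 b) (norm_nonneg _) (by positivity))
    calc s * ‖D2 F (sc E s p) (sc E s a) (sc E s b)‖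
        ≤ s * ((|C0| + |C1| + |C2|) * ‖a‖ * ‖b‖) := mul_le_mul_of_nonneg_left h6 hs0.le
      _ = _ := by ring

end T3L

theorem t3 (h2 : Ch2Stmt V M E) : T3Stmt V M E := by
  intro a η hη
  have hF : ContDiffOn ℝ 2 (a.formL η) a.G.Om := h2.c2 a (F := fun p => η p.1) hη.smooth
  refine ⟨hF, ?_⟩
  obtain ⟨C, hC, h⟩ := T3L.bound a.G.isOpen_U a.G.isCompact_U1 a.G.U1_sub_U hF fun z v t s => by
    change η (tv (a.pr z) (mfderiv 𝓘(ℝ, E) 𝓘(ℝ, V) a.pr z (s • v))) =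
      s * η (tv (a.pr z) (mfderiv 𝓘(ℝ, E) 𝓘(ℝ, V) a.pr z v))
    have e : mfderiv 𝓘(ℝ, E) 𝓘(ℝ, V) a.pr z (s • v) = s • mfderiv 𝓘(ℝ, E) 𝓘(ℝ, V) a.pr z v :=
      (mfderiv 𝓘(ℝ, E) 𝓘(ℝ, V) a.pr z).map_smul s v
    rw [e]
    exact (hη.linear (a.pr z)).map_smul s _
  have e1 : fderiv ℝ (fun _ : PP E => (0 : ℝ)) = fun _ => 0 := by
    funext p; exact fderiv_const_apply _
  refine ⟨C, hC, fun p hp => ?_, fun p hp => ?_, fun p hp => ?_⟩
  · rw [sub_zero]; exact (h p hp).1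
  · rw [e1, sub_zero]; exact (h p hp).2.1
  · have e2 : D2 (fun _ : PP E => (0 : ℝ)) p = 0 := by
      unfold D2; rw [e1]; exact fderiv_const_apply _
    rw [e2, sub_zero]; exact (h p hp).2.2

end Pool.Agent.MP_7bf9b2_an

end

section

/-!
Adding a potential and closed forms preserves Tonelli Lagrangians.
-/

set_option maxSynthPendingDepth 3

namespace Pool.Agent.MP_7bf9b2_an

open scoped Topology Manifold ContDiff
open Set Filter MeasureTheory Metric

variable {V : Type} [NormedAddCommGroup V] [NormedSpace ℝ V] [FiniteDimensional ℝ V]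
  {M : Type} [TopologicalSpace M] [ChartedSpace V M] [IsManifold 𝓘(ℝ, V) ∞ M]
  {E : Type} [NormedAddCommGroup E] [InnerProductSpace ℝ E] [FiniteDimensional ℝ E]

namespace TonFL

omit [FiniteDimensional ℝ V] in
theorem pot (f : Pot V M) : IsC2 fun p : TB V M × ℝ => f.toFun (p.1.proj, cl p.2) := by
  have h1 : ContMDiff (𝓘(ℝ, V).tangent.prod 𝓘(ℝ, ℝ)) (𝓘(ℝ, V).prod 𝓘(ℝ, ℝ)) 2
      fun p : TB V M × ℝ => (p.1.proj, p.2) :=
    ((Bundle.contMDiff_proj (TangentSpace 𝓘(ℝ, V) : M → Type)).comp contMDiff_fst).prodMk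
      contMDiff_snd
  exact f.smooth.comp h1

omit [FiniteDimensional ℝ V] in
theorem lin {m : ℕ} {η : Fin m → TB V M → ℝ} (c : Fin m → ℝ) (h : ∀ i, IsClosedForm (η i))
    (x : M) : IsLinearMap ℝ fun v : V => ∑ i, c i * η i (tv x v) := by
  constructor
  · intro v w
    rw [← Finset.sum_add_distrib]
    refine Finset.sum_congr rfl fun i _ => ?_
    rw [((h i).linear x).map_add, mul_add]
  · intro s v
    rw [smul_eq_mul, Finset.mul_sum]
    refine Finset.sum_congr rfl fun i _ => ?_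
    rw [((h i).linear x).map_smul, smul_eq_mul]
    ring

theorem d2 {g : ℝ → ℝ} (hg : ContDiff ℝ 2 g) (A B : ℝ) :
    iteratedDeriv 2 (fun s => g s + (A + s * B)) 0 = iteratedDeriv 2 g 0 := by
  have h1 : ContDiff ℝ 2 fun s : ℝ => A + s * B := by fun_prop
  have h2 := iteratedDeriv_add (n := 2) (x := (0 : ℝ)) hg.contDiffAt h1.contDiffAt
  have h3 : deriv (fun s : ℝ => A + s * B) = fun _ => B := by
    funext s
    simp
  have h4 : iteratedDeriv 2 (fun s : ℝ => A + s * B) 0 = 0 := by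
    rw [iteratedDeriv_succ, iteratedDeriv_one, h3, deriv_const]
  rw [h4, add_zero] at h2
  exact h2

theorem sup {g ℓ : V → ℝ} (hℓ : IsLinearMap ℝ ℓ) (a : ℝ)
    (hg : Tendsto (fun v => g v / ‖v‖) (cocompact V) atTop) :
    Tendsto (fun v => (g v + a - ℓ v) / ‖v‖) (cocompact V) atTop := by
  have : ProperSpace V := FiniteDimensional.proper_real V
  set T : V →L[ℝ] ℝ := LinearMap.toContinuousLinearMap (IsLinearMap.mk' ℓ hℓ)
  have h1 : ∀ᶠ v in cocompact V, -(|a| + ‖T‖) ≤ (a - ℓ v) / ‖v‖ := by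
    filter_upwards [(tendsto_norm_cocompact_atTop (E := V)).eventually_ge_atTop 1] with v hv
    have h2 : |ℓ v| ≤ ‖T‖ * ‖v‖ := T.le_opNorm v
    rw [le_div_iff₀ (by linarith)]
    have h3 := le_abs_self (ℓ v)
    have h4 := neg_abs_le a
    have h5 := mul_le_mul_of_nonneg_left hv (abs_nonneg a)
    linarith
  refine (tendsto_atTop_add_right_of_le' _ _ hg h1).congr fun v => ?_
  ring

end TonFL

theorem tonf (h1 : Ch1Stmt V M) : TonFStmt V M := by
  intro L f m η c hL hη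
  have hs : IsC2 fun p : TB V M × ℝ => lagf L f (p.1, cl p.2) :=
    ContMDiff.add hL.smooth (TonFL.pot f)
  refine ⟨⟨?_, ?_, ?_⟩, hs⟩
  · have h2 : IsC2 fun p : TB V M × ℝ => ∑ i, c i * η i p.1 :=
      contMDiff_finset_sum fun i _ => ContMDiff.mul contMDiff_const (hη i).smooth
    exact ContMDiff.sub hs h2
  · intro x v w t hw
    obtain ⟨τ, rfl⟩ : ∃ τ : ℝ, cl τ = t := QuotientAddGroup.mk_surjective t
    have h2 : ContDiff ℝ 2 fun s : ℝ => L (tv x (v + s • w), cl τ) :=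
      (h1.fib hL.smooth x τ).comp (by fun_prop : ContDiff ℝ 2 fun s : ℝ => v + s • w)
    have h3 : (fun s : ℝ => lagr L f η c (tv x (v + s • w), cl τ))
        = fun s : ℝ => L (tv x (v + s • w), cl τ) + (f.toFun (x, cl τ)
          - ∑ i, c i * η i (tv x v) + s * -(∑ i, c i * η i (tv x w))) := by
      funext s
      have h4 := (TonFL.lin c hη x).map_add v (s • w)
      have h5 := (TonFL.lin c hη x).map_smul s w
      rw [smul_eq_mul] at h5
      change L _ + f.toFun (x, cl τ) - ∑ i, c i * η i (tv x (v + s • w)) = _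
      linarith
    rw [h3, TonFL.d2 h2]
    exact hL.convex x v w _ hw
  · intro x t
    exact TonFL.sup (TonFL.lin c hη x) (f.toFun (x, t)) (hL.superlinear x t)

end Pool.Agent.MP_7bf9b2_an

end

section

namespace Pool.Agent.MP_7bf9b2_an

open scoped Topology Manifold ContDiff
open Set Filter

variable {V : Type} [NormedAddCommGroup V] [NormedSpace ℝ V] [FiniteDimensional ℝ V]
  {M : Type} [TopologicalSpace M] [T2Space M] [CompactSpace M] [ConnectedSpace M]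
  [ChartedSpace V M] [IsManifold 𝓘(ℝ, V) ∞ M] [MeasurableSpace (TT V M)] [BorelSpace (TT V M)]

theorem mlAll {L : TT V M → ℝ} (hL : IsTonelli L)
    {m : ℕ} {η : Fin m → TB V M → ℝ} (hη : ∀ i, IsClosedForm (η i)) (f : Pot V M)
    (c : Fin m → ℝ) (Φ : Flow ℝ (TT V M)) (hΦ : IsEL (lagf L f) Φ) :
    ∀ N ∈ 𝓝 f, ∃ f₁ ∈ N, ∃ N₁ ∈ 𝓝 f₁, ∃ δ > 0, ∀ f' ∈ N₁, ∀ c' : Fin m → ℝ, dist c' c < δ →
      ∀ Φ' : Flow ℝ (TT V M), IsEL (lagf L f') Φ' → UniqPer Φ' (lagr L f' η c') := by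
  obtain ⟨N, ⟨a⟩⟩ := retr (V := V) (M := M) fun _ => retr1
  exact ml (alag1 ch1 (ch2 ch1)) (alag2 ch1 (ch2 ch1)) supS (ch2 ch1)
    (afl ch1 (ch2 ch1) (ael ch1 (ch2 ch1) elcore)) (tonf ch1) (elf ch1) (t1 ch1)
    (t4 (tonf ch1) (alag1 ch1 (ch2 ch1)) (t2S ch1 (ch2 ch1)) (t3 (ch2 ch1))) amAll msAll a hL hη
    f c Φ hΦ

theorem mainC2 (L : TT V M → ℝ) (hL : IsTonelli L) (m : ℕ) (η : Fin m → TB V M → ℝ)
    (hη : ∀ i, IsClosedForm (η i)) :
    ∃ O ∈ residual (Pot V M), ∀ f ∈ O, ∀ Φ : Flow ℝ (TT V M),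
      IsEL (fun z => L z + f.toFun (z.1.proj, z.2)) Φ →
      ∃ U : Set (Fin m → ℝ), IsOpen U ∧ Dense U ∧ ∀ c ∈ U,
        UniqPer Φ fun z => L z + f.toFun (z.1.proj, z.2) - ∑ i, c i * η i z.1 := by
  obtain ⟨O, hO, h⟩ := fin_baire
    (fun (f : Pot V M) (c : Fin m → ℝ) => ∀ Φ : Flow ℝ (TT V M), IsEL (lagf L f) Φ →
      UniqPer Φ (lagr L f η c))
    (fun f => ∃ Φ : Flow ℝ (TT V M), IsEL (lagf L f) Φ)
    (fun f c ⟨Φ, hΦ⟩ => mlAll hL hη f c Φ hΦ)
  refine ⟨O, hO, fun f hf Φ hΦ => ?_⟩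
  obtain ⟨U, h1, h2, h3⟩ := h f hf ⟨Φ, hΦ⟩
  exact ⟨U, h1, h2, fun c hc => h3 c hc Φ hΦ⟩

end Pool.Agent.MP_7bf9b2_an

end
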